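import Pool.Agent.Lib_MP_b9fedf_og.AlgInd

/-! [CI-C16]: algebraically independent vectors near a rational one. -/

set_option autoImplicit false

namespace Pool.Agent.CI
open Topology

/-- [CI-C16] Proof.  `a = q + a₁ / m` with `a₁` algebraically independent (`OG.exists_algInd`) and a large natural number `m`. -/
theorem alg_near {E : Type} [Fintype E] (q : E → ℚ) (V : Set (E → ℂ))
    (hV : V ∈ 𝓝 (fun i => (q i : ℂ))) : ∃ a ∈ V, AlgebraicIndependent ℚ a := by
  obtain ⟨a₁, ha₁⟩ := Pool.Agent.OG.exists_algInd E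
  set f : ℂ → E → ℂ := fun t i => (q i : ℂ) + a₁ i * t with hf
  have hfc : Continuous f := by
    rw [hf]
    fun_prop
  have hf0 : f 0 = fun i => (q i : ℂ) := by
    funext i
    simp [hf]
  have h1 : Filter.Tendsto f (𝓝 0) (𝓝 (fun i => (q i : ℂ))) := by
    rw [← hf0]
    exact hfc.tendsto 0
  have h2 : Filter.Tendsto (fun m : ℕ => 1 / ((m : ℂ) + 1)) Filter.atTop (𝓝 0) :=
    tendsto_one_div_add_atTop_nhds_zero_nat (𝕜 := ℂ)
  obtain ⟨m, hm⟩ := ((h1.comp h2).eventually hV).exists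
  refine ⟨f (1 / ((m : ℂ) + 1)), hm, ?_⟩
  have hm0 : (m : ℚ) + 1 ≠ 0 := by positivity
  set φ : MvPolynomial E ℚ →ₐ[ℚ] MvPolynomial E ℚ := MvPolynomial.aeval
    (fun i => MvPolynomial.C (q i) + MvPolynomial.C (1 / ((m : ℚ) + 1)) * MvPolynomial.X i) with hφ
  set ψ : MvPolynomial E ℚ →ₐ[ℚ] MvPolynomial E ℚ := MvPolynomial.aeval
    (fun i => MvPolynomial.C ((m : ℚ) + 1) * (MvPolynomial.X i - MvPolynomial.C (q i))) with hψ
  have h3 : ψ.comp φ = AlgHom.id ℚ _ := by
    apply MvPolynomial.algHom_ext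
    intro i
    rw [AlgHom.comp_apply, AlgHom.id_apply, hφ, MvPolynomial.aeval_X, map_add, map_mul,
      MvPolynomial.algHom_C, MvPolynomial.algHom_C, hψ, MvPolynomial.aeval_X]
    rw [MvPolynomial.algebraMap_eq, ← mul_assoc, ← MvPolynomial.C_mul, one_div,
      inv_mul_cancel₀ hm0, MvPolynomial.C_1, one_mul]
    ring
  have h4 : MvPolynomial.aeval (f (1 / ((m : ℂ) + 1))) =
      (MvPolynomial.aeval a₁ : MvPolynomial E ℚ →ₐ[ℚ] ℂ).comp φ := by
    apply MvPolynomial.algHom_ext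
    intro i
    rw [AlgHom.comp_apply, hφ, MvPolynomial.aeval_X, MvPolynomial.aeval_X, map_add, map_mul,
      MvPolynomial.algHom_C, MvPolynomial.algHom_C, MvPolynomial.aeval_X]
    simp [hf]
    ring
  have h5 : Function.Injective φ := by
    intro x y hxy
    have h6 := congrArg ψ hxy
    have h7 : ∀ x, ψ (φ x) = x := fun x => DFunLike.congr_fun h3 x
    rw [h7, h7] at h6
    exact h6
  have h8 : Function.Injective (MvPolynomial.aeval a₁ : MvPolynomial E ℚ →ₐ[ℚ] ℂ) := ha₁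
  have h9 : Function.Injective
      (MvPolynomial.aeval (f (1 / ((m : ℂ) + 1))) : MvPolynomial E ℚ →ₐ[ℚ] ℂ) := by
    rw [h4]
    exact h8.comp h5
  exact h9

end Pool.Agent.CI
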