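import Pool.Agent.Lib_MP_b9fedf_ci.PtDefs

/-! [CI-C10]: arcs through the base points. -/

set_option autoImplicit false

namespace Pool.Agent.CI
open MvPolynomial Filter Topology Pool.Agent.GGL Pool.Agent.GH

variable {κ : Type} [Fintype κ] [DecidableEq κ] {n N : ℕ}

private theorem eval_vd (x : Fin (n + 1) → ℂ) (t : ℕ) : eval x (vd ℂ n t) = ∑ j : Fin (n + 1), (t : ℂ) ^ (j : ℕ) * x j := by
  unfold vd
  rw [map_sum]
  exact Finset.sum_congr rfl fun j _ => by rw [map_mul, eval_C, eval_X]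

private theorem vb_split (s : κ → ℕ → ℕ) (d : κ → ℕ) {θ : κ → ℕ} (hθ : ∀ i, θ i < d i) (i : κ) :
    vb ℂ n s d i = vd ℂ n (s i (θ i)) * ∏ t ∈ (Finset.range (d i)).erase (θ i), vd ℂ n (s i t) := by
  unfold vb
  exact (Finset.mul_prod_erase _ (fun t => vd ℂ n (s i t)) (Finset.mem_range.2 (hθ i))).symm

private theorem rest_ne (e : Fin (n + 1) ⊕ κ ≃ Fin (N + 1)) (s : κ → ℕ → ℕ) (d : κ → ℕ) {J : Finset κ}
    {θ : κ → ℕ} {z : Fin (N + 1) → ℂ} (hz : IsPt e s d J θ z) (i : κ) (hi : i ∈ J) :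
    eval (xp e z) (∏ t ∈ (Finset.range (d i)).erase (θ i), vd ℂ n (s i t)) ≠ 0 := by
  rw [map_prod, Finset.prod_ne_zero_iff]
  intro t ht
  exact hz.other i hi t (Finset.ne_of_mem_erase ht)

private theorem dv_mul_zero (A R : MvPolynomial (Fin (n + 1)) ℂ) (x v : Fin (n + 1) → ℂ) (h : eval x A = 0) :
    dv (A * R) x v = eval x R * dv A x v := by
  unfold dv
  rw [Finset.mul_sum]
  refine Finset.sum_congr rfl fun j _ => ?_
  rw [pderiv_mul, map_add, map_mul, map_mul, h]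
  ring

private theorem dv_vd (t : ℕ) (x v : Fin (n + 1) → ℂ) : dv (vd ℂ n t) x v = eval v (vd ℂ n t) := by
  rw [eval_vd]
  unfold dv
  refine Finset.sum_congr rfl fun j _ => ?_
  congr 1
  unfold vd
  rw [map_sum, map_sum, Finset.sum_eq_single j]
  · rw [pderiv_C_mul, pderiv_X_self, mul_one, eval_C]
  · intro b _ hb
    rw [pderiv_C_mul, pderiv_X_of_ne hb, mul_zero, map_zero]
  · intro h
    exact absurd (Finset.mem_univ j) h

/-- [CI-C10a] the derivative of `b_i` at a base point: only the factor `θ i` vanishes -/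
theorem dv_vb (e : Fin (n + 1) ⊕ κ ≃ Fin (N + 1)) (s : κ → ℕ → ℕ) (d : κ → ℕ) {J : Finset κ}
    {θ : κ → ℕ} (hθ : ∀ i, θ i < d i) {z : Fin (N + 1) → ℂ} (hz : IsPt e s d J θ z) (i : κ)
    (hi : i ∈ J) : ∃ c : ℂ, c ≠ 0 ∧ ∀ v, dv (vb ℂ n s d i) (xp e z) v =
      c * eval v (vd ℂ n (s i (θ i))) := by
  refine ⟨_, rest_ne e s d hz i hi, fun v => ?_⟩
  rw [vb_split s d hθ i, dv_mul_zero _ _ _ _ (hz.zero i hi), dv_vd]

/-- the dual vectors (Lagrange interpolation) -/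
private theorem exists_dual (s : κ → ℕ → ℕ) (hs : Codes s) {J : Finset κ} (hJ : J.card = n) (θ : κ → ℕ) :
    ∃ ξ : κ → Fin (n + 1) → ℂ, ∀ i ∈ J, ∀ i' ∈ J,
      eval (ξ i') (vd ℂ n (s i (θ i))) = if i = i' then 1 else 0 := by
  refine ⟨fun i' j => (Lagrange.basis J (fun i => ((s i (θ i) : ℕ) : ℂ)) i').coeff j, ?_⟩
  intro i hi i' hi'
  have hinj : Set.InjOn (fun i => ((s i (θ i) : ℕ) : ℂ)) (J : Set κ) := by
    intro a _ b _ hab
    have h1 : ((s a (θ a) : ℕ) : ℂ) = ((s b (θ b) : ℕ) : ℂ) := hab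
    have h2 : s a (θ a) = s b (θ b) := by exact_mod_cast h1
    exact (hs _ _ _ _ h2).1
  have hdeg : (Lagrange.basis J (fun i => ((s i (θ i) : ℕ) : ℂ)) i').natDegree < n + 1 := by
    have h1 := Lagrange.degree_basis hinj hi'
    have h2 := Polynomial.natDegree_eq_of_degree_eq_some h1
    rw [h2, hJ]
    omega
  rw [eval_vd]
  have h3 := Polynomial.eval_eq_sum_range' hdeg ((s i (θ i) : ℕ) : ℂ)
  rw [Finset.sum_range] at h3
  have h4 : ∑ j : Fin (n + 1), ((s i (θ i) : ℕ) : ℂ) ^ (j : ℕ) *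
      (Lagrange.basis J (fun i => ((s i (θ i) : ℕ) : ℂ)) i').coeff j =
      Polynomial.eval ((s i (θ i) : ℕ) : ℂ) (Lagrange.basis J (fun i => ((s i (θ i) : ℕ) : ℂ)) i') := by
    rw [h3]
    exact Finset.sum_congr rfl fun j _ => mul_comm _ _
  rw [h4]
  by_cases h : i = i'
  · subst h
    rw [if_pos rfl]
    exact Lagrange.eval_basis_self hinj hi
  · rw [if_neg h]
    exact Lagrange.eval_basis_of_ne (F := ℂ) (s := J) (v := fun i => ((s i (θ i) : ℕ) : ℂ)) (Ne.symm h) hi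

private theorem tendsto_eval (P : MvPolynomial (Fin (n + 1)) ℂ) {x : ℝ → Fin (n + 1) → ℂ} {p : Fin (n + 1) → ℂ}
    {F : Filter ℝ} (h : Tendsto x F (𝓝 p)) : Tendsto (fun τ => eval (x τ) P) F (𝓝 (eval p P)) :=
  ((MvPolynomial.continuous_eval P).tendsto p).comp h

private theorem tendsto_dv (P : MvPolynomial (Fin (n + 1)) ℂ) {x : ℝ → Fin (n + 1) → ℂ} {p : Fin (n + 1) → ℂ}
    {F : Filter ℝ} (h : Tendsto x F (𝓝 p)) (v : Fin (n + 1) → ℂ) :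
    Tendsto (fun τ => dv P (x τ) v) F (𝓝 (dv P p v)) := by
  unfold dv
  exact tendsto_finset_sum _ fun j _ => (tendsto_eval _ h).mul_const _

private theorem tendsto_root {ρ : ℝ → ℂ} {F : Filter ℝ} (h : Tendsto ρ F (𝓝 1)) (d : ℕ) :
    Tendsto (fun τ => ρ τ ^ ((d : ℂ)⁻¹)) F (𝓝 1) := by
  have h1 : ContinuousAt (fun x : ℂ => x ^ ((d : ℂ)⁻¹)) 1 := continuousAt_cpow_const Complex.one_mem_slitPlane
  have h2 : Tendsto (fun x : ℂ => x ^ ((d : ℂ)⁻¹)) (𝓝 1) (𝓝 1) := by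
    have h3 := h1.tendsto
    rwa [Complex.one_cpow] at h3
  exact h2.comp h

/-- [CI-C10b] Proof.  The `n` forms `vd (s i (θ i))`, `i ∈ J`, are linearly independent, so there are `ξ_i ∈ ℂ ^ (n + 1)` with `vd (s i (θ i)) (ξ_i') = δ_ii'`.  `p = xp e z`,
`u_i = σ_i ^ d_i / ∏ t ≠ θ i, vd (s i t) (p)`, `x(τ) = p + ∑ i ∈ J, τ ^ d_i u_i ξ_i`.  Then `b_i(x(τ)) = τ ^ d_i σ_i ^ d_i ρ` with `ρ = ∏ t ≠ θ i, vd (s i t)(x(τ)) / vd (s i t)(p) → 1` for `i ∈ J`, and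
`b_i(x(τ)) = z_i ^ d_i ρ`, `ρ → 1` for `i ∉ J`.  `y_i = τ σ_i ρ ^ (1 / d_i)`, `y_i = z_i ρ ^ (1 / d_i)` (`Complex.cpow`, continuous at `1`).  `v` constant,
`w_i = Db_i(x, v) / (d_i y_i ^ (d_i - 1))`.  `inc_spf`. -/
theorem exists_arc (e : Fin (n + 1) ⊕ κ ≃ Fin (N + 1)) (s : κ → ℕ → ℕ) (hs : Codes s)
    (d : κ → ℕ) (hd : ∀ i, 2 ≤ d i) {J : Finset κ} (hJ : J.card = n) {θ : κ → ℕ}
    (hθ : ∀ i, θ i < d i) {z : Fin (N + 1) → ℂ} (hz : IsPt e s d J θ z) (σ : κ → ℂ)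
    (hσ : ∀ i, σ i ≠ 0) (v : Fin (n + 1) → ℂ) :
    ∃ x w : ℝ → Fin (N + 1) → ℂ, IsArc e s d J z σ v x w := by
  obtain ⟨ξ, hξ⟩ := exists_dual s hs hJ θ
  -- the remaining factors
  obtain ⟨R, hR⟩ : ∃ R : κ → MvPolynomial (Fin (n + 1)) ℂ, ∀ i, R i =
      ∏ t ∈ (Finset.range (d i)).erase (θ i), vd ℂ n (s i t) := ⟨_, fun _ => rfl⟩
  have hR0 : ∀ i ∈ J, eval (xp e z) (R i) ≠ 0 := fun i hi => by
    rw [hR]
    exact rest_ne e s d hz i hi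
  have hvb : ∀ i, vb ℂ n s d i = vd ℂ n (s i (θ i)) * R i := fun i => by
    rw [hR]
    exact vb_split s d hθ i
  obtain ⟨u, hu⟩ : ∃ u : κ → ℂ, ∀ i, u i = σ i ^ d i / eval (xp e z) (R i) := ⟨_, fun _ => rfl⟩
  obtain ⟨X0, hX0⟩ : ∃ X0 : ℝ → Fin (n + 1) → ℂ, ∀ τ, X0 τ = xp e z + ∑ i ∈ J, ((τ : ℂ) ^ d i * u i) • ξ i :=
    ⟨_, fun _ => rfl⟩
  have htau : Tendsto (fun τ : ℝ => (τ : ℂ)) (𝓝[>] (0 : ℝ)) (𝓝 0) := by
    have h1 : Tendsto (fun τ : ℝ => (τ : ℂ)) (𝓝 0) (𝓝 ((0 : ℝ) : ℂ)) := Complex.continuous_ofReal.tendsto 0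
    rw [Complex.ofReal_zero] at h1
    exact h1.mono_left nhdsWithin_le_nhds
  have hXt : Tendsto X0 (𝓝[>] (0 : ℝ)) (𝓝 (xp e z)) := by
    have h1 : Tendsto (fun τ : ℝ => xp e z + ∑ i ∈ J, ((τ : ℂ) ^ d i * u i) • ξ i) (𝓝[>] (0 : ℝ))
        (𝓝 (xp e z + ∑ i ∈ J, ((0 : ℂ) ^ d i * u i) • ξ i)) :=
      tendsto_const_nhds.add (tendsto_finset_sum _ fun i _ => ((htau.pow _).mul_const _).smul_const _)
    have h2 : xp e z + ∑ i ∈ J, ((0 : ℂ) ^ d i * u i) • ξ i = xp e z := by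
      rw [Finset.sum_eq_zero, add_zero]
      intro i _
      rw [zero_pow (by have := hd i; omega), zero_mul, zero_smul]
    rw [h2] at h1
    exact h1.congr fun τ => (hX0 τ).symm
  -- the value of the factor which vanishes
  have hfac : ∀ i ∈ J, ∀ τ, eval (X0 τ) (vd ℂ n (s i (θ i))) = (τ : ℂ) ^ d i * u i := by
    intro i hi τ
    have h0 := hz.zero i hi
    rw [eval_vd] at h0
    rw [hX0, eval_vd]
    have h1 : ∑ j : Fin (n + 1), ((s i (θ i) : ℕ) : ℂ) ^ (j : ℕ) *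
        (xp e z + ∑ i' ∈ J, ((τ : ℂ) ^ d i' * u i') • ξ i') j =
        ∑ j : Fin (n + 1), ((s i (θ i) : ℕ) : ℂ) ^ (j : ℕ) * xp e z j +
        ∑ i' ∈ J, ((τ : ℂ) ^ d i' * u i') * ∑ j : Fin (n + 1), ((s i (θ i) : ℕ) : ℂ) ^ (j : ℕ) * ξ i' j := by
      simp only [Pi.add_apply, Finset.sum_apply, Pi.smul_apply, smul_eq_mul, mul_add, Finset.sum_add_distrib,
        Finset.mul_sum]
      congr 1
      rw [Finset.sum_comm]
      refine Finset.sum_congr rfl fun i' _ => Finset.sum_congr rfl fun j _ => ?_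
      ring
    rw [h1, h0, zero_add, Finset.sum_eq_single i]
    · have h2 := hξ i hi i hi
      rw [eval_vd, if_pos rfl] at h2
      rw [h2, mul_one]
    · intro b hb hbi
      have h2 := hξ i hi b hb
      rw [eval_vd, if_neg (Ne.symm hbi)] at h2
      rw [h2, mul_zero]
    · intro h
      exact absurd hi h
  -- the base value of `y_i` and the quotient `ρ_i`
  obtain ⟨y0, hy0⟩ : ∃ y0 : κ → ℝ → ℂ, ∀ i τ, y0 i τ = if i ∈ J then (τ : ℂ) * σ i else z (e (Sum.inr i)) :=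
    ⟨_, fun _ _ => rfl⟩
  obtain ⟨ρ, hρ⟩ : ∃ ρ : κ → ℝ → ℂ, ∀ i τ, ρ i τ = eval (X0 τ) (vb ℂ n s d i) / y0 i τ ^ d i := ⟨_, fun _ _ => rfl⟩
  have hpos : ∀ᶠ τ : ℝ in 𝓝[>] (0 : ℝ), (τ : ℂ) ≠ 0 := by
    filter_upwards [self_mem_nhdsWithin] with τ hτ
    exact Complex.ofReal_ne_zero.2 (ne_of_gt hτ)
  have hρ1 : ∀ i, Tendsto (ρ i) (𝓝[>] (0 : ℝ)) (𝓝 1) := by
    intro i
    by_cases hi : i ∈ J
    · have h1 : Tendsto (fun τ => eval (X0 τ) (R i) / eval (xp e z) (R i)) (𝓝[>] (0 : ℝ)) (𝓝 1) := by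
        have h2 := (tendsto_eval (R i) hXt).div_const (eval (xp e z) (R i))
        rwa [div_self (hR0 i hi)] at h2
      refine h1.congr' ?_
      filter_upwards [hpos] with τ hτ
      rw [hρ, hy0, if_pos hi, hvb, map_mul, hfac i hi, hu]
      have h3 := hR0 i hi
      have h4 := hσ i
      field_simp
      rw [mul_pow]
      ring
    · have h1 := (tendsto_eval (vb ℂ n s d i) hXt).div_const (z (e (Sum.inr i)) ^ d i)
      rw [← (hz.y1 i hi).1, div_self (pow_ne_zero _ (hz.y1 i hi).2)] at h1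
      refine h1.congr fun τ => ?_
      rw [hρ, hy0, if_neg hi]
  have hr : ∀ i, Tendsto (fun τ => ρ i τ ^ ((d i : ℂ)⁻¹)) (𝓝[>] (0 : ℝ)) (𝓝 1) := fun i => tendsto_root (hρ1 i) (d i)
  obtain ⟨r, hrr⟩ : ∃ r : κ → ℝ → ℂ, ∀ i τ, r i τ = ρ i τ ^ ((d i : ℂ)⁻¹) := ⟨_, fun _ _ => rfl⟩
  have hr1 : ∀ i, Tendsto (r i) (𝓝[>] (0 : ℝ)) (𝓝 1) := fun i => (hr i).congr fun τ => (hrr i τ).symm
  have hrp : ∀ i τ, r i τ ^ d i = ρ i τ := by
    intro i τ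
    rw [hrr]
    exact Complex.cpow_nat_inv_pow _ (by have := hd i; omega)
  have hrne : ∀ᶠ τ in 𝓝[>] (0 : ℝ), ∀ i, r i τ ≠ 0 := by
    rw [eventually_all]
    intro i
    exact (hr1 i).eventually_ne one_ne_zero
  have hy0ne : ∀ (i : κ) (τ : ℝ), (τ : ℂ) ≠ 0 → y0 i τ ≠ 0 := by
    intro i τ hτ
    rw [hy0]
    by_cases hi : i ∈ J
    · rw [if_pos hi]
      exact mul_ne_zero hτ (hσ i)
    · rw [if_neg hi]
      exact (hz.y1 i hi).2
  obtain ⟨x, hx⟩ : ∃ x : ℝ → Fin (N + 1) → ℂ, ∀ τ k, x τ k =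
      Sum.elim (X0 τ) (fun i => y0 i τ * r i τ) (e.symm k) := ⟨_, fun _ _ => rfl⟩
  have hxl : ∀ τ j, x τ (e (Sum.inl j)) = X0 τ j := fun τ j => by rw [hx, e.symm_apply_apply, Sum.elim_inl]
  have hxr : ∀ τ i, x τ (e (Sum.inr i)) = y0 i τ * r i τ := fun τ i => by rw [hx, e.symm_apply_apply, Sum.elim_inr]
  obtain ⟨w, hw⟩ : ∃ w : ℝ → Fin (N + 1) → ℂ, ∀ τ k, w τ k =
      Sum.elim v (fun i => dv (vb ℂ n s d i) (X0 τ) v / (d i * (y0 i τ * r i τ) ^ (d i - 1))) (e.symm k) :=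
    ⟨_, fun _ _ => rfl⟩
  have hwl : ∀ τ j, w τ (e (Sum.inl j)) = v j := fun τ j => by rw [hw, e.symm_apply_apply, Sum.elim_inl]
  have hwr : ∀ τ i, w τ (e (Sum.inr i)) = dv (vb ℂ n s d i) (X0 τ) v / (d i * (y0 i τ * r i τ) ^ (d i - 1)) :=
    fun τ i => by rw [hw, e.symm_apply_apply, Sum.elim_inr]
  have hd0 : ∀ i, (d i : ℂ) ≠ 0 := fun i => Nat.cast_ne_zero.2 (by have := hd i; omega)
  refine ⟨x, w, ?_, ?_, ?_, ?_, hwl, ?_, ?_⟩
  · filter_upwards [hpos, hrne] with τ hτ hτr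
    have hne : ∀ i, y0 i τ * r i τ ≠ 0 := fun i => mul_ne_zero (hy0ne i τ hτ) (hτr i)
    refine ⟨?_, fun i => by rw [hxr]; exact hne i⟩
    rw [inc_spf]
    intro i
    have h1 : (fun j => x τ (e (Sum.inl j))) = X0 τ := funext fun j => hxl τ j
    have h2 : (fun j => w τ (e (Sum.inl j))) = v := funext fun j => hwl τ j
    rw [h1, h2, hxr, hwr]
    constructor
    · rw [mul_pow, hrp, hρ]
      exact mul_div_cancel₀ _ (pow_ne_zero _ (hy0ne i τ hτ))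
    · exact mul_div_cancel₀ _ (mul_ne_zero (hd0 i) (pow_ne_zero _ (hne i)))
  · intro j
    have h1 := (tendsto_pi_nhds.1 hXt) j
    exact h1.congr fun τ => (hxl τ j).symm
  · intro i hi
    have h1 : Tendsto (fun τ => σ i * r i τ) (𝓝[>] (0 : ℝ)) (𝓝 (σ i)) := by
      have h2 := (hr1 i).const_mul (σ i)
      rwa [mul_one] at h2
    refine h1.congr' ?_
    filter_upwards [hpos] with τ hτ
    rw [hxr, hy0, if_pos hi]
    field_simp
  · intro i hi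
    have h1 : Tendsto (fun τ => z (e (Sum.inr i)) * r i τ) (𝓝[>] (0 : ℝ)) (𝓝 (z (e (Sum.inr i)))) := by
      have h2 := (hr1 i).const_mul (z (e (Sum.inr i)))
      rwa [mul_one] at h2
    refine h1.congr fun τ => ?_
    rw [hxr, hy0, if_neg hi]
  · intro i hi
    have h1 : Tendsto (fun τ => dv (vb ℂ n s d i) (X0 τ) v / (d i * (σ i * r i τ) ^ (d i - 1))) (𝓝[>] (0 : ℝ))
        (𝓝 (dv (vb ℂ n s d i) (xp e z) v / (d i * σ i ^ (d i - 1)))) := by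
      have h2 : Tendsto (fun τ => (d i : ℂ) * (σ i * r i τ) ^ (d i - 1)) (𝓝[>] (0 : ℝ)) (𝓝 (d i * σ i ^ (d i - 1))) := by
        have h3 := (((hr1 i).const_mul (σ i)).pow (d i - 1)).const_mul (d i : ℂ)
        rwa [mul_one] at h3
      exact (tendsto_dv _ hXt v).div h2 (mul_ne_zero (hd0 i) (pow_ne_zero _ (hσ i)))
    refine h1.congr' ?_
    filter_upwards [hpos, hrne] with τ hτ hτr
    rw [hwr, hy0, if_pos hi]
    have h4 := hσ i
    have h5 := hτr i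
    have h6 := hd0 i
    rw [mul_assoc, mul_pow (τ : ℂ)]
    field_simp
  · intro i hi
    refine ⟨dv (vb ℂ n s d i) (xp e z) v / (d i * z (e (Sum.inr i)) ^ (d i - 1)), ?_⟩
    have h2 : Tendsto (fun τ => (d i : ℂ) * (z (e (Sum.inr i)) * r i τ) ^ (d i - 1)) (𝓝[>] (0 : ℝ))
        (𝓝 (d i * z (e (Sum.inr i)) ^ (d i - 1))) := by
      have h3 := (((hr1 i).const_mul (z (e (Sum.inr i)))).pow (d i - 1)).const_mul (d i : ℂ)
      rwa [mul_one] at h3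
    have h1 := (tendsto_dv (vb ℂ n s d i) hXt v).div h2 (mul_ne_zero (hd0 i) (pow_ne_zero _ (hz.y1 i hi).2))
    refine h1.congr fun τ => ?_
    rw [hwr, hy0, if_neg hi]
    rfl

end Pool.Agent.CI
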