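import Pool.Agent.Lib_MP_b9fedf_ci.Defs

/-! [CI-0]: elementary facts on the definitions. -/

set_option autoImplicit false

namespace Pool.Agent.CI
open MvPolynomial Pool.Agent.GGL Pool.Agent.GH

theorem eval_lf {R : Type} [CommRing R] {N : ℕ} (u x : Fin (N + 1) → R) :
    eval x (lf u) = ∑ j, u j * x j := by
  unfold lf
  rw [map_sum]
  refine Finset.sum_congr rfl fun j _ => ?_
  rw [map_mul, eval_C, eval_X]

theorem lf_hom {R : Type} [CommRing R] {N : ℕ} (u : Fin (N + 1) → R) :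
    (lf u).IsHomogeneous 1 := by
  unfold lf
  exact IsHomogeneous.sum _ _ _ fun j _ => isHomogeneous_C_mul_X (u j) j

theorem map_lf {R S : Type} [CommRing R] [CommRing S] (f : R →+* S) {N : ℕ}
    (u : Fin (N + 1) → R) : MvPolynomial.map f (lf u) = lf (fun j => f (u j)) := by
  unfold lf
  rw [map_sum]
  refine Finset.sum_congr rfl fun j _ => ?_
  rw [map_mul, map_C, map_X]

theorem fa_hom {R : Type} [CommRing R] {N : ℕ} {κ : Type} {d : κ → ℕ} (a : Ix N d → R) (i : κ) :
    (fa a i).IsHomogeneous (d i) := by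
  exact frm_hom _

theorem map_fa {R S : Type} [CommRing R] [CommRing S] (f : R →+* S) {N : ℕ} {κ : Type}
    {d : κ → ℕ} (a : Ix N d → R) (i : κ) :
    MvPolynomial.map f (fa a i) = fa (fun p => f (a p)) i := by
  exact map_frm f _

/-- explicit multipliers -/
theorem inJ_iff {R : Type} [CommRing R] {N : ℕ} {κ : Type} [Fintype κ]
    (F : κ → MvPolynomial (Fin (N + 1)) R) (l : MvPolynomial (Fin (N + 1)) R)
    (G : MvPolynomial (XV N) R) :
    InJ F l G ↔ ∃ c : (κ ⊕ κ) ⊕ Unit → MvPolynomial (XV N) R, ∑ s, c s * gens F l s = G := by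
  unfold InJ
  rw [Ideal.mem_span_range_iff_exists_fun]

/-- `InJ` is preserved by ring homomorphisms (`map_inx`, `map_dif`, `Ideal.map_span`) -/
theorem InJ.map {R S : Type} [CommRing R] [CommRing S] (f : R →+* S) {N : ℕ} {κ : Type}
    {F : κ → MvPolynomial (Fin (N + 1)) R} {l : MvPolynomial (Fin (N + 1)) R}
    {G : MvPolynomial (XV N) R} (h : InJ F l G) :
    InJ (fun i => MvPolynomial.map f (F i)) (MvPolynomial.map f l) (MvPolynomial.map f G) := by
  unfold InJ at h ⊢
  have h1 : MvPolynomial.map f G ∈ Ideal.map (MvPolynomial.map f : MvPolynomial (XV N) R →+* MvPolynomial (XV N) S)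
      (Ideal.span (Set.range (gens F l))) := Ideal.mem_map_of_mem _ h
  rw [Ideal.map_span, ← Set.range_comp] at h1
  have h2 : (MvPolynomial.map f : MvPolynomial (XV N) R →+* MvPolynomial (XV N) S) ∘ gens F l =
      gens (fun i => MvPolynomial.map f (F i)) (MvPolynomial.map f l) := by
    funext s
    rcases s with (i | i) | i
    · exact map_inx f (F i)
    · exact map_dif f (F i)
    · exact map_inx f l
  rw [← h2]
  exact h1

/-- a larger family -/
theorem InJ.mono {R : Type} [CommRing R] {N : ℕ} {κ κ' : Type} (e : κ → κ')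
    {F : κ' → MvPolynomial (Fin (N + 1)) R} {l : MvPolynomial (Fin (N + 1)) R}
    {G : MvPolynomial (XV N) R} (h : InJ (fun i => F (e i)) l G) : InJ F l G := by
  unfold InJ at h ⊢
  refine Ideal.span_mono ?_ h
  rintro _ ⟨s, rfl⟩
  rcases s with (i | i) | i
  · exact ⟨Sum.inl (Sum.inl (e i)), rfl⟩
  · exact ⟨Sum.inl (Sum.inr (e i)), rfl⟩
  · exact ⟨Sum.inr i, rfl⟩

/-- the values of an element of the ideal -/
theorem InJ.eval_zero {N : ℕ} {κ : Type} {F : κ → MvPolynomial (Fin (N + 1)) ℂ}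
    {l : MvPolynomial (Fin (N + 1)) ℂ} {G : MvPolynomial (XV N) ℂ} (h : InJ F l G)
    {x v : Fin (N + 1) → ℂ} (hI : Inc F x v) (hl : eval x l = 0) :
    eval (Sum.elim x v) G = 0 := by
  unfold InJ at h
  have h1 : Ideal.span (Set.range (gens F l)) ≤ RingHom.ker (eval (Sum.elim x v) : MvPolynomial (XV N) ℂ →+* ℂ) := by
    rw [Ideal.span_le]
    rintro _ ⟨s, rfl⟩
    rw [SetLike.mem_coe, RingHom.mem_ker]
    rcases s with (i | i) | i
    · exact (eval_inx x v (F i)).trans (hI i).1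
    · exact (eval_dif x v (F i)).trans (hI i).2
    · exact (eval_inx x v l).trans hl
  exact h1 h

/-- `InJ` for the forms `F_i(g x)`, `l(g x)` implies `InJ` for the `F_i`, `l` and `G(h x, h v)` if `g h = t`
is a scalar (the proof of `GH.InI.sub2`: the homomorphism `sub2 h` maps `inx (sub g F)` to `t ^ d * inx F` and
`dif (sub g F)` to `t ^ d * dif F`; it maps the ideal into the ideal, `Ideal.map_span`; it is useful to make these two
facts available here, they are `k1`, `k2` in the proof of `GH.InI.sub2`). -/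
theorem InJ.sub2 {N : ℕ} {κ : Type} {d : κ → ℕ} {g h : Matrix (Fin (N + 1)) (Fin (N + 1)) ℂ} {t : ℂ}
    (hgh : g * h = t • (1 : Matrix (Fin (N + 1)) (Fin (N + 1)) ℂ))
    {F : κ → MvPolynomial (Fin (N + 1)) ℂ} (hF : ∀ i, (F i).IsHomogeneous (d i))
    {l : MvPolynomial (Fin (N + 1)) ℂ} (hl : l.IsHomogeneous 1) {G : MvPolynomial (XV N) ℂ}
    (hG : InJ (fun i => sub g (F i)) (sub g l) G) : InJ F l (GH.sub2 h G) := by
  have hm : ∀ y : Fin (N + 1) → ℂ, g.mulVec (h.mulVec y) = t • y := by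
    intro y
    rw [Matrix.mulVec_mulVec, hgh, Matrix.smul_mulVec, Matrix.one_mulVec]
  have k0 : ∀ (i : κ) (Q : MvPolynomial (XV N) ℂ), InI (F i) Q → InJ F l Q := by
    rintro i Q ⟨P, P', rfl⟩
    unfold InJ
    refine Ideal.add_mem _ ?_ ?_
    · exact Ideal.mul_mem_right _ _ (Ideal.subset_span ⟨Sum.inl (Sum.inl i), rfl⟩)
    · exact Ideal.mul_mem_right _ _ (Ideal.subset_span ⟨Sum.inl (Sum.inr i), rfl⟩)
  have k1 : ∀ i, InJ F l (GH.sub2 h (inx (sub g (F i)))) := fun i =>
    k0 i _ (InI.sub2 hgh (hF i) ⟨1, 0, by rw [mul_one, mul_zero, add_zero]⟩)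
  have k2 : ∀ i, InJ F l (GH.sub2 h (dif (sub g (F i)))) := fun i =>
    k0 i _ (InI.sub2 hgh (hF i) ⟨0, 1, by rw [mul_one, mul_zero, zero_add]⟩)
  have k3 : GH.sub2 h (inx (sub g l)) = C t * inx l := by
    apply MvPolynomial.funext
    intro y
    obtain ⟨x, v, rfl⟩ : ∃ x v, y = Sum.elim x v :=
      ⟨y ∘ Sum.inl, y ∘ Sum.inr, (Sum.elim_comp_inl_inr y).symm⟩
    rw [eval_sub2, eval_inx, eval_sub, hm, map_mul, eval_C, eval_inx]
    have h1 := eval_bihom (inx_bihom l hl) t 1 x v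
    rw [eval_inx, eval_inx, one_pow, mul_one, pow_one] at h1
    exact h1
  unfold InJ at hG
  have h1 : Ideal.span (Set.range (gens (fun i => sub g (F i)) (sub g l))) ≤
      Ideal.comap (aeval (Sum.elim (fun j => ∑ k, C (h j k) * X (Sum.inl k))
        (fun j => ∑ k, C (h j k) * X (Sum.inr k)) : XV N → MvPolynomial (XV N) ℂ) :
          MvPolynomial (XV N) ℂ →ₐ[ℂ] MvPolynomial (XV N) ℂ).toRingHom (Ideal.span (Set.range (gens F l))) := by
    rw [Ideal.span_le]
    rintro _ ⟨s, rfl⟩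
    rw [SetLike.mem_coe, Ideal.mem_comap]
    rcases s with (i | i) | i
    · exact k1 i
    · exact k2 i
    · have h2 : GH.sub2 h (inx (sub g l)) ∈ Ideal.span (Set.range (gens F l)) := by
        rw [k3]
        exact Ideal.mul_mem_left _ _ (Ideal.subset_span ⟨Sum.inr (), rfl⟩)
      exact h2
  exact h1 hG

/-- `l(g x)` has the coefficients `∑ j, l_j g_jk` -/
theorem sub_lf {N : ℕ} (g : Matrix (Fin (N + 1)) (Fin (N + 1)) ℂ) (u : Fin (N + 1) → ℂ) :
    sub g (lf u) = lf (fun k => ∑ j, u j * g j k) := by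
  apply MvPolynomial.funext
  intro x
  rw [eval_sub, eval_lf, eval_lf]
  simp only [Matrix.mulVec, dotProduct, Finset.mul_sum, Finset.sum_mul]
  rw [Finset.sum_comm]
  refine Finset.sum_congr rfl fun k _ => Finset.sum_congr rfl fun j _ => ?_
  ring

end Pool.Agent.CI
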