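import Pool.Agent.Lib_MP_b9fedf_ci.UpA

/-! [CI-C18]: bihomogeneous multipliers. -/

set_option autoImplicit false

namespace Pool.Agent.CI
open MvPolynomial Pool.Agent.GGL Pool.Agent.GH

/-- the bidegrees of the generators -/
def gwt {κ : Type} (d : κ → ℕ) : (κ ⊕ κ) ⊕ Unit → ℕ × ℕ :=
  Sum.elim (Sum.elim (fun i => (d i, 0)) (fun i => (d i - 1, 1))) (fun _ => (1, 0))

theorem gens_bihom {R : Type} [CommRing R] {N : ℕ} {κ : Type} {d : κ → ℕ}
    (F : κ → MvPolynomial (Fin (N + 1)) R) (hF : ∀ i, (F i).IsHomogeneous (d i))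
    (l : MvPolynomial (Fin (N + 1)) R) (hl : l.IsHomogeneous 1) (t : (κ ⊕ κ) ⊕ Unit) :
    BiHom (gwt d t).1 (gwt d t).2 (gens F l t) := by
  rcases t with (i | i) | u
  · exact inx_bihom (F i) (hF i)
  · exact dif_bihom (F i) (hF i)
  · exact inx_bihom l hl

/-- [CI-C18] Proof.  `inJ_iff` gives multipliers; take their components of bidegree `(α, β) - gwt d t` (`0` if this is not in `ℕ × ℕ`), `weightedHomogeneousComponent`; see the private lemma
`bihom_of_mul_countb` in Lib_MP_b9fedf_gh/CountB.lean. -/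
theorem bicomp {k : Type} [Field k] {N : ℕ} {κ : Type} [Fintype κ] {d : κ → ℕ}
    (F : κ → MvPolynomial (Fin (N + 1)) k) (hF : ∀ i, (F i).IsHomogeneous (d i))
    (l : MvPolynomial (Fin (N + 1)) k) (hl : l.IsHomogeneous 1) (α β : ℕ)
    (G : MvPolynomial (XV N) k) (hG : G ∈ jSpace F l α β) :
    ∃ c : (κ ⊕ κ) ⊕ Unit → MvPolynomial (XV N) k, ∑ t, c t * gens F l t = G ∧
      ∀ t, c t = 0 ∨ ∃ α' β', BiHom α' β' (c t) ∧ α' + (gwt d t).1 = α ∧ β' + (gwt d t).2 = β := by
  classical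
  obtain ⟨h1, h2⟩ := (mem_jSpace F l α β G).1 hG
  obtain ⟨c, hc⟩ := Ideal.mem_span_range_iff_exists_fun.1 h2
  set w : XV N → ℕ × ℕ := Sum.elim (fun _ => ((1, 0) : ℕ × ℕ)) (fun _ => (0, 1)) with hw
  let _ := weightedGradedAlgebra k w
  let A : ℕ × ℕ → Submodule k (MvPolynomial (XV N) k) := weightedHomogeneousSubmodule k w
  have hg : ∀ t, gens F l t ∈ A (gwt d t) := fun t => gens_bihom F hF l hl t
  have hGA : G ∈ A (α, β) := h1
  have key : ∀ t, ∃ c' : MvPolynomial (XV N) k,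
      ((DirectSum.decompose A (c t * gens F l t) (α, β) : A (α, β)) : MvPolynomial (XV N) k) =
        c' * gens F l t ∧
      (c' = 0 ∨ ∃ α' β', BiHom α' β' c' ∧ α' + (gwt d t).1 = α ∧ β' + (gwt d t).2 = β) := by
    intro t
    by_cases ht : gwt d t ≤ (α, β)
    · have e : (α - (gwt d t).1, β - (gwt d t).2) + gwt d t = (α, β) := by
        refine Prod.ext ?_ ?_
        · exact Nat.sub_add_cancel ht.1
        · exact Nat.sub_add_cancel ht.2
      refine ⟨((DirectSum.decompose A (c t) (α - (gwt d t).1, β - (gwt d t).2) : A _) :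
        MvPolynomial (XV N) k), ?_, Or.inr ⟨α - (gwt d t).1, β - (gwt d t).2, ?_,
          Nat.sub_add_cancel ht.1, Nat.sub_add_cancel ht.2⟩⟩
      · have h3 := DirectSum.coe_decompose_mul_add_of_right_mem A
          (i := (α - (gwt d t).1, β - (gwt d t).2)) (j := gwt d t) (a := c t) (hg t)
        rw [e] at h3
        exact h3
      · exact (DirectSum.decompose A (c t) (α - (gwt d t).1, β - (gwt d t).2) : A _).2
    · refine ⟨0, ?_, Or.inl rfl⟩
      rw [zero_mul]
      exact DirectSum.coe_decompose_mul_of_right_mem_of_not_le A (a := c t) (hg t) ht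
  choose c' hc1 hc2 using key
  refine ⟨c', ?_, hc2⟩
  have h4 : ((DirectSum.decompose A G (α, β) : A (α, β)) : MvPolynomial (XV N) k) = G :=
    DirectSum.decompose_of_mem_same A hGA
  rw [← h4, ← hc, DirectSum.decompose_sum, DFinsupp.finsetSum_apply, Submodule.coe_sum]
  exact Finset.sum_congr rfl fun t _ => (hc1 t).symm

end Pool.Agent.CI
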