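import Pool.Agent.Lib_MP_b9fedf_ci.BasicJ

/-! [CI-C0]: Vandermonde forms, the special member, and the numbers of the count. -/

set_option autoImplicit false

namespace Pool.Agent.CI
open MvPolynomial Pool.Agent.GGL Pool.Agent.GH

/-- the linear form `∑ s ^ j x_j` -/
noncomputable def vd (k : Type) [Field k] (n s : ℕ) : MvPolynomial (Fin (n + 1)) k :=
  ∑ j : Fin (n + 1), C ((s : k) ^ (j : ℕ)) * X j

/-- `b_i`, a product of `d i` linear forms -/
noncomputable def vb (k : Type) [Field k] {κ : Type} (n : ℕ) (s : κ → ℕ → ℕ) (d : κ → ℕ) (i : κ) :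
    MvPolynomial (Fin (n + 1)) k :=
  ∏ t ∈ Finset.range (d i), vd k n (s i t)

/-- the special member `y_i ^ d_i - b_i(x)` -/
noncomputable def spf (k : Type) [Field k] {κ : Type} {n N : ℕ} (e : Fin (n + 1) ⊕ κ ≃ Fin (N + 1))
    (s : κ → ℕ → ℕ) (d : κ → ℕ) (i : κ) : MvPolynomial (Fin (N + 1)) k :=
  X (e (Sum.inr i)) ^ d i - rename (fun j => e (Sum.inl j)) (vb k n s d i)

/-- the coefficients of the special member -/
noncomputable def sc (k : Type) [Field k] {κ : Type} {n N : ℕ} (e : Fin (n + 1) ⊕ κ ≃ Fin (N + 1))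
    (s : κ → ℕ → ℕ) (d : κ → ℕ) : Ix N d → k :=
  fun p => coeff p.2.1 (spf k e s d p.1)

/-- the codes are distinct -/
def Codes {κ : Type} (s : κ → ℕ → ℕ) : Prop :=
  ∀ i t i' t', s i t = s i' t' → i = i' ∧ t = t'

/-- the number of monomials of degree at most `t` in `n + 1` variables -/
def mnum (n t : ℕ) : ℕ :=
  ∑ r ∈ Finset.range (t + 1),
    (Finset.finsuppAntidiag (Finset.univ : Finset (Fin (n + 1))) r).card

/-- elementary symmetric function of the `d i - 1` -/
def es {κ : Type} [Fintype κ] (d : κ → ℕ) (j : ℕ) : ℕ :=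
  ∑ S ∈ (Finset.univ : Finset κ).powersetCard j, ∏ i ∈ S, (d i - 1)

/-- the number `κ₁` of the note -/
def kap1 {κ : Type} [Fintype κ] (n : ℕ) (d : κ → ℕ) (α β : ℕ) : ℕ :=
  (∏ i, d i) * es d (n - 1) * (β + n).choose (2 * n - 1) +
    (∏ i, d i) * 2 ^ Fintype.card κ * mnum n α * (β + n).choose (2 * n - 2)

/-- the number `κ₀` of the note -/
def kap0 {κ : Type} [Fintype κ] (n : ℕ) (d : κ → ℕ) (β : ℕ) : ℕ :=
  (∏ i, d i) * es d n * (β + n).choose (2 * n)

theorem vd_hom (k : Type) [Field k] (n s : ℕ) : (vd k n s).IsHomogeneous 1 := by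
  unfold vd
  exact IsHomogeneous.sum _ _ _ fun j _ => isHomogeneous_C_mul_X _ j

theorem vb_hom (k : Type) [Field k] {κ : Type} (n : ℕ) (s : κ → ℕ → ℕ) (d : κ → ℕ) (i : κ) :
    (vb k n s d i).IsHomogeneous (d i) := by
  unfold vb
  have h1 := IsHomogeneous.prod (Finset.range (d i)) (fun t => vd k n (s i t)) (fun _ => 1)
    fun t _ => vd_hom k n (s i t)
  rw [Finset.sum_const, Finset.card_range, smul_eq_mul, mul_one] at h1
  exact h1

private theorem inj_inl {κ : Type} {n N : ℕ} (e : Fin (n + 1) ⊕ κ ≃ Fin (N + 1)) :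
    Function.Injective (fun j : Fin (n + 1) => e (Sum.inl j)) :=
  e.injective.comp Sum.inl_injective

theorem spf_hom (k : Type) [Field k] {κ : Type} {n N : ℕ} (e : Fin (n + 1) ⊕ κ ≃ Fin (N + 1))
    (s : κ → ℕ → ℕ) (d : κ → ℕ) (i : κ) : (spf k e s d i).IsHomogeneous (d i) := by
  unfold spf
  refine IsHomogeneous.sub ?_ ((vb_hom k n s d i).rename_isHomogeneous)
  have h1 := (isHomogeneous_X k (e (Sum.inr i))).pow (d i)
  rw [one_mul] at h1
  exact h1

/-- (`frm_coeff`) -/
theorem fa_sc (k : Type) [Field k] {κ : Type} {n N : ℕ} (e : Fin (n + 1) ⊕ κ ≃ Fin (N + 1))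
    (s : κ → ℕ → ℕ) (d : κ → ℕ) (i : κ) : fa (sc k e s d) i = spf k e s d i := by
  exact frm_coeff (spf k e s d i) (spf_hom k e s d i)

theorem map_vd {k K : Type} [Field k] [Field K] (f : k →+* K) (n s : ℕ) :
    MvPolynomial.map f (vd k n s) = vd K n s := by
  unfold vd
  rw [map_sum]
  refine Finset.sum_congr rfl fun j _ => ?_
  rw [map_mul, map_C, map_X, map_pow, map_natCast]

theorem map_vb {k K : Type} [Field k] [Field K] (f : k →+* K) {κ : Type} (n : ℕ) (s : κ → ℕ → ℕ)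
    (d : κ → ℕ) (i : κ) : MvPolynomial.map f (vb k n s d i) = vb K n s d i := by
  unfold vb
  rw [map_prod]
  exact Finset.prod_congr rfl fun t _ => map_vd f n (s i t)

theorem map_spf {k K : Type} [Field k] [Field K] (f : k →+* K) {κ : Type} {n N : ℕ}
    (e : Fin (n + 1) ⊕ κ ≃ Fin (N + 1)) (s : κ → ℕ → ℕ) (d : κ → ℕ) (i : κ) :
    MvPolynomial.map f (spf k e s d i) = spf K e s d i := by
  unfold spf
  rw [map_sub, map_pow, map_X, map_rename, map_vb]

theorem sc_map {k K : Type} [Field k] [Field K] (f : k →+* K) {κ : Type} {n N : ℕ}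
    (e : Fin (n + 1) ⊕ κ ≃ Fin (N + 1)) (s : κ → ℕ → ℕ) (d : κ → ℕ) (p : Ix N d) :
    f (sc k e s d p) = sc K e s d p := by
  unfold sc
  rw [← map_spf f e s d p.1, coeff_map]

/-- the relations on the special member: `F_i(x)` -/
theorem inx_spf (k : Type) [Field k] {κ : Type} {n N : ℕ} (e : Fin (n + 1) ⊕ κ ≃ Fin (N + 1))
    (s : κ → ℕ → ℕ) (d : κ → ℕ) (i : κ) :
    inx (spf k e s d i) = X (Sum.inl (e (Sum.inr i))) ^ d i -
      rename (fun j => Sum.inl (e (Sum.inl j))) (vb k n s d i) := by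
  unfold inx spf
  rw [map_sub, map_pow, rename_X, rename_rename]
  rfl

private theorem pd_rename {k : Type} [Field k] {κ : Type} {n N : ℕ}
    (e : Fin (n + 1) ⊕ κ ≃ Fin (N + 1)) (b : MvPolynomial (Fin (n + 1)) k) (i : κ) :
    pderiv (e (Sum.inr i)) (rename (fun j => e (Sum.inl j)) b) = 0 := by
  apply pderiv_eq_zero_of_notMem_vars
  intro h
  have h1 := vars_rename (fun j => e (Sum.inl j)) b h
  rw [Finset.mem_image] at h1
  obtain ⟨j, -, hj⟩ := h1
  exact absurd (e.injective hj) (by simp)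

private theorem pd_inl {k : Type} [Field k] {κ : Type} [DecidableEq κ] {n N : ℕ}
    (e : Fin (n + 1) ⊕ κ ≃ Fin (N + 1)) (s : κ → ℕ → ℕ) (d : κ → ℕ) (i : κ) (j : Fin (n + 1)) :
    pderiv (e (Sum.inl j)) (spf k e s d i) =
      - rename (fun j => e (Sum.inl j)) (pderiv j (vb k n s d i)) := by
  unfold spf
  rw [map_sub, pderiv_pow, pderiv_X_of_ne (by
    intro h
    exact absurd (e.injective h) (by simp)), mul_zero, zero_sub]
  have h1 := pderiv_rename (inj_inl e) (x := j) (p := vb k n s d i)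
  rw [← h1]

private theorem pd_inr {k : Type} [Field k] {κ : Type} [DecidableEq κ] {n N : ℕ}
    (e : Fin (n + 1) ⊕ κ ≃ Fin (N + 1)) (s : κ → ℕ → ℕ) (d : κ → ℕ) (i i' : κ) :
    pderiv (e (Sum.inr i')) (spf k e s d i) =
      if i' = i then (d i : MvPolynomial (Fin (N + 1)) k) * X (e (Sum.inr i)) ^ (d i - 1) else 0 := by
  unfold spf
  rw [map_sub, pd_rename, sub_zero, pderiv_pow]
  by_cases h : i' = i
  · subst h
    rw [if_pos rfl, pderiv_X_self, mul_one]
  · rw [if_neg h, pderiv_X_of_ne (by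
      intro h1
      exact h (Sum.inr_injective (e.injective h1)).symm), mul_zero]

/-- the relations on the special member: `DF_i(x, v)` -/
theorem dif_spf (k : Type) [Field k] {κ : Type} [DecidableEq κ] {n N : ℕ}
    (e : Fin (n + 1) ⊕ κ ≃ Fin (N + 1)) (s : κ → ℕ → ℕ) (d : κ → ℕ) (i : κ) :
    dif (spf k e s d i) =
      (d i : MvPolynomial (XV N) k) * X (Sum.inl (e (Sum.inr i))) ^ (d i - 1) *
        X (Sum.inr (e (Sum.inr i))) -
      ∑ j, rename (fun j => Sum.inl (e (Sum.inl j))) (pderiv j (vb k n s d i)) *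
        X (Sum.inr (e (Sum.inl j))) := by
  have : Finite κ := Finite.of_injective (fun i => e (Sum.inr i))
    (e.injective.comp Sum.inr_injective)
  have : Fintype κ := Fintype.ofFinite κ
  unfold dif
  rw [← e.sum_comp, Fintype.sum_sum_type, add_comm]
  rw [sub_eq_add_neg]
  congr 1
  · rw [Finset.sum_eq_single i]
    · rw [pd_inr, if_pos rfl, map_mul, map_pow, rename_X, map_natCast]
    · intro b _ hb
      rw [pd_inr, if_neg hb, map_zero, zero_mul]
    · intro h
      exact absurd (Finset.mem_univ i) h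
  · rw [← Finset.sum_neg_distrib]
    refine Finset.sum_congr rfl fun j _ => ?_
    rw [pd_inl, map_neg, rename_rename, neg_mul]
    rfl

/-- `Inc` for the special member -/
theorem inc_spf {κ : Type} [DecidableEq κ] {n N : ℕ} (e : Fin (n + 1) ⊕ κ ≃ Fin (N + 1))
    (s : κ → ℕ → ℕ) (d : κ → ℕ) (x v : Fin (N + 1) → ℂ) :
    Inc (spf ℂ e s d) x v ↔ ∀ i,
      x (e (Sum.inr i)) ^ d i = eval (fun j => x (e (Sum.inl j))) (vb ℂ n s d i) ∧
      (d i : ℂ) * x (e (Sum.inr i)) ^ (d i - 1) * v (e (Sum.inr i)) =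
        dv (vb ℂ n s d i) (fun j => x (e (Sum.inl j))) (fun j => v (e (Sum.inl j))) := by
  unfold Inc
  refine forall_congr' fun i => and_congr ?_ ?_
  · unfold spf
    rw [map_sub, map_pow, eval_X, eval_rename, sub_eq_zero]
    rfl
  · have h1 : dv (spf ℂ e s d i) x v = (d i : ℂ) * x (e (Sum.inr i)) ^ (d i - 1) *
        v (e (Sum.inr i)) -
        dv (vb ℂ n s d i) (fun j => x (e (Sum.inl j))) (fun j => v (e (Sum.inl j))) := by
      have h2 : dv (spf ℂ e s d i) x v = eval (Sum.elim x v) (dif (spf ℂ e s d i)) :=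
        (eval_dif x v _).symm
      rw [h2, dif_spf, map_sub, map_mul, map_mul, map_pow, map_natCast, eval_X, eval_X, map_sum]
      congr 1
      unfold dv
      refine Finset.sum_congr rfl fun j _ => ?_
      rw [map_mul, eval_X, eval_rename]
      rfl
    rw [h1, sub_eq_zero]

/-- any `n + 1` of the forms have only the common zero `0` -/
theorem vd_zero {n : ℕ} (A : Finset ℕ) (hA : n + 1 ≤ A.card) (x : Fin (n + 1) → ℂ)
    (h : ∀ s ∈ A, eval x (vd ℂ n s) = 0) : x = 0 := by
  obtain ⟨B, hBA, hB⟩ := Finset.exists_subset_card_eq hA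
  set f : Fin (n + 1) → ℂ := fun j => ((B.equivFinOfCardEq hB).symm j : ℕ) with hf
  have hinj : Function.Injective f := by
    intro i j hij
    have h1 : ((B.equivFinOfCardEq hB).symm i : ℕ) = ((B.equivFinOfCardEq hB).symm j : ℕ) := by
      have h2 : (((B.equivFinOfCardEq hB).symm i : ℕ) : ℂ) =
        (((B.equivFinOfCardEq hB).symm j : ℕ) : ℂ) := hij
      exact_mod_cast h2
    exact (B.equivFinOfCardEq hB).symm.injective (Subtype.ext h1)
  apply Matrix.eq_zero_of_forall_index_sum_pow_mul_eq_zero hinj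
  intro j
  have h1 := h _ (hBA ((B.equivFinOfCardEq hB).symm j).2)
  unfold vd at h1
  rw [map_sum] at h1
  rw [← h1]
  refine Finset.sum_congr rfl fun i _ => ?_
  rw [map_mul, eval_C, eval_X]

end Pool.Agent.CI
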