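import Pool.Agent.Lib_MP_b9fedf_ci.Peel
import Pool.Agent.Lib_MP_b9fedf_ci.Vd

/-! [CI-C2]: ideals generated by Vandermonde forms. -/

set_option autoImplicit false

namespace Pool.Agent.CI
open MvPolynomial Pool.Agent.GGL Pool.Agent.GH

variable (k : Type) [Field k] [CharZero k]

private theorem cov_mono {m : ℕ} {J J' : Ideal (MvPolynomial (Fin m) k)} (hJ : J ≤ J') {t D : ℕ}
    (h : Cov J t D) : Cov J' t D := by
  obtain ⟨B, h1, h2, h3⟩ := h
  refine ⟨B, h1, h2, fun g hg => ?_⟩
  obtain ⟨r, hr, hgr⟩ := h3 g hg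
  exact ⟨r, hr, hJ hgr⟩

/-- a variable is a combination of `n + 1` Vandermonde forms -/
private theorem X_comb (n : ℕ) (A : Finset ℕ) (hA : n + 1 ≤ A.card) (j : Fin (n + 1)) :
    ∃ c : ℕ → k, (X j : MvPolynomial (Fin (n + 1)) k) = ∑ s ∈ A, C (c s) * vd k n s := by
  classical
  obtain ⟨B, hBA, hB⟩ := Finset.exists_subset_card_eq hA
  set f : Fin (n + 1) → ℕ := fun i => ((B.equivFinOfCardEq hB).symm i : ℕ) with hf
  have hfi : Function.Injective f := by
    intro i i' h
    exact (B.equivFinOfCardEq hB).symm.injective (Subtype.ext h)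
  set v : Fin (n + 1) → k := fun i => (f i : k) with hv
  have hvi : Function.Injective v := by
    intro i i' h
    exact hfi (Nat.cast_injective (R := k) h)
  have hdet : IsUnit (Matrix.vandermonde v).det :=
    isUnit_iff_ne_zero.2 (Matrix.det_vandermonde_ne_zero_iff.2 hvi)
  set W := (Matrix.vandermonde v)⁻¹ with hW
  have hWV : W * Matrix.vandermonde v = 1 := Matrix.nonsing_inv_mul _ hdet
  have h1 : (X j : MvPolynomial (Fin (n + 1)) k) = ∑ i, C (W j i) * vd k n (f i) := by
    have h2 : ∀ l : Fin (n + 1), ∑ i, W j i * (Matrix.vandermonde v) i l = if j = l then 1 else 0 := by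
      intro l
      have h3 := congrFun (congrFun hWV j) l
      rw [Matrix.mul_apply, Matrix.one_apply] at h3
      exact h3
    calc (X j : MvPolynomial (Fin (n + 1)) k)
        = ∑ l, C (∑ i, W j i * (Matrix.vandermonde v) i l) * X l := by
          rw [Finset.sum_eq_single j]
          · rw [h2, if_pos rfl, C_1, one_mul]
          · intro l _ hl
            rw [h2, if_neg (Ne.symm hl), C_0, zero_mul]
          · intro h
            exact absurd (Finset.mem_univ j) h
      _ = ∑ l : Fin (n + 1), ∑ i, C (W j i) * (C ((v i) ^ (l : ℕ)) * X l) := by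
          refine Finset.sum_congr rfl fun l _ => ?_
          rw [map_sum, Finset.sum_mul]
          refine Finset.sum_congr rfl fun i _ => ?_
          rw [Matrix.vandermonde_apply, C_mul, mul_assoc]
      _ = ∑ i, C (W j i) * vd k n (f i) := by
          rw [Finset.sum_comm]
          refine Finset.sum_congr rfl fun i _ => ?_
          unfold vd
          rw [Finset.mul_sum]
  refine ⟨fun s => ∑ i, if f i = s then W j i else 0, ?_⟩
  rw [h1]
  have h4 : ∀ s ∈ A, C (∑ i, if f i = s then W j i else 0) * vd k n s =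
      ∑ i, if f i = s then C (W j i) * vd k n (f i) else 0 := by
    intro s _
    rw [map_sum, Finset.sum_mul]
    refine Finset.sum_congr rfl fun i _ => ?_
    by_cases h : f i = s
    · rw [if_pos h, if_pos h, h]
    · rw [if_neg h, if_neg h, C_0, zero_mul]
  rw [Finset.sum_congr rfl h4, Finset.sum_comm]
  refine Finset.sum_congr rfl fun i _ => ?_
  rw [Finset.sum_ite_eq, if_pos (hBA ((B.equivFinOfCardEq hB).symm i).2)]

/-- [CI-C2a] `n + 1` forms: every variable is in the ideal (invertible Vandermonde matrix), hence every form of positive degree. -/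
theorem cov_full (n : ℕ) (A : Finset ℕ) (hA : n + 1 ≤ A.card) (t : ℕ) (ht : 1 ≤ t) :
    Cov (Ideal.span ((fun s => vd k n s) '' (A : Set ℕ))) t 0 := by
  refine ⟨∅, by simp, by simp, fun g hg => ⟨0, Submodule.zero_mem _, ?_⟩⟩
  rw [sub_zero]
  have h1 : g ∈ Ideal.span ((X : Fin (n + 1) → MvPolynomial (Fin (n + 1)) k) '' Set.univ) := by
    rw [mem_ideal_span_X_image]
    intro m hm
    by_contra hcon
    push Not at hcon
    have h2 : m = 0 := by
      ext i
      simpa using hcon i (Set.mem_univ i)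
    have h3 := hg (mem_support_iff.1 hm)
    rw [h2, map_zero] at h3
    omega
  refine (Ideal.span_le.2 ?_) h1
  rintro _ ⟨j, -, rfl⟩
  obtain ⟨c, hc⟩ := X_comb k n A hA j
  rw [hc]
  refine Ideal.sum_mem _ fun s hs => ?_
  exact Ideal.mul_mem_left _ _ (Ideal.subset_span ⟨s, hs, rfl⟩)

/-- [CI-C2b] `n` forms: with one more Vandermonde form `mu` (a code not in `A`) every variable is a combination of `mu` and the forms, so every form of degree `t` is a
multiple of `mu ^ t` modulo the ideal. -/
theorem cov_line (n : ℕ) (A : Finset ℕ) (hA : A.card = n) (t : ℕ) :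
    Cov (Ideal.span ((fun s => vd k n s) '' (A : Set ℕ))) t 1 := by
  classical
  obtain ⟨u, hu⟩ := Infinite.exists_notMem_finset A
  have hcard : n + 1 ≤ (insert u A).card := by
    rw [Finset.card_insert_of_notMem hu, hA]
  choose c hc using fun j => X_comb k n (insert u A) hcard j
  set I := Ideal.span ((fun s => vd k n s) '' (A : Set ℕ)) with hI
  set mu := vd k n u with hmu
  have h1 : ∀ j : Fin (n + 1), (X j : MvPolynomial (Fin (n + 1)) k) - C (c j u) * mu ∈ I := by
    intro j
    have h2 : (X j : MvPolynomial (Fin (n + 1)) k) - C (c j u) * mu =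
        ∑ s ∈ A, C (c j s) * vd k n s := by
      conv_lhs => rw [hc j]
      rw [Finset.sum_insert hu, add_sub_cancel_left]
    rw [h2]
    refine Ideal.sum_mem _ fun s hs => ?_
    exact Ideal.mul_mem_left _ _ (Ideal.subset_span ⟨s, hs, rfl⟩)
  set φ : MvPolynomial (Fin (n + 1)) k →ₐ[k] MvPolynomial (Fin (n + 1)) k :=
    aeval (fun j => C (c j u) * mu) with hφ
  have h3 : ∀ g : MvPolynomial (Fin (n + 1)) k, g - φ g ∈ I := by
    intro g
    rw [← Ideal.Quotient.eq]
    have h4 : (Ideal.Quotient.mkₐ k I) = (Ideal.Quotient.mkₐ k I).comp φ := by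
      apply MvPolynomial.algHom_ext
      intro j
      rw [AlgHom.comp_apply, hφ, aeval_X]
      exact Ideal.Quotient.eq.2 (h1 j)
    exact congrArg (fun f => f g) h4
  have h5 : ∀ g : MvPolynomial (Fin (n + 1)) k, g.IsHomogeneous t →
      ∃ a : k, φ g = a • mu ^ t := by
    intro g hg
    refine ⟨∑ m ∈ g.support, coeff m g * ∏ j, (c j u) ^ (m j), ?_⟩
    rw [hφ, aeval_def, eval₂_eq', Finset.sum_smul]
    refine Finset.sum_congr rfl fun m hm => ?_
    have h6 : ∑ j, m j = t := by
      have h7 := hg (mem_support_iff.1 hm)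
      rw [← h7, Finsupp.weight_apply]
      rw [Finsupp.sum_fintype _ _ (by simp)]
      simp
    have h8 : ∏ j, (C (c j u) * mu) ^ (m j) = C (∏ j, (c j u) ^ (m j)) * mu ^ t := by
      rw [← h6, ← Finset.prod_pow_eq_pow_sum, map_prod, ← Finset.prod_mul_distrib]
      refine Finset.prod_congr rfl fun j _ => ?_
      rw [mul_pow, map_pow]
    rw [h8, smul_eq_C_mul, C_mul, mul_assoc, algebraMap_eq]
  refine ⟨{mu ^ t}, by simp, ?_, fun g hg => ?_⟩
  · intro b hb
    rw [Finset.mem_singleton] at hb
    rw [hb]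
    have h9 := (vd_hom k n u).pow t
    rwa [one_mul] at h9
  · obtain ⟨a, ha⟩ := h5 g hg
    refine ⟨φ g, ?_, h3 g⟩
    rw [ha, Finset.coe_singleton]
    exact Submodule.smul_mem _ _ (Submodule.mem_span_singleton_self _)

/-- [CI-C2c] all monomials -/
theorem cov_mon (n : ℕ) (J : Ideal (MvPolynomial (Fin (n + 1)) k)) (t : ℕ) :
    Cov J t (Finset.finsuppAntidiag (Finset.univ : Finset (Fin (n + 1))) t).card := by
  classical
  have hdeg : ∀ m : Fin (n + 1) →₀ ℕ, (Finsupp.weight 1) m = ∑ j, m j := by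
    intro m
    rw [Finsupp.weight_apply, Finsupp.sum_fintype _ _ (by simp)]
    simp
  refine ⟨(Finset.finsuppAntidiag (Finset.univ : Finset (Fin (n + 1))) t).image
    (fun m => monomial m (1 : k)), Finset.card_image_le, ?_, fun g hg => ⟨g, ?_, ?_⟩⟩
  · intro b hb
    obtain ⟨m, hm, rfl⟩ := Finset.mem_image.1 hb
    rw [Finset.mem_finsuppAntidiag] at hm
    exact isHomogeneous_monomial _ (by rw [← hm.1, Finsupp.degree_eq_sum])
  · rw [g.as_sum]
    refine Submodule.sum_mem _ fun m hm => ?_
    have h1 : monomial m (coeff m g) = (coeff m g) • monomial m (1 : k) := by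
      rw [smul_monomial, smul_eq_mul, mul_one]
    rw [h1]
    refine Submodule.smul_mem _ _ (Submodule.subset_span ?_)
    rw [Finset.coe_image]
    refine ⟨m, ?_, rfl⟩
    rw [Finset.mem_coe, Finset.mem_finsuppAntidiag]
    refine ⟨?_, Finset.subset_univ _⟩
    rw [← hdeg, hg (mem_support_iff.1 hm)]
  · rw [sub_self]
    exact J.zero_mem

/-- the bound for the number of forms -/
def hbd {κ : Type} (n : ℕ) (d : κ → ℕ) (S : Finset κ) (t : ℕ) : ℕ :=
  if n ≤ S.card then 0 else if S.card + 1 = n then ∏ i ∈ S, d i else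
    (Finset.finsuppAntidiag (Finset.univ : Finset (Fin (n + 1))) t).card

private theorem span_eq {κ : Type} [DecidableEq κ] (n : ℕ) (s : κ → ℕ → ℕ) (r : ℕ) (S : Finset κ)
    (τ : κ → ℕ) :
    Ideal.span {vd k n r} ⊔ Ideal.span ((fun i => vd k n (s i (τ i))) '' (S : Set κ)) =
      Ideal.span ((fun u => vd k n u) ''
        ((insert r (S.image (fun i => s i (τ i))) : Finset ℕ) : Set ℕ)) := by
  rw [Finset.coe_insert, Set.image_insert_eq, Ideal.span_insert, Finset.coe_image, Set.image_image]

private theorem card_A {κ : Type} [DecidableEq κ] (s : κ → ℕ → ℕ) (hs : Codes s) (r : ℕ)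
    (hr : ∀ i t, s i t ≠ r) (S : Finset κ) (τ : κ → ℕ) :
    (insert r (S.image (fun i => s i (τ i)))).card = S.card + 1 := by
  rw [Finset.card_insert_of_notMem, Finset.card_image_of_injective]
  · intro i j h
    exact (hs _ _ _ _ h).1
  · intro h
    obtain ⟨i, -, hi⟩ := Finset.mem_image.1 h
    exact hr _ _ hi

/-- [CI-C2d] Proof.  For `n ≤ card S` take a subset `S'` with `n` elements (the ideal is larger, `Cov` is monotone in the ideal), `cov_fam` with `J = span {vd r}` (`hmg_span`), `D = 0`,
`t₀ = 1` and `cov_full` (`n + 1` distinct codes: `r` and `s i (τ i)`); for `card S + 1 = n` `cov_fam` with `D = 1`, `t₀ = 0` and `cov_line`; else `cov_mon`. -/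
theorem exists_cov {κ : Type} [Fintype κ] [DecidableEq κ] (n : ℕ) (s : κ → ℕ → ℕ) (d : κ → ℕ)
    (hs : Codes s) (r : ℕ) (hr : ∀ i t, s i t ≠ r) (S : Finset κ) (t : ℕ)
    (ht : 1 + ∑ i, d i ≤ t) :
    Cov (Ideal.span ({vd k n r} ∪ (fun i => vb k n s d i) '' (S : Set κ))) t (hbd n d S t) := by
  have hH : Hmg (Ideal.span {vd k n r}) := by
    refine hmg_span _ ?_
    rintro a ha
    rw [Set.mem_singleton_iff] at ha
    exact ⟨1, ha ▸ vd_hom k n r⟩
  have hsum : ∀ S' : Finset κ, ∑ i ∈ S', d i ≤ ∑ i, d i := fun S' =>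
    Finset.sum_le_sum_of_subset (Finset.subset_univ _)
  unfold hbd
  split_ifs with h1 h2
  · obtain ⟨S', hSS, hS'⟩ := Finset.exists_subset_card_eq h1
    have h3 := cov_fam (fun i u => vd k n (s i u)) (fun i u => vd_hom k n (s i u)) d S' 1 0
      (Ideal.span {vd k n r}) hH (fun τ _ t ht' => by
        rw [span_eq]
        exact cov_full k n _ (by rw [card_A s hs r hr, hS']) t ht') t
      (le_trans (Nat.add_le_add_left (hsum S') 1) ht)
    rw [zero_mul] at h3
    refine cov_mono k ?_ h3
    rw [← Ideal.span_union]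
    refine Ideal.span_mono (Set.union_subset_union_right _ ?_)
    exact Set.image_mono (by exact_mod_cast hSS)
  · have h3 := cov_fam (fun i u => vd k n (s i u)) (fun i u => vd_hom k n (s i u)) d S 0 1
      (Ideal.span {vd k n r}) hH (fun τ _ t _ => by
        rw [span_eq]
        exact cov_line k n _ (by rw [card_A s hs r hr, h2]) t) t
      (by have := hsum S; omega)
    rw [one_mul] at h3
    rw [Ideal.span_union]
    exact h3
  · exact cov_mon k n _ t

end Pool.Agent.CI
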