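import Pool.Agent.Lib_MP_b9fedf_ci.SpanRed
import Pool.Agent.Lib_MP_b9fedf_ci.CovLin

/-! [CI-C5]: cardinalities, first part. -/

set_option autoImplicit false

namespace Pool.Agent.CI

variable {κ : Type} [Fintype κ] [DecidableEq κ]

/-- the exponents `(e, ν)` with `|e| + |ν| = β` -/
def EN (κ : Type) [Fintype κ] [DecidableEq κ] (n β : ℕ) :
    Finset ((κ → ℕ) × (Fin (n + 1) → ℕ)) :=
  ((Fintype.piFinset fun _ : κ => Finset.range (β + 1)) ×ˢ
    (Fintype.piFinset fun _ : Fin (n + 1) => Finset.range (β + 1))).filter
      (fun p => ∑ i, p.1 i + ∑ j, p.2 j = β)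

/-- the exponents `a` for the support `S` -/
def AS (d : κ → ℕ) (S : Finset κ) : Finset (κ → ℕ) :=
  (Fintype.piFinset fun i => Finset.range (d i)).filter (fun a => ∀ i ∈ S, a i + 1 < d i)

theorem mem_EN {n β : ℕ} (p : (κ → ℕ) × (Fin (n + 1) → ℕ)) :
    p ∈ EN κ n β ↔ ∑ i, p.1 i + ∑ j, p.2 j = β := by
  unfold EN
  rw [Finset.mem_filter, Finset.mem_product, Fintype.mem_piFinset, Fintype.mem_piFinset]
  constructor
  · exact fun h => h.2
  · intro h
    refine ⟨⟨fun i => ?_, fun j => ?_⟩, h⟩
    · have h1 : p.1 i ≤ ∑ i, p.1 i := Finset.single_le_sum (fun _ _ => Nat.zero_le _)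
        (Finset.mem_univ i)
      rw [Finset.mem_range]
      omega
    · have h1 : p.2 j ≤ ∑ j, p.2 j := Finset.single_le_sum (fun _ _ => Nat.zero_le _)
        (Finset.mem_univ j)
      rw [Finset.mem_range]
      omega

omit [DecidableEq κ] in
private theorem mem_supp (e : κ → ℕ) (i : κ) : i ∈ supp e ↔ e i ≠ 0 := by
  simp [supp]

omit [DecidableEq κ] in
private theorem sum_supp (e : κ → ℕ) (S : Finset κ) (h : supp e = S) :
    ∑ i, e i = ∑ i ∈ S, (e i - 1) + S.card := by
  subst h
  have h1 : ∑ i, e i = ∑ i ∈ supp e, e i := by
    symm
    apply Finset.sum_subset (Finset.subset_univ _)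
    intro i _ hi
    by_contra hne
    exact hi ((mem_supp e i).mpr hne)
  rw [h1, Finset.card_eq_sum_ones, ← Finset.sum_add_distrib]
  apply Finset.sum_congr rfl
  intro i hi
  have h2 := (mem_supp e i).mp hi
  omega

/-- [CI-C5a] Stars and bars: subtract `1` from the `e i`, `i ∈ S`, and count the functions `S ⊕ Fin (n + 1) → ℕ` with sum `β - card S`
(for `β < card S` both sides are zero). -/
theorem card_EN (n β : ℕ) (S : Finset κ) :
    ((EN κ n β).filter (fun p => supp p.1 = S)).card = (β + n).choose (S.card + n) := by
  rcases lt_or_ge β S.card with hlt | hge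
  · rw [Nat.choose_eq_zero_of_lt (by omega), Finset.card_eq_zero, Finset.filter_eq_empty_iff]
    intro p hp hs
    have h1 := (mem_EN p).mp hp
    have h2 := sum_supp p.1 S hs
    omega
  · have hcard : ((EN κ n β).filter (fun p => supp p.1 = S)).card
        = (Finset.finsuppAntidiag (S.disjSum (Finset.univ : Finset (Fin (n + 1))))
            (β - S.card)).card := by
      refine Finset.card_nbij'
        (fun p => Finsupp.equivFunOnFinite.symm (Sum.elim (fun i => p.1 i - 1) p.2))
        (fun f => (fun i => if i ∈ S then f (Sum.inl i) + 1 else 0, fun j => f (Sum.inr j)))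
        ?_ ?_ ?_ ?_
      · intro p hp
        have hp' := Finset.mem_filter.mp (Finset.mem_coe.mp hp)
        have h1 := (mem_EN p).mp hp'.1
        have h2 := sum_supp p.1 S hp'.2
        rw [Finset.mem_coe, Finset.mem_finsuppAntidiag]
        constructor
        · rw [Finset.sum_disjSum]
          simp only [Finsupp.equivFunOnFinite_symm_apply_apply, Sum.elim_inl, Sum.elim_inr]
          omega
        · intro x hx
          rw [Finsupp.mem_support_iff] at hx
          rcases x with i | j
          · rw [Finset.inl_mem_disjSum]
            have h3 : p.1 i - 1 ≠ 0 := hx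
            rw [← hp'.2, mem_supp]
            omega
          · rw [Finset.inr_mem_disjSum]
            exact Finset.mem_univ j
      · intro f hf
        have hf' := Finset.mem_finsuppAntidiag.mp (Finset.mem_coe.mp hf)
        rw [Finset.mem_coe, Finset.mem_filter, mem_EN]
        have hs : supp (fun i => if i ∈ S then f (Sum.inl i) + 1 else 0) = S := by
          ext i
          rw [mem_supp]
          by_cases hi : i ∈ S
          · simp [hi]
          · simp [hi]
        refine ⟨?_, hs⟩
        have h2 := sum_supp _ S hs
        have h3 := hf'.1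
        rw [Finset.sum_disjSum] at h3
        have h4 : ∑ i ∈ S, ((if i ∈ S then f (Sum.inl i) + 1 else 0) - 1)
            = ∑ i ∈ S, f (Sum.inl i) := by
          apply Finset.sum_congr rfl
          intro i hi
          simp [hi]
        rw [h4] at h2
        simp only at h2 ⊢
        omega
      · intro p hp
        have hp' := Finset.mem_filter.mp (Finset.mem_coe.mp hp)
        apply Prod.ext
        · funext i
          by_cases hi : i ∈ S
          · have h3 : p.1 i ≠ 0 := by
              rw [← hp'.2, mem_supp] at hi
              exact hi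
            simp [hi]
            omega
          · have h3 : p.1 i = 0 := by
              by_contra hne
              apply hi
              rw [← hp'.2, mem_supp]
              exact hne
            simp [hi, h3]
        · funext j
          simp
      · intro f hf
        have hf' := Finset.mem_finsuppAntidiag.mp (Finset.mem_coe.mp hf)
        ext x
        rcases x with i | j
        · by_cases hi : i ∈ S
          · simp [hi]
          · have h3 : f (Sum.inl i) = 0 := by
              by_contra hne
              have h4 := hf'.2 (Finsupp.mem_support_iff.mpr hne)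
              rw [Finset.inl_mem_disjSum] at h4
              exact hi h4
            simp [hi, h3]
        · simp
    rw [hcard, Finset.card_finsuppAntidiag_nat_eq_choose, Finset.card_disjSum, Finset.card_univ,
      Fintype.card_fin]
    have h1 : S.card + (n + 1) + (β - S.card) - 1 = β + n := by omega
    rw [h1]
    exact Nat.choose_symm_of_eq_add (by omega)

/-- [CI-C5b] -/
theorem card_AS (d : κ → ℕ) (S : Finset κ) :
    (AS d S).card = (∏ i ∈ S, (d i - 1)) * ∏ i ∈ Sᶜ, d i := by
  have h1 : AS d S = Fintype.piFinset
      (fun i => if i ∈ S then Finset.range (d i - 1) else Finset.range (d i)) := by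
    ext a
    unfold AS
    rw [Finset.mem_filter, Fintype.mem_piFinset, Fintype.mem_piFinset]
    constructor
    · rintro ⟨h2, h3⟩ i
      by_cases hi : i ∈ S
      · rw [if_pos hi, Finset.mem_range]
        have := h3 i hi
        omega
      · rw [if_neg hi]
        exact h2 i
    · intro h2
      refine ⟨fun i => ?_, fun i hi => ?_⟩
      · have h3 := h2 i
        by_cases hi : i ∈ S
        · rw [if_pos hi, Finset.mem_range] at h3
          rw [Finset.mem_range]
          omega
        · rw [if_neg hi] at h3
          exact h3
      · have h3 := h2 i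
        rw [if_pos hi, Finset.mem_range] at h3
        omega
  rw [h1, Fintype.card_piFinset, ← Finset.prod_mul_prod_compl S]
  apply congrArg₂ (· * ·)
  · apply Finset.prod_congr rfl
    intro i hi
    rw [if_pos hi, Finset.card_range]
  · apply Finset.prod_congr rfl
    intro i hi
    rw [if_neg (Finset.mem_compl.mp hi), Finset.card_range]

end Pool.Agent.CI
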