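import Pool.Agent.Lib_MP_b9fedf_ci.CardA

/-! [CI-C5]: cardinalities, second part. -/

set_option autoImplicit false

namespace Pool.Agent.CI

variable {κ : Type} [Fintype κ] [DecidableEq κ]

/-- the number of reduced elements -/
def bigSum (n : ℕ) (d : κ → ℕ) (α β : ℕ) : ℕ :=
  ∑ S : Finset κ, ∑ a ∈ AS d S, ((EN κ n β).filter (fun p => supp p.1 = S)).card *
    hbd n d S (α - ∑ i, a i)

private theorem choose_mono_half (N : ℕ) (b : ℕ) (hb : b ≤ N / 2) (a : ℕ) (hab : a ≤ b) :
    N.choose a ≤ N.choose b := by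
  induction b with
  | zero =>
    have : a = 0 := by omega
    rw [this]
  | succ b ih =>
    rcases Nat.lt_or_ge a (b + 1) with h | h
    · exact (ih (by omega) (by omega)).trans (Nat.choose_le_succ_of_lt_half_left (by omega))
    · have : a = b + 1 := by omega
      rw [this]

private theorem term_eq (n : ℕ) (hn : 1 ≤ n) (d : κ → ℕ) (α β : ℕ) (S : Finset κ)
    (hS : S.card + 1 = n) :
    ∑ a ∈ AS d S, ((EN κ n β).filter (fun p => supp p.1 = S)).card * hbd n d S (α - ∑ i, a i) =
      (∏ i, d i) * (∏ i ∈ S, (d i - 1)) * (β + n).choose (2 * n - 1) := by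
  have h1 : ∀ a ∈ AS d S, ((EN κ n β).filter (fun p => supp p.1 = S)).card *
      hbd n d S (α - ∑ i, a i) = (β + n).choose (2 * n - 1) * ∏ i ∈ S, d i := by
    intro a _
    rw [card_EN]
    unfold hbd
    rw [if_neg (by omega), if_pos hS]
    have h2 : S.card + n = 2 * n - 1 := by omega
    rw [h2]
  rw [Finset.sum_congr rfl h1, Finset.sum_const, smul_eq_mul, card_AS,
    ← Finset.prod_mul_prod_compl S d]
  ring

private theorem term_le (n : ℕ) (d : κ → ℕ) (α β : ℕ) (hβ : 4 * n ≤ β)
    (S : Finset κ) (hS : S.card + 1 < n) :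
    ∑ a ∈ AS d S, ((EN κ n β).filter (fun p => supp p.1 = S)).card * hbd n d S (α - ∑ i, a i) ≤
      (∏ i, d i) * mnum n α * (β + n).choose (2 * n - 2) := by
  have h1 : ∀ a ∈ AS d S, ((EN κ n β).filter (fun p => supp p.1 = S)).card *
      hbd n d S (α - ∑ i, a i) ≤ (β + n).choose (2 * n - 2) * mnum n α := by
    intro a _
    rw [card_EN]
    unfold hbd
    rw [if_neg (by omega), if_neg (by omega)]
    refine Nat.mul_le_mul (choose_mono_half _ _ (by omega) _ (by omega)) ?_
    unfold mnum
    exact Finset.single_le_sum (f := fun r =>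
      (Finset.finsuppAntidiag (Finset.univ : Finset (Fin (n + 1))) r).card)
      (fun _ _ => Nat.zero_le _) (Finset.mem_range.mpr (by omega))
  refine (Finset.sum_le_sum h1).trans ?_
  rw [Finset.sum_const, smul_eq_mul, card_AS]
  have h2 : (∏ i ∈ S, (d i - 1)) * ∏ i ∈ Sᶜ, d i ≤ ∏ i, d i := by
    rw [← Finset.prod_mul_prod_compl S d]
    exact Nat.mul_le_mul (Finset.prod_le_prod' fun i _ => Nat.sub_le _ _) le_rfl
  calc (∏ i ∈ S, (d i - 1)) * (∏ i ∈ Sᶜ, d i) * ((β + n).choose (2 * n - 2) * mnum n α)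
      ≤ (∏ i, d i) * ((β + n).choose (2 * n - 2) * mnum n α) := Nat.mul_le_mul h2 le_rfl
    _ = (∏ i, d i) * mnum n α * (β + n).choose (2 * n - 2) := by ring

private theorem term_zero (n : ℕ) (d : κ → ℕ) (α β : ℕ) (S : Finset κ) (hS : n ≤ S.card) :
    ∑ a ∈ AS d S, ((EN κ n β).filter (fun p => supp p.1 = S)).card * hbd n d S (α - ∑ i, a i) =
      0 := by
  refine Finset.sum_eq_zero fun a _ => ?_
  unfold hbd
  rw [if_pos hS, mul_zero]

/-- [CI-C5c] Proof.  `n ≤ card S`: zero.  `card S + 1 = n`: `card (AS d S) * (β + n).choose (2 n - 1) * ∏ i ∈ S, d i = (∏ i, d i) * ∏ i ∈ S, (d i - 1) * …`.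
`card S + 1 < n`: `card (AS d S) ≤ ∏ d i`, `(β + n).choose (card S + n) ≤ (β + n).choose (2 n - 2)` as `card S + n ≤ 2 n - 2 ≤ (β + n) / 2`, the last factor is at most
`mnum n α`, and there are at most `2 ^ card κ` sets `S`. -/
theorem bigSum_le (n : ℕ) (hn : 1 ≤ n) (d : κ → ℕ) (α β : ℕ) (hβ : 4 * n ≤ β) :
    bigSum n d α β ≤ kap1 n d α β := by
  unfold bigSum
  set f : Finset κ → ℕ := fun S => ∑ a ∈ AS d S,
    ((EN κ n β).filter (fun p => supp p.1 = S)).card * hbd n d S (α - ∑ i, a i) with hf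
  set g1 : Finset κ → ℕ := fun S => if S.card = n - 1 then
    (∏ i, d i) * (∏ i ∈ S, (d i - 1)) * (β + n).choose (2 * n - 1) else 0 with hg1
  set g2 : ℕ := (∏ i, d i) * mnum n α * (β + n).choose (2 * n - 2) with hg2
  have h1 : ∀ S : Finset κ, f S ≤ g1 S + g2 := by
    intro S
    rcases lt_trichotomy (S.card + 1) n with h | h | h
    · exact (term_le n d α β hβ S h).trans (Nat.le_add_left _ _)
    · have h2 : f S = g1 S := by
        rw [hf, hg1]
        simp only
        rw [if_pos (by omega)]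
        exact term_eq n hn d α β S h
      rw [h2]
      exact Nat.le_add_right _ _
    · have h2 : f S = 0 := term_zero n d α β S (by omega)
      rw [h2]
      exact Nat.zero_le _
  have h2 : ∑ S : Finset κ, g1 S = (∏ i, d i) * es d (n - 1) * (β + n).choose (2 * n - 1) := by
    rw [hg1]
    simp only
    rw [← Finset.sum_filter]
    have h3 : (Finset.univ : Finset (Finset κ)).filter (fun S => S.card = n - 1) =
        (Finset.univ : Finset κ).powersetCard (n - 1) := by
      ext S
      rw [Finset.mem_filter, Finset.mem_powersetCard]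
      exact ⟨fun h => ⟨Finset.subset_univ _, h.2⟩, fun h => ⟨Finset.mem_univ _, h.2⟩⟩
    rw [h3]
    unfold es
    rw [Finset.mul_sum, Finset.sum_mul]
  have h3 : ∑ S : Finset κ, f S ≤ ∑ S : Finset κ, (g1 S + g2) := Finset.sum_le_sum fun S _ => h1 S
  refine h3.trans ?_
  rw [Finset.sum_add_distrib, h2, Finset.sum_const, Finset.card_univ, Fintype.card_finset,
    smul_eq_mul]
  unfold kap1
  refine Nat.add_le_add le_rfl (le_of_eq ?_)
  rw [hg2]
  ring

/-- the indices of the functions of the lower bound: `(θ, a, e, ν)` -/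
def OM (n : ℕ) (d : κ → ℕ) (β : ℕ) : Finset ((κ → ℕ) × (κ → ℕ) × (κ → ℕ) × (Fin (n + 1) → ℕ)) :=
  ((Fintype.piFinset fun i => Finset.range (d i)) ×ˢ
    ((Fintype.piFinset fun i => Finset.range (d i)) ×ˢ EN κ n β)).filter
      (fun p => (supp p.2.2.1).card = n ∧
        ∀ i, (p.2.2.1 i ≠ 0 → p.2.1 i + 1 < d i) ∧ (p.2.2.1 i = 0 → p.2.1 i = 0))

/-- the exponents `a` of the lower bound for the support `S` -/
private def AT (d : κ → ℕ) (S : Finset κ) : Finset (κ → ℕ) :=
  Fintype.piFinset fun i => if i ∈ S then Finset.range (d i - 1) else {0}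

private theorem card_AT (d : κ → ℕ) (S : Finset κ) : (AT d S).card = ∏ i ∈ S, (d i - 1) := by
  unfold AT
  rw [Fintype.card_piFinset, ← Finset.prod_mul_prod_compl S]
  have h1 : ∏ i ∈ S, (if i ∈ S then Finset.range (d i - 1) else {0}).card = ∏ i ∈ S, (d i - 1) := by
    refine Finset.prod_congr rfl fun i hi => ?_
    rw [if_pos hi, Finset.card_range]
  have h2 : ∏ i ∈ Sᶜ, (if i ∈ S then Finset.range (d i - 1) else {0}).card = 1 := by
    refine Finset.prod_eq_one fun i hi => ?_
    rw [if_neg (Finset.mem_compl.mp hi), Finset.card_singleton]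
  rw [h1, h2, mul_one]

omit [DecidableEq κ] in
private theorem mem_supp' (e : κ → ℕ) (i : κ) : i ∈ supp e ↔ e i ≠ 0 := by
  unfold supp
  rw [Finset.mem_filter]
  exact ⟨fun h => h.2, fun h => ⟨Finset.mem_univ _, h⟩⟩

/-- [CI-C5d] Proof.  For the support `S` of `e`, `card S = n`: `∏ d i` choices of `θ`, `∏ i ∈ S, (d i - 1)` of `a`, `(β + n).choose (2 n)` of
`(e, ν)`. -/
theorem card_OM (n : ℕ) (d : κ → ℕ) (hd : ∀ i, 2 ≤ d i) (β : ℕ) : (OM n d β).card = kap0 n d β := by
  have h1 : OM n d β = (Finset.powersetCard n (Finset.univ : Finset κ)).biUnion (fun S =>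
      (Fintype.piFinset fun i => Finset.range (d i)) ×ˢ
        (AT d S ×ˢ (EN κ n β).filter (fun p => supp p.1 = S))) := by
    ext p
    obtain ⟨θ, a, e, ν⟩ := p
    unfold OM AT
    simp only [Finset.mem_filter, Finset.mem_product, Finset.mem_biUnion, Finset.mem_powersetCard,
      Fintype.mem_piFinset, Finset.mem_range]
    constructor
    · rintro ⟨⟨h1, h2, h3⟩, h4, h5⟩
      refine ⟨supp e, ⟨Finset.subset_univ _, h4⟩, h1, fun i => ?_, h3, rfl⟩
      by_cases hi : i ∈ supp e
      · rw [if_pos hi, Finset.mem_range]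
        have h6 : e i ≠ 0 := (mem_supp' e i).mp hi
        have := (h5 i).1 h6
        omega
      · rw [if_neg hi, Finset.mem_singleton]
        refine (h5 i).2 ?_
        by_contra h6
        exact hi ((mem_supp' e i).mpr h6)
    · rintro ⟨S, ⟨-, hS⟩, h1, h2, h3, h4⟩
      subst h4
      refine ⟨⟨h1, fun i => ?_, h3⟩, hS, fun i => ⟨fun h6 => ?_, fun h6 => ?_⟩⟩
      · have h7 := h2 i
        by_cases hi : i ∈ supp e
        · rw [if_pos hi, Finset.mem_range] at h7
          omega
        · rw [if_neg hi, Finset.mem_singleton] at h7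
          have := hd i
          omega
      · have h7 := h2 i
        rw [if_pos ((mem_supp' e i).mpr h6), Finset.mem_range] at h7
        omega
      · have h7 := h2 i
        rw [if_neg (fun h8 => (mem_supp' e i).mp h8 h6), Finset.mem_singleton] at h7
        exact h7
  rw [h1, Finset.card_biUnion]
  · unfold kap0 es
    rw [Finset.mul_sum, Finset.sum_mul]
    refine Finset.sum_congr rfl fun S hS => ?_
    have hc : S.card = n := (Finset.mem_powersetCard.mp hS).2
    rw [Finset.card_product, Finset.card_product, card_AT, card_EN, Fintype.card_piFinset, hc]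
    have h2 : n + n = 2 * n := by ring
    rw [h2, ← mul_assoc]
    refine congrArg₂ (· * ·) (congrArg₂ (· * ·) (Finset.prod_congr rfl fun i _ => ?_) rfl) rfl
    exact Finset.card_range _
  · intro S _ T _ hST
    rw [Function.onFun, Finset.disjoint_left]
    rintro ⟨θ, a, e, ν⟩ hp hq
    simp only [Finset.mem_product, Finset.mem_filter] at hp hq
    exact hST (hp.2.2.2.symm.trans hq.2.2.2)

end Pool.Agent.CI
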