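import Pool.Agent.Lib_MP_b9fedf_ci.Curve2

/-! [CI-A5]: circle averages. -/

set_option autoImplicit false

namespace Pool.Agent.CI
open MvPolynomial Filter Metric Real Set Function MeromorphicOn ValueDistribution
open Pool.Agent.GGL Pool.Agent.GH

variable {N h : ℕ} {ι : Type}

/-- `a ^ d` times the derivative of `h / f_k ^ d` -/
private lemma quot_deriv (u v : ℂ → ℂ) (z : ℂ) (hu : DifferentiableAt ℂ u z)
    (hv : DifferentiableAt ℂ v z) (hv0 : v z ≠ 0) (d : ℕ) :
    v z ^ d * deriv (fun w => u w / v w ^ d) z =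
      deriv u z - d * (deriv v z / v z) * u z := by
  have h1 : HasDerivAt (fun w => v w ^ d) (d * v z ^ (d - 1) * deriv v z) z :=
    hv.hasDerivAt.fun_pow d
  have h2 := hu.hasDerivAt.fun_div h1 (pow_ne_zero d hv0)
  rw [h2.deriv]
  cases d with
  | zero => simp
  | succ d =>
    simp only [Nat.add_sub_cancel]
    field_simp
    ring

/-- the estimate of the derivative -/
private lemma good_deriv (u v : ℂ → ℂ) (z : ℂ) (B : ℝ) (hu : Differentiable ℂ u)
    (hv : Differentiable ℂ v) (hv0 : v z ≠ 0) (d : ℕ)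
    (hg : Good (fun w => u w / v w ^ d) B z) :
    ‖deriv u z - d * (deriv v z / v z) * u z‖ ≤ Real.exp 1 * B * ‖u z‖ := by
  have han : AnalyticAt ℂ (fun w => u w / v w ^ d) z :=
    (hu.analyticAt z).fun_div ((hv.analyticAt z).fun_pow d) (pow_ne_zero d hv0)
  have h1 := hg han 1
  rw [iteratedDeriv_one] at h1
  rw [← quot_deriv u v z (hu z) (hv z) hv0 d, norm_mul]
  have hp : 0 < ‖v z ^ d‖ := norm_pos_iff.mpr (pow_ne_zero d hv0)
  calc ‖v z ^ d‖ * ‖deriv (fun w => u w / v w ^ d) z‖ ≤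
      ‖v z ^ d‖ * (Real.exp 1 * (Nat.factorial 1 : ℕ) * B ^ 1 * ‖u z / v z ^ d‖) :=
        mul_le_mul_of_nonneg_left h1 hp.le
    _ = Real.exp 1 * B * ‖u z‖ := by
        rw [norm_div]
        field_simp
        simp

/-- the estimate in the normalised direction -/
private lemma norm_phi_le2 {α β : ℕ} {C : ℝ} {d : ι → ℕ} (F : ι → MvPolynomial (Fin (N + 1)) ℂ)
    (hF : ∀ i, (F i).IsHomogeneous (d i)) (l : Fin h → Fin (N + 1) → ℂ)
    (G : MvPolynomial (XV N) ℂ) (hG : BiHom α β G) (hest : PtL α β C F l G)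
    (f : ℂ → Fin (N + 1) → ℂ) (hf : Differentiable ℂ f) (hfF : ∀ i z, eval (f z) (F i) = 0)
    (k : Fin (N + 1)) (z : ℂ) (B : ℝ) (hB : 1 ≤ B) (hk : f z k ≠ 0)
    (hg1 : ∀ j, Good (fun w => f w j / f w k) B z) :
    ‖phi G f k z‖ * ‖f z‖ ^ h ≤
      ‖f z k‖ ^ β * (C * ‖f z‖ ^ α * (4 * B * ‖f z‖) ^ β *
        ∏ j, ‖eval (f z) (lf (l j))‖) := by
  have hfj : ∀ j, Differentiable ℂ (fun w => f w j) := fun j => differentiable_pi.mp hf j
  set a : ℂ := f z k with ha
  set W : Fin (N + 1) → ℂ := fun j => a⁻¹ * tng f k z j with hW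
  have htng : tng f k z = a • W := by
    funext j
    rw [hW, Pi.smul_apply, smul_eq_mul]
    rw [← mul_assoc, mul_inv_cancel₀ hk, one_mul]
  have he : Real.exp 1 ≤ 3 := by
    have := Real.exp_one_lt_d9
    linarith
  have he0 : 0 < Real.exp 1 := Real.exp_pos 1
  have hB0 : 0 < B := by linarith
  -- the components of `W`
  have hWj : ∀ j, ‖W j‖ ≤ Real.exp 1 * B * ‖f z j‖ := by
    intro j
    have h1 := good_deriv (fun w => f w j) (fun w => f w k) z B (hfj j) (hfj k) hk 1
      (by simpa using hg1 j)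
    have h2 : W j = deriv (fun w => f w j) z - (1 : ℕ) *
        (deriv (fun w => f w k) z / f z k) * f z j := by
      rw [hW]
      simp only [tng]
      rw [← ha]
      push_cast
      field_simp
    rw [h2]
    exact h1
  have hWn : ‖W‖ ≤ Real.exp 1 * B * ‖f z‖ := by
    rw [pi_norm_le_iff_of_nonneg (by positivity)]
    intro j
    refine (hWj j).trans ?_
    exact mul_le_mul_of_nonneg_left (norm_le_pi_norm (f z) j) (by positivity)
  have hf0 : f z ≠ 0 := by
    intro h
    exact hk (congrFun h k)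
  have hfn : 0 < ‖f z‖ := norm_pos_iff.mpr hf0
  have hinc : Inc F (f z) W := by
    intro i
    have h1 := inc_curve F hF f hf hfF k z i
    refine ⟨h1.1, ?_⟩
    have h2 : dv (F i) (f z) W = a⁻¹ * dv (F i) (f z) (tng f k z) := by
      simp only [dv, hW]
      rw [Finset.mul_sum]
      exact Finset.sum_congr rfl fun j _ => by ring
    rw [h2, h1.2, mul_zero]
  have hWs : ‖W‖ ≤ 4 * B * ‖f z‖ := by
    refine hWn.trans ?_
    have h1 : Real.exp 1 * B ≤ 4 * B := by nlinarith
    exact mul_le_mul_of_nonneg_right h1 hfn.le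
  have hphi : phi G f k z = a ^ β * eval (Sum.elim (f z) W) G := by
    have h1 := eval_bihom hG 1 a (f z) W
    rw [one_smul, one_pow, one_mul] at h1
    rw [phi, htng, h1]
  have h2 := hest.2 (f z) W (4 * B * ‖f z‖) hf0 hinc (by positivity) hWs
  rw [hphi, norm_mul, norm_pow, mul_assoc]
  exact mul_le_mul_of_nonneg_left h2 (by positivity)

/-- [CI-A5a] Pointwise.  Adapt `GH.log_phi` / `norm_phi_le` (Lib_MP_b9fedf_gh/CurveB.lean): `W = (1 / f_k) • tng f k`,
`‖W‖ ≤ e B ‖f‖ ≤ 4 B ‖f‖`, `Inc F f W`, `Φ = f_k ^ β G(f, W)`, and `PtL` at `(f, W)` with `s = 4 B ‖f‖`. -/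
theorem log2 {α β : ℕ} {C : ℝ} {d : ι → ℕ} (F : ι → MvPolynomial (Fin (N + 1)) ℂ)
    (hF : ∀ i, (F i).IsHomogeneous (d i)) (l : Fin h → Fin (N + 1) → ℂ)
    (G : MvPolynomial (XV N) ℂ) (hG : BiHom α β G) (hC : 0 < C) (hest : PtL α β C F l G)
    (f : ℂ → Fin (N + 1) → ℂ) (hf : Differentiable ℂ f) (hfF : ∀ i z, eval (f z) (F i) = 0)
    (k : Fin (N + 1)) (z : ℂ) (B : ℝ)
    (hB : 1 ≤ B) (hk : f z k ≠ 0) (hh : ∀ j, eval (f z) (lf (l j)) ≠ 0) (hΦ : phi G f k z ≠ 0)
    (hg1 : ∀ j, Good (fun w => f w j / f w k) B z) :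
    Real.log ‖phi G f k z‖ + ((h : ℝ) - α - β) * Real.log ‖f z‖ ≤
      β * Real.log ‖f z k‖ + ∑ j, Real.log ‖eval (f z) (lf (l j))‖ + Real.log C +
        β * (Real.log 4 + Real.log B) := by
  have hB0 : 0 < B := by linarith
  have hf0 : 0 < ‖f z‖ := by
    rw [norm_pos_iff]
    intro h
    exact hk (congrFun h k)
  have hk0 : 0 < ‖f z k‖ := norm_pos_iff.mpr hk
  have hh0 : ∀ j, 0 < ‖eval (f z) (lf (l j))‖ := fun j => norm_pos_iff.mpr (hh j)
  have hΦ0 : 0 < ‖phi G f k z‖ := norm_pos_iff.mpr hΦ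
  have h4B : 0 < 4 * B := by positivity
  have h1 := norm_phi_le2 F hF l G hG hest f hf hfF k z B hB hk hg1
  have hprod : 0 < ∏ j, ‖eval (f z) (lf (l j))‖ := Finset.prod_pos fun j _ => hh0 j
  have h2 := Real.log_le_log (by positivity) h1
  rw [Real.log_mul hΦ0.ne' (by positivity), Real.log_mul (by positivity) (by positivity),
    Real.log_mul (by positivity) hprod.ne', Real.log_mul (by positivity) (by positivity),
    Real.log_mul hC.ne' (by positivity), Real.log_pow, Real.log_pow, Real.log_pow, Real.log_pow,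
    Real.log_mul h4B.ne' hf0.ne', Real.log_mul (by norm_num) hB0.ne',
    Real.log_prod (fun j _ => (hh0 j).ne')] at h2
  linarith

/-- [CI-A5b] The estimate on good circles.  Adapt `GH.circ_est`: average `log2`, Jensen for `Φ`, `f_k`, the `l_j(f)`, `N(f_k) ≤ T + C`, and
`∑ N(l_j(f)) ≤ N(Φ)` by `ord2`. -/
theorem circ2 {α β : ℕ} {C : ℝ} {d : ι → ℕ} (F : ι → MvPolynomial (Fin (N + 1)) ℂ)
    (hF : ∀ i, (F i).IsHomogeneous (d i)) (l : Fin h → Fin (N + 1) → ℂ)
    (G : MvPolynomial (XV N) ℂ) (hG : BiHom α β G) (hest : PtL α β C F l G)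
    (f : ℂ → Fin (N + 1) → ℂ) (hf : Differentiable ℂ f) (hf0 : ∀ z, f z ≠ 0)
    (hfF : ∀ i z, eval (f z) (F i) = 0) (k : Fin (N + 1))
    (hk : ∃ z, f z k ≠ 0) (hne : ∀ j, ∃ z, eval (f z) (lf (l j)) ≠ 0) (hΦ : ∃ z, phi G f k z ≠ 0) :
    ∃ C' : ℝ, 0 ≤ C' ∧ ∀ (r B : ℝ), 1 ≤ r → 1 ≤ B →
      (∀ j, ∀ z ∈ sphere (0 : ℂ) r, Good (fun w => f w j / f w k) B z) →
      ((h : ℝ) - α - 2 * β) * circleAverage (fun z => Real.log ‖f z‖) 0 r ≤
        C' * (1 + Real.log B) := by
  classical
  have hfj : ∀ j, Differentiable ℂ (fun w => f w j) := fun j => differentiable_pi.mp hf j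
  have hΦd : Differentiable ℂ (phi G f k) := phi_diff G f hf k
  have hhd : ∀ j, Differentiable ℂ (fun z => eval (f z) (lf (l j))) := fun j =>
    comp_diff (lf (l j)) f hf
  have hC : 0 < C := by
    rcases hest.1.lt_or_eq with hC | hC
    · exact hC
    · exfalso
      obtain ⟨z, hz⟩ := hΦ
      have h1 := hest.2 (f z) (tng f k z) (‖tng f k z‖ + 1) (hf0 z) (inc_curve F hF f hf hfF k z)
        (by positivity) (by linarith)
      rw [← hC, zero_mul, zero_mul, zero_mul] at h1
      have h2 : 0 < ‖eval (Sum.elim (f z) (tng f k z)) G‖ * ‖f z‖ ^ h := by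
        have h3 : 0 < ‖f z‖ := norm_pos_iff.mpr (hf0 z)
        have h4 : 0 < ‖eval (Sum.elim (f z) (tng f k z)) G‖ := norm_pos_iff.mpr hz
        positivity
      linarith
  -- the multiplicities
  have hdiv : ∀ r : ℝ, 1 ≤ r → ∑ j, Function.locallyFinsuppWithin.logCounting
        (Dv (fun z => eval (f z) (lf (l j)))) r ≤
      Function.locallyFinsuppWithin.logCounting (Dv (phi G f k)) r := by
    intro r hr
    have h1 : (∑ j, Dv (fun z => eval (f z) (lf (l j)))) ≤ Dv (phi G f k) := by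
      intro z
      have h2 := ord2 F hF l G hest f hf hf0 hfF k hne hΦ z
      rw [locallyFinsuppWithin.coe_sum, Finset.sum_apply, Dv_apply hΦd]
      have h3 : ∀ j, (Dv (fun z => eval (f z) (lf (l j)))) z =
          ((analyticOrderAt (fun w => eval (f w) (lf (l j))) z).toNat : ℤ) := by
        intro j
        rw [Dv_apply (hhd j)]
      rw [Finset.sum_congr rfl fun j _ => h3 j]
      have h4 : ((∑ j, (analyticOrderAt (fun w => eval (f w) (lf (l j))) z).toNat : ℕ) : ℤ) ≤
          ((analyticOrderAt (phi G f k) z).toNat : ℤ) := Int.ofNat_le.mpr h2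
      rw [Nat.cast_sum] at h4
      exact h4
    have h2 := Function.locallyFinsuppWithin.logCounting_le h1 hr
    rw [map_sum, Finset.sum_apply] at h2
    exact h2
  obtain ⟨C1, hC1⟩ := N_le_TF (σ := Fin (N + 1)) (f := fun j z => f z j) hfj
    (fun z => by
      by_contra hcon
      push Not at hcon
      exact hf0 z (funext hcon)) (hfj k) hk 1 1
    (fun z => by
      rw [pow_one, one_mul]
      exact norm_le_pi_norm (f z) k)
  set κ : ℝ := (h : ℝ) - α - β with hκ
  set K : ℝ := Real.log C + β * Real.log 4 +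
    (∑ j, Real.log ‖meromorphicTrailingCoeffAt (fun z => eval (f z) (lf (l j))) 0‖) +
    β * Real.log ‖meromorphicTrailingCoeffAt (fun z => f z k) 0‖ -
    Real.log ‖meromorphicTrailingCoeffAt (phi G f k) 0‖ + β * C1 with hK
  have hβ0 : (0 : ℝ) ≤ β := Nat.cast_nonneg _
  refine ⟨|K| + β, by positivity, ?_⟩
  intro r B hr hB hgood1
  have hr0 : 0 < r := by linarith
  have hvI : CircleIntegrable (fun z => Real.log ‖f z‖) 0 r := vec_integrable hfj r
  have hΦI := log_integrable (mero_of_diff hΦd) r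
  have hkI := log_integrable (mero_of_diff (hfj k)) r
  have hhI : ∀ j, CircleIntegrable (fun z => Real.log ‖eval (f z) (lf (l j))‖) 0 r := fun j =>
    log_integrable (mero_of_diff (hhd j)) r
  have hsI : CircleIntegrable (fun z => ∑ j, Real.log ‖eval (f z) (lf (l j))‖) 0 r := by
    have := CircleIntegrable.sum Finset.univ (f := fun j z => Real.log ‖eval (f z) (lf (l j))‖)
      (c := 0) (R := r) (fun k _ => hhI k)
    convert! this using 1
    ext z
    simp
  have hcI : CircleIntegrable (fun z => (∑ j, Real.log ‖eval (f z) (lf (l j))‖) +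
      (Real.log C + β * (Real.log 4 + Real.log B))) 0 r :=
    CircleIntegrable.add hsI (circleIntegrable_const _ _ _)
  have h1 : circleAverage (fun z => Real.log ‖phi G f k z‖ + κ * Real.log ‖f z‖) 0 r ≤
      circleAverage (fun z => β * Real.log ‖f z k‖ + ((∑ j, Real.log ‖eval (f z) (lf (l j))‖) +
        (Real.log C + β * (Real.log 4 + Real.log B)))) 0 r := by
    apply circleAverage_mono_codiscrete hr0
      (CircleIntegrable.add hΦI (ci_mul κ hvI))
      (CircleIntegrable.add (ci_mul (β : ℝ) hkI) hcI)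
    have h2 : ∀ᶠ z in codiscreteWithin (sphere (0 : ℂ) r), ∀ j, eval (f z) (lf (l j)) ≠ 0 :=
      Filter.eventually_all.mpr fun j => nonzero_codiscrete (hhd j) (hne j) r
    filter_upwards [h2, nonzero_codiscrete hΦd hΦ r, nonzero_codiscrete (hfj k) hk r,
      self_mem_codiscreteWithin _] with z hz hΦz hkz hzs
    have := log2 F hF l G hG hC hest f hf hfF k z B hB hkz hz hΦz (fun j => hgood1 j z hzs)
    show Real.log ‖phi G f k z‖ + κ * Real.log ‖f z‖ ≤
      β * Real.log ‖f z k‖ + ((∑ j, Real.log ‖eval (f z) (lf (l j))‖) +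
        (Real.log C + β * (Real.log 4 + Real.log B)))
    linarith
  rw [circleAverage_fun_add hΦI (ci_mul κ hvI),
    circleAverage_fun_add (ci_mul (β : ℝ) hkI) hcI,
    circleAverage_fun_add hsI (circleIntegrable_const _ _ _),
    circleAverage_const, ca_mul, ca_mul, circleAverage_fun_sum (fun k _ => hhI k),
    jensen (mero_of_diff hΦd) hr, jensen (mero_of_diff (hfj k)) hr] at h1
  have h4 : ∑ j, circleAverage (fun z => Real.log ‖eval (f z) (lf (l j))‖) 0 r =
      ∑ j, Function.locallyFinsuppWithin.logCounting (Dv (fun z => eval (f z) (lf (l j)))) r +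
        ∑ j, Real.log ‖meromorphicTrailingCoeffAt (fun z => eval (f z) (lf (l j))) 0‖ := by
    rw [← Finset.sum_add_distrib]
    exact Finset.sum_congr rfl fun k _ => jensen (mero_of_diff (hhd k)) hr
  rw [h4] at h1
  have h5 := hdiv r hr
  have h6 : Function.locallyFinsuppWithin.logCounting (Dv (fun z => f z k)) r ≤
      circleAverage (fun z => Real.log ‖f z‖) 0 r + C1 := by
    have := hC1 r hr
    rw [Nat.cast_one, one_mul] at this
    exact this
  have h7 := mul_le_mul_of_nonneg_left h6 hβ0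
  have hlogB : 0 ≤ Real.log B := Real.log_nonneg hB
  have h8 : K ≤ |K| := le_abs_self _
  have h9 : 0 ≤ |K| * Real.log B := by positivity
  set A := circleAverage (fun z => Real.log ‖f z‖) 0 r with hA
  have h10 : (κ - β) * A ≤ K + β * Real.log B := by
    rw [hK]
    linarith
  have h11 : (h : ℝ) - α - 2 * β = κ - β := by rw [hκ]; ring
  rw [h11]
  nlinarith

end Pool.Agent.CI
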