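import Pool.Agent.Lib_MP_b9fedf_ci.Curve3
import Pool.Agent.Lib_MP_b9fedf_ci.Circ2

/-! [CI-F2]: circle averages for an invariant form. -/

set_option autoImplicit false

namespace Pool.Agent.CI
open MvPolynomial Filter Metric Real Set Function MeromorphicOn ValueDistribution
open Pool.Agent.GGL Pool.Agent.GH

variable {N h : ℕ} {ι : Type}

/-- the derivative of `u / v` -/
private lemma quot_deriv (u v : ℂ → ℂ) (z : ℂ) (hu : DifferentiableAt ℂ u z)
    (hv : DifferentiableAt ℂ v z) (hv0 : v z ≠ 0) :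
    v z * deriv (fun w => u w / v w) z = deriv u z - (deriv v z / v z) * u z := by
  have h2 := hu.hasDerivAt.fun_div hv.hasDerivAt hv0
  rw [h2.deriv]
  field_simp

/-- the estimate of the derivative -/
private lemma good_deriv (u v : ℂ → ℂ) (z : ℂ) (B : ℝ) (hu : Differentiable ℂ u)
    (hv : Differentiable ℂ v) (hv0 : v z ≠ 0) (hg : Good (fun w => u w / v w) B z) :
    ‖deriv u z - (deriv v z / v z) * u z‖ ≤ Real.exp 1 * B * ‖u z‖ := by
  have han : AnalyticAt ℂ (fun w => u w / v w) z :=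
    (hu.analyticAt z).fun_div (hv.analyticAt z) hv0
  have h1 := hg han 1
  rw [iteratedDeriv_one] at h1
  rw [← quot_deriv u v z (hu z) (hv z) hv0, norm_mul]
  have hp : 0 < ‖v z‖ := norm_pos_iff.mpr hv0
  calc ‖v z‖ * ‖deriv (fun w => u w / v w) z‖ ≤
      ‖v z‖ * (Real.exp 1 * (Nat.factorial 1 : ℕ) * B ^ 1 * ‖u z / v z‖) :=
        mul_le_mul_of_nonneg_left h1 hp.le
    _ = Real.exp 1 * B * ‖u z‖ := by
        rw [norm_div]
        field_simp
        simp

/-- pointwise, norms -/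
private lemma norm_psi3 {α β : ℕ} {C : ℝ} {d : ι → ℕ} (F : ι → MvPolynomial (Fin (N + 1)) ℂ)
    (hF : ∀ i, (F i).IsHomogeneous (d i)) (l : Fin h → Fin (N + 1) → ℂ)
    (G : MvPolynomial (XV N) ℂ) (hinv : Inva F G) (hest : PtL α β C F l G)
    (f : ℂ → Fin (N + 1) → ℂ) (hf : Differentiable ℂ f) (hfF : ∀ i z, eval (f z) (F i) = 0)
    (k : Fin (N + 1)) (z : ℂ) (B : ℝ) (hB : 1 ≤ B) (hk : f z k ≠ 0)
    (hg1 : ∀ j, Good (fun w => f w j / f w k) B z) :
    ‖psi G f z‖ * ‖f z‖ ^ h ≤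
      C * ‖f z‖ ^ α * (4 * B * ‖f z‖) ^ β * ∏ j, ‖eval (f z) (lf (l j))‖ := by
  have hfj : ∀ j, Differentiable ℂ (fun w => f w j) := fun j => differentiable_pi.mp hf j
  set t : ℂ := deriv (fun w => f w k) z / f z k with ht
  set W : Fin (N + 1) → ℂ := fun j => deriv (fun w => f w j) z - t * f z j with hW
  have hdW : dcv f z = W + t • f z := by
    funext j
    rw [hW, Pi.add_apply, Pi.smul_apply, smul_eq_mul]
    simp only [dcv]
    ring
  have he : Real.exp 1 ≤ 3 := by
    have := Real.exp_one_lt_d9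
    linarith
  have he0 : 0 < Real.exp 1 := Real.exp_pos 1
  have hB0 : 0 < B := by linarith
  have h4B : Real.exp 1 * B ≤ 4 * B := by nlinarith
  have hf0 : f z ≠ 0 := by
    intro h
    exact hk (congrFun h k)
  have hfn : 0 < ‖f z‖ := norm_pos_iff.mpr hf0
  -- the components of `W`
  have hWj : ∀ j, ‖W j‖ ≤ Real.exp 1 * B * ‖f z j‖ := fun j =>
    good_deriv (fun w => f w j) (fun w => f w k) z B (hfj j) (hfj k) hk (hg1 j)
  have hWn : ‖W‖ ≤ 4 * B * ‖f z‖ := by
    rw [pi_norm_le_iff_of_nonneg (by positivity)]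
    intro j
    refine (hWj j).trans ?_
    exact mul_le_mul h4B (norm_le_pi_norm (f z) j) (norm_nonneg _) (by positivity)
  have hInc : Inc F (f z) W := by
    intro i
    refine ⟨hfF i z, ?_⟩
    have h0 := (inc_curve3 F f hf hfF z i).2
    have h1 : dv (F i) (f z) W = dv (F i) (f z) (dcv f z) -
        t * ∑ j, eval (f z) (pderiv j (F i)) * f z j := by
      simp only [dv, hW, dcv]
      rw [Finset.mul_sum, ← Finset.sum_sub_distrib]
      exact Finset.sum_congr rfl fun j _ => by ring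
    rw [h1, h0, euler (F i) (hF i) (f z), hfF i z]
    ring
  have hpsi : psi G f z = eval (Sum.elim (f z) W) G := by
    rw [psi, hdW]
    exact hinv (f z) W t hInc
  have h2 := hest.2 (f z) W (4 * B * ‖f z‖) hf0 hInc (by positivity) hWn
  rw [hpsi]
  exact h2

/-- [CI-F2a] Pointwise: `W = f' - (f_k' / f_k) f`, `Ψ = G(f, f') = G(f, W)` (`Inva`), `‖W‖ ≤ 4 B ‖f‖`, `PtL` at `(f, W)` with `s = 4 B ‖f‖`. -/
theorem log3 {α β : ℕ} {C : ℝ} {d : ι → ℕ} (F : ι → MvPolynomial (Fin (N + 1)) ℂ)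
    (hF : ∀ i, (F i).IsHomogeneous (d i)) (l : Fin h → Fin (N + 1) → ℂ)
    (G : MvPolynomial (XV N) ℂ) (hinv : Inva F G) (hC : 0 < C) (hest : PtL α β C F l G)
    (f : ℂ → Fin (N + 1) → ℂ) (hf : Differentiable ℂ f) (hfF : ∀ i z, eval (f z) (F i) = 0)
    (k : Fin (N + 1)) (z : ℂ) (B : ℝ)
    (hB : 1 ≤ B) (hk : f z k ≠ 0) (hh : ∀ j, eval (f z) (lf (l j)) ≠ 0) (hΨ : psi G f z ≠ 0)
    (hg1 : ∀ j, Good (fun w => f w j / f w k) B z) :
    Real.log ‖psi G f z‖ + ((h : ℝ) - α - β) * Real.log ‖f z‖ ≤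
      ∑ j, Real.log ‖eval (f z) (lf (l j))‖ + Real.log C +
        β * (Real.log 4 + Real.log B) := by
  have hB0 : 0 < B := by linarith
  have hf0 : 0 < ‖f z‖ := by
    rw [norm_pos_iff]
    intro h
    exact hk (congrFun h k)
  have hh0 : ∀ i, 0 < ‖eval (f z) (lf (l i))‖ := fun i => norm_pos_iff.mpr (hh i)
  have hΨ0 : 0 < ‖psi G f z‖ := norm_pos_iff.mpr hΨ
  have h4B : 0 < 4 * B := by positivity
  have h1 := norm_psi3 F hF l G hinv hest f hf hfF k z B hB hk hg1
  have hprod : 0 < ∏ i, ‖eval (f z) (lf (l i))‖ := Finset.prod_pos fun i _ => hh0 i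
  have h2 := Real.log_le_log (by positivity) h1
  rw [Real.log_mul hΨ0.ne' (by positivity), Real.log_mul (by positivity) hprod.ne',
    Real.log_mul (by positivity) (by positivity),
    Real.log_mul hC.ne' (by positivity), Real.log_pow, Real.log_pow, Real.log_pow,
    Real.log_mul h4B.ne' hf0.ne', Real.log_mul (by norm_num) hB0.ne',
    Real.log_prod (fun i _ => (hh0 i).ne')] at h2
  push_cast at h2
  linarith

/-- [CI-F2b] as `circ2` -/
theorem circ3 {α β : ℕ} {C : ℝ} {d : ι → ℕ} (F : ι → MvPolynomial (Fin (N + 1)) ℂ)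
    (hF : ∀ i, (F i).IsHomogeneous (d i)) (l : Fin h → Fin (N + 1) → ℂ)
    (G : MvPolynomial (XV N) ℂ) (hinv : Inva F G) (hest : PtL α β C F l G)
    (f : ℂ → Fin (N + 1) → ℂ) (hf : Differentiable ℂ f) (hf0 : ∀ z, f z ≠ 0)
    (hfF : ∀ i z, eval (f z) (F i) = 0) (k : Fin (N + 1))
    (hk : ∃ z, f z k ≠ 0) (hne : ∀ j, ∃ z, eval (f z) (lf (l j)) ≠ 0) (hΨ : ∃ z, psi G f z ≠ 0) :
    ∃ C' : ℝ, 0 ≤ C' ∧ ∀ (r B : ℝ), 1 ≤ r → 1 ≤ B →
      (∀ j, ∀ z ∈ sphere (0 : ℂ) r, Good (fun w => f w j / f w k) B z) →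
      ((h : ℝ) - α - β) * circleAverage (fun z => Real.log ‖f z‖) 0 r ≤
        C' * (1 + Real.log B) := by
  classical
  have hfj : ∀ j, Differentiable ℂ (fun w => f w j) := fun j => differentiable_pi.mp hf j
  have hΨd : Differentiable ℂ (psi G f) := psi_diff G f hf
  have hhd : ∀ i, Differentiable ℂ (fun z => eval (f z) (lf (l i))) := fun i =>
    comp_diff (lf (l i)) f hf
  have hC : 0 < C := by
    rcases hest.1.lt_or_eq with h | h
    · exact h
    · exfalso
      obtain ⟨z, hz⟩ := hΨ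
      have h1 := hest.2 (f z) (dcv f z) (‖dcv f z‖ + 1) (hf0 z)
        (inc_curve3 F f hf hfF z) (by positivity) (by linarith)
      rw [← h, zero_mul, zero_mul, zero_mul] at h1
      have h3 : 0 < ‖f z‖ := norm_pos_iff.mpr (hf0 z)
      have h4 : 0 < ‖eval (Sum.elim (f z) (dcv f z)) G‖ := norm_pos_iff.mpr hz
      exact absurd h1 (not_le.2 (by positivity))
  -- the multiplicities
  have hdiv : ∀ r : ℝ, 1 ≤ r → ∑ i, Function.locallyFinsuppWithin.logCounting
        (Dv (fun z => eval (f z) (lf (l i)))) r ≤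
      Function.locallyFinsuppWithin.logCounting (Dv (psi G f)) r := by
    intro r hr
    have h1 : (∑ i, Dv (fun z => eval (f z) (lf (l i)))) ≤ Dv (psi G f) := by
      intro z
      have h2 := ord3 F l G hest f hf hf0 hfF hne hΨ z
      rw [locallyFinsuppWithin.coe_sum, Finset.sum_apply, Dv_apply hΨd]
      have h3 : ∀ i, (Dv (fun z => eval (f z) (lf (l i)))) z =
          (((analyticOrderAt (fun w => eval (f w) (lf (l i))) z).toNat : ℕ) : ℤ) := fun i =>
        Dv_apply (hhd i) z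
      rw [Finset.sum_congr rfl fun i _ => h3 i]
      have h4 : ((∑ j, (analyticOrderAt (fun w => eval (f w) (lf (l j))) z).toNat : ℕ) : ℤ) ≤
          (((analyticOrderAt (psi G f) z).toNat : ℕ) : ℤ) := Int.ofNat_le.2 h2
      rw [Nat.cast_sum] at h4
      exact h4
    have h2 := Function.locallyFinsuppWithin.logCounting_le h1 hr
    rw [map_sum, Finset.sum_apply] at h2
    exact h2
  set κ' : ℝ := (h : ℝ) - α - β with hκ
  set K : ℝ := Real.log C + β * Real.log 4 +
    (∑ i, Real.log ‖meromorphicTrailingCoeffAt (fun z => eval (f z) (lf (l i))) 0‖) -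
    Real.log ‖meromorphicTrailingCoeffAt (psi G f) 0‖ with hK
  have hβ0 : (0 : ℝ) ≤ β := Nat.cast_nonneg _
  refine ⟨|K| + β, by positivity, ?_⟩
  intro r B hr hB hgood1
  have hr0 : 0 < r := by linarith
  have hvI : CircleIntegrable (fun z => Real.log ‖f z‖) 0 r := vec_integrable hfj r
  have hΨI := log_integrable (mero_of_diff hΨd) r
  have hhI : ∀ i, CircleIntegrable (fun z => Real.log ‖eval (f z) (lf (l i))‖) 0 r := fun i =>
    log_integrable (mero_of_diff (hhd i)) r
  have hsI : CircleIntegrable (fun z => ∑ i, Real.log ‖eval (f z) (lf (l i))‖) 0 r := by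
    have := CircleIntegrable.sum Finset.univ (f := fun i z => Real.log ‖eval (f z) (lf (l i))‖)
      (c := 0) (R := r) (fun k _ => hhI k)
    convert! this using 1
    ext z
    simp
  have h1 : circleAverage (fun z => Real.log ‖psi G f z‖ + κ' * Real.log ‖f z‖) 0 r ≤
      circleAverage (fun z => (∑ i, Real.log ‖eval (f z) (lf (l i))‖) +
        (Real.log C + β * (Real.log 4 + Real.log B))) 0 r := by
    apply circleAverage_mono_codiscrete hr0
      (CircleIntegrable.add hΨI (ci_mul κ' hvI))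
      (CircleIntegrable.add hsI (circleIntegrable_const _ _ _))
    have h2 : ∀ᶠ z in codiscreteWithin (sphere (0 : ℂ) r), ∀ i, eval (f z) (lf (l i)) ≠ 0 :=
      Filter.eventually_all.mpr fun i => nonzero_codiscrete (hhd i) (hne i) r
    filter_upwards [h2, nonzero_codiscrete hΨd hΨ r, nonzero_codiscrete (hfj k) hk r,
      self_mem_codiscreteWithin _] with z hz hΨz hkz hzs
    have := log3 F hF l G hinv hC hest f hf hfF k z B hB hkz hz hΨz (fun j => hgood1 j z hzs)
    show Real.log ‖psi G f z‖ + κ' * Real.log ‖f z‖ ≤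
      (∑ i, Real.log ‖eval (f z) (lf (l i))‖) +
        (Real.log C + β * (Real.log 4 + Real.log B))
    linarith
  rw [circleAverage_fun_add hΨI (ci_mul κ' hvI),
    circleAverage_fun_add hsI (circleIntegrable_const _ _ _),
    circleAverage_const, ca_mul, circleAverage_fun_sum (fun k _ => hhI k),
    jensen (mero_of_diff hΨd) hr] at h1
  have h4 : ∑ i, circleAverage (fun z => Real.log ‖eval (f z) (lf (l i))‖) 0 r =
      ∑ i, Function.locallyFinsuppWithin.logCounting (Dv (fun z => eval (f z) (lf (l i)))) r +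
        ∑ i, Real.log ‖meromorphicTrailingCoeffAt (fun z => eval (f z) (lf (l i))) 0‖ := by
    rw [← Finset.sum_add_distrib]
    exact Finset.sum_congr rfl fun k _ => jensen (mero_of_diff (hhd k)) hr
  rw [h4] at h1
  have h5 := hdiv r hr
  have hlogB : 0 ≤ Real.log B := Real.log_nonneg hB
  have h8 : K ≤ |K| := le_abs_self _
  have h9 : 0 ≤ |K| * Real.log B := by positivity
  set A := circleAverage (fun z => Real.log ‖f z‖) 0 r with hA
  have h10 : κ' * A ≤ K + β * Real.log B := by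
    rw [hK]
    linarith
  nlinarith

end Pool.Agent.CI
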