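import Pool.Agent.Lib_MP_b9fedf_ci.BasicJ

/-! [CI-C23]: clearing denominators. -/

set_option autoImplicit false

namespace Pool.Agent.CI
open MvPolynomial Pool.Agent.GGL Pool.Agent.GH

/-- a common denominator of a finite family of polynomials -/
private theorem clear_fam2 {A W T : Type} [CommRing A] [IsDomain A] [Fintype T]
    (H : T → MvPolynomial W (FractionRing A)) :
    ∃ (d : A) (H' : T → MvPolynomial W A), d ≠ 0 ∧
      ∀ t, MvPolynomial.map (algebraMap A (FractionRing A)) (H' t) =
        C (algebraMap A (FractionRing A) d) * H t := by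
  classical
  obtain ⟨b, hb⟩ := IsLocalization.exist_integer_multiples (nonZeroDivisors A)
    ((Finset.univ : Finset T).sigma (fun t => (H t).support)) (fun p => coeff p.2 (H p.1))
  have hb0 : (b : A) ≠ 0 := nonZeroDivisors.ne_zero b.2
  have hex : ∀ t, ∀ m : W →₀ ℕ,
      ∃ a : A, algebraMap A (FractionRing A) a = (b : A) • coeff m (H t) := by
    intro t m
    by_cases hm : m ∈ (H t).support
    · exact hb ⟨t, m⟩ (Finset.mem_sigma.mpr ⟨Finset.mem_univ t, hm⟩)
    · exact ⟨0, by rw [notMem_support_iff.mp hm, map_zero, smul_zero]⟩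
  choose c hc using hex
  refine ⟨b, fun t => ∑ m ∈ (H t).support, monomial m (c t m), hb0, fun t => ?_⟩
  ext m
  rw [coeff_map, coeff_C_mul, coeff_sum]
  simp only [coeff_monomial]
  rw [Finset.sum_ite_eq']
  split_ifs with h1
  · rw [hc t m, Algebra.smul_def]
  · rw [notMem_support_iff.mp h1, map_zero, mul_zero]

private theorem map_gens {R S : Type} [CommRing R] [CommRing S] (f : R →+* S) {N : ℕ} {κ : Type}
    (F : κ → MvPolynomial (Fin (N + 1)) R) (l : MvPolynomial (Fin (N + 1)) R)
    (s : (κ ⊕ κ) ⊕ Unit) :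
    MvPolynomial.map f (gens F l s) =
      gens (fun i => MvPolynomial.map f (F i)) (MvPolynomial.map f l) s := by
  rcases s with (i | i) | i
  · exact map_inx f (F i)
  · exact map_dif f (F i)
  · exact map_inx f l

/-- [CI-C23] Proof.  `inJ_iff` for each `j`; one common denominator `s` of the coefficients of `P` and of all the multipliers; see `GH.clear_univ` (Lib_MP_b9fedf_gh/Clear.lean). -/
theorem clear_univ2 {A : Type} [CommRing A] [IsDomain A] {N h α β : ℕ} {κ : Type} [Fintype κ]
    (F : κ → MvPolynomial (Fin (N + 1)) A) (l : Fin h → MvPolynomial (Fin (N + 1)) A)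
    (P : MvPolynomial (XV N) (FractionRing A)) (hP : BiHom α β P)
    (hJ : ∀ j, InJ (fun i => MvPolynomial.map (algebraMap A (FractionRing A)) (F i))
      (MvPolynomial.map (algebraMap A (FractionRing A)) (l j)) P) :
    ∃ (P' : MvPolynomial (XV N) A) (s : A), s ≠ 0 ∧
      MvPolynomial.map (algebraMap A (FractionRing A)) P' =
        C (algebraMap A (FractionRing A) s) * P ∧ BiHom α β P' ∧ ∀ j, InJ F (l j) P' := by
  have hinj : Function.Injective (algebraMap A (FractionRing A)) :=
    IsFractionRing.injective A (FractionRing A)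
  choose c hc using fun j => (inJ_iff _ _ _).1 (hJ j)
  obtain ⟨d, H', hd, hH⟩ := clear_fam2 (T := Unit ⊕ (Fin h × ((κ ⊕ κ) ⊕ Unit)))
    (Sum.elim (fun _ : Unit => P) (fun p => c p.1 p.2))
  have hP' : MvPolynomial.map (algebraMap A (FractionRing A)) (H' (Sum.inl ())) =
      C (algebraMap A (FractionRing A) d) * P := hH (Sum.inl ())
  refine ⟨H' (Sum.inl ()), d, hd, hP', ?_, fun j => ?_⟩
  · intro m hm
    refine hP (d := m) fun h1 => hm ?_
    apply hinj
    rw [map_zero, ← coeff_map, hP', coeff_C_mul, h1, mul_zero]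
  · refine (inJ_iff _ _ _).2 ⟨fun s => H' (Sum.inr (j, s)), ?_⟩
    apply map_injective (algebraMap A (FractionRing A)) hinj
    rw [hP', map_sum, ← hc j, Finset.mul_sum]
    refine Finset.sum_congr rfl fun s _ => ?_
    have h1 : MvPolynomial.map (algebraMap A (FractionRing A)) (H' (Sum.inr (j, s))) =
      C (algebraMap A (FractionRing A) d) * c j s := hH (Sum.inr (j, s))
    rw [map_mul, h1, map_gens, mul_assoc]

end Pool.Agent.CI
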