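import Pool.Agent.Lib_MP_b9fedf_lo.CharExp
import Pool.Agent.Lib_MP_b9fedf_lo.AvgConst

/-! The end of the argument: small characteristic of all curves, applied to `f (exp z)`. -/

set_option autoImplicit false

namespace Pool.Agent.CI
open MvPolynomial Filter Metric Real Set Function MeromorphicOn ValueDistribution
open Pool.Agent.GGL Pool.Agent.SQ Pool.Agent.Stat Pool.Agent.LO

/-- `f (exp z)` is not constant if `f` is not -/
theorem exp_nonconst {n : ℕ} (f : ℂ → Fin (n + 1) → ℂ) (hf : Differentiable ℂ f)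
    (hf0 : ∀ z, f z ≠ 0) (hnc : ¬ ∀ z w, ∃ c : ℂ, f w = c • f z) :
    ¬ ∀ z w, ∃ c : ℂ, f (Complex.exp w) = c • f (Complex.exp z) := by
  intro hc
  apply hnc
  set G : ℂ → Fin (n + 1) → ℂ := fun z => f (Complex.exp z) with hG
  have h1 : ∀ z w i j, G w i * G z j = G w j * G z i := by
    intro z w i j
    obtain ⟨c, hc⟩ := hc z w
    have hc' : G w = c • G z := hc
    rw [hc']
    simp only [Pi.smul_apply, smul_eq_mul]
    ring
  have hfc : ∀ i, Continuous (fun w => f w i) := fun i => (differentiable_pi.1 hf i).continuous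
  have h2 : ∀ z w i j, f w i * G z j = f w j * G z i := by
    intro z w i j
    have := Pool.Agent.GGL.eq_of_comp_exp (g := fun w => f w i * G z j)
      (h := fun w => f w j * G z i) ((hfc i).mul continuous_const)
      ((hfc j).mul continuous_const) (fun w => h1 z w i j)
    exact congrFun this w
  have h3 : ∀ z w i j, f w i * f z j = f w j * f z i := by
    intro z w i j
    have := Pool.Agent.GGL.eq_of_comp_exp (g := fun z => f w i * f z j)
      (h := fun z => f w j * f z i) (continuous_const.mul (hfc j))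
      (continuous_const.mul (hfc i)) (fun z => h2 z w i j)
    exact congrFun this z
  intro z w
  obtain ⟨j, hj⟩ := Function.ne_iff.1 (hf0 z)
  rw [Pi.zero_apply] at hj
  refine ⟨f w j / f z j, funext fun i => ?_⟩
  rw [Pi.smul_apply, smul_eq_mul, div_mul_eq_mul_div, eq_div_iff hj]
  exact h3 z w i j

/-- the characteristic of `f (exp z)` is not small -/
theorem exp_contra {n : ℕ} (f : ℂ → Fin (n + 1) → ℂ) (hf : Differentiable ℂ f)
    (hf0 : ∀ z, f z ≠ 0) (hnc : ¬ ∀ z w, ∃ c : ℂ, f w = c • f z) {δ K : ℝ} (hδ0 : 0 < δ)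
    {E : Set ℝ} (hE : MeasureTheory.volume E < ⊤)
    (h : ∀ r, 1 ≤ r → r ∉ E → δ * charT (fun z => f (Complex.exp z)) r ≤
      K * (Real.posLog (charT (fun z => f (Complex.exp z)) r) + Real.log r + 1)) : False := by
  set G : ℂ → Fin (n + 1) → ℂ := fun z => f (Complex.exp z) with hG
  have hmain : ∀ r, 1 ≤ r → r ∉ E → δ * charT G r ≤
      |K| * (Real.posLog (charT G r) + Real.log r + 1) := by
    intro r hr hrE
    refine (h r hr hrE).trans (mul_le_mul_of_nonneg_right (le_abs_self K) ?_)
    have := Real.posLog_nonneg (x := charT G r)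
    have := Real.log_nonneg hr
    linarith
  set ε : ℝ := δ / (2 * (|K| + 1)) with hε
  have hK0 : 0 ≤ |K| := abs_nonneg K
  have hε0 : 0 < ε := by positivity
  have hεK : |K| * ε ≤ δ / 2 := by
    rw [hε, ← mul_div_assoc, div_le_iff₀ (by positivity)]
    nlinarith
  set A : ℝ := 2 * (|K| + 1) / δ with hA
  have hA0 : 0 < A := by positivity
  obtain ⟨r₀, hr₀⟩ := charT_exp f hf hf0 hnc A
  set M₀ : ℝ := |K| * (|Real.log ε| + 1) with hM₀
  obtain ⟨r, hrR, hrE⟩ : ∃ r, max (max r₀ 1) (max (Real.exp M₀ + 1) (Real.exp (1 / A))) ≤ r ∧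
      r ∉ E := by
    by_contra hcon
    push Not at hcon
    have h1 : Set.Ici (max (max r₀ 1) (max (Real.exp M₀ + 1) (Real.exp (1 / A)))) ⊆ E :=
      fun r hr => hcon r hr
    have h2 := MeasureTheory.measure_mono (μ := MeasureTheory.volume) h1
    rw [Real.volume_Ici] at h2
    exact absurd hE (not_lt.2 h2)
  have e1 : r₀ ≤ r := ((le_max_left _ _).trans (le_max_left _ _)).trans hrR
  have e2 : 1 ≤ r := ((le_max_right _ _).trans (le_max_left _ _)).trans hrR
  have e3 : Real.exp M₀ + 1 ≤ r := ((le_max_left _ _).trans (le_max_right _ _)).trans hrR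
  have e4 : Real.exp (1 / A) ≤ r := ((le_max_right _ _).trans (le_max_right _ _)).trans hrR
  have hr0 : 0 < r := by linarith
  have hlog1 : M₀ < Real.log r := (Real.lt_log_iff_exp_lt hr0).2 (by linarith)
  have hlog2 : 1 / A ≤ Real.log r := (Real.le_log_iff_exp_le hr0).2 e4
  have hT := hr₀ r e1
  have hm := hmain r e2 hrE
  have hTG : charT (fun z => f (Complex.exp z)) r = charT G r := rfl
  rw [hTG] at hT
  set T : ℝ := charT G r with hTdef
  have hT1 : 1 ≤ T := by
    have : A * (1 / A) ≤ A * Real.log r := mul_le_mul_of_nonneg_left hlog2 hA0.le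
    rw [mul_one_div_cancel hA0.ne'] at this
    linarith
  have hpl : Real.posLog T ≤ ε * T + |Real.log ε| := by
    have h1 : Real.log (ε * T) ≤ ε * T - 1 := Real.log_le_sub_one_of_pos (by positivity)
    rw [Real.log_mul hε0.ne' (by linarith)] at h1
    have h2 := neg_abs_le (Real.log ε)
    have h3 : Real.posLog T = max 0 (Real.log T) := rfl
    rw [h3]
    refine max_le ?_ ?_
    · have := abs_nonneg (Real.log ε)
      positivity
    · linarith
  have h7 : |K| * (Real.posLog T + Real.log r + 1) ≤
      |K| * (ε * T + |Real.log ε| + Real.log r + 1) := by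
    refine mul_le_mul_of_nonneg_left ?_ hK0
    linarith
  have h8 : |K| * (ε * T) ≤ δ / 2 * T := by
    rw [← mul_assoc]
    exact mul_le_mul_of_nonneg_right hεK (by linarith)
  have h9 : δ / 2 * T ≤ M₀ + |K| * Real.log r := by
    rw [hM₀]
    have : |K| * (ε * T + |Real.log ε| + Real.log r + 1) =
        |K| * (ε * T) + |K| * (|Real.log ε| + 1) + |K| * Real.log r := by ring
    rw [this] at h7
    linarith
  have h10 : (|K| + 1) * Real.log r ≤ δ / 2 * T := by
    have h11 : δ / 2 * (A * Real.log r) ≤ δ / 2 * T := mul_le_mul_of_nonneg_left hT (by positivity)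
    have h12 : δ / 2 * (A * Real.log r) = (|K| + 1) * Real.log r := by
      rw [hA]
      field_simp
    linarith
  nlinarith

end Pool.Agent.CI
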