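import Pool.Agent.Lib_MP_b9fedf_ci.Circ3
import Pool.Agent.Lib_MP_b9fedf_ci.Const2

/-! [CI-F3]: ample cotangent bundle implies that entire curves are constant. -/

set_option autoImplicit false

namespace Pool.Agent.CI
open MvPolynomial Filter Metric Real Set Function MeromorphicOn ValueDistribution
open Pool.Agent.GGL Pool.Agent.GH Pool.Agent.Stat

variable {N : ℕ} {ι : Type}

/-- [CI-F3a] as `growth2`, at a point `z₀` with `f(z₀)`, `f'(z₀)` independent -/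
theorem growth3 [Fintype ι] {d : ι → ℕ} (hd : ∀ i, 1 ≤ d i) (F : ι → MvPolynomial (Fin (N + 1)) ℂ)
    (hF : ∀ i, (F i).IsHomogeneous (d i)) (hG : AmpleCot F)
    (f : ℂ → Fin (N + 1) → ℂ) (hf : Differentiable ℂ f) (hf0 : ∀ z, f z ≠ 0)
    (hfF : ∀ i z, eval (f z) (F i) = 0) (hnc : ¬ ∀ z w, ∃ c : ℂ, f w = c • f z) :
    ∃ (K : ℝ) (E : Set ℝ), MeasureTheory.volume E < ⊤ ∧ ∀ r, 1 ≤ r → r ∉ E →
      charT f r ≤ K * (Real.posLog (charT f r) + Real.log r + 1) := by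
  classical
  obtain ⟨z₀, hz₀⟩ := Pool.Agent.LG.exists_tangent f hf hf0 hnc
  obtain ⟨k, hk⟩ : ∃ k, f z₀ k ≠ 0 := by
    by_contra hcon
    push Not at hcon
    exact hf0 z₀ (funext hcon)
  obtain ⟨α, β, h, l, G, hαβ, hGb, hinv, hGJ, hsnc, hne⟩ := hG (f z₀) (dcv f z₀)
    (inc_curve3 F f hf hfF z₀) hz₀
  obtain ⟨C, hC⟩ := global_est2 hd F hF l hsnc G hGb hGJ
  have hΨ : ∃ z, psi G f z ≠ 0 := ⟨z₀, hne⟩
  have hκ : (1 : ℝ) ≤ (h : ℝ) - α - β := by
    have : (α : ℝ) + β + 1 ≤ h := by exact_mod_cast hαβ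
    linarith
  obtain ⟨K, E, hE, hKE⟩ := smt_of_keyH (ι := Empty) (d := 1) (KF := 1)
    (fun i : Empty => (fun _ => (0 : ℂ))) (fun i => i.elim) (fun i => i.elim) f hf hf0 k ⟨z₀, hk⟩
    (fun i => i.elim) (show (0 : ℝ) ≤ (h : ℝ) - α - β by linarith) (by
      intro Z _ _
      obtain ⟨C', hC'0, hC'⟩ := circ3 F hF l G hinv hC f hf hf0 hfF k ⟨z₀, hk⟩
        (fun j => lin_ne3 F f hf hfF l G hGJ hΨ j) hΨ
      refine ⟨C', hC'0, fun r B hr hB h1 _ => ?_⟩
      have h2 := hC' r B hr hB h1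
      rw [Finset.univ_eq_empty, Finset.sum_empty, zero_add]
      exact h2)
  refine ⟨|K| + |charT f 1|, E, hE, fun r hr hrE => ?_⟩
  have h2 := hKE r hr hrE
  rw [Finset.univ_eq_empty, Finset.sum_empty, zero_add] at h2
  have h3 : 0 ≤ Real.posLog (charT f r) := Real.posLog_nonneg
  have h4 : 0 ≤ Real.log r := Real.log_nonneg hr
  have h5 := Pool.Agent.LO.charT_mono hf hf0 one_pos hr
  have h6 := neg_abs_le (charT f 1)
  have h7 := le_abs_self K
  set S := Real.posLog (charT f r) + Real.log r + 1 with hS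
  have hS1 : 1 ≤ S := by rw [hS]; linarith
  have h8 : K * S ≤ |K| * S := mul_le_mul_of_nonneg_right h7 (by linarith)
  have h9 : |charT f 1| ≤ |charT f 1| * S := le_mul_of_one_le_right (abs_nonneg _) hS1
  rw [add_mul]
  rcases le_or_gt 0 (charT f r) with h10 | h10
  · have h11 : charT f r ≤ ((h : ℝ) - α - β) * charT f r := le_mul_of_one_le_left h10 hκ
    have h12 : 0 ≤ |charT f 1| * S := by positivity
    linarith
  · have h12 : 0 ≤ |charT f 1| * S := by positivity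
    have h13 : 0 ≤ |K| * S := by positivity
    linarith

/-- [CI-F3b] as `const_of_genC` -/
theorem const_of_ample [Fintype ι] {d : ι → ℕ} (hd : ∀ i, 1 ≤ d i)
    (F : ι → MvPolynomial (Fin (N + 1)) ℂ) (hF : ∀ i, (F i).IsHomogeneous (d i))
    (hG : AmpleCot F)
    (f : ℂ → Fin (N + 1) → ℂ) (hf : Differentiable ℂ f) (hf0 : ∀ z, f z ≠ 0)
    (hfF : ∀ i z, eval (f z) (F i) = 0) : ∀ z w, ∃ c : ℂ, f w = c • f z := by
  by_contra hnc
  set g : ℂ → Fin (N + 1) → ℂ := fun z => f (Complex.exp z) with hg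
  have hgd : Differentiable ℂ g := hf.comp Complex.differentiable_exp
  have hgnc : ¬ ∀ z w, ∃ c : ℂ, g w = c • g z := exp_nonconst f hf hf0 hnc
  obtain ⟨K, E, hE, hKE⟩ := growth3 hd F hF hG g hgd (fun z => hf0 _) (fun i z => hfF i _) hgnc
  exact exp_contra f hf hf0 hnc (δ := 1) (K := K) one_pos hE
    (fun r hr hrE => by rw [one_mul]; exact hKE r hr hrE)

end Pool.Agent.CI
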