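import Pool.Agent.Lib_MP_b9fedf_ci.Global2
import Pool.Agent.Lib_MP_b9fedf_gh.CurveB

/-! [CI-A4]: the form along a curve. -/

set_option autoImplicit false

namespace Pool.Agent.CI
open MvPolynomial Filter Metric Real Set Function MeromorphicOn ValueDistribution
open Pool.Agent.GGL Pool.Agent.GH

variable {N h : ℕ} {ι : Type}

/-- [CI-A4a] (`GH.dv_tng` with `F_i(f) = 0` identically) -/
theorem inc_curve {d : ι → ℕ} (F : ι → MvPolynomial (Fin (N + 1)) ℂ)
    (hF : ∀ i, (F i).IsHomogeneous (d i)) (f : ℂ → Fin (N + 1) → ℂ) (hf : Differentiable ℂ f)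
    (hfF : ∀ i z, eval (f z) (F i) = 0) (k : Fin (N + 1)) (z : ℂ) : Inc F (f z) (tng f k z) := by
  intro i
  refine ⟨hfF i z, ?_⟩
  rw [dv_tng (F i) (hF i) f hf k z, hfF i z]
  have h1 : (fun w => eval (f w) (F i)) = fun _ => (0 : ℂ) := funext (hfF i)
  rw [h1, deriv_const]
  ring

/-- [CI-A4b] no `l_j` vanishes along the curve if `G` does not (`InJ.eval_zero`, `inc_curve`) -/
theorem lin_ne {d : ι → ℕ} (F : ι → MvPolynomial (Fin (N + 1)) ℂ)
    (hF : ∀ i, (F i).IsHomogeneous (d i)) (f : ℂ → Fin (N + 1) → ℂ) (hf : Differentiable ℂ f)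
    (hfF : ∀ i z, eval (f z) (F i) = 0) (k : Fin (N + 1)) (l : Fin h → Fin (N + 1) → ℂ)
    (G : MvPolynomial (XV N) ℂ) (hG : ∀ j, InJ F (lf (l j)) G) (hΦ : ∃ z, phi G f k z ≠ 0)
    (j : Fin h) : ∃ z, eval (f z) (lf (l j)) ≠ 0 := by
  by_contra hcon
  push Not at hcon
  obtain ⟨z, hz⟩ := hΦ
  exact hz ((hG j).eval_zero (inc_curve F hF f hf hfF k z) (hcon z))

/-- [CI-A4c] The orders.  Near `z`, by `PtL` (with `s = ‖V‖ + 1`, bounded) `‖Φ(w)‖ ≤ C' ∏ ‖l_j(f(w))‖`; compare the orders of vanishing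
(see the end of the proof of `GH.ord_phi`, Lib_MP_b9fedf_gh/CurveA.lean). -/
theorem ord2 {α β : ℕ} {C : ℝ} {d : ι → ℕ} (F : ι → MvPolynomial (Fin (N + 1)) ℂ)
    (hF : ∀ i, (F i).IsHomogeneous (d i)) (l : Fin h → Fin (N + 1) → ℂ)
    (G : MvPolynomial (XV N) ℂ) (hest : PtL α β C F l G)
    (f : ℂ → Fin (N + 1) → ℂ) (hf : Differentiable ℂ f) (hf0 : ∀ z, f z ≠ 0)
    (hfF : ∀ i z, eval (f z) (F i) = 0) (k : Fin (N + 1))
    (hne : ∀ j, ∃ z, eval (f z) (lf (l j)) ≠ 0) (hΦ : ∃ z, phi G f k z ≠ 0) (z : ℂ) :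
    ∑ j, (analyticOrderAt (fun w => eval (f w) (lf (l j))) z).toNat ≤
      (analyticOrderAt (phi G f k) z).toNat := by
  classical
  have hh : ∀ i, AnalyticAt ℂ (fun w => eval (f w) (lf (l i))) z := fun i =>
    (comp_diff (lf (l i)) f hf).analyticAt z
  set m : Fin h → ℕ := fun i => (analyticOrderAt (fun w => eval (f w) (lf (l i))) z).toNat with hm
  have hfin : ∀ i, analyticOrderAt (fun w => eval (f w) (lf (l i))) z ≠ ⊤ := fun i =>
    order_ne_top (comp_diff (lf (l i)) f hf) (hne i) z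
  -- factorisations
  have hψ : ∀ i, ∃ ψ : ℂ → ℂ, AnalyticAt ℂ ψ z ∧
      (∀ᶠ w in nhds z, eval (f w) (lf (l i)) = (w - z) ^ m i * ψ w) := by
    intro i
    have h1 : ((m i : ℕ) : ℕ∞) ≤ analyticOrderAt (fun w => eval (f w) (lf (l i))) z := by
      rw [hm, ENat.natCast_toNat_eq_self.mpr (hfin i)]
    obtain ⟨ψ, hψ1, hψ2⟩ := (natCast_le_analyticOrderAt (hh i)).1 h1
    refine ⟨ψ, hψ1, ?_⟩
    filter_upwards [hψ2] with w hw
    rw [hw, smul_eq_mul]
  choose ψ hψa hψe using hψ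
  -- the order of `Φ`
  have hΦa : AnalyticAt ℂ (phi G f k) z := (phi_diff G f hf k).analyticAt z
  obtain ⟨g, hga, hg0, hge⟩ := hΦa.analyticOrderAt_ne_top.1 (order_ne_top (phi_diff G f hf k) hΦ z)
  by_contra hlt
  rw [not_le] at hlt
  set o : ℕ := (analyticOrderAt (phi G f k) z).toNat with ho
  have ho' : analyticOrderNatAt (phi G f k) z = o := rfl
  rw [ho'] at hge
  set M : ℕ := ∑ i, m i with hM
  obtain ⟨hC0, hest'⟩ := hest
  -- both sides along the punctured neighbourhood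
  set L : ℂ → ℝ := fun w => ‖g w‖ * ‖f w‖ ^ h with hL
  set Rr : ℂ → ℝ := fun w => C * ‖f w‖ ^ α * (‖tng f k w‖ + 1) ^ β *
    (‖w - z‖ ^ (M - o) * ∏ i, ‖ψ i w‖) with hR
  have hLR : ∀ᶠ w in nhdsWithin z {z}ᶜ, L w ≤ Rr w := by
    have a1 := (Filter.eventually_all.2 hψe).filter_mono (nhdsWithin_le_nhds (s := {z}ᶜ))
    have a3 := hge.filter_mono (nhdsWithin_le_nhds (s := {z}ᶜ))
    filter_upwards [a1, a3, self_mem_nhdsWithin] with w w1 w3 w4
    have hwz : 0 < ‖w - z‖ := norm_pos_iff.mpr (sub_ne_zero.mpr w4)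
    have h3 := hest' (f w) (tng f k w) (‖tng f k w‖ + 1) (hf0 w)
      (inc_curve F hF f hf hfF k w) (by positivity) (by linarith)
    have h4 : eval (Sum.elim (f w) (tng f k w)) G = (w - z) ^ o * g w := by
      have : phi G f k w = (w - z) ^ o • g w := w3
      rw [← smul_eq_mul, ← this, phi]
    have h5 : ∏ i, ‖eval (f w) (lf (l i))‖ = ‖w - z‖ ^ M * ∏ i, ‖ψ i w‖ := by
      rw [hM, ← Finset.prod_pow_eq_pow_sum, ← Finset.prod_mul_distrib]
      refine Finset.prod_congr rfl fun i _ => ?_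
      rw [w1 i, norm_mul, norm_pow]
    rw [h4, h5, norm_mul, norm_pow] at h3
    have h6 : ‖w - z‖ ^ M = ‖w - z‖ ^ o * ‖w - z‖ ^ (M - o) := by
      rw [← pow_add]
      congr 1
      omega
    rw [h6] at h3
    have h7 : 0 < ‖w - z‖ ^ o := by positivity
    refine le_of_mul_le_mul_left ?_ h7
    simp only [hL, hR]
    calc ‖w - z‖ ^ o * (‖g w‖ * ‖f w‖ ^ h)
        = ‖w - z‖ ^ o * ‖g w‖ * ‖f w‖ ^ h := by ring
      _ ≤ C * ‖f w‖ ^ α * (‖tng f k w‖ + 1) ^ β *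
          (‖w - z‖ ^ o * ‖w - z‖ ^ (M - o) * ∏ i, ‖ψ i w‖) := h3
      _ = _ := by ring
  have hfc : ContinuousAt f z := hf.continuous.continuousAt
  have htc : ContinuousAt (tng f k) z := (tng_diff f hf k).continuous.continuousAt
  have hLc : ContinuousAt L z := by
    have := hga.continuousAt
    fun_prop
  have hRc : ContinuousAt Rr z := by
    have c1 : ∀ i, ContinuousAt (ψ i) z := fun i => (hψa i).continuousAt
    have c3 : ContinuousAt (fun w => ∏ i, ‖ψ i w‖) z :=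
      tendsto_finsetProd _ fun i _ => (c1 i).norm
    have c4 : ContinuousAt (fun w : ℂ => ‖w - z‖ ^ (M - o)) z := by fun_prop
    have c5 : ContinuousAt (fun w => C * ‖f w‖ ^ α * (‖tng f k w‖ + 1) ^ β) z := by fun_prop
    exact c5.mul (c4.mul c3)
  have h8 : L z ≤ Rr z := le_of_tendsto_of_tendsto (hLc.tendsto.mono_left nhdsWithin_le_nhds)
    (hRc.tendsto.mono_left nhdsWithin_le_nhds) hLR
  have h9 : Rr z = 0 := by
    simp only [hR, sub_self, norm_zero]
    rw [zero_pow (by omega : M - o ≠ 0)]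
    ring
  have h10 : 0 < L z := by
    have := norm_pos_iff.mpr hg0
    have := norm_pos_iff.mpr (hf0 z)
    simp only [hL]
    positivity
  linarith

end Pool.Agent.CI
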