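import Pool.Agent.Lib_MP_b9fedf_ci.DefsI
import Pool.Agent.Lib_MP_b9fedf_ci.Curve2

/-! [CI-F1]: an invariant form along a curve. -/

set_option autoImplicit false

namespace Pool.Agent.CI
open MvPolynomial Filter Metric Real Set Function MeromorphicOn ValueDistribution
open Pool.Agent.GGL Pool.Agent.GH

variable {N h : ℕ} {ι : Type}

/-- the derivative of a curve -/
noncomputable def dcv (f : ℂ → Fin (N + 1) → ℂ) (z : ℂ) : Fin (N + 1) → ℂ :=
  fun j => deriv (fun w => f w j) z

/-- the value of `G` along the curve -/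
noncomputable def psi (G : MvPolynomial (XV N) ℂ) (f : ℂ → Fin (N + 1) → ℂ) (z : ℂ) : ℂ :=
  eval (Sum.elim (f z) (dcv f z)) G

theorem dcv_diff (f : ℂ → Fin (N + 1) → ℂ) (hf : Differentiable ℂ f) :
    Differentiable ℂ (dcv f) := by
  have h1 : ∀ j, Differentiable ℂ (fun w => f w j) := fun j => (differentiable_pi.mp hf) j
  refine differentiable_pi.mpr fun j => ?_
  exact fun z => (((h1 j).analyticAt z).deriv).differentiableAt

theorem psi_diff (G : MvPolynomial (XV N) ℂ) (f : ℂ → Fin (N + 1) → ℂ)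
    (hf : Differentiable ℂ f) : Differentiable ℂ (psi G f) := by
  have h1 : Differentiable ℂ (fun z => (Sum.elim (f z) (dcv f z) : XV N → ℂ)) := by
    refine differentiable_pi.mpr fun j => ?_
    rcases j with j | j
    · exact (differentiable_pi.mp hf) j
    · exact (differentiable_pi.mp (dcv_diff f hf)) j
  have h2 : psi G f = fun z => ∑ a ∈ G.support, coeff a G *
      ∏ i, (Sum.elim (f z) (dcv f z) : XV N → ℂ) i ^ a i := by
    funext z
    rw [psi, eval_eq']
  rw [h2]
  exact Differentiable.fun_sum fun a _ => (mono_diff h1 a).const_mul _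

/-- the chain rule -/
theorem chain3 (b : MvPolynomial (Fin (N + 1)) ℂ) (f : ℂ → Fin (N + 1) → ℂ)
    (hf : Differentiable ℂ f) (z : ℂ) :
    HasDerivAt (fun w => eval (f w) b) (dv b (f z) (dcv f z)) z := by
  have h1 : ∀ j, HasDerivAt (fun w => f w j) (deriv (fun w => f w j) z) z := fun j =>
    (((differentiable_pi.mp hf) j) z).hasDerivAt
  have e0 : ∀ b : MvPolynomial (Fin (N + 1)) ℂ, dv b (f z) (dcv f z) =
      ∑ j, eval (f z) (pderiv j b) * deriv (fun w => f w j) z := fun b => rfl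
  rw [e0]
  induction b using MvPolynomial.induction_on with
  | C a =>
    have e1 : (∑ j : Fin (N + 1), eval (f z) (pderiv j (C a)) * deriv (fun w => f w j) z) = 0 := by
      refine Finset.sum_eq_zero fun j _ => ?_
      rw [pderiv_C, map_zero, zero_mul]
    rw [e1]
    have e2 : (fun w => eval (f w) (C a)) = fun _ : ℂ => a := by
      funext w
      rw [eval_C]
    rw [e2]
    exact hasDerivAt_const z a
  | add p q hp hq =>
    have e1 : (∑ j : Fin (N + 1), eval (f z) (pderiv j (p + q)) * deriv (fun w => f w j) z) =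
        (∑ j, eval (f z) (pderiv j p) * deriv (fun w => f w j) z) +
          ∑ j, eval (f z) (pderiv j q) * deriv (fun w => f w j) z := by
      rw [← Finset.sum_add_distrib]
      refine Finset.sum_congr rfl fun j _ => ?_
      rw [map_add, map_add, add_mul]
    rw [e1]
    have e2 : (fun w => eval (f w) (p + q)) = fun w => eval (f w) p + eval (f w) q := by
      funext w
      rw [map_add]
    rw [e2]
    exact hp.add hq
  | mul_X p i hp =>
    have e1 : (∑ j : Fin (N + 1), eval (f z) (pderiv j (p * X i)) * deriv (fun w => f w j) z) =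
        (∑ j, eval (f z) (pderiv j p) * deriv (fun w => f w j) z) * f z i +
          eval (f z) p * deriv (fun w => f w i) z := by
      have e3 : ∀ j : Fin (N + 1), eval (f z) (pderiv j (p * X i)) * deriv (fun w => f w j) z =
          (eval (f z) (pderiv j p) * deriv (fun w => f w j) z) * f z i +
            (if i = j then eval (f z) p * deriv (fun w => f w j) z else 0) := by
        intro j
        rw [pderiv_mul, map_add, map_mul, map_mul, eval_X, pderiv_X, Pi.single_apply]
        by_cases h : i = j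
        · subst h
          simp only [if_true, map_one]
          ring
        · rw [if_neg h, if_neg h, map_zero]
          ring
      rw [Finset.sum_congr rfl fun j _ => e3 j, Finset.sum_add_distrib, Finset.sum_mul]
      congr 1
      rw [Finset.sum_ite_eq]
      simp
    rw [e1]
    have e2 : (fun w => eval (f w) (p * X i)) = fun w => eval (f w) p * f w i := by
      funext w
      rw [map_mul, eval_X]
    rw [e2]
    exact hp.mul (h1 i)

/-- [CI-F1a] (the derivative of `F_i(f) = 0`) -/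
theorem inc_curve3 (F : ι → MvPolynomial (Fin (N + 1)) ℂ)
    (f : ℂ → Fin (N + 1) → ℂ) (hf : Differentiable ℂ f)
    (hfF : ∀ i z, eval (f z) (F i) = 0) (z : ℂ) : Inc F (f z) (dcv f z) := by
  intro i
  refine ⟨hfF i z, ?_⟩
  have h1 := (chain3 (F i) f hf z).deriv
  have h2 : (fun w => eval (f w) (F i)) = fun _ => (0 : ℂ) := funext (hfF i)
  rw [h2, deriv_const] at h1
  exact h1.symm

/-- [CI-F1b] -/
theorem lin_ne3 (F : ι → MvPolynomial (Fin (N + 1)) ℂ)
    (f : ℂ → Fin (N + 1) → ℂ) (hf : Differentiable ℂ f)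
    (hfF : ∀ i z, eval (f z) (F i) = 0) (l : Fin h → Fin (N + 1) → ℂ)
    (G : MvPolynomial (XV N) ℂ) (hG : ∀ j, InJ F (lf (l j)) G) (hΨ : ∃ z, psi G f z ≠ 0)
    (j : Fin h) : ∃ z, eval (f z) (lf (l j)) ≠ 0 := by
  by_contra hcon
  push Not at hcon
  obtain ⟨z, hz⟩ := hΨ
  exact hz ((hG j).eval_zero (inc_curve3 F f hf hfF z) (hcon z))

/-- [CI-F1c] as `ord2`, with `f'` in place of the normalised tangent vector -/
theorem ord3 {α β : ℕ} {C : ℝ} (F : ι → MvPolynomial (Fin (N + 1)) ℂ)
    (l : Fin h → Fin (N + 1) → ℂ)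
    (G : MvPolynomial (XV N) ℂ) (hest : PtL α β C F l G)
    (f : ℂ → Fin (N + 1) → ℂ) (hf : Differentiable ℂ f) (hf0 : ∀ z, f z ≠ 0)
    (hfF : ∀ i z, eval (f z) (F i) = 0)
    (hne : ∀ j, ∃ z, eval (f z) (lf (l j)) ≠ 0) (hΨ : ∃ z, psi G f z ≠ 0) (z : ℂ) :
    ∑ j, (analyticOrderAt (fun w => eval (f w) (lf (l j))) z).toNat ≤
      (analyticOrderAt (psi G f) z).toNat := by
  classical
  have hh : ∀ i, AnalyticAt ℂ (fun w => eval (f w) (lf (l i))) z := fun i =>
    (comp_diff (lf (l i)) f hf).analyticAt z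
  set m : Fin h → ℕ := fun i => (analyticOrderAt (fun w => eval (f w) (lf (l i))) z).toNat with hm
  have hfin : ∀ i, analyticOrderAt (fun w => eval (f w) (lf (l i))) z ≠ ⊤ := fun i =>
    order_ne_top (comp_diff (lf (l i)) f hf) (hne i) z
  -- factorisations
  have hψ : ∀ i, ∃ ψ : ℂ → ℂ, AnalyticAt ℂ ψ z ∧
      (∀ᶠ w in nhds z, eval (f w) (lf (l i)) = (w - z) ^ m i * ψ w) := by
    intro i
    have h1 : ((m i : ℕ) : ℕ∞) ≤ analyticOrderAt (fun w => eval (f w) (lf (l i))) z := by
      rw [hm, ENat.natCast_toNat_eq_self.mpr (hfin i)]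
    obtain ⟨ψ, hψ1, hψ2⟩ := (natCast_le_analyticOrderAt (hh i)).1 h1
    refine ⟨ψ, hψ1, ?_⟩
    filter_upwards [hψ2] with w hw
    rw [hw, smul_eq_mul]
  choose ψ hψa hψe using hψ
  -- the order of `Ψ`
  have hΨa : AnalyticAt ℂ (psi G f) z := (psi_diff G f hf).analyticAt z
  obtain ⟨g, hga, hg0, hge⟩ := hΨa.analyticOrderAt_ne_top.1 (order_ne_top (psi_diff G f hf) hΨ z)
  by_contra hlt
  rw [not_le] at hlt
  set o : ℕ := (analyticOrderAt (psi G f) z).toNat with ho
  have ho' : analyticOrderNatAt (psi G f) z = o := rfl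
  rw [ho'] at hge
  set M : ℕ := ∑ i, m i with hM
  obtain ⟨hC0, hest'⟩ := hest
  -- both sides along the punctured neighbourhood
  set L : ℂ → ℝ := fun w => ‖g w‖ * ‖f w‖ ^ h with hL
  set Rr : ℂ → ℝ := fun w => C * ‖f w‖ ^ α * (‖dcv f w‖ + 1) ^ β *
    (‖w - z‖ ^ (M - o) * ∏ i, ‖ψ i w‖) with hR
  have hLR : ∀ᶠ w in nhdsWithin z {z}ᶜ, L w ≤ Rr w := by
    have a1 := (Filter.eventually_all.2 hψe).filter_mono (nhdsWithin_le_nhds (s := {z}ᶜ))
    have a3 := hge.filter_mono (nhdsWithin_le_nhds (s := {z}ᶜ))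
    filter_upwards [a1, a3, self_mem_nhdsWithin] with w w1 w3 w4
    have hwz : 0 < ‖w - z‖ := norm_pos_iff.mpr (sub_ne_zero.mpr w4)
    have h3 := hest' (f w) (dcv f w) (‖dcv f w‖ + 1) (hf0 w)
      (inc_curve3 F f hf hfF w) (by positivity) (by linarith)
    have h4 : eval (Sum.elim (f w) (dcv f w)) G = (w - z) ^ o * g w := by
      have : psi G f w = (w - z) ^ o • g w := w3
      rw [← smul_eq_mul, ← this, psi]
    have h5 : ∏ i, ‖eval (f w) (lf (l i))‖ = ‖w - z‖ ^ M * ∏ i, ‖ψ i w‖ := by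
      rw [hM, ← Finset.prod_pow_eq_pow_sum, ← Finset.prod_mul_distrib]
      refine Finset.prod_congr rfl fun i _ => ?_
      rw [w1 i, norm_mul, norm_pow]
    rw [h4, h5, norm_mul, norm_pow] at h3
    have h6 : ‖w - z‖ ^ M = ‖w - z‖ ^ o * ‖w - z‖ ^ (M - o) := by
      rw [← pow_add]
      congr 1
      omega
    rw [h6] at h3
    have h7 : 0 < ‖w - z‖ ^ o := by positivity
    refine le_of_mul_le_mul_left ?_ h7
    simp only [hL, hR]
    calc ‖w - z‖ ^ o * (‖g w‖ * ‖f w‖ ^ h)
        = ‖w - z‖ ^ o * ‖g w‖ * ‖f w‖ ^ h := by ring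
      _ ≤ C * ‖f w‖ ^ α * (‖dcv f w‖ + 1) ^ β *
          (‖w - z‖ ^ o * ‖w - z‖ ^ (M - o) * ∏ i, ‖ψ i w‖) := h3
      _ = _ := by ring
  have hfc : ContinuousAt f z := hf.continuous.continuousAt
  have htc : ContinuousAt (dcv f) z := (dcv_diff f hf).continuous.continuousAt
  have hLc : ContinuousAt L z := by
    have := hga.continuousAt
    fun_prop
  have hRc : ContinuousAt Rr z := by
    have c1 : ∀ i, ContinuousAt (ψ i) z := fun i => (hψa i).continuousAt
    have c3 : ContinuousAt (fun w => ∏ i, ‖ψ i w‖) z :=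
      tendsto_finsetProd _ fun i _ => (c1 i).norm
    have c4 : ContinuousAt (fun w : ℂ => ‖w - z‖ ^ (M - o)) z := by fun_prop
    have c5 : ContinuousAt (fun w => C * ‖f w‖ ^ α * (‖dcv f w‖ + 1) ^ β) z := by fun_prop
    exact c5.mul (c4.mul c3)
  have h8 : L z ≤ Rr z := le_of_tendsto_of_tendsto (hLc.tendsto.mono_left nhdsWithin_le_nhds)
    (hRc.tendsto.mono_left nhdsWithin_le_nhds) hLR
  have h9 : Rr z = 0 := by
    simp only [hR, sub_self, norm_zero]
    rw [zero_pow (by omega : M - o ≠ 0)]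
    ring
  have h10 : 0 < L z := by
    have := norm_pos_iff.mpr hg0
    have := norm_pos_iff.mpr (hf0 z)
    simp only [hL]
    positivity
  linarith

end Pool.Agent.CI
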