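import Pool.Agent.Lib_MP_b9fedf_gh.BasicC
import Pool.Agent.Lib_MP_b9fedf_gh.Family

/-! General complete intersections of large codimension (board note 2525): definitions. -/

set_option autoImplicit false

namespace Pool.Agent.CI
open MvPolynomial Pool.Agent.GGL Pool.Agent.GH

/-- indices of the coefficients of forms of degrees `d i` in `N + 1` variables -/
abbrev Ix (N : ℕ) {κ : Type} (d : κ → ℕ) : Type := (i : κ) × Mon N (d i)

/-- the forms with coefficients `a` -/
noncomputable def fa {R : Type} [CommRing R] {N : ℕ} {κ : Type} {d : κ → ℕ} (a : Ix N d → R)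
    (i : κ) : MvPolynomial (Fin (N + 1)) R :=
  frm (fun m : Mon N (d i) => a ⟨i, m⟩)

/-- the linear form with coefficients `u` -/
noncomputable def lf {R : Type} [CommRing R] {N : ℕ} (u : Fin (N + 1) → R) :
    MvPolynomial (Fin (N + 1)) R :=
  ∑ j, C (u j) * X j

/-- the polynomials `F_i(x)`, `DF_i(x, v)`, `l(x)` -/
noncomputable def gens {R : Type} [CommRing R] {N : ℕ} {κ : Type}
    (F : κ → MvPolynomial (Fin (N + 1)) R) (l : MvPolynomial (Fin (N + 1)) R) :
    (κ ⊕ κ) ⊕ Unit → MvPolynomial (XV N) R :=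
  Sum.elim (Sum.elim (fun i => inx (F i)) (fun i => dif (F i))) (fun _ => inx l)

/-- `G` lies in the ideal generated by the `F_i(x)`, the `DF_i(x, v)` and `l(x)` -/
def InJ {R : Type} [CommRing R] {N : ℕ} {κ : Type} (F : κ → MvPolynomial (Fin (N + 1)) R)
    (l : MvPolynomial (Fin (N + 1)) R) (G : MvPolynomial (XV N) R) : Prop :=
  G ∈ Ideal.span (Set.range (gens F l))

/-- `F_i(x) = 0 = DF_i(x, v)` for all `i` -/
def Inc {N : ℕ} {κ : Type} (F : κ → MvPolynomial (Fin (N + 1)) ℂ) (x v : Fin (N + 1) → ℂ) : Prop :=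
  ∀ i, eval x (F i) = 0 ∧ dv (F i) x v = 0

/-- At each common zero `x ≠ 0` of the `F_i` the gradients of the `F_i` and the linear forms `l_j`
which vanish at `x` are linearly independent. -/
def SncL {N h : ℕ} {κ : Type} (F : κ → MvPolynomial (Fin (N + 1)) ℂ)
    (l : Fin h → Fin (N + 1) → ℂ) : Prop :=
  ∀ x : Fin (N + 1) → ℂ, x ≠ 0 → (∀ i, eval x (F i) = 0) → ∀ B : Finset (Fin h),
    (∀ j ∈ B, eval x (lf (l j)) = 0) →
      LinearIndependent ℂ (Sum.elim (fun i : κ => fun k => eval x (pderiv k (F i)))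
        (fun j : B => l j) : κ ⊕ B → Fin (N + 1) → ℂ)

/-- There is a negatively twisted form which does not vanish at `(x, v)`. -/
def Neg {N : ℕ} {κ : Type} (F : κ → MvPolynomial (Fin (N + 1)) ℂ) (x v : Fin (N + 1) → ℂ) : Prop :=
  ∃ (α β h : ℕ) (l : Fin h → Fin (N + 1) → ℂ) (G : MvPolynomial (XV N) ℂ),
    α + 2 * β < h ∧ BiHom α β G ∧ (∀ j, InJ F (lf (l j)) G) ∧ SncL F l ∧
      eval (Sum.elim x v) G ≠ 0

/-- The condition which excludes entire curves. -/
def GenC {N : ℕ} {κ : Type} (F : κ → MvPolynomial (Fin (N + 1)) ℂ) : Prop :=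
  ∀ (k : Fin (N + 1)) (x v : Fin (N + 1) → ℂ), Inc F x v → x k ≠ 0 → v k = 0 → v ≠ 0 → Neg F x v

/-- a polynomial over `ℚ[a]`, specialised at a complex vector `a` -/
noncomputable def sp {E σ : Type} (a : E → ℂ) (P : MvPolynomial σ (MvPolynomial E ℚ)) :
    MvPolynomial σ ℂ :=
  MvPolynomial.map (aeval a : MvPolynomial E ℚ →ₐ[ℚ] ℂ).toRingHom P

/-- coefficients of the forms `F_i(g x)` -/
noncomputable def acts {R : Type} [CommRing R] {N : ℕ} {κ : Type} {d : κ → ℕ}
    (g : Matrix (Fin (N + 1)) (Fin (N + 1)) R) (a : Ix N d → R) : Ix N d → R :=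
  fun p => act g (fun m => a ⟨p.1, m⟩) p.2

/-- (U) the universal form for the family `κ`; any `n + 1` of the integral linear forms `l_j` are
linearly independent. -/
def UnivC {κ : Type} (N n : ℕ) (d : κ → ℕ) : Prop :=
  ∃ (α β h : ℕ) (l : Fin h → Fin (N + 1) → ℤ)
    (P : MvPolynomial (XV N) (MvPolynomial (Ix N d) ℚ)),
    α + 2 * β < h ∧
    (∀ B : Finset (Fin h), B.card ≤ n + 1 →
      LinearIndependent ℚ (fun j : B => fun k => ((l j k : ℤ) : ℚ))) ∧
    BiHom α β P ∧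
    (∀ j, InJ (fa (fun p : Ix N d => (X p : MvPolynomial (Ix N d) ℚ)))
      (lf (fun k => ((l j k : ℤ) : MvPolynomial (Ix N d) ℚ))) P) ∧
    ∃ (a : Ix N d → ℂ) (x v : Fin (N + 1) → ℂ), LinearIndependent ℂ ![x, v] ∧ Inc (fa a) x v ∧
      eval (Sum.elim x v) (sp a P) ≠ 0

end Pool.Agent.CI
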