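import Pool.Agent.Lib_MP_b9fedf_ci.Defs

/-! Version 2: invariant forms (symmetric differentials). -/

set_option autoImplicit false

namespace Pool.Agent.CI
open MvPolynomial Pool.Agent.GGL Pool.Agent.GH

/-- `G(x, v + t x) = G(x, v)` for all tangent vectors `v` at the points `x` of the complete
intersection -/
def Inva {N : ℕ} {κ : Type} (F : κ → MvPolynomial (Fin (N + 1)) ℂ) (G : MvPolynomial (XV N) ℂ) :
    Prop :=
  ∀ (x v : Fin (N + 1) → ℂ) (t : ℂ), Inc F x v →
    eval (Sum.elim x (v + t • x)) G = eval (Sum.elim x v) G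

/-- There is a symmetric differential `G / ∏ l_j` with values in a negative line bundle which does
not vanish at the tangent vector `v` at `x`. -/
def NegI {N : ℕ} {κ : Type} (F : κ → MvPolynomial (Fin (N + 1)) ℂ) (x v : Fin (N + 1) → ℂ) :
    Prop :=
  ∃ (α β h : ℕ) (l : Fin h → Fin (N + 1) → ℂ) (G : MvPolynomial (XV N) ℂ),
    α + β < h ∧ BiHom α β G ∧ Inva F G ∧ (∀ j, InJ F (lf (l j)) G) ∧ SncL F l ∧
      eval (Sum.elim x v) G ≠ 0

/-- The cotangent bundle is ample: the condition `NegI` for all tangent vectors. -/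
def AmpleCot {N : ℕ} {κ : Type} (F : κ → MvPolynomial (Fin (N + 1)) ℂ) : Prop :=
  ∀ x v : Fin (N + 1) → ℂ, Inc F x v → LinearIndependent ℂ ![x, v] → NegI F x v

/-- (U') the universal form for the family `κ`, invariant on the incidence variety -/
def UnivI {κ : Type} (N n : ℕ) (d : κ → ℕ) : Prop :=
  ∃ (α β h : ℕ) (l : Fin h → Fin (N + 1) → ℤ)
    (P : MvPolynomial (XV N) (MvPolynomial (Ix N d) ℚ)),
    α + β < h ∧
    (∀ B : Finset (Fin h), B.card ≤ n + 1 →
      LinearIndependent ℚ (fun j : B => fun k => ((l j k : ℤ) : ℚ))) ∧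
    BiHom α β P ∧
    (∀ j, InJ (fa (fun p : Ix N d => (X p : MvPolynomial (Ix N d) ℚ)))
      (lf (fun k => ((l j k : ℤ) : MvPolynomial (Ix N d) ℚ))) P) ∧
    (∀ a : Ix N d → ℂ, Inva (fa a) (sp a P)) ∧
    ∃ (a : Ix N d → ℂ) (x v : Fin (N + 1) → ℂ), LinearIndependent ℂ ![x, v] ∧ Inc (fa a) x v ∧
      eval (Sum.elim x v) (sp a P) ≠ 0

end Pool.Agent.CI
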