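import Mathlib

/-! [CI-C14]: linearly independent functions have a nonzero determinant. -/

set_option autoImplicit false

namespace Pool.Agent.CI

private theorem span_top {Z K : Type} [Field K] {q : ℕ} (f : Fin q → Z → K) (hf : LinearIndependent K f) :
    Submodule.span K (Set.range fun z : Z => (fun r : Fin q => f r z)) = ⊤ := by
  by_contra hne
  obtain ⟨φ, hφ0, hφ⟩ := Submodule.exists_le_ker_of_lt_top _ (lt_top_iff_ne_top.mpr hne)
  apply hφ0
  have h1 : ∀ w : Fin q → K, φ w = ∑ r, φ (Pi.single r 1) * w r := by
    intro w
    have := LinearMap.pi_apply_eq_sum_univ φ w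
    rw [this]
    refine Finset.sum_congr rfl fun r _ => ?_
    rw [smul_eq_mul, mul_comm]
    congr 2
    funext s
    simp [Pi.single_apply, eq_comm]
  have h2 : ∑ r, φ (Pi.single r 1) • f r = 0 := by
    funext z
    have h3 : φ (fun r : Fin q => f r z) = 0 := by
      have : (fun r : Fin q => f r z) ∈ LinearMap.ker φ := hφ (Submodule.subset_span ⟨z, rfl⟩)
      simpa using this
    rw [h1] at h3
    simpa [Finset.sum_apply] using h3
  have h4 := Fintype.linearIndependent_iff.mp hf _ h2
  ext r
  simpa using h4 r

/-- [CI-C14] Proof.  The vectors `(f r z)_r`, `z ∈ Z`, span `K ^ q`: a linear functional vanishing on all of them is a relation between the `f r`.  Choose a basis among them. -/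
theorem det_pts {Z K : Type} [Field K] {q : ℕ} (f : Fin q → Z → K) (hf : LinearIndependent K f) :
    ∃ z : Fin q → Z, (Matrix.of fun r s => f r (z s)).det ≠ 0 := by
  classical
  obtain ⟨b, hb, hspan, hli⟩ := exists_linearIndependent K
    (Set.range fun z : Z => (fun r : Fin q => f r z))
  have htop : ⊤ ≤ Submodule.span K (Set.range (Subtype.val : b → (Fin q → K))) := by
    rw [Subtype.range_coe, hspan, span_top f hf]
  let B := Module.Basis.mk hli htop
  have : Finite b := B.finite_index_of_rank_lt_aleph0 (by
    rw [rank_fin_fun]
    exact Cardinal.natCast_lt_aleph0)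
  have := Fintype.ofFinite b
  have hc : Fintype.card b = q := by
    have := Module.finrank_eq_card_basis B
    rw [Module.finrank_fin_fun] at this
    exact this.symm
  let e : Fin q ≃ b := (Fintype.equivFinOfCardEq hc).symm
  have hz : ∀ s : Fin q, ∃ z : Z, (fun r : Fin q => f r z) = (e s : Fin q → K) := fun s => hb (e s).2
  choose z hz using hz
  refine ⟨z, ?_⟩
  have hcol : LinearIndependent K (Matrix.of fun r s => f r (z s)).col := by
    have h5 : (Matrix.of fun r s => f r (z s)).col = fun s => ((e s : b) : Fin q → K) := by
      funext s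
      rw [← hz s]
      rfl
    rw [h5]
    exact hli.comp e e.injective
  rw [Matrix.linearIndependent_cols_iff_isUnit] at hcol
  exact (Matrix.isUnit_iff_isUnit_det _).mp hcol |>.ne_zero

end Pool.Agent.CI
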