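import Pool.Agent.Lib_MP_b9fedf_gh.CountA

/-! [CI-C21]: evaluation at points, over a subfield. -/

set_option autoImplicit false

namespace Pool.Agent.CI
open MvPolynomial Pool.Agent.GGL Pool.Agent.GH

/-- [CI-C21] Proof.  Let `ev : biSpace K N α β → (Fin q → ℂ)`, `G ↦ (eval (z r) (map φ G))_r`, `K`-linear through `φ` (`φ.toAlgebra`).  Its image spans `ℂ ^ q` over `ℂ`: the vectors `(eval (z t) (f r))_t` span (nonzero determinant) and are complex
combinations of the images of monomials of bidegree `(α, β)`.  So the image has dimension `≥ q` over `K` (a `K`-basis of it spans `ℂ ^ q` over `ℂ`), and `W` is in the kernel. -/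
theorem evk {K : Type} [Field K] (φ : K →+* ℂ) {N α β q : ℕ} (f : Fin q → MvPolynomial (XV N) ℂ)
    (hf : ∀ r, BiHom α β (f r)) (z : Fin q → XV N → ℂ)
    (hdet : (Matrix.of fun r t => eval (z t) (f r)).det ≠ 0)
    (W : Submodule K (MvPolynomial (XV N) K)) (hW : W ≤ biSpace K N α β)
    (hz : ∀ G ∈ W, ∀ r, eval (z r) (MvPolynomial.map φ G) = 0) :
    Module.finrank K W + q ≤ Module.finrank K (biSpace K N α β) := by
  classical
  let _ : Algebra K ℂ := φ.toAlgebra
  have := finite_biSpace K N α β
  let ev : biSpace K N α β →ₗ[K] (Fin q → ℂ) :=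
    { toFun := fun G r => eval (z r) (MvPolynomial.map φ G.1)
      map_add' := by
        intro G H
        ext r
        simp
      map_smul' := by
        intro c G
        ext r
        have h1 : MvPolynomial.map φ ((c • G : biSpace K N α β) : MvPolynomial (XV N) K) =
            C (φ c) * MvPolynomial.map φ G.1 := by
          rw [Submodule.coe_smul, smul_eq_C_mul, map_mul, map_C]
        show eval (z r) (MvPolynomial.map φ ((c • G : biSpace K N α β) : MvPolynomial (XV N) K)) =
          c • eval (z r) (MvPolynomial.map φ G.1)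
        rw [h1, map_mul, eval_C, Algebra.smul_def]
        rfl }
  have hev : ∀ (G : biSpace K N α β) r, ev G r = eval (z r) (MvPolynomial.map φ G.1) :=
    fun G r => rfl
  have hker : Submodule.comap (biSpace K N α β).subtype W ≤ LinearMap.ker ev := by
    intro G hG
    rw [LinearMap.mem_ker]
    ext r
    exact hz G.1 hG r
  have h1 : Module.finrank K W ≤ Module.finrank K (LinearMap.ker ev) := by
    rw [← (Submodule.comapSubtypeEquivOfLe hW).finrank_eq]
    exact Submodule.finrank_mono hker
  have h2 := LinearMap.finrank_range_add_finrank_ker ev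
  -- the range spans over the complex numbers
  have hspan : Submodule.span ℂ (LinearMap.range ev : Set (Fin q → ℂ)) = ⊤ := by
    have hli : LinearIndependent ℂ (Matrix.of fun r t => eval (z t) (f r)).row :=
      Matrix.linearIndependent_rows_of_det_ne_zero hdet
    have hs := hli.span_eq_top_of_card_eq_finrank' (by simp)
    rw [eq_top_iff, ← hs, Submodule.span_le]
    rintro _ ⟨r, rfl⟩
    have h3 : (Matrix.of fun r t => eval (z t) (f r)).row r =
        ∑ m ∈ (f r).support, coeff m (f r) • (fun t => eval (z t) (monomial m (1 : ℂ))) := by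
      ext t
      rw [Finset.sum_apply]
      show eval (z t) (f r) = _
      conv_lhs => rw [(f r).as_sum, map_sum]
      refine Finset.sum_congr rfl fun m _ => ?_
      rw [Pi.smul_apply, smul_eq_mul, eval_monomial, eval_monomial, one_mul]
    rw [h3]
    refine Submodule.sum_mem _ fun m hm => Submodule.smul_mem _ _ (Submodule.subset_span ?_)
    have hmem : monomial m (1 : K) ∈ biSpace K N α β := by
      rw [mem_biSpace]
      exact isWeightedHomogeneous_monomial _ _ _ ((hf r) (mem_support_iff.1 hm))
    refine ⟨⟨monomial m 1, hmem⟩, ?_⟩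
    ext t
    rw [hev, map_monomial, map_one]
  set s := Module.finrank K (LinearMap.range ev) with hs
  let b := Module.finBasis K (LinearMap.range ev)
  have hb : Submodule.span ℂ (Set.range fun i => (b i : Fin q → ℂ)) = ⊤ := by
    rw [eq_top_iff, ← hspan, Submodule.span_le]
    intro x hx
    have h4 : (⟨x, hx⟩ : LinearMap.range ev) = ∑ i, b.repr ⟨x, hx⟩ i • b i :=
      (b.sum_repr _).symm
    have h5 : x = ∑ i, (b.repr ⟨x, hx⟩ i) • (b i : Fin q → ℂ) := by
      have h6 := congrArg Subtype.val h4
      rw [AddSubmonoidClass.coe_finset_sum] at h6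
      exact h6
    rw [h5]
    refine Submodule.sum_mem _ fun i _ => ?_
    have h7 : (b.repr ⟨x, hx⟩ i) • (b i : Fin q → ℂ) =
        (φ (b.repr ⟨x, hx⟩ i)) • (b i : Fin q → ℂ) := by
      ext t
      rw [Pi.smul_apply, Pi.smul_apply, Algebra.smul_def, smul_eq_mul]
      rfl
    rw [h7]
    exact Submodule.smul_mem _ _ (Submodule.subset_span ⟨i, rfl⟩)
  have h8 : q ≤ s := by
    have h9 := finrank_range_le_card (R := ℂ) (fun i => (b i : Fin q → ℂ))
    rw [Set.finrank, hb, finrank_top, Module.finrank_fintype_fun_eq_card, Fintype.card_fin,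
      Fintype.card_fin] at h9
    exact h9
  omega

end Pool.Agent.CI
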