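import Pool.Agent.Lib_MP_b9fedf_ci.BasicJ
import Pool.Agent.Lib_MP_b9fedf_gh.Act
import Pool.Agent.Lib_MP_b9fedf_gh.ExInt

/-! [CI-D3]: the choice of coordinates. -/

set_option autoImplicit false

namespace Pool.Agent.CI
open MvPolynomial Pool.Agent.GGL Pool.Agent.GH

private theorem pderiv_sub_d3 {n : ℕ} (g : Matrix (Fin (n + 1)) (Fin (n + 1)) ℂ)
    (b : MvPolynomial (Fin (n + 1)) ℂ) (j : Fin (n + 1)) :
    pderiv j (sub g b) = ∑ i, C (g i j) * sub g (pderiv i b) := by
  have e0 : ∀ p q : MvPolynomial (Fin (n + 1)) ℂ, sub g (p + q) = sub g p + sub g q := by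
    intro p q
    unfold sub
    exact map_add _ _ _
  induction b using MvPolynomial.induction_on with
  | C a =>
    have e : sub g (C a) = C a := by
      unfold sub
      exact algHom_C _ a
    rw [e, pderiv_C]
    symm
    refine Finset.sum_eq_zero fun i _ => ?_
    rw [pderiv_C]
    have e2 : sub g (0 : MvPolynomial (Fin (n + 1)) ℂ) = 0 := by
      unfold sub
      exact map_zero _
    rw [e2, mul_zero]
  | add p q hp hq =>
    rw [e0, map_add, hp, hq, ← Finset.sum_add_distrib]
    refine Finset.sum_congr rfl fun i _ => ?_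
    rw [map_add, e0, mul_add]
  | mul_X p k hp =>
    have e : ∀ p : MvPolynomial (Fin (n + 1)) ℂ,
        sub g (p * X k) = sub g p * ∑ l, C (g k l) * X l := by
      intro p
      unfold sub
      rw [map_mul, aeval_X]
    have e1 : pderiv j (∑ l, C (g k l) * X l : MvPolynomial (Fin (n + 1)) ℂ) = C (g k j) := by
      rw [map_sum, Finset.sum_eq_single j]
      · rw [pderiv_C_mul, pderiv_X_self, mul_one]
      · intro l _ hl
        rw [pderiv_C_mul, pderiv_X_of_ne hl, mul_zero]
      · intro h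
        exact absurd (Finset.mem_univ j) h
    have e2 : ∀ i, sub g (pderiv i (p * X k)) = sub g (pderiv i p) * (∑ l, C (g k l) * X l) +
        sub g p * (if i = k then 1 else 0) := by
      intro i
      have h1 : pderiv i (p * X k) = pderiv i p * X k + p * (if i = k then 1 else 0) := by
        rw [pderiv_mul, pderiv_X]
        congr 2
        by_cases h : i = k
        · rw [if_pos h, h, Pi.single_eq_same]
        · rw [if_neg h, Pi.single_eq_of_ne (Ne.symm h)]
      rw [h1]
      unfold sub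
      rw [map_add, map_mul, aeval_X, map_mul]
      congr 2
      split_ifs
      · exact map_one _
      · exact map_zero _
    rw [e, pderiv_mul, hp, e1]
    simp only [e2, mul_add, Finset.sum_add_distrib, Finset.sum_mul]
    refine congrArg₂ (fun a b => a + b) ?_ ?_
    · refine Finset.sum_congr rfl fun i _ => ?_
      rw [mul_assoc]
    · rw [Finset.sum_eq_single k]
      · rw [if_pos rfl, mul_one, mul_comm]
      · intro i _ hi
        rw [if_neg hi, mul_zero, mul_zero]
      · intro h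
        exact absurd (Finset.mem_univ k) h

private theorem dv_sub {n : ℕ} (g : Matrix (Fin (n + 1)) (Fin (n + 1)) ℂ)
    (b : MvPolynomial (Fin (n + 1)) ℂ) (x v : Fin (n + 1) → ℂ) :
    dv (sub g b) x v = dv b (g.mulVec x) (g.mulVec v) := by
  unfold dv
  simp only [pderiv_sub_d3, map_sum, map_mul, eval_C, eval_sub, Finset.sum_mul]
  rw [Finset.sum_comm]
  refine Finset.sum_congr rfl fun i _ => ?_
  rw [Matrix.mulVec, dotProduct, Finset.mul_sum]
  refine Finset.sum_congr rfl fun j _ => ?_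
  ring

private theorem fa_acts {N : ℕ} {κ : Type} {d : κ → ℕ} (g : Matrix (Fin (N + 1)) (Fin (N + 1)) ℂ)
    (a : Ix N d → ℂ) (i : κ) : fa (acts g a) i = sub g (fa a i) :=
  frm_act g (fun m => a ⟨i, m⟩)

/-- [CI-D3a] the action on members: `F_i(g x)`; zeros are moved by `g` -/
theorem inc_acts {N : ℕ} {κ : Type} {d : κ → ℕ} (g : Matrix (Fin (N + 1)) (Fin (N + 1)) ℂ)
    (a : Ix N d → ℂ) (x v : Fin (N + 1) → ℂ) :
    Inc (fa (acts g a)) x v ↔ Inc (fa a) (g.mulVec x) (g.mulVec v) := by
  unfold Inc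
  refine forall_congr' fun i => ?_
  rw [fa_acts, eval_sub, dv_sub]

private theorem map_sub_d3 {R S : Type} [CommRing R] [CommRing S] (f : R →+* S) {n : ℕ}
    (g : Matrix (Fin (n + 1)) (Fin (n + 1)) R) (P : MvPolynomial (Fin (n + 1)) R) :
    MvPolynomial.map f (sub g P) = sub (g.map f) (MvPolynomial.map f P) := by
  unfold sub
  induction P using MvPolynomial.induction_on with
  | C a => simp
  | add p q hp hq => rw [map_add, map_add, map_add, map_add, hp, hq]
  | mul_X p i hp =>
    rw [map_mul, map_mul, map_mul, map_mul, hp]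
    refine congrArg (HMul.hMul _) ?_
    simp [map_sum]

private theorem map_acts {R S : Type} [CommRing R] [CommRing S] (f : R →+* S) {N : ℕ} {κ : Type}
    {d : κ → ℕ} (g : Matrix (Fin (N + 1)) (Fin (N + 1)) R) (a : Ix N d → R) (p : Ix N d) :
    f (acts g a p) = acts (g.map f) (fun q => f (a q)) p := by
  unfold acts act
  rw [← coeff_map, map_sub_d3, map_frm]

private theorem acts_acts {N : ℕ} {κ : Type} {d : κ → ℕ}
    (g h : Matrix (Fin (N + 1)) (Fin (N + 1)) ℂ) (a : Ix N d → ℂ) :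
    acts g (acts h a) = acts (h * g) a := by
  funext p
  exact congrFun (act_act g h (fun m => a ⟨p.1, m⟩)) p.2

private theorem acts_one {N : ℕ} {κ : Type} {d : κ → ℕ} (a : Ix N d → ℂ) :
    acts (1 : Matrix (Fin (N + 1)) (Fin (N + 1)) ℂ) a = a := by
  funext p
  exact congrFun (act_one (fun m => a ⟨p.1, m⟩)) p.2

private theorem sp_bihom {N α β : ℕ} {E : Type} (a : E → ℂ)
    {P : MvPolynomial (XV N) (MvPolynomial E ℚ)} (hP : BiHom α β P) : BiHom α β (sp a P) := by
  intro m hm
  refine hP (fun h => hm ?_)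
  unfold sp
  rw [coeff_map, h, map_zero]

/-- [CI-D3b] Proof.  Choose a complex invertible `g₀` with `g₀ x₀ = x`, `g₀ v₀ = v` (both pairs are independent); `c = acts g₀⁻¹ a₀`: `Inc (fa c) x v` by `inc_acts`.  `acts g₀ c = a₀` (`act_act`, `act_one`) and
`adj g₀ x = det g₀ • x₀`, so the value for `g₀` is `(det g₀) ^ (α + β) * eval (x₀, v₀) (sp a₀ P) ≠ 0` (`P` is bihomogeneous, `eval_bihom`).  For the fixed `c` the value times `det g` is a polynomial function of `g`, not identically zero, so it is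
nonzero at some integral `g` (see `GH.exists_int`, Lib_MP_b9fedf_gh/ExInt.lean). -/
theorem exists_int2 {N α β : ℕ} {κ : Type} [Fintype κ] {d : κ → ℕ}
    (P : MvPolynomial (XV N) (MvPolynomial (Ix N d) ℚ)) (hP : BiHom α β P)
    (a₀ : Ix N d → ℂ) (x₀ v₀ : Fin (N + 1) → ℂ) (h₀ : LinearIndependent ℂ ![x₀, v₀])
    (hI : Inc (fa a₀) x₀ v₀) (hne : eval (Sum.elim x₀ v₀) (sp a₀ P) ≠ 0)
    (x v : Fin (N + 1) → ℂ) (hxv : LinearIndependent ℂ ![x, v]) :
    ∃ (g : Matrix (Fin (N + 1)) (Fin (N + 1)) ℤ) (c : Ix N d → ℂ), g.det ≠ 0 ∧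
      Inc (fa c) x v ∧
      eval (Sum.elim ((g.map (Int.cast : ℤ → ℂ)).adjugate.mulVec x)
        ((g.map (Int.cast : ℤ → ℂ)).adjugate.mulVec v))
        (sp (acts (g.map (Int.cast : ℤ → ℂ)) c) P) ≠ 0 := by
  obtain ⟨A, hA, hAx, hAv⟩ := LG.exists_matrix hxv h₀
  have hu : IsUnit A.det := isUnit_iff_ne_zero.2 hA
  -- the inverse
  have hinv : ∀ y y₀ : Fin (N + 1) → ℂ, A.adjugate.mulVec y = A.det • y₀ → A⁻¹.mulVec y = y₀ := by
    intro y y₀ h
    rw [Matrix.inv_def, Matrix.smul_mulVec, h, smul_smul, Ring.inverse_eq_inv', inv_mul_cancel₀ hA,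
      one_smul]
  obtain ⟨c, hc⟩ : ∃ c, c = acts A⁻¹ a₀ := ⟨_, rfl⟩
  have hcI : Inc (fa c) x v := by
    rw [hc, inc_acts, hinv x x₀ hAx, hinv v v₀ hAv]
    exact hI
  have hcA : acts A c = a₀ := by
    rw [hc, acts_acts, Matrix.nonsing_inv_mul A hu, acts_one]
  -- the polynomial in the entries
  obtain ⟨G, hG⟩ : ∃ G : Matrix (Fin (N + 1)) (Fin (N + 1))
      (MvPolynomial (Fin (N + 1) × Fin (N + 1)) ℂ), G = Matrix.mvPolynomialX _ _ ℂ := ⟨_, rfl⟩
  obtain ⟨R, hR⟩ : ∃ R : MvPolynomial (Fin (N + 1) × Fin (N + 1)) ℂ,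
      R = G.det * eval₂ (aeval (acts G (fun q => C (c q))) : MvPolynomial (Ix N d) ℚ →ₐ[ℚ]
        MvPolynomial (Fin (N + 1) × Fin (N + 1)) ℂ).toRingHom
        (Sum.elim (G.adjugate.mulVec fun i => C (x i)) (G.adjugate.mulVec fun i => C (v i))) P :=
    ⟨_, rfl⟩
  have hev : ∀ M : Matrix (Fin (N + 1)) (Fin (N + 1)) ℂ, eval (fun p => M p.1 p.2) R =
      M.det * eval (Sum.elim (M.adjugate.mulVec x) (M.adjugate.mulVec v)) (sp (acts M c) P) := by
    intro M
    obtain ⟨f, hf⟩ : ∃ f : MvPolynomial (Fin (N + 1) × Fin (N + 1)) ℂ →+* ℂ,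
        f = eval (fun p => M p.1 p.2) := ⟨_, rfl⟩
    have h1 : f.mapMatrix G = M := by
      rw [hf, hG]
      exact Matrix.mvPolynomialX_mapMatrix_eval M
    have h2 : f G.det = M.det := by rw [RingHom.map_det, h1]
    have h3 : f.mapMatrix G.adjugate = M.adjugate := by rw [RingHom.map_adjugate, h1]
    have h4 : ∀ (x : Fin (N + 1) → ℂ) (i : Fin (N + 1)), f ((G.adjugate.mulVec fun i => C (x i)) i) =
        M.adjugate.mulVec x i := by
      intro x i
      rw [← h3]
      simp only [Matrix.mulVec, dotProduct, map_sum, map_mul, RingHom.mapMatrix_apply,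
        Matrix.map_apply]
      refine Finset.sum_congr rfl fun j _ => ?_
      rw [hf, eval_C]
    rw [hR, ← hf, map_mul, h2, hom_eval₂]
    congr 1
    have h6 : f.comp (aeval (acts G (fun q => C (c q))) : MvPolynomial (Ix N d) ℚ →ₐ[ℚ]
        MvPolynomial (Fin (N + 1) × Fin (N + 1)) ℂ).toRingHom =
        (aeval (acts M c) : MvPolynomial (Ix N d) ℚ →ₐ[ℚ] ℂ).toRingHom := by
      refine MvPolynomial.ringHom_ext (fun r => ?_) (fun q => ?_)
      · exact RingHom.congr_fun (RingHom.ext_rat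
          ((f.comp (aeval (acts G (fun q => C (c q))) : MvPolynomial (Ix N d) ℚ →ₐ[ℚ]
            MvPolynomial (Fin (N + 1) × Fin (N + 1)) ℂ).toRingHom).comp C)
          ((aeval (acts M c) : MvPolynomial (Ix N d) ℚ →ₐ[ℚ] ℂ).toRingHom.comp C)) r
      · have h8 : f (acts G (fun q => C (c q)) q) = acts M c q := by
          rw [map_acts]
          have h9 : G.map f = M := h1
          rw [h9]
          have h10 : (fun q => f (C (c q))) = c := by
            funext q
            rw [hf, eval_C]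
          rw [h10]
        simpa using h8
    have h7 : f ∘ (Sum.elim (G.adjugate.mulVec fun i => C (x i))
        (G.adjugate.mulVec fun i => C (v i))) =
        Sum.elim (M.adjugate.mulVec x) (M.adjugate.mulVec v) := by
      funext t
      rcases t with t | t
      · exact h4 x t
      · exact h4 v t
    unfold sp
    rw [eval_map, ← h6, ← h7]
    rfl
  have hR0 : R ≠ 0 := by
    intro h
    have h1 := hev A
    rw [h, map_zero, hAx, hAv, hcA, eval_bihom (sp_bihom a₀ hP)] at h1
    have h2 : A.det * (A.det ^ α * A.det ^ β * eval (Sum.elim x₀ v₀) (sp a₀ P)) ≠ 0 :=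
      mul_ne_zero hA (mul_ne_zero (mul_ne_zero (pow_ne_zero _ hA) (pow_ne_zero _ hA)) hne)
    exact h2 h1.symm
  obtain ⟨g, hg⟩ := LG.exists_int_eval_ne hR0
  refine ⟨Matrix.of fun i j => g (i, j), c, ?_, hcI, ?_⟩
  · intro h
    apply hg
    have h1 := hev ((Matrix.of fun i j => g (i, j)).map (Int.cast : ℤ → ℂ))
    have h2 : ((Matrix.of fun i j => g (i, j)).map (Int.cast : ℤ → ℂ)).det = 0 := by
      have := Int.cast_det (R := ℂ) (Matrix.of fun i j => g (i, j))
      rw [h] at this
      simpa using this.symm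
    rw [h2, zero_mul] at h1
    exact h1
  · intro h
    apply hg
    have h1 := hev ((Matrix.of fun i j => g (i, j)).map (Int.cast : ℤ → ℂ))
    rw [h, mul_zero] at h1
    exact h1

end Pool.Agent.CI
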