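import Pool.Agent.Lib_MP_b9fedf_ci.BasicJ

/-! [CI-A1]: local families of pairs `(x, v)` on the complete intersection. -/

set_option autoImplicit false

namespace Pool.Agent.CI
open MvPolynomial Pool.Agent.GGL Pool.Agent.GH

/-- the derivative of the value of `P` at `x`, as a continuous linear map -/
private noncomputable def dL {n : ℕ} (P : MvPolynomial (Fin (n + 1)) ℂ) (x : Fin (n + 1) → ℂ) :
    (Fin (n + 1) → ℂ) →L[ℂ] ℂ :=
  ∑ j, (eval x (pderiv j P)) • (ContinuousLinearMap.proj j : (Fin (n + 1) → ℂ) →L[ℂ] ℂ)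

private theorem dL_apply {n : ℕ} (P : MvPolynomial (Fin (n + 1)) ℂ) (x v : Fin (n + 1) → ℂ) :
    dL P x v = dv P x v := by
  simp [dL, dv]

private theorem dL_C {n : ℕ} (a : ℂ) (x : Fin (n + 1) → ℂ) :
    dL (C a : MvPolynomial (Fin (n + 1)) ℂ) x = 0 := by
  ext v
  simp [dL_apply, dv]

private theorem dL_add {n : ℕ} (P Q : MvPolynomial (Fin (n + 1)) ℂ) (x : Fin (n + 1) → ℂ) :
    dL (P + Q) x = dL P x + dL Q x := by
  ext v
  simp [dL_apply, dv, add_mul, Finset.sum_add_distrib]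

private theorem dL_mul {n : ℕ} (P Q : MvPolynomial (Fin (n + 1)) ℂ) (x : Fin (n + 1) → ℂ) :
    dL (P * Q) x = eval x P • dL Q x + eval x Q • dL P x := by
  refine ContinuousLinearMap.ext fun v => ?_
  simp only [dL_apply, dv, Derivation.leibniz, smul_eq_mul, map_add, map_mul,
    add_apply, smul_apply, Finset.mul_sum,
    ← Finset.sum_add_distrib]
  refine Finset.sum_congr rfl fun j _ => ?_
  ring

private theorem dL_X {n : ℕ} (i : Fin (n + 1)) (x : Fin (n + 1) → ℂ) :
    dL (X i : MvPolynomial (Fin (n + 1)) ℂ) x = ContinuousLinearMap.proj i := by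
  refine ContinuousLinearMap.ext fun v => ?_
  simp only [dL_apply, dv, pderiv_X, ContinuousLinearMap.proj_apply]
  rw [Finset.sum_eq_single i]
  · simp
  · intro j _ hj
    simp [hj.symm]
  · intro h
    exact absurd (Finset.mem_univ i) h

private theorem hasFD {n : ℕ} (P : MvPolynomial (Fin (n + 1)) ℂ) (x : Fin (n + 1) → ℂ) :
    HasFDerivAt (fun y : Fin (n + 1) → ℂ => eval y P) (dL P x) x := by
  induction P using MvPolynomial.induction_on with
  | C a =>
    have hf : (fun y : Fin (n + 1) → ℂ => eval y (C a : MvPolynomial (Fin (n + 1)) ℂ)) =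
        fun _ => a := by
      funext y
      simp
    rw [hf, dL_C]
    exact hasFDerivAt_const a x
  | add P Q hP hQ =>
    have hf : (fun y : Fin (n + 1) → ℂ => eval y (P + Q)) =
        (fun y : Fin (n + 1) → ℂ => eval y P) + fun y => eval y Q := by
      funext y
      simp
    rw [hf, dL_add]
    exact hP.add hQ
  | mul_X P i hP =>
    have hf : (fun y : Fin (n + 1) → ℂ => eval y (P * X i)) =
        (fun y : Fin (n + 1) → ℂ => eval y P) * fun y => y i := by
      funext y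
      simp
    have h1 : HasFDerivAt (fun y : Fin (n + 1) → ℂ => y i)
        (ContinuousLinearMap.proj (R := ℂ) (φ := fun _ : Fin (n + 1) => ℂ) i) x :=
      (ContinuousLinearMap.proj (R := ℂ) (φ := fun _ : Fin (n + 1) => ℂ) i).hasFDerivAt
    have h2 := hP.mul h1
    rw [hf, dL_mul, dL_X, eval_X]
    exact h2

private theorem cont_ev {n : ℕ} (P : MvPolynomial (Fin (n + 1)) ℂ) :
    ContDiff ℂ 2 (fun y : Fin (n + 1) → ℂ => eval y P) := by
  have h := AnalyticOnNhd.eval_continuousLinearMap (𝕜 := ℂ)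
    (ContinuousLinearMap.id ℂ (Fin (n + 1) → ℂ)) P
  exact h.contDiff

/-- a linear right inverse of the Jacobian -/
private theorem exists_rho {n : ℕ} {B : Type} [Fintype B] [DecidableEq B]
    (b : B → MvPolynomial (Fin (n + 1)) ℂ) (x₀ : Fin (n + 1) → ℂ)
    (hli : LinearIndependent ℂ (fun i : B => fun j => eval x₀ (pderiv j (b i)))) :
    ∃ ρ : (B → ℂ) →L[ℂ] (Fin (n + 1) → ℂ), ∀ y i, dv (b i) x₀ (ρ y) = y i := by
  set M : Matrix B (Fin (n + 1)) ℂ := fun i j => eval x₀ (pderiv j (b i)) with hM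
  have hr : M.rank = Fintype.card B := LinearIndependent.rank_matrix (M := M) hli
  have hs : Function.Surjective M.mulVecLin := by
    rw [← LinearMap.range_eq_top]
    apply Submodule.eq_top_of_finrank_eq
    rw [Module.finrank_fintype_fun_eq_card]
    exact hr
  obtain ⟨g, hg⟩ := LinearMap.exists_rightInverse_of_surjective M.mulVecLin
    (LinearMap.range_eq_top.mpr hs)
  refine ⟨LinearMap.toContinuousLinearMap g, fun y i => ?_⟩
  have h : M.mulVec (g y) i = y i := congrFun (LinearMap.congr_fun hg y) i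
  exact h

/-- straightening a map with a right inverse of the derivative -/
private theorem straight {E F : Type} [NormedAddCommGroup E] [NormedSpace ℂ E] [CompleteSpace E]
    [NormedAddCommGroup F] [NormedSpace ℂ F] (bb : E → F) (hbb : ContDiff ℂ 2 bb) (x₀ v₀ : E)
    (h0 : bb x₀ = 0) (ρ : F →L[ℂ] E) (hρ : ∀ y, fderiv ℂ bb x₀ (ρ y) = y) :
    ∃ r : ℝ, 0 < r ∧ ∃ K : ℝ, ∃ U ∈ nhds (x₀, v₀), ∀ p ∈ U,
      ∃ (X : F → E) (V : F × F → E), X 0 = p.1 ∧ V (0, 0) = p.2 ∧
        ∀ a a' : F, ‖a‖ < r → ‖a'‖ < r →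
          bb (X a) = bb p.1 + a ∧ fderiv ℂ bb (X a) (V (a, a')) = fderiv ℂ bb p.1 p.2 + a' ∧
          ‖X a‖ ≤ K ∧ ‖V (a, a')‖ ≤ K ∧ DifferentiableAt ℂ X a ∧
          DifferentiableAt ℂ V (a, a') := by
  set D : E →L[ℂ] F := fderiv ℂ bb x₀ with hD
  set φ : E → E := fun x => ρ (bb x) + (x - x₀) - ρ (D (x - x₀)) with hφ
  set φ' : E → E →L[ℂ] E := fun x =>
    ρ.comp (fderiv ℂ bb x) + ContinuousLinearMap.id ℂ E - ρ.comp D with hφ'
  have hd : Differentiable ℂ bb := hbb.differentiable (by norm_num)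
  have hφd : ∀ x, HasFDerivAt φ (φ' x) x := by
    intro x
    have e1 : HasFDerivAt (fun x => ρ (bb x)) (ρ.comp (fderiv ℂ bb x)) x :=
      ρ.hasFDerivAt.comp x (hd x).hasFDerivAt
    have e2 : HasFDerivAt (fun x : E => x - x₀) (ContinuousLinearMap.id ℂ E) x :=
      (hasFDerivAt_id x).sub_const x₀
    have e3 : HasFDerivAt (fun x : E => ρ (D (x - x₀))) ((ρ.comp D).comp
        (ContinuousLinearMap.id ℂ E)) x := (ρ.comp D).hasFDerivAt.comp x e2
    exact (e1.add e2).sub e3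
  have hφC : ContDiff ℂ 2 φ := by
    rw [hφ]
    fun_prop
  have hφ0 : HasFDerivAt φ ((ContinuousLinearEquiv.refl ℂ E : E ≃L[ℂ] E) : E →L[ℂ] E) x₀ := by
    have h := hφd x₀
    have e : φ' x₀ = ((ContinuousLinearEquiv.refl ℂ E : E ≃L[ℂ] E) : E →L[ℂ] E) := by
      rw [hφ']
      refine ContinuousLinearMap.ext fun v => ?_
      simp [hD]
    rwa [e] at h
  have hDφ : ∀ x, D (φ x) = bb x := by
    intro x
    rw [hφ]
    simp only [map_add, map_sub, hρ]
    abel
  have hDφ' : ∀ x v, D (φ' x v) = fderiv ℂ bb x v := by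
    intro x v
    rw [hφ']
    simp only [add_apply, sub_apply, ContinuousLinearMap.comp_apply,
      ContinuousLinearMap.id_apply, map_add, map_sub, hρ]
    abel
  have hφx : φ x₀ = 0 := by
    rw [hφ]
    simp [h0]
  have hcd : ContDiffAt ℂ 2 φ x₀ := hφC.contDiffAt
  set ψ : E → E := hcd.localInverse hφ0 two_ne_zero with hψ
  have hleft : ∀ᶠ x in nhds x₀, ψ (φ x) = x :=
    (hcd.hasStrictFDerivAt' hφ0 two_ne_zero).eventually_left_inverse
  have hright : ∀ᶠ y in nhds (0 : E), φ (ψ y) = y := by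
    have h := (hcd.hasStrictFDerivAt' hφ0 two_ne_zero).eventually_right_inverse
    rw [hφx] at h
    exact h
  have hψC : ContDiffAt ℂ 2 ψ 0 := by
    have h := hcd.to_localInverse hφ0 two_ne_zero
    rw [hφx] at h
    exact h
  have hev2 : ∀ᶠ y in nhds (0 : E), ContDiffAt ℂ 2 ψ y := hψC.eventually (by norm_num)
  have hfC : ContDiffAt ℂ 1 (fderiv ℂ ψ) 0 := hψC.fderiv_right (by norm_num)
  have hev3 : ∀ᶠ y in nhds (0 : E), ‖ψ y‖ < ‖ψ 0‖ + 1 :=
    hψC.continuousAt.norm.eventually (gt_mem_nhds (lt_add_one _))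
  have hev4 : ∀ᶠ y in nhds (0 : E), ‖fderiv ℂ ψ y‖ < ‖fderiv ℂ ψ 0‖ + 1 :=
    hfC.continuousAt.norm.eventually (gt_mem_nhds (lt_add_one _))
  obtain ⟨ε, hε, hball⟩ := Metric.eventually_nhds_iff_ball.mp
    (hright.and (hev2.and (hev3.and hev4)))
  -- the derivative of the inverse
  have hinv : ∀ y ∈ Metric.ball (0 : E) ε, ∀ u, φ' (ψ y) (fderiv ℂ ψ y u) = u := by
    intro y hy u
    have hdψ : HasFDerivAt ψ (fderiv ℂ ψ y) y :=
      ((hball y hy).2.1.differentiableAt (by norm_num)).hasFDerivAt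
    have h1 : HasFDerivAt (fun z => φ (ψ z)) ((φ' (ψ y)).comp (fderiv ℂ ψ y)) y :=
      (hφd (ψ y)).comp y hdψ
    have h2 : HasFDerivAt (fun z => φ (ψ z)) (ContinuousLinearMap.id ℂ E) y := by
      refine (hasFDerivAt_id y).congr_of_eventuallyEq ?_
      filter_upwards [Metric.isOpen_ball.mem_nhds hy] with z hz
      exact (hball z hz).1
    have h3 := h1.unique h2
    have h4 := congrArg (fun L : E →L[ℂ] E => L u) h3
    simpa using h4
  set M : ℝ := ‖ρ‖ + 1 with hM
  have hM0 : 0 < M := by positivity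
  set K1 : ℝ := ‖ψ 0‖ + 1 with hK1
  set K2 : ℝ := ‖fderiv ℂ ψ 0‖ + 1 with hK2
  have hK2p : 0 < K2 := by positivity
  set r : ℝ := ε / (2 * M) with hr
  have hrp : 0 < r := by positivity
  -- the neighbourhood
  have hc1 : ∀ᶠ p : E × E in nhds (x₀, v₀), ‖φ p.1‖ < ε / 2 := by
    have h : ContinuousAt (fun p : E × E => ‖φ p.1‖) (x₀, v₀) :=
      (hφC.continuous.norm.comp continuous_fst).continuousAt
    refine h.eventually (gt_mem_nhds ?_)
    simp only [hφx, norm_zero]
    positivity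
  have hcu : Continuous (fun p : E × E => φ' p.1 p.2) := by
    have hcf : Continuous (fderiv ℂ bb) := hbb.continuous_fderiv (by norm_num)
    have e1 : Continuous (fun p : E × E => fderiv ℂ bb p.1 p.2) :=
      (hcf.comp continuous_fst).clm_apply continuous_snd
    rw [hφ']
    simp only [add_apply, sub_apply, ContinuousLinearMap.comp_apply,
      ContinuousLinearMap.id_apply]
    exact ((ρ.continuous.comp e1).add continuous_snd).sub
      (ρ.continuous.comp (D.continuous.comp continuous_snd))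
  have hc2 : ∀ᶠ p : E × E in nhds (x₀, v₀), ‖φ' p.1 p.2‖ < ‖φ' x₀ v₀‖ + 1 := by
    have h : ContinuousAt (fun p : E × E => ‖φ' p.1 p.2‖) (x₀, v₀) := hcu.norm.continuousAt
    exact h.eventually (gt_mem_nhds (lt_add_one (‖φ' x₀ v₀‖)))
  have hc3 : ∀ᶠ p : E × E in nhds (x₀, v₀), ∀ᶠ z in nhds p.1, ψ (φ z) = z := by
    have h : Filter.Tendsto (fun p : E × E => p.1) (nhds (x₀, v₀)) (nhds x₀) :=
      continuous_fst.continuousAt
    exact h.eventually hleft.eventually_nhds
  obtain ⟨U, hU, hUp⟩ := (hc1.and (hc2.and hc3)).exists_mem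
  refine ⟨r, hrp, max K1 (K2 * (‖φ' x₀ v₀‖ + 1 + M * r)), U, hU, ?_⟩
  rintro ⟨x, v⟩ hxv
  obtain ⟨hx1, hx2, hx3⟩ := hUp _ hxv
  simp only at hx1 hx2 hx3
  have hy0 : φ x ∈ Metric.ball (0 : E) ε := by
    rw [mem_ball_zero_iff]
    linarith
  refine ⟨fun a => ψ (φ x + ρ a), fun q => fderiv ℂ ψ (φ x + ρ q.1) (φ' x v + ρ q.2), ?_, ?_, ?_⟩
  · simpa using hx3.self_of_nhds
  · have hdψ : HasFDerivAt ψ (fderiv ℂ ψ (φ x)) (φ x) :=
      ((hball _ hy0).2.1.differentiableAt (by norm_num)).hasFDerivAt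
    have h1 : HasFDerivAt (fun z => ψ (φ z)) ((fderiv ℂ ψ (φ x)).comp (φ' x)) x :=
      hdψ.comp x (hφd x)
    have h2 : HasFDerivAt (fun z => ψ (φ z)) (ContinuousLinearMap.id ℂ E) x :=
      (hasFDerivAt_id x).congr_of_eventuallyEq hx3
    have h4 := congrArg (fun L : E →L[ℂ] E => L v) (h1.unique h2)
    simpa using h4
  · intro a a' ha ha'
    have hρn : ∀ w : F, ‖w‖ < r → ‖ρ w‖ ≤ M * r := by
      intro w hw
      calc ‖ρ w‖ ≤ ‖ρ‖ * ‖w‖ := ρ.le_opNorm w
        _ ≤ M * r := by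
          apply mul_le_mul _ hw.le (norm_nonneg _) hM0.le
          rw [hM]
          linarith
    have hMr : M * r = ε / 2 := by
      rw [hr]
      field_simp
    have hy : φ x + ρ a ∈ Metric.ball (0 : E) ε := by
      rw [mem_ball_zero_iff]
      have h1 := norm_add_le (φ x) (ρ a)
      have h2 := hρn a ha
      linarith
    obtain ⟨g1, g2, g3, g4⟩ := hball _ hy
    refine ⟨?_, ?_, ?_, ?_, ?_, ?_⟩
    · show bb (ψ (φ x + ρ a)) = bb x + a
      rw [← hDφ (ψ (φ x + ρ a)), g1, map_add, hDφ, hρ]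
    · show fderiv ℂ bb (ψ (φ x + ρ a)) (fderiv ℂ ψ (φ x + ρ a) (φ' x v + ρ a')) =
        fderiv ℂ bb x v + a'
      rw [← hDφ', hinv _ hy, map_add, hDφ', hρ]
    · exact le_max_of_le_left g3.le
    · refine le_max_of_le_right ?_
      show ‖fderiv ℂ ψ (φ x + ρ a) (φ' x v + ρ a')‖ ≤ _
      refine (ContinuousLinearMap.le_opNorm _ _).trans ?_
      refine mul_le_mul g4.le ?_ (norm_nonneg _) hK2p.le
      exact (norm_add_le _ _).trans (add_le_add hx2.le (hρn a' ha'))
    · have hq : DifferentiableAt ℂ ψ (φ x + ρ a) := g2.differentiableAt (by norm_num)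
      have ha2 : DifferentiableAt ℂ (fun a : F => φ x + ρ a) a := by fun_prop
      exact hq.comp a ha2
    · have hq : DifferentiableAt ℂ (fderiv ℂ ψ) (φ x + ρ a) :=
        (g2.fderiv_right (m := 1) (by norm_num)).differentiableAt (by norm_num)
      have hA : DifferentiableAt ℂ (fun q : F × F => fderiv ℂ ψ (φ x + ρ q.1)) (a, a') := by
        have ha2 : DifferentiableAt ℂ (fun q : F × F => φ x + ρ q.1) (a, a') := by fun_prop
        exact DifferentiableAt.comp (g := fderiv ℂ ψ) (a, a') hq ha2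
      have hB : DifferentiableAt ℂ (fun q : F × F => φ' x v + ρ q.2) (a, a') := by fun_prop
      exact hA.clm_apply hB
/-- [CI-A1] Adapt the proof of `GH.local_family` (Lib_MP_b9fedf_gh/Family.lean).  Let `b : ι ⊕ B → _` be the family of the
`F i` and the `l j`, `ρ` a linear right inverse of its Jacobian at `x₀`.  As there, `X(t) = x + ρ S(x, y_t)` with `y_t = 0` for the members
`F i` and `y_t = t_j l_j(x)` for the `l j`, where `S` is the solution of `b(x + ρ s) = y` near `(x₀, 0)`.  The only change is in `V`: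
`V(t) = v + ρ u(t)`, `u(t) = M(X(t))⁻¹ (w - Db(X(t), v))` with `M(X) = Db(X) ρ` and `w = 0` for the `F i`, `w = Dl_j(x, v)` (NOT multiplied by
`t_j`) for the `l j`.  At `t = 1`: `X = x` (as `F_i(x) = 0`) and `u = 0` (as `DF_i(x, v) = 0`).  Then
`DF_i(X(t), V(t)) = 0`. -/
theorem local_family2 {N : ℕ} {ι B : Type} [Fintype ι] [DecidableEq ι] [Fintype B] [DecidableEq B]
    (F : ι → MvPolynomial (Fin (N + 1)) ℂ) (l : B → MvPolynomial (Fin (N + 1)) ℂ)
    (x₀ v₀ : Fin (N + 1) → ℂ) (h0 : Inc F x₀ v₀) (h1 : ∀ j, eval x₀ (l j) = 0)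
    (hli : LinearIndependent ℂ (Sum.elim (fun i : ι => fun k => eval x₀ (pderiv k (F i)))
      (fun j : B => fun k => eval x₀ (pderiv k (l j))) : ι ⊕ B → Fin (N + 1) → ℂ)) :
    ∃ (r : ℝ), 0 < r ∧ ∃ (C : ℝ), ∃ U ∈ nhds (x₀, v₀), ∀ p ∈ U, Inc F p.1 p.2 →
      ∃ X V : (B → ℂ) → (Fin (N + 1) → ℂ), X (fun _ => 1) = p.1 ∧ V (fun _ => 1) = p.2 ∧
        ∀ t : B → ℂ, (∀ j, ‖t j‖ * ‖eval p.1 (l j)‖ < r) →
          Inc F (X t) (V t) ∧ (∀ j, eval (X t) (l j) = t j * eval p.1 (l j)) ∧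
          ‖X t‖ ≤ C ∧ ‖V t‖ ≤ C ∧ DifferentiableAt ℂ X t ∧ DifferentiableAt ℂ V t := by
  classical
  set b : ι ⊕ B → MvPolynomial (Fin (N + 1)) ℂ := Sum.elim F l with hb
  set bb : (Fin (N + 1) → ℂ) → (ι ⊕ B → ℂ) := fun x i => eval x (b i) with hbb
  have hC : ContDiff ℂ 2 bb := contDiff_pi.mpr fun i => cont_ev (b i)
  have hder : ∀ x v i, fderiv ℂ bb x v i = dv (b i) x v := by
    intro x v i
    have h1 : HasFDerivAt bb (ContinuousLinearMap.pi fun i => dL (b i) x) x :=
      hasFDerivAt_pi.mpr fun i => hasFD (b i) x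
    rw [h1.fderiv]
    exact dL_apply (b i) x v
  have hli' : LinearIndependent ℂ (fun i : ι ⊕ B => fun j => eval x₀ (pderiv j (b i))) := by
    have e : (fun i : ι ⊕ B => fun j => eval x₀ (pderiv j (b i))) =
        (Sum.elim (fun i : ι => fun k => eval x₀ (pderiv k (F i)))
      (fun j : B => fun k => eval x₀ (pderiv k (l j))) : ι ⊕ B → Fin (N + 1) → ℂ) := by
      funext i
      rcases i with i | i <;> rfl
    rw [e]
    exact hli
  have hb0 : ∀ i, eval x₀ (b i) = 0 := by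
    intro i
    rcases i with i | i
    · exact (h0 i).1
    · exact h1 i
  obtain ⟨ρ, hρ⟩ := exists_rho b x₀ hli'
  obtain ⟨r, hr, K, U, hU, H⟩ := straight bb hC x₀ v₀ (funext hb0) ρ
    (fun y => funext fun i => by rw [hder, hρ])
  have hU2 : ∀ᶠ p : (Fin (N + 1) → ℂ) × (Fin (N + 1) → ℂ) in nhds (x₀, v₀),
      ∀ j, ‖eval p.1 (l j)‖ < r / 2 := by
    rw [Filter.eventually_all]
    intro i
    have hc : ContinuousAt (fun p : (Fin (N + 1) → ℂ) × (Fin (N + 1) → ℂ) => ‖eval p.1 (l i)‖)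
        (x₀, v₀) :=
      (((MvPolynomial.continuous_eval (l i)).comp continuous_fst).norm).continuousAt
    refine hc.eventually (gt_mem_nhds ?_)
    simp only [h1, norm_zero]
    positivity
  obtain ⟨W, hW, hWp⟩ := hU2.exists_mem
  refine ⟨r / 2, by positivity, K, U ∩ W, Filter.inter_mem hU hW, ?_⟩
  rintro ⟨x, v⟩ ⟨hp1, hpW⟩ hinc
  have hp2 := hWp _ hpW
  simp only at hp2 hinc
  obtain ⟨X, V, hX, hV, hXV⟩ := H _ hp1
  set A : (B → ℂ) → (ι ⊕ B → ℂ) := fun t => Sum.elim (fun _ => 0) (fun j => (t j - 1) * eval x (l j)) with hA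
  have hAd : Differentiable ℂ A := by
    rw [differentiable_pi]
    intro i
    rcases i with i | j
    · exact differentiable_const (0 : ℂ)
    · show Differentiable ℂ (fun t : B → ℂ => (t j - 1) * eval x (l j))
      fun_prop
  have e : A (fun _ => 1) = 0 := by
    funext i
    rcases i with i | j
    · rfl
    · show ((1 : ℂ) - 1) * eval x (l j) = 0
      ring
  refine ⟨fun t => X (A t), fun t => V (A t, 0), ?_, ?_, ?_⟩
  · show X (A fun _ => 1) = x
    rw [e, hX]
  · show V (A (fun _ => 1), 0) = v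
    rw [e, hV]
  · intro t ht
    simp only at ht
    have ha : ‖A t‖ < r := by
      rw [pi_norm_lt_iff hr]
      intro i
      rcases i with i | j
      · show ‖(0 : ℂ)‖ < r
        rw [norm_zero]
        exact hr
      · have h2 : ‖(t j - 1) * eval x (l j)‖ ≤ ‖t j‖ * ‖eval x (l j)‖ + ‖eval x (l j)‖ := by
          rw [norm_mul]
          have h3 : ‖t j - 1‖ ≤ ‖t j‖ + 1 := by
            simpa using norm_sub_le (t j) 1
          nlinarith [norm_nonneg (eval x (l j))]
        have h4 := ht j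
        have h5 := hp2 j
        show ‖(t j - 1) * eval x (l j)‖ < r
        linarith
    have h0r : ‖(0 : ι ⊕ B → ℂ)‖ < r := by
      rw [norm_zero]
      exact hr
    obtain ⟨k1, k2, k3, k4, k5, k6⟩ := hXV (A t) 0 ha h0r
    refine ⟨fun i => ⟨?_, ?_⟩, fun j => ?_, k3, k4, ?_, ?_⟩
    · have h := congrFun k1 (Sum.inl i)
      have h' : eval (X (A t)) (F i) = eval x (F i) + 0 := h
      show eval (X (A t)) (F i) = 0
      rw [h', (hinc i).1, add_zero]
    · have h := congrFun k2 (Sum.inl i)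
      rw [hder, Pi.add_apply, hder] at h
      have h' : dv (F i) (X (A t)) (V (A t, 0)) = dv (F i) x v + 0 := h
      show dv (F i) (X (A t)) (V (A t, 0)) = 0
      rw [h', (hinc i).2, add_zero]
    · have h := congrFun k1 (Sum.inr j)
      have h' : eval (X (A t)) (l j) = eval x (l j) + (t j - 1) * eval x (l j) := h
      show eval (X (A t)) (l j) = t j * eval x (l j)
      rw [h']
      ring
    · exact k5.comp t (hAd t)
    · have hp : DifferentiableAt ℂ (fun t => (A t, (0 : ι ⊕ B → ℂ))) t :=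
        (hAd t).prodMk (differentiableAt_const _)
      exact DifferentiableAt.comp (g := V) t k6 hp

end Pool.Agent.CI
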