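import Pool.Agent.Lib_MP_b9fedf_ci.Open3
import Pool.Agent.Lib_MP_b9fedf_ci.Const3

/-! General complete intersections of large codimension: the final form. -/

set_option autoImplicit false

namespace Pool.Agent.CI
open MvPolynomial Pool.Agent.GGL Pool.Agent.GH

/-- the complete intersection `F_i = 0` is smooth of the expected dimension -/
def Smth {N : ℕ} {κ : Type} (F : κ → MvPolynomial (Fin (N + 1)) ℂ) : Prop :=
  ∀ x : Fin (N + 1) → ℂ, x ≠ 0 → (∀ i, eval x (F i) = 0) →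
    LinearIndependent ℂ (fun i : κ => fun k => eval x (pderiv k (F i)))

/-- all entire curves in the variety `F_i = 0` are constant -/
def NoCurves {N : ℕ} {κ : Type} (F : κ → MvPolynomial (Fin (N + 1)) ℂ) : Prop :=
  ∀ f : ℂ → Fin (N + 1) → ℂ, Differentiable ℂ f → (∀ z, f z ≠ 0) →
    (∀ i z, eval (f z) (F i) = 0) → ∀ z w, ∃ t : ℂ, f w = t • f z

/-- the condition on dimension, codimension and degrees -/
def Large (n c : ℕ) (d : Fin c → ℕ) : Prop :=
  5 * n ≤ c + 3 ∧ ∀ T : Finset (Fin c), T.card + 5 * n = c + 3 →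
    2 * (3 * n - 1) ^ 2 < ∑ i ∈ T, (d i - 1)

theorem smth_of_sncL {N : ℕ} {κ : Type} {F : κ → MvPolynomial (Fin (N + 1)) ℂ}
    (h : SncL F (fun (j : Fin 0) (_ : Fin (N + 1)) => (Fin.elim0 j : ℂ))) : Smth F := by
  intro x hx h0
  have h1 := h x hx h0 ∅ (fun j => Fin.elim0 j)
  have h2 := h1.comp Sum.inl Sum.inl_injective
  exact h2

theorem large_of (n c : ℕ) (d : Fin c → ℕ) (hn : 1 ≤ n) (hd : ∀ i, 2 ≤ d i)
    (h : 18 * n ^ 2 ≤ c ∨ (5 * n ≤ c ∧ ∀ i, 6 * n ^ 2 < d i)) : Large n c d := by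
  obtain ⟨m, rfl⟩ : ∃ m, n = m + 1 := ⟨n - 1, by omega⟩
  have e1 : 3 * (m + 1) - 1 = 3 * m + 2 := by omega
  rcases h with h | ⟨h, h6⟩
  · have h5 : 5 * (m + 1) ≤ c := by
      refine le_trans ?_ h
      nlinarith
    refine ⟨by omega, fun T hT => ?_⟩
    have h1 : T.card ≤ ∑ i ∈ T, (d i - 1) := by
      rw [Finset.card_eq_sum_ones]
      refine Finset.sum_le_sum fun i _ => ?_
      have := hd i
      omega
    refine lt_of_lt_of_le ?_ h1
    rw [e1]
    have h2 : 2 * (3 * m + 2) ^ 2 + 5 * (m + 1) < 18 * (m + 1) ^ 2 + 3 := by nlinarith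
    omega
  · refine ⟨by omega, fun T hT => ?_⟩
    have h1 : T.card * (6 * (m + 1) ^ 2) ≤ ∑ i ∈ T, (d i - 1) := by
      rw [← smul_eq_mul, ← Finset.sum_const]
      refine Finset.sum_le_sum fun i _ => ?_
      have := h6 i
      omega
    refine lt_of_lt_of_le ?_ h1
    rw [e1]
    have h3 : 3 ≤ T.card := by omega
    have h4 : 3 * (6 * (m + 1) ^ 2) ≤ T.card * (6 * (m + 1) ^ 2) := Nat.mul_le_mul_right _ h3
    refine lt_of_lt_of_le ?_ h4
    nlinarith

/-- General complete intersections of large codimension. -/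
theorem main_ample (n c : ℕ) (d : Fin c → ℕ) (hn : 1 ≤ n) (hd : ∀ i, 2 ≤ d i)
    (h : Large n c d) :
    ∃ S : MvPolynomial (Ix (n + c) d) ℚ, S ≠ 0 ∧ ∀ a : Ix (n + c) d → ℂ, aeval a S ≠ 0 →
      Smth (fa a) ∧ AmpleCot (fa a) ∧ NoCurves (fa a) := by
  obtain ⟨S, hS, hSa⟩ := ample_open (N := n + c) hn (by rw [Fintype.card_fin]) d hd
    (by rw [Fintype.card_fin]; exact h.1) (fun T hT => h.2 T (by
      rw [Fintype.card_fin] at hT
      exact hT))
  refine ⟨S, hS, fun a ha => ?_⟩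
  obtain ⟨h1, h2⟩ := hSa a ha
  refine ⟨smth_of_sncL h2, h1, fun f hf hf0 hfF => ?_⟩
  exact const_of_ample (fun i => by have := hd i; omega) (fa a) (fa_hom a) h1 f hf hf0 hfF

end Pool.Agent.CI
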