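import Pool.Agent.Lib_MP_b9fedf_ci.Fin3

/-! Sufficient conditions for `Large`. -/

set_option autoImplicit false

namespace Pool.Agent.CI

theorem large_min (n c k : ℕ) (d : Fin c → ℕ) (h5 : 5 * n ≤ c + 3) (hk : ∀ i, k + 1 ≤ d i)
    (h : 2 * (3 * n - 1) ^ 2 < (c + 3 - 5 * n) * k) : Large n c d := by
  refine ⟨h5, fun T hT => lt_of_lt_of_le h ?_⟩
  have h1 : T.card * k ≤ ∑ i ∈ T, (d i - 1) := by
    rw [← smul_eq_mul, ← Finset.sum_const]
    refine Finset.sum_le_sum fun i _ => ?_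
    have := hk i
    omega
  have h2 : T.card = c + 3 - 5 * n := by omega
  rwa [h2] at h1

theorem large_of3 (n c : ℕ) (d : Fin c → ℕ) (hn : 1 ≤ n) (hd : ∀ i, 2 ≤ d i)
    (h : 18 * n ^ 2 ≤ c ∨ (6 * n ≤ c ∧ ∀ i, 18 * n ≤ d i) ∨ (5 * n ≤ c ∧ ∀ i, 6 * n ^ 2 < d i)) :
    Large n c d := by
  rcases h with h | h | h
  · exact large_of n c d hn hd (Or.inl h)
  · obtain ⟨m, rfl⟩ : ∃ m, n = m + 1 := ⟨n - 1, by omega⟩
    refine large_min _ _ (18 * (m + 1) - 1) _ (by omega) (fun i => by have := h.2 i; omega) ?_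
    have e1 : 3 * (m + 1) - 1 = 3 * m + 2 := by omega
    have e2 : 18 * (m + 1) - 1 = 18 * m + 17 := by omega
    have e3 : m + 4 ≤ c + 3 - 5 * (m + 1) := by omega
    rw [e1, e2]
    refine lt_of_lt_of_le ?_ (Nat.mul_le_mul_right _ e3)
    nlinarith
  · exact large_of n c d hn hd (Or.inr h)

end Pool.Agent.CI
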