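import Mathlib

/-! [CI-C12]: the algebraic part of the independence. -/

set_option autoImplicit false

namespace Pool.Agent.CI
open MvPolynomial

/-- Exponents `a - (d - 1) e` determine `(a, e)` in the range used. -/
private lemma pair_inj_aux {d a e a' e' : ℕ} (hle : e ≤ e') (h1' : e' ≠ 0 → a' + 1 < d)
    (h : a + (d - 1) * e' = a' + (d - 1) * e) : a = a' ∧ e = e' := by
  obtain ⟨m, rfl⟩ := Nat.exists_eq_add_of_le hle
  rcases Nat.eq_zero_or_pos m with hm | hm
  · subst hm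
    simp only [add_zero] at h ⊢
    exact ⟨by omega, trivial⟩
  · exfalso
    have h2 := h1' (by omega)
    have h3 : (d - 1) * 1 ≤ (d - 1) * m := Nat.mul_le_mul_left _ hm
    have h4 : (d - 1) * (e + m) = (d - 1) * e + (d - 1) * m := by ring
    omega

private lemma pair_inj {d a e a' e' : ℕ} (h1 : e ≠ 0 → a + 1 < d) (h1' : e' ≠ 0 → a' + 1 < d)
    (h : a + (d - 1) * e' = a' + (d - 1) * e) : a = a' ∧ e = e' := by
  rcases le_total e e' with hle | hle
  · exact pair_inj_aux hle h1' h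
  · obtain ⟨h2, h3⟩ := pair_inj_aux hle h1 h.symm
    exact ⟨h2.symm, h3.symm⟩

/-- [CI-C12] Proof.  Multiply by `∏ i, σ i ^ R` (`R` large): a polynomial identity in `σ` (all `σ i ≠ 0`, hence all `σ`) and `v`; the exponent of `σ i` in the term of `(a, e, ν)` is
`R + a i - (d i - 1) e i`, and `(a i, e i) ↦ (d i - 1) e i - a i` is injective on the pairs with `a i + 1 < d i`, `e i ≥ 1` or `a i = e i = 0`.  So for fixed `(a, e)`:
`(∏ i, D_i(v) ^ e i) ∑ ν, c v ^ ν = 0` for all `v`; the linear forms `D_i` are nonzero for `e i ≠ 0`, so the polynomial `∑ c v ^ ν` is `0`. -/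
theorem lim_alg {κ : Type} [Fintype κ] [DecidableEq κ] {n : ℕ} (d : κ → ℕ)
    (T : Finset ((κ → ℕ) × (κ → ℕ) × (Fin (n + 1) → ℕ)))
    (hT : ∀ p ∈ T, ∀ i, (p.2.1 i ≠ 0 → p.1 i + 1 < d i) ∧ (p.2.1 i = 0 → p.1 i = 0))
    (δ : κ → Fin (n + 1) → ℂ) (hδ : ∀ p ∈ T, ∀ i, p.2.1 i ≠ 0 → δ i ≠ 0)
    (c : (κ → ℕ) × (κ → ℕ) × (Fin (n + 1) → ℕ) → ℂ)
    (h : ∀ (σ : κ → ℂ) (v : Fin (n + 1) → ℂ), (∀ i, σ i ≠ 0) →
      ∑ p ∈ T, c p * ((∏ i, (σ i ^ p.1 i * ((∑ j, δ i j * v j) / σ i ^ (d i - 1)) ^ p.2.1 i)) *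
        ∏ j, v j ^ p.2.2 j) = 0) :
    ∀ p ∈ T, c p = 0 := by
  classical
  obtain ⟨R, hR⟩ : ∃ R : ℕ, ∀ p ∈ T, ∀ i, (d i - 1) * p.2.1 i ≤ R := by
    refine ⟨∑ p ∈ T, ∑ i, (d i - 1) * p.2.1 i, fun p hp i => ?_⟩
    calc (d i - 1) * p.2.1 i ≤ ∑ i, (d i - 1) * p.2.1 i :=
          Finset.single_le_sum (f := fun i => (d i - 1) * p.2.1 i) (fun _ _ => Nat.zero_le _)
            (Finset.mem_univ i)
      _ ≤ _ := Finset.single_le_sum (f := fun p : (κ → ℕ) × (κ → ℕ) × (Fin (n + 1) → ℕ) =>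
            ∑ i, (d i - 1) * p.2.1 i) (fun _ _ => Nat.zero_le _) hp
  let E : ((κ → ℕ) × (κ → ℕ) × (Fin (n + 1) → ℕ)) → κ →₀ ℕ := fun p =>
    Finsupp.equivFunOnFinite.symm (fun i => R + p.1 i - (d i - 1) * p.2.1 i)
  have hE : ∀ p i, E p i = R + p.1 i - (d i - 1) * p.2.1 i := fun p i => rfl
  let A : ((κ → ℕ) × (κ → ℕ) × (Fin (n + 1) → ℕ)) → (Fin (n + 1) → ℂ) → ℂ := fun p v =>
    c p * ((∏ i, (∑ j, δ i j * v j) ^ p.2.1 i) * ∏ j, v j ^ p.2.2 j)
  have key : ∀ v : Fin (n + 1) → ℂ, ∑ p ∈ T, monomial (E p) (A p v) = 0 := by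
    intro v
    have h1 : (∏ i : κ, (X i : MvPolynomial κ ℂ)) * ∑ p ∈ T, monomial (E p) (A p v) = 0 := by
      apply MvPolynomial.funext
      intro σ
      rw [map_zero, map_mul, map_prod]
      by_cases hσ : ∀ i, σ i ≠ 0
      · have h2 := h σ v hσ
        have h3 : eval σ (∑ p ∈ T, monomial (E p) (A p v)) = (∏ i, σ i ^ R) *
            ∑ p ∈ T, c p * ((∏ i, (σ i ^ p.1 i * ((∑ j, δ i j * v j) / σ i ^ (d i - 1)) ^ p.2.1 i)) *
              ∏ j, v j ^ p.2.2 j) := by
          rw [map_sum, Finset.mul_sum]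
          refine Finset.sum_congr rfl fun p hp => ?_
          rw [eval_monomial, Finsupp.prod_fintype _ _ (by simp)]
          have h4 : (∏ i, σ i ^ R) *
              (∏ i, (σ i ^ p.1 i * ((∑ j, δ i j * v j) / σ i ^ (d i - 1)) ^ p.2.1 i)) =
              (∏ i, σ i ^ E p i) * ∏ i, (∑ j, δ i j * v j) ^ p.2.1 i := by
            rw [← Finset.prod_mul_distrib, ← Finset.prod_mul_distrib]
            refine Finset.prod_congr rfl fun i _ => ?_
            rw [hE, div_pow, ← pow_mul]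
            have h5 : σ i ^ (R + p.1 i - (d i - 1) * p.2.1 i) * σ i ^ ((d i - 1) * p.2.1 i) =
                σ i ^ R * σ i ^ p.1 i := by
              rw [← pow_add, ← pow_add]
              congr 1
              have := hR p hp i
              omega
            have h6 : σ i ^ ((d i - 1) * p.2.1 i) ≠ 0 := pow_ne_zero _ (hσ i)
            rw [← mul_assoc, ← h5]
            field_simp
          simp only [A]
          calc c p * ((∏ i, (∑ j, δ i j * v j) ^ p.2.1 i) * ∏ j, v j ^ p.2.2 j) *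
                ∏ i, σ i ^ E p i = c p * (((∏ i, σ i ^ E p i) *
                  ∏ i, (∑ j, δ i j * v j) ^ p.2.1 i) * ∏ j, v j ^ p.2.2 j) := by ring
            _ = _ := by rw [← h4]; ring
        rw [h3, h2, mul_zero, mul_zero]
      · push Not at hσ
        obtain ⟨i, hi⟩ := hσ
        rw [Finset.prod_eq_zero (Finset.mem_univ i) (by simp [hi]), zero_mul]
    rcases mul_eq_zero.1 h1 with h2 | h2
    · exfalso
      exact Finset.prod_ne_zero_iff.2 (fun i _ => X_ne_zero i) h2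
    · exact h2
  intro p0 hp0
  have h3 : ∀ v : Fin (n + 1) → ℂ, (∏ i, (∑ j, δ i j * v j) ^ p0.2.1 i) *
      ∑ p ∈ T.filter (fun p => p.1 = p0.1 ∧ p.2.1 = p0.2.1), c p * ∏ j, v j ^ p.2.2 j = 0 := by
    intro v
    have h4 := congrArg (coeff (E p0)) (key v)
    rw [coeff_sum, coeff_zero] at h4
    simp only [coeff_monomial] at h4
    rw [← Finset.sum_filter] at h4
    have h5 : T.filter (fun p => E p = E p0) =
        T.filter (fun p => p.1 = p0.1 ∧ p.2.1 = p0.2.1) := by
      apply Finset.filter_congr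
      intro p hp
      constructor
      · intro hh
        have h6 : ∀ i, p.1 i = p0.1 i ∧ p.2.1 i = p0.2.1 i := by
          intro i
          have h7 := DFunLike.congr_fun hh i
          rw [hE, hE] at h7
          have h8 := hR p hp i
          have h9 := hR p0 hp0 i
          exact pair_inj (hT p hp i).1 (hT p0 hp0 i).1 (by omega)
        exact ⟨funext fun i => (h6 i).1, funext fun i => (h6 i).2⟩
      · rintro ⟨ha, he⟩
        ext i
        rw [hE, hE, ha, he]
    rw [h5] at h4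
    rw [Finset.mul_sum, ← h4]
    refine Finset.sum_congr rfl fun p hp => ?_
    rw [Finset.mem_filter] at hp
    simp only [A]
    rw [hp.2.2]
    ring
  have h8 : (∏ i, (∑ j, C (δ i j) * X j) ^ p0.2.1 i) *
      ∑ p ∈ T.filter (fun p => p.1 = p0.1 ∧ p.2.1 = p0.2.1),
        monomial (Finsupp.equivFunOnFinite.symm p.2.2) (c p) =
      (0 : MvPolynomial (Fin (n + 1)) ℂ) := by
    apply MvPolynomial.funext
    intro v
    rw [map_zero, map_mul, map_prod, map_sum, ← h3 v]
    congr 1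
    · refine Finset.prod_congr rfl fun i _ => ?_
      simp
    · refine Finset.sum_congr rfl fun p _ => ?_
      rw [eval_monomial, Finsupp.prod_fintype _ _ (by simp)]
      rfl
  rcases mul_eq_zero.1 h8 with h9 | h9
  · exfalso
    obtain ⟨i, _, hi⟩ := Finset.prod_eq_zero_iff.1 h9
    have h10 : p0.2.1 i ≠ 0 := by
      intro h0
      rw [h0, pow_zero] at hi
      exact one_ne_zero hi
    have h11 : (∑ j, C (δ i j) * X j : MvPolynomial (Fin (n + 1)) ℂ) = 0 := by
      exact pow_eq_zero_iff h10 |>.1 hi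
    apply hδ p0 hp0 i h10
    funext j
    have h12 := congrArg (eval (Pi.single j (1 : ℂ))) h11
    rw [map_sum, map_zero] at h12
    simpa [Pi.single_apply] using h12
  · have h10 := congrArg (coeff (Finsupp.equivFunOnFinite.symm p0.2.2)) h9
    rw [coeff_sum, coeff_zero] at h10
    simp only [coeff_monomial] at h10
    rw [Finset.sum_eq_single p0] at h10
    · simpa using h10
    · intro p hp hne
      rw [Finset.mem_filter] at hp
      rw [if_neg]
      intro h11
      apply hne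
      have h12 : p.2.2 = p0.2.2 := Finsupp.equivFunOnFinite.symm.injective h11
      exact Prod.ext hp.2.1 (Prod.ext hp.2.2 h12)
    · intro h11
      exact absurd (Finset.mem_filter.2 ⟨hp0, rfl, rfl⟩) h11

end Pool.Agent.CI
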