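import Pool.Agent.Lib_MP_b9fedf_ci.PtDefs

/-! [CI-C11]: the functions along an arc. -/

set_option autoImplicit false

namespace Pool.Agent.CI
open MvPolynomial Filter Topology Pool.Agent.GGL Pool.Agent.GH

variable {κ : Type} [Fintype κ] [DecidableEq κ] {n N : ℕ}

/-- [CI-C11a] -/
theorem fo_bihom (e : Fin (n + 1) ⊕ κ ≃ Fin (N + 1)) (d : κ → ℕ) (α β α₁ : ℕ)
    (pt : Finset κ → (κ → ℕ) → Fin (N + 1) → ℂ)
    (P : Finset κ → (κ → ℕ) → ℕ → MvPolynomial (Fin (N + 1)) ℂ) (hP : IsSep n d pt α₁ P)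
    (hα : α₁ + ∑ i, d i ≤ α) (ω : (κ → ℕ) × (κ → ℕ) × (κ → ℕ) × (Fin (n + 1) → ℕ))
    (h1 : ∀ i, ω.1 i < d i) (h2 : ∀ i, ω.2.1 i < d i) (h3 : (supp ω.2.2.1).card = n)
    (h4 : ∑ i, ω.2.2.1 i + ∑ j, ω.2.2.2 j = β) : BiHom α β (fo e α P ω) := by
  have ha : ∑ i, ω.2.1 i ≤ ∑ i, d i := Finset.sum_le_sum fun i _ => (h2 i).le
  have hP1 := (hP (supp ω.2.2.1) ω.1 (α - ∑ i, ω.2.1 i) h3 h1 (by omega)).1
  have k1 : BiHom (α - ∑ i, ω.2.1 i) 0 (inx (P (supp ω.2.2.1) ω.1 (α - ∑ i, ω.2.1 i))) :=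
    inx_bihom _ hP1
  have k2 : BiHom (∑ i, ω.2.1 i) 0
      (∏ i, (X (Sum.inl (e (Sum.inr i))) : MvPolynomial (XV N) ℂ) ^ ω.2.1 i) := by
    unfold BiHom
    have h := IsWeightedHomogeneous.prod (w := (Sum.elim (fun _ => ((1, 0) : ℕ × ℕ))
      (fun _ => (0, 1)) : XV N → ℕ × ℕ)) Finset.univ
      (fun i : κ => (X (Sum.inl (e (Sum.inr i))) : MvPolynomial (XV N) ℂ) ^ ω.2.1 i)
      (fun i => ω.2.1 i • ((1, 0) : ℕ × ℕ)) (fun i _ => (isWeightedHomogeneous_X ℂ _ _).pow _)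
    have h' : ∑ i, ω.2.1 i • ((1, 0) : ℕ × ℕ) = (∑ i, ω.2.1 i, 0) := by
      ext
      · rw [Prod.fst_sum]; simp
      · rw [Prod.snd_sum]; simp
    rw [h'] at h
    exact h
  have k3 : BiHom 0 (∑ i, ω.2.2.1 i)
      (∏ i, (X (Sum.inr (e (Sum.inr i))) : MvPolynomial (XV N) ℂ) ^ ω.2.2.1 i) := by
    unfold BiHom
    have h := IsWeightedHomogeneous.prod (w := (Sum.elim (fun _ => ((1, 0) : ℕ × ℕ))
      (fun _ => (0, 1)) : XV N → ℕ × ℕ)) Finset.univ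
      (fun i : κ => (X (Sum.inr (e (Sum.inr i))) : MvPolynomial (XV N) ℂ) ^ ω.2.2.1 i)
      (fun i => ω.2.2.1 i • ((0, 1) : ℕ × ℕ)) (fun i _ => (isWeightedHomogeneous_X ℂ _ _).pow _)
    have h' : ∑ i, ω.2.2.1 i • ((0, 1) : ℕ × ℕ) = (0, ∑ i, ω.2.2.1 i) := by
      ext
      · rw [Prod.fst_sum]; simp
      · rw [Prod.snd_sum]; simp
    rw [h'] at h
    exact h
  have k4 : BiHom 0 (∑ j, ω.2.2.2 j)
      (∏ j, (X (Sum.inr (e (Sum.inl j))) : MvPolynomial (XV N) ℂ) ^ ω.2.2.2 j) := by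
    unfold BiHom
    have h := IsWeightedHomogeneous.prod (w := (Sum.elim (fun _ => ((1, 0) : ℕ × ℕ))
      (fun _ => (0, 1)) : XV N → ℕ × ℕ)) Finset.univ
      (fun j : Fin (n + 1) => (X (Sum.inr (e (Sum.inl j))) : MvPolynomial (XV N) ℂ) ^ ω.2.2.2 j)
      (fun j => ω.2.2.2 j • ((0, 1) : ℕ × ℕ)) (fun j _ => (isWeightedHomogeneous_X ℂ _ _).pow _)
    have h' : ∑ j, ω.2.2.2 j • ((0, 1) : ℕ × ℕ) = (0, ∑ j, ω.2.2.2 j) := by
      ext
      · rw [Prod.fst_sum]; simp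
      · rw [Prod.snd_sum]; simp
    rw [h'] at h
    exact h
  have k5 := ((k1.mul k2).mul k3).mul k4
  have e1 : α - ∑ i, ω.2.1 i + ∑ i, ω.2.1 i + 0 + 0 = α := by omega
  have e2 : 0 + 0 + ∑ i, ω.2.2.1 i + ∑ j, ω.2.2.2 j = β := by omega
  rw [e1, e2] at k5
  exact k5

private theorem tau_pow (r : ℕ) : Tendsto (fun τ : ℝ => (τ : ℂ) ^ r) (𝓝[>] (0 : ℝ))
    (𝓝 (if r = 0 then 1 else 0)) := by
  by_cases h : r = 0
  · subst h
    simp
  · rw [if_neg h]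
    have h1 : Tendsto (fun τ : ℝ => (τ : ℂ) ^ r) (𝓝 (0 : ℝ)) (𝓝 (((0 : ℝ) : ℂ) ^ r)) :=
      (Complex.continuous_ofReal.pow r).tendsto 0
    rw [Complex.ofReal_zero, zero_pow h] at h1
    exact h1.mono_left nhdsWithin_le_nhds

/-- [CI-C11b] Proof.  For `i ∈ J`: `y_i ^ a_i w_i ^ e_i = (y_i / τ) ^ a_i (w_i τ ^ (d_i - 1)) ^ e_i / τ ^ ((d_i - 1) e_i - a_i)` (`a_i ≤ (d_i - 1) e_i`); for `i ∉ J` the factor converges.
`M - ∑ i ∈ J, ((d_i - 1) e_i - a_i) ≥ 0`, with equality iff `sz = M` and all terms with `i ∉ J` are zero, i.e. `supp e ⊆ J` (each term with `e_i ≠ 0` is `≥ 1`).  If `supp e ≠ J` the first factor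
tends to `0` (`hP0`) and the others are bounded.  If `supp e = J` the exponent is `M - sz`; positive: the limit is `0`; zero: the product of the limits (for `i ∉ J` `a_i = e_i = 0`). -/
theorem term_lim (e : Fin (n + 1) ⊕ κ ≃ Fin (N + 1)) (s : κ → ℕ → ℕ) (d : κ → ℕ)
    {J : Finset κ} {z : Fin (N + 1) → ℂ} {σ : κ → ℂ} {v : Fin (n + 1) → ℂ}
    {x w : ℝ → Fin (N + 1) → ℂ} (harc : IsArc e s d J z σ v x w)
    (hzJ : ∀ i ∈ J, z (e (Sum.inr i)) = 0) (α : ℕ)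
    (P : Finset κ → (κ → ℕ) → ℕ → MvPolynomial (Fin (N + 1)) ℂ)
    (ω : (κ → ℕ) × (κ → ℕ) × (κ → ℕ) × (Fin (n + 1) → ℕ))
    (h1 : ∀ i, ω.2.2.1 i ≠ 0 → ω.2.1 i + 1 < d i) (h2 : ∀ i, ω.2.2.1 i = 0 → ω.2.1 i = 0)
    (M : ℕ) (hM : sz d ω.2.1 ω.2.2.1 ≤ M)
    (hP0 : supp ω.2.2.1 ≠ J → eval z (P (supp ω.2.2.1) ω.1 (α - ∑ i, ω.2.1 i)) = 0) :
    Tendsto (fun τ : ℝ => (τ : ℂ) ^ M * eval (Sum.elim (x τ) (w τ)) (fo e α P ω))
      (𝓝[>] (0 : ℝ))
      (𝓝 (if supp ω.2.2.1 = J ∧ sz d ω.2.1 ω.2.2.1 = M then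
        eval z (P (supp ω.2.2.1) ω.1 (α - ∑ i, ω.2.1 i)) *
          (∏ i, (σ i ^ ω.2.1 i * (dv (vb ℂ n s d i) (xp e z) v /
            (d i * σ i ^ (d i - 1))) ^ ω.2.2.1 i)) * ∏ j, v j ^ ω.2.2.2 j
        else 0)) := by
  obtain ⟨θ, a, ee, ν⟩ := ω
  simp only at h1 h2 hM hP0 ⊢
  set Q := P (supp ee) θ (α - ∑ i, a i) with hQ
  set W : κ → ℂ := fun i => dv (vb ℂ n s d i) (xp e z) v / (d i * σ i ^ (d i - 1)) with hW
  -- the size is at least one on the support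
  have hs1 : ∀ i, ee i ≠ 0 → 0 < (d i - 1) * ee i - a i := by
    intro i hi
    have h3 := h1 i hi
    have h4 : 1 ≤ ee i := Nat.one_le_iff_ne_zero.mpr hi
    have h5 : (d i - 1) * 1 ≤ (d i - 1) * ee i := Nat.mul_le_mul_left _ h4
    omega
  -- the factors
  set g : κ → ℝ → ℂ := fun i τ => x τ (e (Sum.inr i)) ^ a i * w τ (e (Sum.inr i)) ^ ee i *
    (τ : ℂ) ^ ((d i - 1) * ee i - a i) with hg
  have hgJ : ∀ i ∈ J, Tendsto (g i) (𝓝[>] (0 : ℝ)) (𝓝 (σ i ^ a i * W i ^ ee i)) := by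
    intro i hi
    have h3 := ((harc.y1 i hi).pow (a i)).mul ((harc.w1 i hi).pow (ee i))
    refine h3.congr' ?_
    filter_upwards [self_mem_nhdsWithin] with τ hτ
    have hτ0 : (τ : ℂ) ≠ 0 := by
      have : (0 : ℝ) < τ := hτ
      exact_mod_cast this.ne'
    have h4 : a i ≤ (d i - 1) * ee i := by
      by_cases h5 : ee i = 0
      · rw [h2 i h5]
        exact Nat.zero_le _
      · exact (by have := hs1 i h5; omega)
    have h5 : (τ : ℂ) ^ ((d i - 1) * ee i) = (τ : ℂ) ^ ((d i - 1) * ee i - a i) * (τ : ℂ) ^ a i := by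
      rw [← pow_add, Nat.sub_add_cancel h4]
    simp only [hg]
    rw [div_pow, mul_pow, ← pow_mul, h5]
    field_simp
  have hgN : ∀ i, i ∉ J → Tendsto (g i) (𝓝[>] (0 : ℝ)) (𝓝 (if ee i = 0 then 1 else 0)) := by
    intro i hi
    obtain ⟨c, hc⟩ := harc.w2 i hi
    have h3 := (((harc.y2 i hi).pow (a i)).mul (hc.pow (ee i))).mul
      (tau_pow ((d i - 1) * ee i - a i))
    by_cases h5 : ee i = 0
    · have h6 := h2 i h5
      rw [if_pos h5]
      rw [h5, h6] at h3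
      simp only [hg, h5, h6]
      simp
    · rw [if_neg h5]
      rw [if_neg (hs1 i h5).ne', mul_zero] at h3
      exact h3
  -- the point
  have hx : Tendsto x (𝓝[>] (0 : ℝ)) (𝓝 z) := by
    rw [tendsto_pi_nhds]
    intro k
    obtain ⟨k', rfl⟩ := e.surjective k
    rcases k' with j | i
    · exact harc.xl j
    · by_cases hi : i ∈ J
      · rw [hzJ i hi]
        have h3 := (harc.y1 i hi).mul (tau_pow 1)
        rw [if_neg one_ne_zero, mul_zero] at h3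
        refine h3.congr' ?_
        filter_upwards [self_mem_nhdsWithin] with τ hτ
        have hτ0 : (τ : ℂ) ≠ 0 := by
          have : (0 : ℝ) < τ := hτ
          exact_mod_cast this.ne'
        rw [pow_one, div_mul_cancel₀ _ hτ0]
      · exact harc.y2 i hi
  have hQl : Tendsto (fun τ => eval (x τ) Q) (𝓝[>] (0 : ℝ)) (𝓝 (eval z Q)) :=
    ((MvPolynomial.continuous_eval Q).tendsto z).comp hx
  have hprod : Tendsto (fun τ => ∏ i, g i τ) (𝓝[>] (0 : ℝ))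
      (𝓝 (∏ i, if i ∈ J then σ i ^ a i * W i ^ ee i else if ee i = 0 then 1 else 0)) := by
    apply tendsto_finsetProd
    intro i _
    by_cases hi : i ∈ J
    · rw [if_pos hi]
      exact hgJ i hi
    · rw [if_neg hi]
      exact hgN i hi
  have hall := (((tau_pow (M - sz d a ee)).mul hQl).mul hprod).mul_const (∏ j, v j ^ ν j)
  have hfun : (fun τ : ℝ => (τ : ℂ) ^ M * eval (Sum.elim (x τ) (w τ)) (fo e α P (θ, a, ee, ν))) =
      fun τ : ℝ => (τ : ℂ) ^ (M - sz d a ee) * eval (x τ) Q * (∏ i, g i τ) *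
        ∏ j, v j ^ ν j := by
    funext τ
    have e1 : eval (Sum.elim (x τ) (w τ)) (fo e α P (θ, a, ee, ν)) =
        eval (x τ) Q * (∏ i, x τ (e (Sum.inr i)) ^ a i) * (∏ i, w τ (e (Sum.inr i)) ^ ee i) *
          ∏ j, v j ^ ν j := by
      unfold fo
      simp only [map_mul, map_prod, map_pow, eval_X, Sum.elim_inl, Sum.elim_inr, harc.wl]
      rw [eval_inx]
    have e2 : (τ : ℂ) ^ M = (τ : ℂ) ^ (M - sz d a ee) *
        ∏ i, (τ : ℂ) ^ ((d i - 1) * ee i - a i) := by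
      rw [Finset.prod_pow_eq_pow_sum, ← pow_add]
      congr 1
      unfold sz at hM ⊢
      omega
    rw [e1, e2]
    simp only [hg, Finset.prod_mul_distrib]
    ring
  rw [hfun]
  convert hall using 2
  by_cases hJ : supp ee = J
  · by_cases hs : sz d a ee = M
    · rw [if_pos ⟨hJ, hs⟩, if_pos (by omega), one_mul]
      congr 2
      refine Finset.prod_congr rfl fun i _ => ?_
      by_cases hi : i ∈ J
      · rw [if_pos hi]
      · rw [if_neg hi]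
        have h3 : ee i = 0 := by
          by_contra hne
          apply hi
          rw [← hJ]
          simp [supp, hne]
        rw [if_pos h3, h2 i h3, h3]
        simp
    · rw [if_neg (fun h => hs h.2), if_neg (by omega)]
      simp
  · rw [if_neg (fun h => hJ h.1), hP0 hJ]
    simp

end Pool.Agent.CI
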