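import Pool.Agent.Lib_MP_b9fedf_ci.Arc
import Pool.Agent.Lib_MP_b9fedf_ci.TermLim
import Pool.Agent.Lib_MP_b9fedf_ci.LimAlg
import Pool.Agent.Lib_MP_b9fedf_ci.CardB

/-! [CI-C13]: the functions are linearly independent on the special member. -/

set_option autoImplicit false

namespace Pool.Agent.CI
open MvPolynomial Filter Topology Pool.Agent.GGL Pool.Agent.GH

variable {κ : Type} [Fintype κ] [DecidableEq κ] {n N : ℕ}

/-- the points of the special member with all `y_i ≠ 0` -/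
def Zst (e : Fin (n + 1) ⊕ κ ≃ Fin (N + 1)) (s : κ → ℕ → ℕ) (d : κ → ℕ) : Type :=
  {z : XV N → ℂ // Inc (spf ℂ e s d) (fun j => z (Sum.inl j)) (fun j => z (Sum.inr j)) ∧
    ∀ i, z (Sum.inl (e (Sum.inr i))) ≠ 0}

/-- the conditions on the members of `OM` -/
private theorem of_mem_OM {d : κ → ℕ} {β : ℕ}
    {ω : (κ → ℕ) × (κ → ℕ) × (κ → ℕ) × (Fin (n + 1) → ℕ)} (h : ω ∈ OM n d β) :
    (∀ i, ω.1 i < d i) ∧ (∀ i, ω.2.1 i < d i) ∧ (supp ω.2.2.1).card = n ∧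
      ∀ i, (ω.2.2.1 i ≠ 0 → ω.2.1 i + 1 < d i) ∧ (ω.2.2.1 i = 0 → ω.2.1 i = 0) := by
  unfold OM at h
  rw [Finset.mem_filter, Finset.mem_product, Finset.mem_product, Fintype.mem_piFinset,
    Fintype.mem_piFinset] at h
  exact ⟨fun i => Finset.mem_range.1 (h.1.1 i), fun i => Finset.mem_range.1 (h.1.2.1 i), h.2.1, h.2.2⟩

/-- the coefficients of the linear form `dv b_i (p, ·) / d_i` -/
private noncomputable def dco (e : Fin (n + 1) ⊕ κ ≃ Fin (N + 1)) (s : κ → ℕ → ℕ) (d : κ → ℕ)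
    (z : Fin (N + 1) → ℂ) (i : κ) (j : Fin (n + 1)) : ℂ :=
  eval (xp e z) (pderiv j (vb ℂ n s d i)) / d i

omit [Fintype κ] [DecidableEq κ] in
private theorem sum_dco (e : Fin (n + 1) ⊕ κ ≃ Fin (N + 1)) (s : κ → ℕ → ℕ) (d : κ → ℕ)
    (z : Fin (N + 1) → ℂ) (i : κ) (v : Fin (n + 1) → ℂ) :
    ∑ j, dco e s d z i j * v j = dv (vb ℂ n s d i) (xp e z) v / d i := by
  unfold dco dv
  rw [Finset.sum_div]
  exact Finset.sum_congr rfl fun j _ => by ring

private theorem dco_ne (e : Fin (n + 1) ⊕ κ ≃ Fin (N + 1)) (s : κ → ℕ → ℕ) (d : κ → ℕ)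
    {J : Finset κ} {θ : κ → ℕ} (hθ : ∀ i, θ i < d i) {z : Fin (N + 1) → ℂ}
    (hz : IsPt e s d J θ z) (i : κ) (hi : i ∈ J) : dco e s d z i ≠ 0 := by
  obtain ⟨c, hc, hcv⟩ := dv_vb e s d hθ hz i hi
  intro h0
  have h1 := sum_dco e s d z i (Pi.single 0 1)
  have h2 := hcv (Pi.single 0 1)
  have hd : (d i : ℂ) ≠ 0 := Nat.cast_ne_zero.2 (by have := hθ i; omega)
  have h3 : eval (Pi.single 0 1 : Fin (n + 1) → ℂ) (vd ℂ n (s i (θ i))) = 1 := by
    unfold vd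
    rw [map_sum, Finset.sum_eq_single 0]
    · simp
    · intro b _ hb
      rw [map_mul, eval_X, Pi.single_eq_of_ne hb, mul_zero]
    · intro h
      exact absurd (Finset.mem_univ _) h
  rw [h2, h3, mul_one, h0] at h1
  simp only [Pi.zero_apply, zero_mul, Finset.sum_const_zero] at h1
  have h4 := h1.symm
  rw [div_eq_zero_iff] at h4
  exact h4.elim hc hd

/-- [CI-C13] Proof.  Let `∑ c ω fo ω = 0` on `Zst`, not all `c ω = 0`; `M` = the maximum of `sz` over the `ω` with `c ω ≠ 0`, attained at `ω₀` with data `(J, θ)`, `z = pt J θ`.  For `σ` (all `≠ 0`)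
and `v` take `exists_arc`; multiply by `τ ^ M`, `term_lim` for each `ω` with `c ω ≠ 0`; the limit of the sum is `0`.  The terms with `(supp e, θ') ≠ (J, θ)` have limit `0` (`IsSep`); the others
give the identity of `lim_alg` for `T = {(a, e, ν) | (θ, a, e, ν) ∈ OM, supp e = J, sz = M}` with `D_i = dv b_i (p, ·) / d_i` (`dv_vb`; `v ↦ dv b_i p v` is linear, write it as `∑ δ i j v j`).  So `c ω₀ = 0`. -/
theorem fo_indep (e : Fin (n + 1) ⊕ κ ≃ Fin (N + 1)) (s : κ → ℕ → ℕ) (hs : Codes s)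
    (d : κ → ℕ) (hd : ∀ i, 2 ≤ d i) (α₁ α β : ℕ) (pt : Finset κ → (κ → ℕ) → Fin (N + 1) → ℂ)
    (hpt : ∀ J θ, J.card = n → (∀ i, θ i < d i) → IsPt e s d J θ (pt J θ))
    (P : Finset κ → (κ → ℕ) → ℕ → MvPolynomial (Fin (N + 1)) ℂ) (hP : IsSep n d pt α₁ P)
    (hα : α₁ + ∑ i, d i ≤ α) :
    LinearIndependent ℂ (fun (ω : {ω // ω ∈ OM n d β}) => fun (z : Zst e s d) =>
      eval z.1 (fo e α P ω.1)) := by
  classical
  rw [Fintype.linearIndependent_iff]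
  intro g hg
  by_contra hne
  obtain ⟨ω₁, hω₁⟩ := not_forall.1 hne
  -- the maximum of the sizes
  obtain ⟨ω₀, hω₀, hmax⟩ := Finset.exists_max_image
    (Finset.univ.filter fun ω : {ω // ω ∈ OM n d β} => g ω ≠ 0)
    (fun ω => sz d ω.1.2.1 ω.1.2.2.1) ⟨ω₁, by simpa using hω₁⟩
  rw [Finset.mem_filter] at hω₀
  obtain ⟨M, hMdef⟩ : ∃ M, M = sz d ω₀.1.2.1 ω₀.1.2.2.1 := ⟨_, rfl⟩
  obtain ⟨J, hJdef⟩ : ∃ J, J = supp ω₀.1.2.2.1 := ⟨_, rfl⟩
  obtain ⟨θ, hθdef⟩ : ∃ θ, θ = ω₀.1.1 := ⟨_, rfl⟩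
  obtain ⟨hω₀1, hω₀2, hω₀3, hω₀4⟩ := of_mem_OM ω₀.2
  have hJ : J.card = n := by rw [hJdef]; exact hω₀3
  have hθ : ∀ i, θ i < d i := by rw [hθdef]; exact hω₀1
  obtain ⟨z, hzdef⟩ : ∃ z, z = pt J θ := ⟨_, rfl⟩
  have hz : IsPt e s d J θ z := by rw [hzdef]; exact hpt J θ hJ hθ
  -- the values of the separating forms
  have hdeg : ∀ ω ∈ OM n d β, α₁ ≤ α - ∑ i, ω.2.1 i := by
    intro ω hω
    have h1 : ∑ i, ω.2.1 i ≤ ∑ i, d i := Finset.sum_le_sum fun i _ => ((of_mem_OM hω).2.1 i).le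
    omega
  have hP1 : ∀ ω ∈ OM n d β, supp ω.2.2.1 = J → ω.1 = θ →
      eval z (P (supp ω.2.2.1) ω.1 (α - ∑ i, ω.2.1 i)) = 1 := by
    intro ω hω h1 h2
    rw [h1, h2, hzdef]
    exact (hP J θ _ hJ hθ (hdeg ω hω)).2.1
  have hP0 : ∀ ω ∈ OM n d β, (supp ω.2.2.1 ≠ J ∨ ω.1 ≠ θ) →
      eval z (P (supp ω.2.2.1) ω.1 (α - ∑ i, ω.2.1 i)) = 0 := by
    intro ω hω h1
    obtain ⟨q1, q2, q3, q4⟩ := of_mem_OM hω
    rw [hzdef]
    refine (hP (supp ω.2.2.1) ω.1 _ q3 q1 (hdeg ω hω)).2.2 J θ hJ hθ ?_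
    intro h2
    rw [Prod.mk.injEq] at h2
    rcases h1 with h1 | h1
    · exact h1 h2.1
    · exact h1 h2.2
  -- the extended coefficients
  obtain ⟨G, hG⟩ : ∃ G : (κ → ℕ) × (κ → ℕ) × (κ → ℕ) × (Fin (n + 1) → ℕ) → ℂ,
      ∀ ω, G ω = if h : ω ∈ OM n d β then g ⟨ω, h⟩ else 0 := ⟨_, fun _ => rfl⟩
  have hGg : ∀ ω : {ω // ω ∈ OM n d β}, G ω.1 = g ω := by
    intro ω
    rw [hG, dif_pos ω.2]
  have hGmax : ∀ ω ∈ OM n d β, G ω ≠ 0 → sz d ω.2.1 ω.2.2.1 ≤ M := by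
    intro ω hω h1
    rw [hMdef]
    refine hmax ⟨ω, hω⟩ ?_
    rw [Finset.mem_filter]
    refine ⟨Finset.mem_univ _, ?_⟩
    rw [← hGg]
    exact h1
  -- the identity of the sums
  obtain ⟨O', hO'⟩ : ∃ O', O' = (OM n d β).filter (fun ω => ω.1 = θ ∧ supp ω.2.2.1 = J ∧
      sz d ω.2.1 ω.2.2.1 = M) := ⟨_, rfl⟩
  have hinj : ∀ ω ∈ O', ∀ ω' ∈ O', ω.2 = ω'.2 → ω = ω' := by
    intro ω hω ω' hω' h
    rw [hO', Finset.mem_filter] at hω hω'
    exact Prod.ext (hω.2.1.trans hω'.2.1.symm) h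
  have key := lim_alg (n := n) d (O'.image Prod.snd) (by
      intro p hp i
      rw [Finset.mem_image] at hp
      obtain ⟨ω, hω, rfl⟩ := hp
      rw [hO', Finset.mem_filter] at hω
      exact (of_mem_OM hω.1).2.2.2 i)
    (dco e s d z) (by
      intro p hp i hi
      rw [Finset.mem_image] at hp
      obtain ⟨ω, hω, rfl⟩ := hp
      rw [hO', Finset.mem_filter] at hω
      refine dco_ne e s d hθ hz i ?_
      rw [← hω.2.2.1]
      simpa [supp] using hi)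
    (fun p => G (θ, p)) (by
      intro σ v hσ
      obtain ⟨x, w, harc⟩ := exists_arc e s hs d hd hJ hθ hz σ hσ v
      rw [Finset.sum_image hinj]
      -- the limit of each term
      have hlim : ∀ ω ∈ OM n d β, Tendsto (fun τ : ℝ => G ω * ((τ : ℂ) ^ M *
          eval (Sum.elim (x τ) (w τ)) (fo e α P ω))) (𝓝[>] (0 : ℝ))
          (𝓝 (if ω.1 = θ ∧ supp ω.2.2.1 = J ∧ sz d ω.2.1 ω.2.2.1 = M then
            G (θ, ω.2) * ((∏ i, (σ i ^ ω.2.1 i * ((∑ j, dco e s d z i j * v j) /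
              σ i ^ (d i - 1)) ^ ω.2.2.1 i)) * ∏ j, v j ^ ω.2.2.2 j) else 0)) := by
        intro ω hω
        by_cases h0 : G ω = 0
        · have h1 : (if ω.1 = θ ∧ supp ω.2.2.1 = J ∧ sz d ω.2.1 ω.2.2.1 = M then
            G (θ, ω.2) * ((∏ i, (σ i ^ ω.2.1 i * ((∑ j, dco e s d z i j * v j) /
              σ i ^ (d i - 1)) ^ ω.2.2.1 i)) * ∏ j, v j ^ ω.2.2.2 j) else 0) = 0 := by
            split_ifs with h2
            · have h3 : (θ, ω.2) = ω := Prod.ext h2.1.symm rfl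
              rw [h3, h0, zero_mul]
            · rfl
          rw [h1]
          simp only [h0, zero_mul]
          exact tendsto_const_nhds
        · obtain ⟨q1, q2, q3, q4⟩ := of_mem_OM hω
          have h1 := (term_lim e s d harc hz.y0 α P ω (fun i => (q4 i).1) (fun i => (q4 i).2) M
            (hGmax ω hω h0) (fun h => hP0 ω hω (Or.inl h))).const_mul (G ω)
          have h2 : G ω * (if supp ω.2.2.1 = J ∧ sz d ω.2.1 ω.2.2.1 = M then
              eval z (P (supp ω.2.2.1) ω.1 (α - ∑ i, ω.2.1 i)) *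
                (∏ i, (σ i ^ ω.2.1 i * (dv (vb ℂ n s d i) (xp e z) v /
                  (d i * σ i ^ (d i - 1))) ^ ω.2.2.1 i)) * ∏ j, v j ^ ω.2.2.2 j
              else 0) = (if ω.1 = θ ∧ supp ω.2.2.1 = J ∧ sz d ω.2.1 ω.2.2.1 = M then
            G (θ, ω.2) * ((∏ i, (σ i ^ ω.2.1 i * ((∑ j, dco e s d z i j * v j) /
              σ i ^ (d i - 1)) ^ ω.2.2.1 i)) * ∏ j, v j ^ ω.2.2.2 j) else 0) := by
            by_cases h3 : supp ω.2.2.1 = J ∧ sz d ω.2.1 ω.2.2.1 = M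
            · rw [if_pos h3]
              by_cases h4 : ω.1 = θ
              · rw [if_pos ⟨h4, h3⟩, hP1 ω hω h3.1 h4, one_mul]
                have h5 : (θ, ω.2) = ω := Prod.ext h4.symm rfl
                rw [h5]
                congr 2
                refine Finset.prod_congr rfl fun i _ => ?_
                rw [sum_dco, div_div]
              · rw [if_neg (fun h => h4 h.1), hP0 ω hω (Or.inr h4), zero_mul, zero_mul, mul_zero]
            · rw [if_neg h3, if_neg (fun h => h3 h.2), mul_zero]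
          rw [← h2]
          exact h1
      have hsum := tendsto_finsetSum (OM n d β) hlim
      -- the sum is zero near zero
      have hzero : ∀ᶠ τ : ℝ in 𝓝[>] (0 : ℝ), ∑ ω ∈ OM n d β, G ω * ((τ : ℂ) ^ M *
          eval (Sum.elim (x τ) (w τ)) (fo e α P ω)) = 0 := by
        filter_upwards [harc.inc] with τ hτ
        have h1 : ∑ ω, g ω * eval (Sum.elim (x τ) (w τ)) (fo e α P ω.1) = 0 := by
          have h := congrFun hg (⟨Sum.elim (x τ) (w τ), hτ⟩ : Zst e s d)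
          refine Eq.trans ?_ h
          exact (Finset.sum_apply (⟨Sum.elim (x τ) (w τ), hτ⟩ : Zst e s d) Finset.univ
            (fun ω => g ω • fun z : Zst e s d => eval z.1 (fo e α P ω.1))).symm
        have h2 : ∑ ω ∈ OM n d β, G ω * eval (Sum.elim (x τ) (w τ)) (fo e α P ω) = 0 := by
          rw [← Finset.sum_coe_sort (OM n d β)
            (fun ω => G ω * eval (Sum.elim (x τ) (w τ)) (fo e α P ω)), ← h1]
          exact Finset.sum_congr rfl fun ω _ => by rw [hGg]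
        have h3 : ∑ ω ∈ OM n d β, G ω * ((τ : ℂ) ^ M * eval (Sum.elim (x τ) (w τ)) (fo e α P ω)) =
            (τ : ℂ) ^ M * ∑ ω ∈ OM n d β, G ω * eval (Sum.elim (x τ) (w τ)) (fo e α P ω) := by
          rw [Finset.mul_sum]
          exact Finset.sum_congr rfl fun ω _ => by ring
        rw [h3, h2, mul_zero]
      have h4 : ∑ ω ∈ OM n d β, (if ω.1 = θ ∧ supp ω.2.2.1 = J ∧ sz d ω.2.1 ω.2.2.1 = M then
            G (θ, ω.2) * ((∏ i, (σ i ^ ω.2.1 i * ((∑ j, dco e s d z i j * v j) /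
              σ i ^ (d i - 1)) ^ ω.2.2.1 i)) * ∏ j, v j ^ ω.2.2.2 j) else 0) = 0 :=
        tendsto_nhds_unique hsum (tendsto_const_nhds.congr' (hzero.mono fun τ hτ => hτ.symm))
      rw [← Finset.sum_filter, ← hO'] at h4
      exact h4)
  have h1 := key ω₀.1.2 (Finset.mem_image.2 ⟨ω₀.1, by
    rw [hO', Finset.mem_filter]
    exact ⟨ω₀.2, hθdef.symm, hJdef.symm, hMdef.symm⟩, rfl⟩)
  have h2 : (θ, ω₀.1.2) = ω₀.1 := Prod.ext hθdef rfl
  simp only [h2, hGg] at h1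
  exact hω₀.2 h1

end Pool.Agent.CI
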