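import Pool.Agent.Lib_MP_b9fedf_ci.BasicJ

/-! [CI-D2]: the free coefficients. -/

set_option autoImplicit false

namespace Pool.Agent.CI
open MvPolynomial Pool.Agent.GGL Pool.Agent.GH

/-- the monomial `X_k ^ (D - 1) X_l` -/
noncomputable def mkl (N D : ℕ) (hD : 1 ≤ D) (k l : Fin (N + 1)) : Mon N D :=
  ⟨Finsupp.single k (D - 1) + Finsupp.single l 1, by
    rw [Finset.mem_finsuppAntidiag]
    refine ⟨?_, Finset.subset_univ _⟩
    rw [Finsupp.coe_add]
    simp only [Pi.add_apply, Finset.sum_add_distrib, Finsupp.single_apply]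
    rw [Finset.sum_ite_eq Finset.univ k, Finset.sum_ite_eq Finset.univ l]
    simp only [Finset.mem_univ, if_true]
    omega⟩

/-- all coefficients except those of `X_k ^ d` and `X_k ^ (d - 1) X_l` -/
def IsFree {N : ℕ} {κ : Type} {d : κ → ℕ} (hd : ∀ i, 1 ≤ d i) (k l : Fin (N + 1))
    (p : Ix N d) : Prop :=
  p.2 ≠ mkl N (d p.1) (hd p.1) k l ∧ p.2 ≠ mkl N (d p.1) (hd p.1) k k

private theorem mkl_ne (N D : ℕ) (hD : 1 ≤ D) (k l : Fin (N + 1)) (hkl : l ≠ k) :
    mkl N D hD k l ≠ mkl N D hD k k := by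
  intro h
  have h1 : (mkl N D hD k l).1 l = (mkl N D hD k k).1 l := by rw [h]
  have h2 : (mkl N D hD k l).1 l = 1 := by
    unfold mkl
    simp only [Finsupp.add_apply, Finsupp.single_apply]
    rw [if_neg (Ne.symm hkl)]
    simp
  have h3 : (mkl N D hD k k).1 l = 0 := by
    unfold mkl
    simp only [Finsupp.add_apply, Finsupp.single_apply]
    rw [if_neg (Ne.symm hkl), if_neg (Ne.symm hkl), add_zero]
  rw [h2, h3] at h1
  exact one_ne_zero h1

private theorem monomial_mkl (N D : ℕ) (hD : 1 ≤ D) (k l : Fin (N + 1)) (c : ℂ) :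
    (monomial (mkl N D hD k l).1 c : MvPolynomial (Fin (N + 1)) ℂ) =
      C c * (X k ^ (D - 1) * X l) := by
  unfold mkl
  rw [C_mul', ← one_mul (X l : MvPolynomial (Fin (N + 1)) ℂ), ← pow_one (X l)]
  rw [X_pow_eq_monomial, X_pow_eq_monomial, one_mul, monomial_mul, one_mul, smul_monomial,
    smul_eq_mul, mul_one]

private theorem dv_monomial {N : ℕ} (x v : Fin (N + 1) → ℂ) (s : Fin (N + 1) →₀ ℕ) (c : ℂ) :
    dv (monomial s c) x v =
      c * ∑ j, (s j : ℂ) * ((s - Finsupp.single j 1).prod fun n e => x n ^ e) * v j := by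
  unfold dv
  rw [Finset.mul_sum]
  refine Finset.sum_congr rfl fun j _ => ?_
  rw [pderiv_monomial, eval_monomial]
  ring

private theorem dv_frm {N D : ℕ} (c : Mon N D → ℂ) (x v : Fin (N + 1) → ℂ) :
    dv (frm c) x v = ∑ m : Mon N D, dv (monomial m.1 (c m)) x v := by
  unfold dv frm
  rw [Finset.sum_comm]
  refine Finset.sum_congr rfl fun j _ => ?_
  rw [map_sum, map_sum, Finset.sum_mul]

private theorem dv_mkl {N D : ℕ} (hD : 1 ≤ D) (k l : Fin (N + 1)) (c : ℂ)
    (x v : Fin (N + 1) → ℂ) (hk : x k = 1) (hvk : v k = 0) :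
    dv (monomial (mkl N D hD k l).1 c) x v = c * v l := by
  rw [monomial_mkl]
  unfold dv
  have h : ∀ j : Fin (N + 1), eval x (pderiv j (C c * (X k ^ (D - 1) * X l) :
      MvPolynomial (Fin (N + 1)) ℂ)) * v j =
      (if l = j then c * v j else 0) + (if k = j then c * x l * ((D - 1 : ℕ) : ℂ) * v j else 0) := by
    intro j
    rw [pderiv_C_mul, Derivation.leibniz, Derivation.leibniz_pow, pderiv_X, pderiv_X]
    simp only [smul_eq_mul, map_mul, map_add, map_pow, eval_X, eval_C, nsmul_eq_mul, map_natCast,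
      hk, one_pow, one_mul]
    by_cases hl : l = j <;> by_cases hkj : k = j
    · subst hl
      subst hkj
      simp
      ring
    · subst hl
      rw [Pi.single_eq_same, Pi.single_eq_of_ne hkj, if_pos rfl, if_neg hkj]
      simp
    · subst hkj
      rw [Pi.single_eq_same, Pi.single_eq_of_ne hl, if_pos rfl, if_neg hl, map_zero, map_one]
      ring
    · rw [Pi.single_eq_of_ne hl, Pi.single_eq_of_ne hkj, if_neg hl, if_neg hkj]
      simp
  rw [Finset.sum_congr rfl fun j _ => h j, Finset.sum_add_distrib]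
  rw [Finset.sum_ite_eq Finset.univ l, Finset.sum_ite_eq Finset.univ k]
  simp [hvk]

private theorem eval_mkl {N D : ℕ} (hD : 1 ≤ D) (k l : Fin (N + 1)) (c : ℂ)
    (x : Fin (N + 1) → ℂ) (hk : x k = 1) :
    eval x (monomial (mkl N D hD k l).1 c) = c * x l := by
  rw [monomial_mkl]
  simp [hk]

private theorem sum_split {N D : ℕ} (m1 m2 : Mon N D) (h : m2 ≠ m1) (f : Mon N D → ℂ) :
    ∑ m : Mon N D, f m = f m1 + (f m2 + ∑ m ∈ (Finset.univ.erase m1).erase m2, f m) := by
  classical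
  rw [Finset.add_sum_erase _ f (Finset.mem_erase.mpr ⟨h, Finset.mem_univ _⟩),
    Finset.add_sum_erase _ f (Finset.mem_univ _)]

/-- [CI-D2a] Proof.  With `x_k = 1`, `v_k = 0`, `v_l = 1`: `DF_i(x, v) = a_(k l) + ∑ free a_m D(x ^ m)(v)` (the monomial `X_k ^ d` contributes `d v_k = 0`), and
`F_i(x) = a_(k k) + a_(k l) x_l + ∑ free a_m x ^ m`. -/
theorem coef_mem {N : ℕ} {κ : Type} {d : κ → ℕ} (hd : ∀ i, 1 ≤ d i) (k l : Fin (N + 1))
    (hkl : l ≠ k) (x v : Fin (N + 1) → ℂ) (hk : x k = 1) (hvk : v k = 0) (hvl : v l = 1)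
    (a : Ix N d → ℂ) (hI : Inc (fa a) x v) (A : Subalgebra ℚ ℂ) (hx : ∀ j, x j ∈ A)
    (hv : ∀ j, v j ∈ A) (ha : ∀ p, IsFree hd k l p → a p ∈ A) (p : Ix N d) : a p ∈ A := by
  classical
  obtain ⟨i, m⟩ := p
  set m1 : Mon N (d i) := mkl N (d i) (hd i) k l with hm1
  set m2 : Mon N (d i) := mkl N (d i) (hd i) k k with hm2
  have h21 : m2 ≠ m1 := fun h => mkl_ne N (d i) (hd i) k l hkl h.symm
  have hfree : ∀ m ∈ (Finset.univ.erase m1).erase m2, a ⟨i, m⟩ ∈ A := by
    intro m hm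
    rw [Finset.mem_erase, Finset.mem_erase] at hm
    exact ha ⟨i, m⟩ ⟨hm.2.1, hm.1⟩
  have hprod : ∀ s : Fin (N + 1) →₀ ℕ, (s.prod fun n e => x n ^ e) ∈ A := by
    intro s
    unfold Finsupp.prod
    exact Subalgebra.prod_mem A fun j _ => Subalgebra.pow_mem A (hx j) _
  -- the derivative
  have e1 : a ⟨i, m1⟩ ∈ A := by
    have h := (hI i).2
    unfold fa at h
    rw [dv_frm, sum_split m1 m2 h21, hm1, hm2, dv_mkl (hd i) k l _ x v hk hvk,
      dv_mkl (hd i) k k _ x v hk hvk, hvl, hvk, ← hm1, ← hm2] at h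
    have h2 : a ⟨i, m1⟩ = - ∑ m ∈ (Finset.univ.erase m1).erase m2,
        dv (monomial m.1 (a ⟨i, m⟩)) x v := by
      linear_combination h
    rw [h2]
    refine Subalgebra.neg_mem A (Subalgebra.sum_mem A fun m hm => ?_)
    rw [dv_monomial]
    refine Subalgebra.mul_mem A (hfree m hm) (Subalgebra.sum_mem A fun j _ => ?_)
    exact Subalgebra.mul_mem A (Subalgebra.mul_mem A (Subalgebra.natCast_mem A _) (hprod _)) (hv j)
  have e2 : a ⟨i, m2⟩ ∈ A := by
    have h := (hI i).1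
    unfold fa frm at h
    rw [map_sum, sum_split m1 m2 h21, hm1, hm2, eval_mkl (hd i) k l _ x hk,
      eval_mkl (hd i) k k _ x hk, hk, ← hm1, ← hm2] at h
    have h2 : a ⟨i, m2⟩ = - (a ⟨i, m1⟩ * x l + ∑ m ∈ (Finset.univ.erase m1).erase m2,
        eval x (monomial m.1 (a ⟨i, m⟩))) := by
      linear_combination h
    rw [h2]
    refine Subalgebra.neg_mem A (Subalgebra.add_mem A (Subalgebra.mul_mem A e1 (hx l))
      (Subalgebra.sum_mem A fun m hm => ?_))
    rw [eval_monomial]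
    exact Subalgebra.mul_mem A (hfree m hm) (hprod _)
  by_cases h1 : m = m1
  · rw [h1]
    exact e1
  · by_cases h2 : m = m2
    · rw [h2]
      exact e2
    · exact ha ⟨i, m⟩ ⟨h1, h2⟩

/-- [CI-D2b] two coefficients of each member are not free -/
theorem card_free {N : ℕ} {κ : Type} [Fintype κ] {d : κ → ℕ} (hd : ∀ i, 1 ≤ d i)
    (k l : Fin (N + 1)) (hkl : l ≠ k) (E' : Finset (Ix N d))
    (hE : ∀ p, p ∈ E' ↔ IsFree hd k l p) :
    Fintype.card (Ix N d) = E'.card + 2 * Fintype.card κ := by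
  classical
  let f : κ ⊕ κ → Ix N d := Sum.elim (fun i => ⟨i, mkl N (d i) (hd i) k l⟩)
    (fun i => ⟨i, mkl N (d i) (hd i) k k⟩)
  have hinj : ∀ (i : κ) (m m' : Mon N (d i)), (⟨i, m⟩ : Ix N d) = ⟨i, m'⟩ → m = m' :=
    fun i m m' h => eq_of_heq (Sigma.mk.inj_iff.mp h).2
  have hf : Function.Injective f := by
    rintro (i | i) (j | j) h
    · exact congrArg Sum.inl (congrArg Sigma.fst h)
    · exfalso
      have h1 : i = j := congrArg Sigma.fst h
      subst h1
      exact mkl_ne N (d i) (hd i) k l hkl (hinj i _ _ h)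
    · exfalso
      have h1 : i = j := congrArg Sigma.fst h
      subst h1
      exact mkl_ne N (d i) (hd i) k l hkl (hinj i _ _ h).symm
    · exact congrArg Sum.inr (congrArg Sigma.fst h)
  have hc : E'ᶜ = Finset.univ.image f := by
    ext p
    rw [Finset.mem_compl, hE p, Finset.mem_image]
    constructor
    · intro h
      unfold IsFree at h
      obtain ⟨i, m⟩ := p
      by_cases h1 : m = mkl N (d i) (hd i) k l
      · exact ⟨Sum.inl i, Finset.mem_univ _, by rw [h1]; rfl⟩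
      · by_cases h2 : m = mkl N (d i) (hd i) k k
        · exact ⟨Sum.inr i, Finset.mem_univ _, by rw [h2]; rfl⟩
        · exact absurd ⟨h1, h2⟩ h
    · rintro ⟨s, _, rfl⟩ h
      rcases s with i | i
      · exact h.1 rfl
      · exact h.2 rfl
  rw [← Finset.card_add_card_compl E', hc, Finset.card_image_of_injective _ hf, Finset.card_univ,
    Fintype.card_sum]
  ring

end Pool.Agent.CI
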