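import Pool.Agent.Lib_MP_b9fedf_ci.FreeC
import Pool.Agent.Lib_MP_b9fedf_gh.Act

/-! [CI-D4]: evaluation of the universal form at the generic member. -/

set_option autoImplicit false

namespace Pool.Agent.CI
open MvPolynomial Pool.Agent.GGL Pool.Agent.GH

section values

variable {N : ℕ}

private theorem dv_mul2 (P Q : MvPolynomial (Fin (N + 1)) ℂ) (x v : Fin (N + 1) → ℂ) :
    dv (P * Q) x v = dv P x v * eval x Q + eval x P * dv Q x v := by
  unfold dv
  rw [Finset.sum_mul, Finset.mul_sum, ← Finset.sum_add_distrib]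
  refine Finset.sum_congr rfl fun j _ => ?_
  rw [pderiv_mul, map_add, map_mul, map_mul]
  ring

private theorem dv_X2 (l : Fin (N + 1)) (x v : Fin (N + 1) → ℂ) :
    dv (X l) x v = v l := by
  unfold dv
  rw [Finset.sum_eq_single l]
  · rw [pderiv_X_self, map_one, one_mul]
  · intro j _ hj
    rw [pderiv_X_of_ne hj.symm, map_zero, zero_mul]
  · intro h
    exact absurd (Finset.mem_univ _) h

private theorem dv_one2 (x v : Fin (N + 1) → ℂ) : dv (1 : MvPolynomial (Fin (N + 1)) ℂ) x v = 0 := by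
  unfold dv
  refine Finset.sum_eq_zero fun j _ => ?_
  rw [pderiv_one, map_zero, zero_mul]

private theorem dv_Xpow2 (k : Fin (N + 1)) (x v : Fin (N + 1) → ℂ) (hvk : v k = 0) (m : ℕ) :
    dv (X k ^ m) x v = 0 := by
  induction m with
  | zero => rw [pow_zero]; exact dv_one2 x v
  | succ m ih => rw [pow_succ, dv_mul2, ih, dv_X2, hvk]; ring

private theorem mono_mkl (D : ℕ) (hD : 1 ≤ D) (k l : Fin (N + 1)) :
    (monomial (mkl N D hD k l).1 (1 : ℂ)) = X k ^ (D - 1) * X l := by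
  have h : (mkl N D hD k l).1 = Finsupp.single k (D - 1) + Finsupp.single l 1 := rfl
  rw [h, X_pow_eq_monomial, ← pow_one (X l), X_pow_eq_monomial, monomial_mul, one_mul]

private theorem ev_mkl (D : ℕ) (hD : 1 ≤ D) (k l : Fin (N + 1)) (x : Fin (N + 1) → ℂ)
    (hk : x k = 1) : eval x (monomial (mkl N D hD k l).1 (1 : ℂ)) = x l := by
  rw [mono_mkl, map_mul, map_pow, eval_X, eval_X, hk, one_pow, one_mul]

private theorem dv_mkl (D : ℕ) (hD : 1 ≤ D) (k l : Fin (N + 1)) (x v : Fin (N + 1) → ℂ)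
    (hk : x k = 1) (hvk : v k = 0) : dv (monomial (mkl N D hD k l).1 (1 : ℂ)) x v = v l := by
  rw [mono_mkl, dv_mul2, dv_Xpow2 k x v hvk, dv_X2, map_pow, eval_X, eval_X, hk]
  ring

private theorem ev_fa {κ : Type} {d : κ → ℕ} (b : Ix N d → ℂ) (i : κ) (x : Fin (N + 1) → ℂ) :
    eval x (fa b i) = ∑ m : Mon N (d i), b ⟨i, m⟩ * eval x (monomial m.1 (1 : ℂ)) := by
  unfold fa frm
  rw [map_sum]
  refine Finset.sum_congr rfl fun m _ => ?_
  rw [eval_monomial, eval_monomial, one_mul]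

private theorem dv_fa {κ : Type} {d : κ → ℕ} (b : Ix N d → ℂ) (i : κ) (x v : Fin (N + 1) → ℂ) :
    dv (fa b i) x v = ∑ m : Mon N (d i), b ⟨i, m⟩ * dv (monomial m.1 (1 : ℂ)) x v := by
  have h : ∀ (m : Mon N (d i)) (j : Fin (N + 1)),
      eval x (pderiv j (monomial m.1 (b ⟨i, m⟩))) = b ⟨i, m⟩ * eval x (pderiv j (monomial m.1 (1 : ℂ))) := by
    intro m j
    rw [pderiv_monomial, pderiv_monomial, eval_monomial, eval_monomial]
    ring
  unfold fa frm dv
  simp only [map_sum, Finset.sum_mul, Finset.mul_sum, h]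
  rw [Finset.sum_comm]
  refine Finset.sum_congr rfl fun m _ => Finset.sum_congr rfl fun j _ => ?_
  ring

private theorem ev_mem (A : Subalgebra ℚ ℂ) (x : Fin (N + 1) → ℂ) (hx : ∀ j, x j ∈ A)
    (s : Fin (N + 1) →₀ ℕ) (r : ℂ) (hr : r ∈ A) : eval x (monomial s r) ∈ A := by
  rw [eval_monomial]
  exact A.mul_mem hr (A.prod_mem fun j _ => A.pow_mem (hx j) _)

private theorem dv_mem (A : Subalgebra ℚ ℂ) (x v : Fin (N + 1) → ℂ) (hx : ∀ j, x j ∈ A)
    (hv : ∀ j, v j ∈ A) (s : Fin (N + 1) →₀ ℕ) : dv (monomial s (1 : ℂ)) x v ∈ A := by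
  unfold dv
  refine A.sum_mem fun j _ => A.mul_mem ?_ (hv j)
  rw [pderiv_monomial]
  exact ev_mem A x hx _ _ (A.mul_mem A.one_mem (natCast_mem A _))

private theorem mkl_ne (D : ℕ) (hD : 1 ≤ D) (k l : Fin (N + 1)) (hkl : l ≠ k) :
    mkl N D hD k l ≠ mkl N D hD k k := by
  intro h
  have h1 := congrArg (fun m : Mon N D => m.1 l) h
  have h2 : (mkl N D hD k l).1 l = 1 := by
    show (Finsupp.single k (D - 1) + Finsupp.single l 1 : Fin (N + 1) →₀ ℕ) l = 1
    rw [Finsupp.add_apply, Finsupp.single_eq_same, Finsupp.single_eq_of_ne hkl, zero_add]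
  have h3 : (mkl N D hD k k).1 l = 0 := by
    show (Finsupp.single k (D - 1) + Finsupp.single k 1 : Fin (N + 1) →₀ ℕ) l = 0
    rw [Finsupp.add_apply, Finsupp.single_eq_of_ne hkl, Finsupp.single_eq_of_ne hkl, add_zero]
  have h4 : (mkl N D hD k l).1 l = (mkl N D hD k k).1 l := h1
  rw [h2, h3] at h4
  exact one_ne_zero h4

open scoped Classical in
private theorem sum_split (D : ℕ) (hD : 1 ≤ D) (k l : Fin (N + 1)) (hkl : l ≠ k)
    (f : Mon N D → ℂ) :
    ∑ m, f m = f (mkl N D hD k l) + f (mkl N D hD k k) +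
      ∑ m, if (m ≠ mkl N D hD k l ∧ m ≠ mkl N D hD k k) then f m else 0 := by
  have h : ∀ m, f m = (if m = mkl N D hD k l then f m else 0) +
      (if m = mkl N D hD k k then f m else 0) +
      (if (m ≠ mkl N D hD k l ∧ m ≠ mkl N D hD k k) then f m else 0) := by
    intro m
    have hne := mkl_ne D hD k l hkl
    by_cases h1 : m = mkl N D hD k l
    · have h2 : m ≠ mkl N D hD k k := fun h => hne (h1.symm.trans h)
      rw [if_pos h1, if_neg h2, if_neg (fun h => h.1 h1)]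
      ring
    · by_cases h2 : m = mkl N D hD k k
      · rw [if_neg h1, if_pos h2, if_neg (fun h => h.2 h2)]
        ring
      · rw [if_neg h1, if_neg h2, if_pos ⟨h1, h2⟩]
        ring
  rw [Finset.sum_congr rfl fun m _ => h m, Finset.sum_add_distrib, Finset.sum_add_distrib,
    Finset.sum_ite_eq', Finset.sum_ite_eq', if_pos (Finset.mem_univ _), if_pos (Finset.mem_univ _)]

end values

section formulas

variable {N : ℕ} {κ : Type} {d : κ → ℕ}

open scoped Classical in
/-- the sum over the free coefficients of member `i` with the weights `e` -/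
private noncomputable def fsum (hd : ∀ i, 1 ≤ d i) (k l : Fin (N + 1)) (A : Subalgebra ℚ ℂ)
    (i : κ) (e : Mon N (d i) → A) : MvPolynomial {p : Ix N d // IsFree hd k l p} A :=
  ∑ m : Mon N (d i), if h : IsFree hd k l (⟨i, m⟩ : Ix N d) then
    (X ⟨⟨i, m⟩, h⟩ * C (e m) : MvPolynomial {p : Ix N d // IsFree hd k l p} A) else 0

private theorem aeval_fsum (hd : ∀ i, 1 ≤ d i) (k l : Fin (N + 1)) (A : Subalgebra ℚ ℂ)
    (i : κ) (e : Mon N (d i) → A) (b : Ix N d → ℂ) [DecidableEq (Mon N (d i))] :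
    aeval (fun p : {p : Ix N d // IsFree hd k l p} => b p.1) (fsum hd k l A i e) =
      ∑ m : Mon N (d i), if (m ≠ mkl N (d i) (hd i) k l ∧ m ≠ mkl N (d i) (hd i) k k) then
        b ⟨i, m⟩ * (e m : ℂ) else 0 := by
  classical
  unfold fsum
  rw [map_sum]
  refine Finset.sum_congr rfl fun m _ => ?_
  by_cases h : IsFree hd k l (⟨i, m⟩ : Ix N d)
  · have h' : m ≠ mkl N (d i) (hd i) k l ∧ m ≠ mkl N (d i) (hd i) k k := h
    rw [dif_pos h, if_pos h', map_mul, aeval_X, aeval_C]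
    rfl
  · have h' : ¬ (m ≠ mkl N (d i) (hd i) k l ∧ m ≠ mkl N (d i) (hd i) k k) := h
    rw [dif_neg h, if_neg h', map_zero]

/-- formulas for all coefficients in terms of the free ones -/
private theorem exists_formula (hd : ∀ i, 1 ≤ d i)
    (k l : Fin (N + 1)) (hkl : l ≠ k) (x v : Fin (N + 1) → ℂ) (hk : x k = 1) (hvk : v k = 0)
    (hvl : v l = 1) (A : Subalgebra ℚ ℂ) (hx : ∀ j, x j ∈ A) (hv : ∀ j, v j ∈ A) :
    ∃ L : Ix N d → MvPolynomial {p : Ix N d // IsFree hd k l p} A,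
      ∀ b : Ix N d → ℂ, Inc (fa b) x v → ∀ p : Ix N d,
        aeval (fun q : {p : Ix N d // IsFree hd k l p} => b q.1) (L p) = b p := by
  classical
  have key : ∀ p : Ix N d, ∃ L : MvPolynomial {p : Ix N d // IsFree hd k l p} A,
      ∀ b : Ix N d → ℂ, Inc (fa b) x v →
        aeval (fun q : {p : Ix N d // IsFree hd k l p} => b q.1) L = b p := by
    rintro ⟨i, m⟩
    by_cases hf : IsFree hd k l (⟨i, m⟩ : Ix N d)
    · exact ⟨X ⟨⟨i, m⟩, hf⟩, fun b _ => by rw [aeval_X]⟩
    · have h1 : ∀ b : Ix N d → ℂ, Inc (fa b) x v →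
          aeval (fun q : {p : Ix N d // IsFree hd k l p} => b q.1)
            (-fsum hd k l A i (fun m => ⟨dv (monomial m.1 (1 : ℂ)) x v, dv_mem A x v hx hv m.1⟩)) =
            b ⟨i, mkl N (d i) (hd i) k l⟩ := by
        intro b hb
        have h2 := (hb i).2
        rw [dv_fa, sum_split (d i) (hd i) k l hkl, dv_mkl (d i) (hd i) k l x v hk hvk,
          dv_mkl (d i) (hd i) k k x v hk hvk, hvl, hvk, mul_one, mul_zero, add_zero] at h2
        rw [map_neg, aeval_fsum]
        exact (eq_neg_of_add_eq_zero_left h2).symm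
      by_cases hm : m = mkl N (d i) (hd i) k l
      · refine ⟨-fsum hd k l A i (fun m => ⟨dv (monomial m.1 (1 : ℂ)) x v, dv_mem A x v hx hv m.1⟩), ?_⟩
        intro b hb
        rw [h1 b hb, hm]
      · have hm2 : m = mkl N (d i) (hd i) k k := by
          by_contra hn
          exact hf ⟨hm, hn⟩
        refine ⟨-((-fsum hd k l A i (fun m => ⟨dv (monomial m.1 (1 : ℂ)) x v, dv_mem A x v hx hv m.1⟩)) *
          C (⟨x l, hx l⟩ : A) +
          fsum hd k l A i (fun m => ⟨eval x (monomial m.1 (1 : ℂ)), ev_mem A x hx m.1 1 A.one_mem⟩)), ?_⟩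
        intro b hb
        have h2 := (hb i).1
        rw [ev_fa, sum_split (d i) (hd i) k l hkl, ev_mkl (d i) (hd i) k l x hk,
          ev_mkl (d i) (hd i) k k x hk, hk, mul_one] at h2
        rw [map_neg, map_add, map_mul, h1 b hb, aeval_fsum, aeval_C, hm2]
        have h3 : algebraMap A ℂ (⟨x l, hx l⟩ : A) = x l := rfl
        rw [h3]
        linear_combination (-1 : ℂ) * h2
  choose L hL using key
  exact ⟨L, fun b hb p => hL p b hb⟩

end formulas

private theorem mulVec_mem_ge2 {N : ℕ} (A : Subalgebra ℚ ℂ) (u : Fin N → ℂ) (hu : ∀ i, u i ∈ A)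
    (g : Matrix (Fin N) (Fin N) ℤ) (i : Fin N) :
    ((g.map (Int.cast : ℤ → ℂ)).adjugate.mulVec u) i ∈ A := by
  have h1 : (g.map (Int.cast : ℤ → ℂ)).adjugate = (g.adjugate).map (Int.cast : ℤ → ℂ) := by
    have := RingHom.map_adjugate (Int.castRingHom ℂ) g
    exact this.symm
  rw [h1]
  change ∑ j, ((g.adjugate i j : ℤ) : ℂ) * u j ∈ A
  exact A.sum_mem fun j _ => A.mul_mem (intCast_mem A _) (hu j)

private theorem cq_ge2 {σ : Type} (f g : MvPolynomial σ ℚ →+* ℂ) (q : ℚ) : f (C q) = g (C q) :=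
  RingHom.congr_fun (RingHom.ext_rat (f.comp C) (g.comp C)) q

private theorem hom_ge2 {N : ℕ} {κ : Type} {d : κ → ℕ} {S : Type} (A : Subalgebra ℚ ℂ)
    (g : Matrix (Fin (N + 1)) (Fin (N + 1)) ℤ) (L : Ix N d → MvPolynomial S A) (s : S → ℂ)
    (b : Ix N d → ℂ) (hL : ∀ p, aeval s (L p) = b p) :
    ((aeval s : MvPolynomial S A →ₐ[A] ℂ).toRingHom).comp
      (aeval (fun p : Ix N d => ∑ m' : Mon N (d p.1), C ((rep g p.2 m' : ℤ) : A) * L ⟨p.1, m'⟩) :
        MvPolynomial (Ix N d) ℚ →ₐ[ℚ] MvPolynomial S A).toRingHom =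
      (aeval (acts (g.map (Int.cast : ℤ → ℂ)) b) : MvPolynomial (Ix N d) ℚ →ₐ[ℚ] ℂ).toRingHom := by
  apply MvPolynomial.ringHom_ext
  · intro q
    exact cq_ge2 _ _ q
  · intro p
    simp only [RingHom.comp_apply, AlgHom.toRingHom_eq_coe, RingHom.coe_coe, aeval_X, map_sum,
      map_mul, aeval_C, hL]
    unfold acts
    rw [act_eq]
    refine Finset.sum_congr rfl fun m' _ => ?_
    congr 1

/-- [CI-D4] Proof.  For a vector `b` with `Inc (fa b) x v` all coefficients of `b` are polynomials with coefficients in `A` in the free ones (the formulas in `coef_mem`), and so are the `acts g b` (`act_eq`; `g` integral);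
`adj g x`, `adj g v` have coordinates in `A`.  So there is a polynomial `Q` with coefficients in `A` in the free variables with `aeval (free coefficients of b) Q = eval (adj g x, adj g v) (sp (acts g b) P)` for all such `b`.
`Q ≠ 0` by `b = c`, so its value at the algebraically independent free coefficients of `a` is nonzero.  Compare `GH.gen_eval` (Lib_MP_b9fedf_gh/GenEval.lean). -/
theorem gen_eval2 {N : ℕ} {κ : Type} [Fintype κ] {d : κ → ℕ} (hd : ∀ i, 1 ≤ d i)
    (k l : Fin (N + 1)) (hkl : l ≠ k) (x v : Fin (N + 1) → ℂ) (hk : x k = 1) (hvk : v k = 0)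
    (hvl : v l = 1) (A : Subalgebra ℚ ℂ) (hx : ∀ j, x j ∈ A) (hv : ∀ j, v j ∈ A)
    (a : Ix N d → ℂ) (hI : Inc (fa a) x v)
    (ha : AlgebraicIndependent A (fun p : {p : Ix N d // IsFree hd k l p} => a p.1))
    (P : MvPolynomial (XV N) (MvPolynomial (Ix N d) ℚ))
    (g : Matrix (Fin (N + 1)) (Fin (N + 1)) ℤ) (c : Ix N d → ℂ) (hc : Inc (fa c) x v)
    (hne : eval (Sum.elim ((g.map (Int.cast : ℤ → ℂ)).adjugate.mulVec x)
      ((g.map (Int.cast : ℤ → ℂ)).adjugate.mulVec v)) (sp (acts (g.map (Int.cast : ℤ → ℂ)) c) P) ≠ 0) :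
    eval (Sum.elim ((g.map (Int.cast : ℤ → ℂ)).adjugate.mulVec x)
      ((g.map (Int.cast : ℤ → ℂ)).adjugate.mulVec v))
      (sp (acts (g.map (Int.cast : ℤ → ℂ)) a) P) ≠ 0 := by
  obtain ⟨L, hL⟩ := exists_formula hd k l hkl x v hk hvk hvl A hx hv
  have hw : ∀ t : XV N, Sum.elim ((g.map (Int.cast : ℤ → ℂ)).adjugate.mulVec x)
      ((g.map (Int.cast : ℤ → ℂ)).adjugate.mulVec v) t ∈ A := by
    rintro (t | t)
    · exact mulVec_mem_ge2 A x hx g t
    · exact mulVec_mem_ge2 A v hv g t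
  set w : XV N → ℂ := Sum.elim ((g.map (Int.cast : ℤ → ℂ)).adjugate.mulVec x)
        ((g.map (Int.cast : ℤ → ℂ)).adjugate.mulVec v) with hwdef
  let wA : XV N → A := fun i => ⟨w i, hw i⟩
  let φ : MvPolynomial (Ix N d) ℚ →+* MvPolynomial {p : Ix N d // IsFree hd k l p} A :=
    (aeval (fun p : Ix N d => ∑ m' : Mon N (d p.1), C ((rep g p.2 m' : ℤ) : A) * L ⟨p.1, m'⟩) :
        MvPolynomial (Ix N d) ℚ →ₐ[ℚ] MvPolynomial {p : Ix N d // IsFree hd k l p} A).toRingHom
  let Φ : MvPolynomial {p : Ix N d // IsFree hd k l p} A := eval₂ φ (fun i => C (wA i)) P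
  have key : ∀ b : Ix N d → ℂ, Inc (fa b) x v →
      aeval (fun q : {p : Ix N d // IsFree hd k l p} => b q.1) Φ =
      eval w (sp (acts (g.map (Int.cast : ℤ → ℂ)) b) P) := by
    intro b hb
    have h1 := MvPolynomial.eval₂_comp_left
      ((aeval (fun q : {p : Ix N d // IsFree hd k l p} => b q.1) :
        MvPolynomial {p : Ix N d // IsFree hd k l p} A →ₐ[A] ℂ).toRingHom) φ (fun i => C (wA i)) P
    have h2 : ((aeval (fun q : {p : Ix N d // IsFree hd k l p} => b q.1) :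
        MvPolynomial {p : Ix N d // IsFree hd k l p} A →ₐ[A] ℂ).toRingHom).comp φ =
        (aeval (acts (g.map (Int.cast : ℤ → ℂ)) b) : MvPolynomial (Ix N d) ℚ →ₐ[ℚ] ℂ).toRingHom :=
      hom_ge2 A g L _ b (hL b hb)
    have h3 : (((aeval (fun q : {p : Ix N d // IsFree hd k l p} => b q.1) :
        MvPolynomial {p : Ix N d // IsFree hd k l p} A →ₐ[A] ℂ).toRingHom) ∘
        (fun i => C (wA i))) = w := by
      funext i
      simp only [Function.comp_apply, AlgHom.toRingHom_eq_coe, RingHom.coe_coe, aeval_C]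
      rfl
    rw [h2, h3] at h1
    unfold sp
    rw [MvPolynomial.eval_map]
    exact h1
  have hΦ : Φ ≠ 0 := by
    intro h0
    have h1 := key c hc
    rw [h0, map_zero] at h1
    exact hne h1.symm
  rw [← key a hI]
  intro h0
  exact hΦ (ha.eq_zero_of_aeval_eq_zero Φ h0)

end Pool.Agent.CI
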