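import Pool.Agent.Lib_MP_b9fedf_ci.Local2

/-! [CI-A3]: the global estimate. -/

set_option autoImplicit false

namespace Pool.Agent.CI
open MvPolynomial Pool.Agent.GGL Pool.Agent.GH

/-- The estimate for pairs `(x, v)` on the complete intersection. -/
def PtL {N h : ℕ} {ι : Type} (α β : ℕ) (C : ℝ) (F : ι → MvPolynomial (Fin (N + 1)) ℂ)
    (l : Fin h → Fin (N + 1) → ℂ) (G : MvPolynomial (XV N) ℂ) : Prop :=
  0 ≤ C ∧ ∀ (x v : Fin (N + 1) → ℂ) (s : ℝ), x ≠ 0 → Inc F x v → 0 < s → ‖v‖ ≤ s →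
    ‖eval (Sum.elim x v) G‖ * ‖x‖ ^ h ≤ C * ‖x‖ ^ α * s ^ β * ∏ j, ‖eval x (lf (l j))‖

/-- homogeneity -/
private theorem ge2_hom {σ : Type} [Fintype σ] {d : ℕ} {P : MvPolynomial σ ℂ}
    (hP : P.IsHomogeneous d) (s : ℂ) (x : σ → ℂ) : eval (s • x) P = s ^ d * eval x P := by
  rw [eval_eq', eval_eq', Finset.mul_sum]
  refine Finset.sum_congr rfl fun e he => ?_
  have h1 : ∑ i, e i = d := by
    have h2 := hP (mem_support_iff.1 he)
    rw [Finsupp.weight_apply, Finsupp.sum_fintype _ _ (fun i => by rw [zero_smul])] at h2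
    simpa using h2
  simp only [Pi.smul_apply, smul_eq_mul, mul_pow, Finset.prod_mul_distrib]
  rw [Finset.prod_pow_eq_pow_sum, h1]
  ring

/-- the values of `DF` are homogeneous in `x` and `v` -/
private theorem ge2_dv {n d : ℕ} {P : MvPolynomial (Fin (n + 1)) ℂ}
    (hP : P.IsHomogeneous d) (x v : Fin (n + 1) → ℂ) (s t : ℂ) :
    dv P (s • x) (t • v) = s ^ (d - 1) * t * dv P x v := by
  unfold dv
  rw [Finset.mul_sum]
  refine Finset.sum_congr rfl fun j _ => ?_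
  rw [ge2_hom (hP.pderiv (i := j))]
  simp only [Pi.smul_apply, smul_eq_mul]
  ring

/-- `Inc` is preserved -/
private theorem ge2_inc {N : ℕ} {ι : Type} {d : ι → ℕ}
    {F : ι → MvPolynomial (Fin (N + 1)) ℂ} (hF : ∀ i, (F i).IsHomogeneous (d i))
    {x v : Fin (N + 1) → ℂ} (h : Inc F x v) (s t : ℂ) : Inc F (s • x) (t • v) := by
  intro i
  refine ⟨?_, ?_⟩
  · rw [ge2_hom (hF i), (h i).1, mul_zero]
  · rw [ge2_dv (hF i), (h i).2, mul_zero]

/-- `Inc` is a closed condition -/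
private theorem ge2_closed {N : ℕ} {ι : Type} (F : ι → MvPolynomial (Fin (N + 1)) ℂ) :
    IsClosed {p : (Fin (N + 1) → ℂ) × (Fin (N + 1) → ℂ) | Inc F p.1 p.2} := by
  have h0 : {p : (Fin (N + 1) → ℂ) × (Fin (N + 1) → ℂ) | Inc F p.1 p.2} =
      ⋂ i, {p | eval p.1 (F i) = 0 ∧ dv (F i) p.1 p.2 = 0} := by
    ext p
    simp only [Set.mem_ofPred_eq, Set.mem_iInter, Inc]
  rw [h0]
  refine isClosed_iInter fun i => ?_
  have hc : ∀ P : MvPolynomial (Fin (N + 1)) ℂ,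
      Continuous fun p : (Fin (N + 1) → ℂ) × (Fin (N + 1) → ℂ) => eval p.1 P := fun P =>
    (MvPolynomial.continuous_eval P).comp continuous_fst
  refine (isClosed_eq (hc (F i)) continuous_const).inter (isClosed_eq ?_ continuous_const)
  unfold dv
  refine continuous_finsetSum _ fun j _ => ?_
  exact (hc _).mul ((continuous_apply j).comp continuous_snd)

/-- [CI-A3] Proof.  The set `{(x, v) | ‖x‖ = 1, ‖v‖ ≤ 1, Inc F x v}` is compact (closed and bounded), so `point_est2`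
gives one constant `C` on it.  For general `(x, v)`, `s`: apply it to `x' = ‖x‖⁻¹ • x`, `v' = s⁻¹ • v` (`Inc` is preserved: `F_i` is
homogeneous of degree `d i`, `DF_i` of bidegree `(d i - 1, 1)`; `d i ≥ 1`), `eval_bihom` for `G`, and `l_j(x') = l_j(x) / ‖x‖`. -/
theorem global_est2 {N h α β : ℕ} {ι : Type} [Fintype ι] [DecidableEq ι] {d : ι → ℕ}
    (hd : ∀ i, 1 ≤ d i) (F : ι → MvPolynomial (Fin (N + 1)) ℂ) (hF : ∀ i, (F i).IsHomogeneous (d i))
    (l : Fin h → Fin (N + 1) → ℂ) (hs : SncL F l)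
    (G : MvPolynomial (XV N) ℂ) (hGh : BiHom α β G) (hG : ∀ j, InJ F (lf (l j)) G) :
    ∃ C : ℝ, PtL α β C F l G := by
  have _ := hd
  have hK : IsCompact (Metric.sphere (0 : Fin (N + 1) → ℂ) 1 ×ˢ
      Metric.closedBall (0 : Fin (N + 1) → ℂ) 1) :=
    (isCompact_sphere _ _).prod (isCompact_closedBall _ _)
  have hnn : ∀ q : (Fin (N + 1) → ℂ) × (Fin (N + 1) → ℂ),
      0 ≤ ∏ j, ‖eval q.1 (lf (l j))‖ := fun q => Finset.prod_nonneg fun j _ => norm_nonneg _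
  have key : ∃ C : ℝ, 0 ≤ C ∧
      ∀ q ∈ Metric.sphere (0 : Fin (N + 1) → ℂ) 1 ×ˢ Metric.closedBall (0 : Fin (N + 1) → ℂ) 1,
      Inc F q.1 q.2 → ‖eval (Sum.elim q.1 q.2) G‖ ≤ C * ∏ j, ‖eval q.1 (lf (l j))‖ := by
    refine hK.induction_on (p := fun S => ∃ C : ℝ, 0 ≤ C ∧ ∀ q ∈ S,
      Inc F q.1 q.2 → ‖eval (Sum.elim q.1 q.2) G‖ ≤ C * ∏ j, ‖eval q.1 (lf (l j))‖) ?_ ?_ ?_ ?_
    · exact ⟨0, le_rfl, fun q hq => absurd hq (Set.notMem_empty q)⟩
    · rintro s t hst ⟨C, hC, h⟩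
      exact ⟨C, hC, fun q hq => h q (hst hq)⟩
    · rintro s t ⟨C, hC, h⟩ ⟨D, hD, h'⟩
      refine ⟨max C D, le_max_of_le_left hC, ?_⟩
      rintro q (hq | hq) hi
      · exact (h q hq hi).trans (mul_le_mul_of_nonneg_right (le_max_left _ _) (hnn q))
      · exact (h' q hq hi).trans (mul_le_mul_of_nonneg_right (le_max_right _ _) (hnn q))
    · rintro ⟨x, v⟩ hx
      by_cases hi : Inc F x v
      · have hx0 : x ≠ 0 := by
          rintro rfl
          have h1 := hx.1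
          simp at h1
        obtain ⟨C, hC, U, hU, h⟩ := point_est2 F l hs x v hx0 hi G hG
        exact ⟨U, mem_nhdsWithin_of_mem_nhds hU, C, hC, h⟩
      · refine ⟨{p | Inc F p.1 p.2}ᶜ, mem_nhdsWithin_of_mem_nhds
          ((ge2_closed F).isOpen_compl.mem_nhds hi), 0, le_rfl, fun q hq hq' => absurd hq' hq⟩
  obtain ⟨C, hC, hb⟩ := key
  refine ⟨C, hC, fun x v s hx hi hs0 hvs => ?_⟩
  have hρ : 0 < ‖x‖ := norm_pos_iff.2 hx
  set ρ : ℝ := ‖x‖ with hρd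
  have hρc : (ρ : ℂ) ≠ 0 := by exact_mod_cast hρ.ne'
  have hsc : (s : ℂ) ≠ 0 := by exact_mod_cast hs0.ne'
  set x' : Fin (N + 1) → ℂ := ((ρ : ℂ)⁻¹) • x with hx'
  set w : Fin (N + 1) → ℂ := ((s : ℂ)⁻¹) • v with hw
  have hnx' : ‖x'‖ = 1 := by
    rw [hx', norm_smul, norm_inv, Complex.norm_real, Real.norm_of_nonneg hρ.le, ← hρd,
      inv_mul_cancel₀ hρ.ne']
  have hnw : ‖w‖ ≤ 1 := by
    rw [hw, norm_smul, norm_inv, Complex.norm_real, Real.norm_of_nonneg hs0.le]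
    rw [inv_mul_le_iff₀ hs0, mul_one]
    exact hvs
  have hi' : Inc F x' w := ge2_inc hF hi _ _
  have ex : x = (ρ : ℂ) • x' := by
    rw [hx', smul_smul, mul_inv_cancel₀ hρc, one_smul]
  have ev : v = (s : ℂ) • w := by
    rw [hw, smul_smul, mul_inv_cancel₀ hsc, one_smul]
  have g1 : ‖eval (Sum.elim x v) G‖ = ρ ^ α * s ^ β * ‖eval (Sum.elim x' w) G‖ := by
    have h2 := eval_bihom hGh (ρ : ℂ) (s : ℂ) x' w
    rw [← ex, ← ev] at h2
    rw [h2, norm_mul, norm_mul, norm_pow, norm_pow, Complex.norm_real, Complex.norm_real,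
      Real.norm_of_nonneg hρ.le, Real.norm_of_nonneg hs0.le]
  have g2 : ∏ j, ‖eval x (lf (l j))‖ = ρ ^ h * ∏ j, ‖eval x' (lf (l j))‖ := by
    have h3 : ∀ j, ‖eval x (lf (l j))‖ = ρ * ‖eval x' (lf (l j))‖ := by
      intro j
      have a1 : eval x (lf (l j)) = (ρ : ℂ) ^ 1 * eval x' (lf (l j)) := by
        have := ge2_hom (lf_hom (l j)) (ρ : ℂ) x'
        rwa [← ex] at this
      rw [a1, pow_one, norm_mul, Complex.norm_real, Real.norm_of_nonneg hρ.le]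
    rw [Finset.prod_congr rfl fun j _ => h3 j, Finset.prod_mul_distrib, Finset.prod_const,
      Finset.card_univ, Fintype.card_fin]
  have hk := hb (x', w) ⟨by simpa using hnx', by simpa using hnw⟩ hi'
  rw [g1, g2]
  have h7 : 0 ≤ ρ ^ α * s ^ β * ρ ^ h := by positivity
  calc ρ ^ α * s ^ β * ‖eval (Sum.elim x' w) G‖ * ρ ^ h =
      (ρ ^ α * s ^ β * ρ ^ h) * ‖eval (Sum.elim x' w) G‖ := by ring
    _ ≤ (ρ ^ α * s ^ β * ρ ^ h) * (C * ∏ j, ‖eval x' (lf (l j))‖) :=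
      mul_le_mul_of_nonneg_left hk h7
    _ = _ := by ring

end Pool.Agent.CI
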