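import Mathlib

/-! [CI-C3]: homogeneous multipliers. -/

set_option autoImplicit false

namespace Pool.Agent.CI
open MvPolynomial

/-- The component of degree `t` of `b * q`, for `b` homogeneous of degree `d`. -/
private lemma comp_mul {k : Type} [Field k] {m : ℕ} (b q : MvPolynomial (Fin m) k) (d t : ℕ)
    (hb : b.IsHomogeneous d) :
    homogeneousComponent t (b * q)
      = b * (if d ≤ t then homogeneousComponent (t - d) q else 0) := by
  classical
  have hb' : b ∈ homogeneousSubmodule (Fin m) k d := hb
  let _ := gradedAlgebra (σ := Fin m) (R := k)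
  have h := DirectSum.coe_decompose_mul_of_left_mem
    (𝒜 := homogeneousSubmodule (Fin m) k) (b := q) t hb'
  have key : ∀ (φ : MvPolynomial (Fin m) k) (i : ℕ),
      ((DirectSum.decompose (homogeneousSubmodule (Fin m) k) φ i :
        homogeneousSubmodule (Fin m) k i) : MvPolynomial (Fin m) k)
        = homogeneousComponent i φ := fun φ i => decomposition.decompose'_apply φ i
  rw [key, key] at h
  rw [h]
  split_ifs <;> simp

/-- [CI-C3] Proof.  `Ideal.span` of a finite family: `p = l q₀ + ∑ b i q i`; take the homogeneous components of degree `t`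
(the component of degree `t` of `b i * q` is `b i` times the component of degree `t - d i` of `q`, or `0` if `t < d i`). -/
theorem hom_mult {k : Type} [Field k] {m : ℕ} {κ : Type} [DecidableEq κ] (S : Finset κ)
    (b : κ → MvPolynomial (Fin m) k) (d : κ → ℕ) (hb : ∀ i, (b i).IsHomogeneous (d i))
    (l : MvPolynomial (Fin m) k) (hl : l.IsHomogeneous 1) (t : ℕ) (p : MvPolynomial (Fin m) k)
    (hp : p.IsHomogeneous t) (h : p ∈ Ideal.span ({l} ∪ b '' (S : Set κ))) :
    ∃ (q₀ : MvPolynomial (Fin m) k) (q : κ → MvPolynomial (Fin m) k),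
      p = l * q₀ + ∑ i ∈ S, b i * q i ∧
      ∀ i ∈ S, q i = 0 ∨ ∃ t', (q i).IsHomogeneous t' ∧ t' + d i = t := by
  classical
  rw [Set.singleton_union, Ideal.mem_span_insert] at h
  obtain ⟨a, z, hz, rfl⟩ := h
  obtain ⟨c, hc⟩ := (Submodule.mem_span_image_finset_iff_exists_fun' (R := MvPolynomial (Fin m) k)).1 hz
  subst hc
  refine ⟨if 1 ≤ t then homogeneousComponent (t - 1) a else 0,
    fun i => if d i ≤ t then homogeneousComponent (t - d i) (c i) else 0, ?_, ?_⟩
  · have h1 := homogeneousComponent_eq_self hp
    rw [← h1, map_add, map_sum, mul_comm a l, comp_mul l a 1 t hl]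
    congr 1
    refine Finset.sum_congr rfl fun i _ => ?_
    rw [smul_eq_mul, mul_comm (c i) (b i), comp_mul (b i) (c i) (d i) t (hb i)]
  · intro i _
    by_cases hd : d i ≤ t
    · right
      refine ⟨t - d i, ?_, by omega⟩
      simp only [hd, if_true]
      exact homogeneousComponent_isHomogeneous _ _
    · left
      simp only [hd, if_false]

end Pool.Agent.CI
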