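import Pool.Agent.Lib_MP_b9fedf_ci.Defs
import Pool.Agent.Lib_MP_b9fedf_lg.Matroid

/-! [CI-D1]: algebraic independence of the free coefficients. -/

set_option autoImplicit false

namespace Pool.Agent.CI
open MvPolynomial Pool.Agent.GGL Pool.Agent.GH

/-- [CI-D1] The members with index in `E'` which have to be removed.  Proof.  As `LG.indep_off`: let `F` be a maximal subset of `E'` with `a` algebraically
independent over `K = adjoin ℚ (range y)` on `F`; all `a e`, `e ∈ E'`, are algebraic over `K(a_F)`, hence so are all `a e` by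
the hypothesis, and `card E ≤ m + card F`.  `S = E' \ F`. -/
theorem indep_off2 {E : Type} [Fintype E] [DecidableEq E] (a : E → ℂ)
    (ha : AlgebraicIndependent ℚ a) {m : ℕ} (y : Fin m → ℂ) (E' : Finset E)
    (h : ∀ e, e ∉ E' → a e ∈ Algebra.adjoin ℚ (Set.range y ∪ a '' (E' : Set E))) :
    ∃ S : Finset E, S ⊆ E' ∧ S.card + Fintype.card E ≤ m + E'.card ∧
      AlgebraicIndependent (Algebra.adjoin ℚ (Set.range y))
        (fun e : {e // e ∈ E' ∧ e ∉ S} => a e) := by
  set K := Algebra.adjoin ℚ (Set.range y) with hK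
  have h0 : AlgebraicIndepOn K a ((∅ : Finset E) : Set E) := by
    rw [Finset.coe_empty]
    exact algebraicIndependent_empty_type_iff.2 (FaithfulSMul.algebraMap_injective K ℂ)
  obtain ⟨F, hFE, hF, hmax⟩ : ∃ F : Finset E, F ⊆ E' ∧ AlgebraicIndepOn K a (F : Set E) ∧
      ∀ G : Finset E, G ⊆ E' → AlgebraicIndepOn K a (G : Set E) → G.card ≤ F.card := by
    classical
    obtain ⟨F, hF, hm⟩ := Finset.exists_max_image
      (E'.powerset.filter fun F : Finset E => AlgebraicIndepOn K a (F : Set E)) Finset.card
      ⟨∅, by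
        rw [Finset.mem_filter, Finset.mem_powerset]
        exact ⟨Finset.empty_subset _, h0⟩⟩
    rw [Finset.mem_filter, Finset.mem_powerset] at hF
    refine ⟨F, hF.1, hF.2, fun G hG hGi => hm G ?_⟩
    rw [Finset.mem_filter, Finset.mem_powerset]
    exact ⟨hG, hGi⟩
  have halg : ∀ e, e ∈ E' →
      IsAlgebraic (Algebra.adjoin ℚ (Set.range y ∪ a '' (F : Set E))) (a e) := by
    intro e heE
    rw [Algebra.adjoin_union_eq_adjoin_adjoin]
    change IsAlgebraic (Algebra.adjoin K (a '' (F : Set E))) (a e)
    by_cases he : e ∈ F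
    · exact isAlgebraic_algebraMap
        (⟨a e, Algebra.subset_adjoin ⟨e, he, rfl⟩⟩ : Algebra.adjoin K (a '' (F : Set E)))
    · by_contra htr
      have h1 := (AlgebraicIndepOn.insert_iff (R := K) (x := a) (s := (F : Set E)) (i := e)
        (fun h => he (Finset.mem_coe.1 h))).2 ⟨hF, htr⟩
      rw [← Finset.coe_insert] at h1
      have h2 := hmax _ (Finset.insert_subset heE hFE) h1
      rw [Finset.card_insert_of_notMem he] at h2
      omega
  have hcl : Set.range y ∪ a '' (E' : Set E) ⊆
      (AlgebraicIndependent.matroid ℚ ℂ).closure (Set.range y ∪ a '' (F : Set E)) := by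
    rintro z (hz | ⟨e, he, rfl⟩)
    · rw [AlgebraicIndependent.matroid_closure_eq]
      exact isAlgebraic_algebraMap (⟨z, Algebra.subset_adjoin (Or.inl hz)⟩ :
        Algebra.adjoin ℚ (Set.range y ∪ a '' (F : Set E)))
    · rw [AlgebraicIndependent.matroid_closure_eq]
      exact halg e (Finset.mem_coe.1 he)
  have hr : (Set.range a).encard ≤ (Set.range y ∪ a '' (F : Set E)).encard := by
    have hind : (AlgebraicIndependent.matroid ℚ ℂ).Indep (Set.range a) :=
      (algebraicIndependent_subtype_range ha.injective).2 ha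
    have hsub : Set.range a ⊆
        (AlgebraicIndependent.matroid ℚ ℂ).closure (Set.range y ∪ a '' (F : Set E)) := by
      rintro _ ⟨e, rfl⟩
      by_cases he : e ∈ E'
      · exact hcl (Or.inr ⟨e, Finset.mem_coe.2 he, rfl⟩)
      · refine (AlgebraicIndependent.matroid ℚ ℂ).closure_subset_closure_of_subset_closure hcl ?_
        rw [AlgebraicIndependent.matroid_closure_eq]
        exact isAlgebraic_algebraMap (⟨a e, h e he⟩ :
          Algebra.adjoin ℚ (Set.range y ∪ a '' (E' : Set E)))
    calc (Set.range a).encard = (AlgebraicIndependent.matroid ℚ ℂ).eRk (Set.range a) :=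
          hind.eRk_eq_encard.symm
      _ ≤ (AlgebraicIndependent.matroid ℚ ℂ).eRk
          ((AlgebraicIndependent.matroid ℚ ℂ).closure (Set.range y ∪ a '' (F : Set E))) :=
          (AlgebraicIndependent.matroid ℚ ℂ).eRk_mono hsub
      _ = (AlgebraicIndependent.matroid ℚ ℂ).eRk (Set.range y ∪ a '' (F : Set E)) :=
          (AlgebraicIndependent.matroid ℚ ℂ).eRk_closure_eq _
      _ ≤ _ := (AlgebraicIndependent.matroid ℚ ℂ).eRk_le_encard _
  have hcard : Fintype.card E ≤ m + F.card := by
    have h1 : (Fintype.card E : ℕ∞) ≤ (Set.range a).encard := by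
      rw [← ENat.card_eq_coe_fintype_card]
      exact ha.injective.encard_range
    have h2 : (Set.range y).encard ≤ (m : ℕ∞) := by
      rw [← Set.image_univ]
      refine (Set.encard_image_le y Set.univ).trans ?_
      rw [Set.encard_univ, ENat.card_eq_coe_fintype_card, Fintype.card_fin]
    have h3 : (a '' (F : Set E)).encard ≤ (F.card : ℕ∞) := by
      refine (Set.encard_image_le a _).trans ?_
      rw [Set.encard_coe_eq_coe_finsetCard]
    have h4 := h1.trans (hr.trans ((Set.encard_union_le _ _).trans (add_le_add h2 h3)))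
    exact_mod_cast h4
  refine ⟨E' \ F, Finset.sdiff_subset, ?_, ?_⟩
  · have h5 := Finset.card_sdiff_add_card_eq_card hFE
    omega
  · exact hF.comp (fun e : {e // e ∈ E' ∧ e ∉ E' \ F} => (⟨e, by
      have h := e.2
      rw [Finset.mem_sdiff, not_and, not_not] at h
      exact h.2 h.1⟩ : (F : Set E))) (fun e e' h => Subtype.ext (congrArg (fun t : (F : Set E) => (t : E)) h))

end Pool.Agent.CI
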