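import Mathlib

/-! [CI-C19]: semicontinuity of the rank. -/

set_option autoImplicit false

namespace Pool.Agent.CI
open MvPolynomial

private theorem exists_minor {k σ ρ : Type} [Field k] [Fintype ρ] [DecidableEq ρ]
    (v : ρ → MvPolynomial σ k) (h : LinearIndependent k v) :
    ∃ m : ρ → (σ →₀ ℕ), (Matrix.of fun s r => coeff (m s) (v r)).det ≠ 0 := by
  classical
  set M : (σ →₀ ℕ) → (ρ → k) := fun m r => coeff m (v r) with hM
  have htop : Submodule.span k (Set.range M) = ⊤ := by
    by_contra hne
    obtain ⟨g, hg0, hg⟩ := Submodule.exists_le_ker_of_lt_top _ (lt_top_iff_ne_top.2 hne)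
    have h1 : ∀ m, ∑ r, g (Pi.single r 1) * coeff m (v r) = 0 := by
      intro m
      have h2 : g (M m) = 0 := hg (Submodule.subset_span ⟨m, rfl⟩)
      have h3 : M m = ∑ r, coeff m (v r) • (Pi.single r (1 : k) : ρ → k) := by
        ext s
        rw [Finset.sum_apply]
        simp [hM, Pi.single_apply]
      rw [h3, map_sum] at h2
      rw [← h2]
      refine Finset.sum_congr rfl fun r _ => ?_
      rw [map_smul, smul_eq_mul, mul_comm]
    have h4 : ∑ r, g (Pi.single r 1) • v r = 0 := by
      ext m
      rw [coeff_sum, coeff_zero, ← h1 m]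
      refine Finset.sum_congr rfl fun r _ => ?_
      rw [coeff_smul, smul_eq_mul]
    have h5 := Fintype.linearIndependent_iff.1 h _ h4
    apply hg0
    apply LinearMap.pi_ext'
    intro r
    ext
    simpa using h5 r
  obtain ⟨b, hbM, hspan, hli⟩ := exists_linearIndependent k (Set.range M)
  rw [htop] at hspan
  let B : Module.Basis b k (ρ → k) := Module.Basis.mk hli (by rw [Subtype.range_coe, hspan])
  have : Fintype b := FiniteDimensional.fintypeBasisIndex B
  have hcard : Fintype.card ρ = Fintype.card b := by
    rw [← Module.finrank_eq_card_basis B, Module.finrank_fintype_fun_eq_card]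
  have e : ρ ≃ b := Fintype.equivOfCardEq hcard
  choose m hm using fun s : ρ => hbM (e s).2
  refine ⟨m, ?_⟩
  have h6 : LinearIndependent k (fun s => ((e s : b) : ρ → k)) := hli.comp e e.injective
  have h7 : LinearIndependent k (Matrix.of fun s r => coeff (m s) (v r)).row := by
    convert h6 using 1
    ext s r
    have h8 := congrFun (hm s) r
    simpa [hM] using h8
  have h9 := Matrix.linearIndependent_rows_iff_isUnit.1 h7
  exact ((Matrix.isUnit_iff_isUnit_det _).1 h9).ne_zero

/-- [CI-C19] Proof.  The coefficients form a matrix with finitely many nonzero columns; over `k` some minor of size `card ρ` is nonzero, so the same minor over `A` is nonzero, and the vectors are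
independent over the fraction field. -/
theorem indep_lift {A k σ ρ : Type} [CommRing A] [IsDomain A] [Field k] (φ : A →+* k) [Fintype ρ]
    (w : ρ → MvPolynomial σ A) (h : LinearIndependent k (fun r => MvPolynomial.map φ (w r))) :
    LinearIndependent (FractionRing A)
      (fun r => MvPolynomial.map (algebraMap A (FractionRing A)) (w r)) := by
  classical
  obtain ⟨m, hm⟩ := exists_minor _ h
  have h1 : (Matrix.of fun s r => coeff (m s) (w r)).det ≠ 0 := by
    intro h0
    apply hm
    have h2 : (Matrix.of fun s r => coeff (m s) (MvPolynomial.map φ (w r))) =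
        φ.mapMatrix (Matrix.of fun s r => coeff (m s) (w r)) := by
      ext s r
      simp [coeff_map]
    rw [h2, ← RingHom.map_det, h0, map_zero]
  set ψ := algebraMap A (FractionRing A) with hψ
  have h3 : (Matrix.of fun s r => coeff (m s) (MvPolynomial.map ψ (w r))).det ≠ 0 := by
    have h2 : (Matrix.of fun s r => coeff (m s) (MvPolynomial.map ψ (w r))) =
        ψ.mapMatrix (Matrix.of fun s r => coeff (m s) (w r)) := by
      ext s r
      simp [coeff_map]
    rw [h2, ← RingHom.map_det]
    exact (map_ne_zero_iff ψ (IsFractionRing.injective A (FractionRing A))).2 h1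
  rw [Fintype.linearIndependent_iff]
  intro c hc
  have h4 : (Matrix.of fun s r => coeff (m s) (MvPolynomial.map ψ (w r))).mulVec c = 0 := by
    ext s
    have h5 := congrArg (coeff (m s)) hc
    rw [coeff_sum, coeff_zero] at h5
    rw [Pi.zero_apply, ← h5]
    simp only [Matrix.mulVec, dotProduct, Matrix.of_apply]
    refine Finset.sum_congr rfl fun r _ => ?_
    rw [coeff_smul, smul_eq_mul, mul_comm]
  have h6 := Matrix.eq_zero_of_mulVec_eq_zero h3 h4
  exact fun i => congrFun h6 i

end Pool.Agent.CI
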