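import Mathlib

/-! [CI-C22]: intersections of subspaces. -/

set_option autoImplicit false

namespace Pool.Agent.CI

/-- [CI-C22] Induction on `h`; `finrank (A ⊓ B) + finrank (A ⊔ B) = finrank A + finrank B`. -/
theorem inter_finrank {F M : Type} [Field F] [AddCommGroup M] [Module F M] {h c : ℕ}
    (V : Submodule F M) [FiniteDimensional F V] (W : Fin h → Submodule F M) (hW : ∀ j, W j ≤ V)
    (hc : ∀ j, Module.finrank F V ≤ Module.finrank F (W j) + c) :
    Module.finrank F V ≤ Module.finrank F ↥(V ⊓ ⨅ j, W j) + h * c := by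
  induction h with
  | zero =>
    have e : V ⊓ ⨅ j, W j = V := by simp
    rw [e]
    simp
  | succ h ih =>
    have ih' := ih (fun j => W j.succ) (fun j => hW _) (fun j => hc _)
    have hA : V ⊓ ⨅ j : Fin h, W j.succ ≤ V := inf_le_left
    have hB : W 0 ≤ V := hW 0
    have : FiniteDimensional F ↥(V ⊓ ⨅ j : Fin h, W j.succ) :=
      Submodule.finiteDimensional_of_le hA
    have : FiniteDimensional F ↥(W 0) := Submodule.finiteDimensional_of_le hB
    have e : V ⊓ ⨅ j, W j = (V ⊓ ⨅ j : Fin h, W j.succ) ⊓ W 0 := by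
      apply le_antisymm
      · refine le_inf (le_inf inf_le_left ?_) ?_
        · exact le_iInf fun j => inf_le_right.trans (iInf_le _ _)
        · exact inf_le_right.trans (iInf_le _ _)
      · refine le_inf (inf_le_left.trans inf_le_left) (le_iInf fun j => ?_)
        refine Fin.cases ?_ (fun i => ?_) j
        · exact inf_le_right
        · exact (inf_le_left.trans inf_le_right).trans (iInf_le (fun j : Fin h => W j.succ) i)
    have h1 := Submodule.finrank_sup_add_finrank_inf_eq (V ⊓ ⨅ j : Fin h, W j.succ) (W 0)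
    have h2 : Module.finrank F ↥((V ⊓ ⨅ j : Fin h, W j.succ) ⊔ W 0) ≤ Module.finrank F V :=
      Submodule.finrank_mono (sup_le hA hB)
    have h3 := hc 0
    rw [e, Nat.succ_mul]
    omega

end Pool.Agent.CI
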