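import Pool.Agent.Lib_MP_b9fedf_ci.DefsI
import Pool.Agent.Lib_MP_b9fedf_ci.BasicJ

/-! [CI-F4]: the expansion of `P(x, v + t x)`. -/

set_option autoImplicit false

namespace Pool.Agent.CI
open MvPolynomial Pool.Agent.GGL Pool.Agent.GH

section aux
variable {R : Type} [CommRing R] {N : ℕ}

/-- the homomorphism `x_j ↦ x_j`, `v_j ↦ v_j + T x_j` -/
private noncomputable def th (R : Type) [CommRing R] (N : ℕ) :
    MvPolynomial (XV N) R →ₐ[R] Polynomial (MvPolynomial (XV N) R) :=
  aeval (Sum.elim (fun j => Polynomial.C (X (Sum.inl j)))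
    (fun j => Polynomial.C (X (Sum.inr j)) + Polynomial.X * Polynomial.C (X (Sum.inl j))))

private theorem th_inl (j : Fin (N + 1)) :
    th R N (X (Sum.inl j)) = Polynomial.C (X (Sum.inl j)) := by
  rw [th, aeval_X, Sum.elim_inl]

private theorem th_inr (j : Fin (N + 1)) :
    th R N (X (Sum.inr j)) =
      Polynomial.C (X (Sum.inr j)) + Polynomial.X * Polynomial.C (X (Sum.inl j)) := by
  rw [th, aeval_X, Sum.elim_inr]

private theorem th_inx (F : MvPolynomial (Fin (N + 1)) R) :
    th R N (inx F) = Polynomial.C (inx F) := by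
  induction F using MvPolynomial.induction_on with
  | C c =>
    rw [inx, rename_C, ← algebraMap_eq, AlgHom.commutes]
    rfl
  | add p q hp hq =>
    have e1 : inx (p + q) = inx p + inx q := map_add _ p q
    rw [e1, map_add, hp, hq, Polynomial.C_add]
  | mul_X p i hp =>
    have e1 : inx (p * X i) = inx p * X (Sum.inl i) := by
      rw [inx, map_mul, rename_X]
      rfl
    rw [e1, map_mul, hp, th_inl, Polynomial.C_mul]

private theorem th_dif {d : ℕ} (F : MvPolynomial (Fin (N + 1)) R) (hF : F.IsHomogeneous d) :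
    th R N (dif F) = Polynomial.C (dif F) + Polynomial.X * Polynomial.C (d • inx F) := by
  have h1 : d • inx F = ∑ j, rename Sum.inl (pderiv j F) * X (Sum.inl j) := by
    have h2 := congrArg (rename (Sum.inl : Fin (N + 1) → XV N)) hF.sum_X_mul_pderiv
    rw [map_nsmul, map_sum] at h2
    rw [inx, ← h2]
    refine Finset.sum_congr rfl fun j _ => ?_
    rw [map_mul, rename_X, mul_comm]
  rw [h1, dif, map_sum, map_sum, map_sum, Finset.mul_sum, ← Finset.sum_add_distrib]
  refine Finset.sum_congr rfl fun j _ => ?_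
  have h3 : th R N (rename Sum.inl (pderiv j F)) = Polynomial.C (rename Sum.inl (pderiv j F)) :=
    th_inx (pderiv j F)
  rw [map_mul, h3, th_inr, Polynomial.C_mul, Polynomial.C_mul]
  ring

/-- the coefficient of `T ^ j` has bidegree `(α + j, β - j)`, it is zero for `j > β` -/
private def HH (w : ℕ × ℕ) (Q : Polynomial (MvPolynomial (XV N) R)) : Prop :=
  ∀ j, (j ≤ w.2 → BiHom (w.1 + j) (w.2 - j) (Q.coeff j)) ∧ (w.2 < j → Q.coeff j = 0)

private theorem bih_add {α β : ℕ} {G G' : MvPolynomial (XV N) R} (h : BiHom α β G)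
    (h' : BiHom α β G') : BiHom α β (G + G') :=
  (weightedHomogeneousSubmodule R _ _).add_mem h h'

private theorem bih_zero {α β : ℕ} : BiHom α β (0 : MvPolynomial (XV N) R) :=
  (weightedHomogeneousSubmodule R _ _).zero_mem

private theorem bih_sum {α β : ℕ} {ι : Type} (s : Finset ι) (G : ι → MvPolynomial (XV N) R)
    (h : ∀ i ∈ s, BiHom α β (G i)) : BiHom α β (∑ i ∈ s, G i) :=
  (weightedHomogeneousSubmodule R _ _).sum_mem h

private theorem bih_mul {α β α' β' : ℕ} {G G' : MvPolynomial (XV N) R} (h : BiHom α β G)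
    (h' : BiHom α' β' G') : BiHom (α + α') (β + β') (G * G') :=
  IsWeightedHomogeneous.mul h h'

private theorem HH_add {w : ℕ × ℕ} {Q Q' : Polynomial (MvPolynomial (XV N) R)} (h : HH w Q)
    (h' : HH w Q') : HH w (Q + Q') := by
  intro j
  rw [Polynomial.coeff_add]
  refine ⟨fun hj => bih_add ((h j).1 hj) ((h' j).1 hj), fun hj => ?_⟩
  rw [(h j).2 hj, (h' j).2 hj, add_zero]

private theorem HH_mul {w w' : ℕ × ℕ} {Q Q' : Polynomial (MvPolynomial (XV N) R)} (h : HH w Q)
    (h' : HH w' Q') : HH (w + w') (Q * Q') := by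
  intro j
  rw [Polynomial.coeff_mul]
  constructor
  · intro hj
    refine bih_sum _ _ fun p hp => ?_
    rw [Finset.HasAntidiagonal.mem_antidiagonal] at hp
    have hj' : j ≤ w.2 + w'.2 := hj
    by_cases h1 : p.1 ≤ w.2
    · by_cases h2 : p.2 ≤ w'.2
      · have h3 := bih_mul ((h p.1).1 h1) ((h' p.2).1 h2)
        have e1 : w.1 + p.1 + (w'.1 + p.2) = (w + w').1 + j := by
          have : (w + w').1 = w.1 + w'.1 := rfl
          omega
        have e2 : w.2 - p.1 + (w'.2 - p.2) = (w + w').2 - j := by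
          have : (w + w').2 = w.2 + w'.2 := rfl
          omega
        rw [e1, e2] at h3
        exact h3
      · rw [(h' p.2).2 (by omega), mul_zero]
        exact bih_zero
    · rw [(h p.1).2 (by omega), zero_mul]
      exact bih_zero
  · intro hj
    have hj' : w.2 + w'.2 < j := hj
    refine Finset.sum_eq_zero fun p hp => ?_
    rw [Finset.HasAntidiagonal.mem_antidiagonal] at hp
    by_cases h1 : p.1 ≤ w.2
    · rw [(h' p.2).2 (by omega), mul_zero]
    · rw [(h p.1).2 (by omega), zero_mul]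

private theorem HH_C {w : ℕ × ℕ} (hw : w.2 = 0) {G : MvPolynomial (XV N) R}
    (h : BiHom w.1 w.2 G) : HH w (Polynomial.C G) := by
  intro j
  rw [Polynomial.coeff_C]
  refine ⟨fun hj => ?_, fun hj => if_neg (by omega)⟩
  have hj0 : j = 0 := by omega
  rw [hj0, if_pos rfl]
  exact h

private theorem HH_one : HH (0 : ℕ × ℕ) (1 : Polynomial (MvPolynomial (XV N) R)) := by
  rw [← Polynomial.C_1]
  exact HH_C rfl (isWeightedHomogeneous_one R _)

private theorem HH_pow {w : ℕ × ℕ} {Q : Polynomial (MvPolynomial (XV N) R)} (h : HH w Q)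
    (m : ℕ) : HH (m • w) (Q ^ m) := by
  induction m with
  | zero =>
    rw [zero_smul, pow_zero]
    exact HH_one
  | succ m ih =>
    rw [succ_nsmul, pow_succ]
    exact HH_mul ih h

private theorem HH_prod {ι : Type} (s : Finset ι) (w : ι → ℕ × ℕ)
    (Q : ι → Polynomial (MvPolynomial (XV N) R)) (h : ∀ i ∈ s, HH (w i) (Q i)) :
    HH (∑ i ∈ s, w i) (∏ i ∈ s, Q i) := by
  classical
  induction s using Finset.induction_on with
  | empty =>
    rw [Finset.sum_empty, Finset.prod_empty]
    exact HH_one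
  | insert i s hi ih =>
    rw [Finset.sum_insert hi, Finset.prod_insert hi]
    exact HH_mul (h i (Finset.mem_insert_self i s))
      (ih fun j hj => h j (Finset.mem_insert_of_mem hj))

private theorem HH_sum {ι : Type} (s : Finset ι) {w : ℕ × ℕ}
    (Q : ι → Polynomial (MvPolynomial (XV N) R)) (h : ∀ i ∈ s, HH w (Q i)) :
    HH w (∑ i ∈ s, Q i) := by
  intro j
  rw [Polynomial.finsetSum_coeff]
  exact ⟨fun hj => bih_sum _ _ fun i hi => (h i hi j).1 hj,
    fun hj => Finset.sum_eq_zero fun i hi => (h i hi j).2 hj⟩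

private theorem HH_var (i : XV N) :
    HH (Sum.elim (fun _ => ((1, 0) : ℕ × ℕ)) (fun _ => (0, 1)) i) (th R N (X i)) := by
  rcases i with i | i
  · rw [th_inl, Sum.elim_inl]
    refine HH_C rfl ?_
    exact isWeightedHomogeneous_X R _ (Sum.inl i)
  · rw [th_inr, Sum.elim_inr]
    intro j
    have hb : BiHom 0 1 (X (Sum.inr i) : MvPolynomial (XV N) R) :=
      isWeightedHomogeneous_X R _ (Sum.inr i)
    have hb' : BiHom 1 0 (X (Sum.inl i) : MvPolynomial (XV N) R) :=
      isWeightedHomogeneous_X R _ (Sum.inl i)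
    rcases j with _ | j
    · have e : (Polynomial.C (X (Sum.inr i)) + Polynomial.X * Polynomial.C (X (Sum.inl i)) :
          Polynomial (MvPolynomial (XV N) R)).coeff 0 = X (Sum.inr i) := by simp
      rw [e]
      exact ⟨fun _ => hb, fun hj => absurd hj (Nat.not_lt_zero _)⟩
    · have e : (Polynomial.C (X (Sum.inr i)) + Polynomial.X * Polynomial.C (X (Sum.inl i)) :
          Polynomial (MvPolynomial (XV N) R)).coeff (j + 1) =
            if j = 0 then X (Sum.inl i) else 0 := by
        rw [Polynomial.coeff_add, Polynomial.coeff_X_mul, Polynomial.coeff_C, Polynomial.coeff_C,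
          if_neg (Nat.succ_ne_zero j), zero_add]
      rw [e]
      constructor
      · intro hj
        have hj0 : j = 0 := by
          have : j + 1 ≤ 1 := hj
          omega
        subst hj0
        rw [if_pos rfl]
        exact hb'
      · intro hj
        have hj0 : j ≠ 0 := by
          have : 1 < j + 1 := hj
          omega
        rw [if_neg hj0]

private theorem HH_th {α β : ℕ} {P : MvPolynomial (XV N) R} (hP : BiHom α β P) :
    HH (α, β) (th R N P) := by
  rw [P.as_sum, map_sum]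
  refine HH_sum _ _ fun m hm => ?_
  have hw : Finsupp.weight (Sum.elim (fun _ => ((1, 0) : ℕ × ℕ)) (fun _ => (0, 1))) m = (α, β) :=
    hP (mem_support_iff.1 hm)
  have he : th R N (monomial m (coeff m P)) =
      Polynomial.C (C (coeff m P)) * m.prod fun i k => (th R N (X i)) ^ k := by
    rw [monomial_eq, map_mul, map_finsuppProd]
    have e1 : th R N (C (coeff m P)) = Polynomial.C (C (coeff m P)) := by
      rw [← algebraMap_eq, AlgHom.commutes]
      rfl
    rw [e1]
    simp only [map_pow]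
  have h1 : HH (m.sum fun i c => c • Sum.elim (fun _ => ((1, 0) : ℕ × ℕ)) (fun _ => (0, 1)) i)
      (m.prod fun i k => (th R N (X i)) ^ k) :=
    HH_prod _ _ _ fun i _ => HH_pow (HH_var i) (m i)
  have h3 := HH_mul (HH_C (w := (0 : ℕ × ℕ)) rfl
    (isWeightedHomogeneous_C (Sum.elim (fun _ => ((1, 0) : ℕ × ℕ)) (fun _ => (0, 1)))
      (coeff m P) : BiHom 0 0 (C (coeff m P) : MvPolynomial (XV N) R))) h1
  rw [zero_add] at h3
  rw [← hw, Finsupp.weight_apply, he]
  exact h3

private theorem th_InJ {κ : Type} {d : κ → ℕ} (F : κ → MvPolynomial (Fin (N + 1)) R)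
    (hF : ∀ i, (F i).IsHomogeneous (d i)) (l : MvPolynomial (Fin (N + 1)) R)
    (P : MvPolynomial (XV N) R) (h : InJ F l P) (i : ℕ) : InJ F l ((th R N P).coeff i) := by
  unfold InJ at h ⊢
  set J : Ideal (MvPolynomial (XV N) R) := Ideal.span (Set.range (gens F l)) with hJ
  have h1 : J ≤ Ideal.comap (th R N).toRingHom (Ideal.map Polynomial.C J) := by
    rw [hJ, Ideal.span_le]
    rintro _ ⟨s, rfl⟩
    rw [← hJ]
    have hm : ∀ t, Polynomial.C (gens F l t) ∈
        (Ideal.map Polynomial.C J : Ideal (Polynomial (MvPolynomial (XV N) R))) := fun t =>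
      Ideal.mem_map_of_mem _ (by rw [hJ]; exact Ideal.subset_span ⟨t, rfl⟩)
    change th R N (gens F l s) ∈ Ideal.map Polynomial.C J
    rcases s with (i | i) | i
    · have e1 : gens F l (Sum.inl (Sum.inl i)) = inx (F i) := rfl
      have e2 := hm (Sum.inl (Sum.inl i))
      rw [e1] at e2 ⊢
      rw [th_inx]
      exact e2
    · have e1 : gens F l (Sum.inl (Sum.inr i)) = dif (F i) := rfl
      have e3 : gens F l (Sum.inl (Sum.inl i)) = inx (F i) := rfl
      have e2 := hm (Sum.inl (Sum.inr i))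
      have e4 := hm (Sum.inl (Sum.inl i))
      rw [e1] at e2 ⊢
      rw [e3] at e4
      rw [th_dif (F i) (hF i)]
      refine Ideal.add_mem _ e2 (Ideal.mul_mem_left _ _ ?_)
      rw [map_nsmul]
      exact nsmul_mem e4 _
    · have e1 : gens F l (Sum.inr i) = inx l := rfl
      have e2 := hm (Sum.inr i)
      rw [e1] at e2 ⊢
      rw [th_inx]
      exact e2
  exact Ideal.mem_map_C_iff.1 (h1 h) i

private theorem th_eval (φ : R →+* ℂ) (x v : Fin (N + 1) → ℂ) (t : ℂ)
    (P : MvPolynomial (XV N) R) :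
    eval (Sum.elim x (v + t • x)) (MvPolynomial.map φ P) =
      Polynomial.eval₂ (MvPolynomial.eval₂Hom φ (Sum.elim x v)) t (th R N P) := by
  have h1 : (MvPolynomial.eval₂Hom φ (Sum.elim x (v + t • x))) =
      (Polynomial.eval₂RingHom (MvPolynomial.eval₂Hom φ (Sum.elim x v)) t).comp
        (th R N).toRingHom := by
    refine MvPolynomial.ringHom_ext (fun r => ?_) (fun i => ?_)
    · change MvPolynomial.eval₂Hom φ (Sum.elim x (v + t • x)) (C r) =
        Polynomial.eval₂ (MvPolynomial.eval₂Hom φ (Sum.elim x v)) t (th R N (C r))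
      have e1 : th R N (C r) = Polynomial.C (C r) := by
        rw [← algebraMap_eq, AlgHom.commutes]
        rfl
      rw [e1, Polynomial.eval₂_C, eval₂Hom_C, eval₂Hom_C]
    · change MvPolynomial.eval₂Hom φ (Sum.elim x (v + t • x)) (X i) =
        Polynomial.eval₂ (MvPolynomial.eval₂Hom φ (Sum.elim x v)) t (th R N (X i))
      rcases i with i | i
      · rw [th_inl, Polynomial.eval₂_C, eval₂Hom_X', eval₂Hom_X', Sum.elim_inl, Sum.elim_inl]
      · rw [th_inr, Polynomial.eval₂_add, Polynomial.eval₂_mul, Polynomial.eval₂_X,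
          Polynomial.eval₂_C, Polynomial.eval₂_C, eval₂Hom_X', eval₂Hom_X', eval₂Hom_X',
          Sum.elim_inr, Sum.elim_inr, Sum.elim_inl, Pi.add_apply, Pi.smul_apply, smul_eq_mul]
  rw [eval_map]
  exact congrArg (fun g => g P) h1

end aux

/-- [CI-F4] Proof.  With `A = MvPolynomial (Ix N d) ℚ` let `θ : A[x, v] → A[x, v][T]` (`Polynomial`) be the homomorphism `x_j ↦ x_j`, `v_j ↦ v_j + T x_j`; `Pj j` = the coefficient of
`T ^ j` of `θ P`.  Bidegrees: a monomial of bidegree `(α, β)` goes to a sum of `T ^ j` times forms of bidegree `(α + j, β - j)`, `j ≤ β`.  Ideals: `θ (inx F) = inx F`,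
`θ (dif F) = dif F + T d inx F` (Euler, `IsHomogeneous.sum_X_mul_pderiv`), `θ (inx l) = inx l`, so `θ` maps the ideal `J` into the polynomials with coefficients in `J`
(`Ideal.map C`, `Ideal.mem_map_C_iff`).  Values: `eval (x, v + t x) P = ∑ t ^ j eval (x, v) (Pj j)`. -/
theorem lead_exp {N h α β : ℕ} {κ : Type} [Fintype κ] {d : κ → ℕ}
    (l : Fin h → Fin (N + 1) → ℤ)
    (P : MvPolynomial (XV N) (MvPolynomial (Ix N d) ℚ)) (hP : BiHom α β P)
    (hJ : ∀ j, InJ (fa (fun p : Ix N d => (X p : MvPolynomial (Ix N d) ℚ)))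
      (lf (fun k => ((l j k : ℤ) : MvPolynomial (Ix N d) ℚ))) P) :
    ∃ Pj : ℕ → MvPolynomial (XV N) (MvPolynomial (Ix N d) ℚ),
      (∀ j, j ≤ β → BiHom (α + j) (β - j) (Pj j)) ∧
      (∀ i j, InJ (fa (fun p : Ix N d => (X p : MvPolynomial (Ix N d) ℚ)))
        (lf (fun k => ((l j k : ℤ) : MvPolynomial (Ix N d) ℚ))) (Pj i)) ∧
      ∀ (a : Ix N d → ℂ) (x v : Fin (N + 1) → ℂ) (t : ℂ),
        eval (Sum.elim x (v + t • x)) (sp a P) =
          ∑ j ∈ Finset.range (β + 1), t ^ j * eval (Sum.elim x v) (sp a (Pj j)) := by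
  refine ⟨fun j => (th (MvPolynomial (Ix N d) ℚ) N P).coeff j, fun j hj => (HH_th hP j).1 hj,
    fun i j => th_InJ _ (fun i => fa_hom _ i) _ P (hJ j) i, fun a x v t => ?_⟩
  have hdeg : (th (MvPolynomial (Ix N d) ℚ) N P).natDegree < β + 1 := by
    rw [Nat.lt_succ_iff, Polynomial.natDegree_le_iff_coeff_eq_zero]
    exact fun j hj => (HH_th hP j).2 hj
  rw [sp, th_eval, Polynomial.eval₂_eq_sum_range' _ hdeg]
  refine Finset.sum_congr rfl fun j _ => ?_
  rw [sp, eval_map, mul_comm]
  rfl

end Pool.Agent.CI
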