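import Pool.Agent.Lib_MP_b9fedf_ci.BasicJ

/-! [CI-C24]: an independent pair. -/

set_option autoImplicit false

namespace Pool.Agent.CI
open MvPolynomial Pool.Agent.GGL Pool.Agent.GH

/-- the derivatives in the direction `u`, as a linear map -/
private noncomputable def dvL_pi {N : ℕ} {κ : Type} [Fintype κ]
    (F : κ → MvPolynomial (Fin (N + 1)) ℂ) (x : Fin (N + 1) → ℂ) :
    (Fin (N + 1) → ℂ) →ₗ[ℂ] (κ → ℂ) where
  toFun u i := dv (F i) x u
  map_add' u v := by
    funext i
    simp only [dv, Pi.add_apply, mul_add, Finset.sum_add_distrib]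
  map_smul' c u := by
    funext i
    simp only [dv, Pi.smul_apply, smul_eq_mul, RingHom.id_apply, Finset.mul_sum]
    exact Finset.sum_congr rfl fun j _ => by ring

private theorem exists_dir_pi {N : ℕ} {κ : Type} [Fintype κ]
    (F : κ → MvPolynomial (Fin (N + 1)) ℂ) (hc : Fintype.card κ + 1 ≤ N)
    (x : Fin (N + 1) → ℂ) (hx : x ≠ 0) :
    ∃ u : Fin (N + 1) → ℂ, (∀ i, dv (F i) x u = 0) ∧ ∀ a : ℂ, a • x ≠ u := by
  classical
  by_contra hcon
  push Not at hcon
  have hle : LinearMap.ker (dvL_pi F x) ≤ Submodule.span ℂ {x} := by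
    intro u hu
    have h0 : ∀ i, dv (F i) x u = 0 := fun i => congrFun (LinearMap.mem_ker.1 hu) i
    obtain ⟨a, ha⟩ := hcon u h0
    exact Submodule.mem_span_singleton.2 ⟨a, ha⟩
  have h1 : Module.finrank ℂ (LinearMap.ker (dvL_pi F x)) ≤ 1 :=
    (Submodule.finrank_mono hle).trans_eq (finrank_span_singleton hx)
  have h2 := LinearMap.finrank_range_add_finrank_ker (dvL_pi F x)
  have h3 : Module.finrank ℂ (LinearMap.range (dvL_pi F x)) ≤ Fintype.card κ :=
    (Submodule.finrank_le _).trans_eq (Module.finrank_fintype_fun_eq_card ℂ)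
  rw [Module.finrank_fintype_fun_eq_card, Fintype.card_fin] at h2
  omega

/-- [CI-C24] Proof.  The space `L = {u | DF_i(x, u) = 0 for all i}` has dimension at least `N + 1 - card κ ≥ 2`, so it contains `u` independent of `x`.  For `ε ∈ ℂ` put `v' = v + ε u`: `Inc` holds; `eval (x, v + ε u) G` is a
polynomial in `ε`, not zero at `ε = 0`, and `x`, `v + ε u` are dependent for at most one `ε`. -/
theorem pair_ind {N : ℕ} {κ : Type} [Fintype κ] (F : κ → MvPolynomial (Fin (N + 1)) ℂ)
    (hc : Fintype.card κ + 1 ≤ N) (G : MvPolynomial (XV N) ℂ) (x v : Fin (N + 1) → ℂ)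
    (hx : x ≠ 0) (hI : Inc F x v) (hG : eval (Sum.elim x v) G ≠ 0) :
    ∃ v', LinearIndependent ℂ ![x, v'] ∧ Inc F x v' ∧ eval (Sum.elim x v') G ≠ 0 := by
  classical
  obtain ⟨u, hu, hux⟩ := exists_dir_pi F hc x hx
  have hlin : ∀ ε : ℂ, Inc F x (v + ε • u) := by
    intro ε i
    refine ⟨(hI i).1, ?_⟩
    have h1 : dv (F i) x (v + ε • u) = dv (F i) x v + ε * dv (F i) x u := by
      have h2 := congrFun ((dvL_pi F x).map_add v (ε • u)) i
      rw [(dvL_pi F x).map_smul] at h2
      exact h2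
    rw [h1, (hI i).2, hu i]
    ring
  let p : Polynomial ℂ := aeval (Sum.elim (fun j => Polynomial.C (x j))
    (fun j => Polynomial.C (v j) + Polynomial.X * Polynomial.C (u j)) : XV N → Polynomial ℂ) G
  have hp : ∀ ε : ℂ, p.eval ε = eval (Sum.elim x (v + ε • u)) G := by
    intro ε
    have h1 : p.eval ε = (Polynomial.evalRingHom ε) (aeval (Sum.elim (fun j => Polynomial.C (x j))
      (fun j => Polynomial.C (v j) + Polynomial.X * Polynomial.C (u j)) :
        XV N → Polynomial ℂ) G) := rfl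
    have h2 : (Polynomial.evalRingHom ε).comp (algebraMap ℂ (Polynomial ℂ)) = RingHom.id ℂ := by
      ext z
      simp
    have h3 : (fun s => (Polynomial.evalRingHom ε) ((Sum.elim (fun j => Polynomial.C (x j))
      (fun j => Polynomial.C (v j) + Polynomial.X * Polynomial.C (u j)) :
        XV N → Polynomial ℂ) s)) = Sum.elim x (v + ε • u) := by
      funext s
      rcases s with j | j
      · simp only [Sum.elim_inl, Polynomial.coe_evalRingHom, Polynomial.eval_C]
      · simp only [Sum.elim_inr, Polynomial.coe_evalRingHom, Polynomial.eval_C, Polynomial.eval_add,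
          Polynomial.eval_mul, Polynomial.eval_X, Pi.add_apply, Pi.smul_apply, smul_eq_mul]
    rw [h1, MvPolynomial.aeval_def, MvPolynomial.hom_eval₂, h2, h3, MvPolynomial.eval₂_id]
  have hp0 : p ≠ 0 := by
    intro h
    apply hG
    have h1 := hp 0
    rw [h, Polynomial.eval_zero, zero_smul, add_zero] at h1
    exact h1.symm
  have hB : {ε : ℂ | ∃ a : ℂ, a • x = v + ε • u}.Subsingleton := by
    rintro ε ⟨a, ha⟩ ε' ⟨a', ha'⟩
    by_contra hne
    have hs : ε - ε' ≠ 0 := sub_ne_zero.2 hne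
    apply hux ((ε - ε')⁻¹ * (a - a'))
    rw [mul_smul, sub_smul, ha, ha', add_sub_add_left_eq_sub, ← sub_smul, smul_smul,
      inv_mul_cancel₀ hs, one_smul]
  have hfin : ((p.roots.toFinset : Set ℂ) ∪ {ε : ℂ | ∃ a : ℂ, a • x = v + ε • u}).Finite :=
    (Finset.finite_toSet _).union hB.finite
  obtain ⟨ε, hε⟩ := hfin.infinite_compl.nonempty
  rw [Set.mem_compl_iff, Set.mem_union, not_or] at hε
  refine ⟨v + ε • u, ?_, hlin ε, ?_⟩
  · rw [LinearIndependent.pair_iff' hx]
    intro a ha
    exact hε.2 ⟨a, ha⟩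
  · rw [← hp ε]
    intro h
    apply hε.1
    rw [Finset.mem_coe, Multiset.mem_toFinset, Polynomial.mem_roots hp0]
    exact h

end Pool.Agent.CI
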