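import Pool.Agent.Lib_MP_b9fedf_ci.Lead1
import Pool.Agent.Lib_MP_b9fedf_ci.PairInd

/-! [CI-F5]: the leading coefficient is invariant. -/

set_option autoImplicit false

namespace Pool.Agent.CI
open MvPolynomial Pool.Agent.GGL Pool.Agent.GH

/-- [CI-F5a] tangent vectors independent of `x` (the space `{u | DF_i(x, u) = 0}` has dimension at least `N + 1 - card κ ≥ 2`; `pair_ind` with `G = 1`, or directly) -/
theorem exists_tan {N : ℕ} {κ : Type} [Fintype κ] (F : κ → MvPolynomial (Fin (N + 1)) ℂ)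
    (hc : Fintype.card κ + 1 ≤ N) (x v : Fin (N + 1) → ℂ) (hx : x ≠ 0) (hI : Inc F x v) :
    ∃ u, LinearIndependent ℂ ![x, u] ∧ Inc F x u := by
  obtain ⟨u, h1, h2, _⟩ := pair_ind F hc 1 x v hx hI (by rw [map_one]; exact one_ne_zero)
  exact ⟨u, h1, h2⟩

private theorem inc_add_l2 {N : ℕ} {κ : Type} {F : κ → MvPolynomial (Fin (N + 1)) ℂ}
    {x v u : Fin (N + 1) → ℂ} (hv : Inc F x v) (hu : Inc F x u) (ε : ℂ) :
    Inc F x (v + ε • u) := by
  intro i
  refine ⟨(hv i).1, ?_⟩
  have h1 : dv (F i) x (v + ε • u) = dv (F i) x v + ε * dv (F i) x u := by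
    simp only [dv, Pi.add_apply, Pi.smul_apply, smul_eq_mul, mul_add, Finset.sum_add_distrib,
      Finset.mul_sum]
    congr 1
    exact Finset.sum_congr rfl fun j _ => by ring
  rw [h1, (hv i).2, (hu i).2]
  ring

private theorem inc_self_l2 {N : ℕ} {κ : Type} {d : κ → ℕ} {F : κ → MvPolynomial (Fin (N + 1)) ℂ}
    (hF : ∀ i, (F i).IsHomogeneous (d i)) {x v : Fin (N + 1) → ℂ} (hv : Inc F x v) :
    Inc F x x := by
  intro i
  refine ⟨(hv i).1, ?_⟩
  have h1 := euler (F i) (hF i) x
  rw [(hv i).1, mul_zero] at h1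
  exact h1

private theorem indep_add_l2 {N : ℕ} {x v : Fin (N + 1) → ℂ} (h : LinearIndependent ℂ ![x, v])
    (s : ℂ) : LinearIndependent ℂ ![x, v + s • x] := by
  rw [LinearIndependent.pair_iff] at h ⊢
  intro p q hpq
  have h1 : (p + q * s) • x + q • v = 0 := by
    rw [← hpq]
    module
  obtain ⟨h2, h3⟩ := h _ _ h1
  refine ⟨?_, h3⟩
  rw [h3, zero_mul, add_zero] at h2
  exact h2

private noncomputable def evp_l2 {N : ℕ} (G : MvPolynomial (XV N) ℂ) (x v u : Fin (N + 1) → ℂ) :
    Polynomial ℂ :=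
  aeval (Sum.elim (fun j => Polynomial.C (x j))
    (fun j => Polynomial.C (v j) + Polynomial.X * Polynomial.C (u j)) : XV N → Polynomial ℂ) G

private theorem evp_eval_l2 {N : ℕ} (G : MvPolynomial (XV N) ℂ) (x v u : Fin (N + 1) → ℂ)
    (ε : ℂ) : (evp_l2 G x v u).eval ε = eval (Sum.elim x (v + ε • u)) G := by
  have h1 : (evp_l2 G x v u).eval ε =
      (Polynomial.evalRingHom ε) (aeval (Sum.elim (fun j => Polynomial.C (x j))
        (fun j => Polynomial.C (v j) + Polynomial.X * Polynomial.C (u j)) :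
          XV N → Polynomial ℂ) G) := rfl
  have h2 : (Polynomial.evalRingHom ε).comp (algebraMap ℂ (Polynomial ℂ)) = RingHom.id ℂ := by
    ext z
    simp
  have h3 : (fun s => (Polynomial.evalRingHom ε) ((Sum.elim (fun j => Polynomial.C (x j))
      (fun j => Polynomial.C (v j) + Polynomial.X * Polynomial.C (u j)) :
        XV N → Polynomial ℂ) s)) = Sum.elim x (v + ε • u) := by
    funext s
    rcases s with j | j
    · simp only [Sum.elim_inl, Polynomial.coe_evalRingHom, Polynomial.eval_C]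
    · simp only [Sum.elim_inr, Polynomial.coe_evalRingHom, Polynomial.eval_C, Polynomial.eval_add,
        Polynomial.eval_mul, Polynomial.eval_X, Pi.add_apply, Pi.smul_apply, smul_eq_mul]
  rw [h1, MvPolynomial.aeval_def, MvPolynomial.hom_eval₂, h2, h3, MvPolynomial.eval₂_id]

private theorem coeff_cmp_l2 (j : ℕ) (f g : ℕ → ℂ) (s : ℂ)
    (h : ∀ t : ℂ, ∑ i ∈ Finset.range (j + 1), t ^ i * f i =
      ∑ i ∈ Finset.range (j + 1), (t + s) ^ i * g i) : f j = g j := by
  have h1 : (∑ i ∈ Finset.range (j + 1), (Polynomial.X : Polynomial ℂ) ^ i * Polynomial.C (f i)) =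
      ∑ i ∈ Finset.range (j + 1), (Polynomial.X + Polynomial.C s) ^ i * Polynomial.C (g i) := by
    apply Polynomial.funext
    intro t
    rw [Polynomial.eval_finset_sum, Polynomial.eval_finset_sum]
    simp only [Polynomial.eval_mul, Polynomial.eval_pow, Polynomial.eval_X, Polynomial.eval_C,
      Polynomial.eval_add]
    exact h t
  have h2 := congrArg (fun p => Polynomial.coeff p j) h1
  simp only [Polynomial.finset_sum_coeff, Polynomial.coeff_mul_C, Polynomial.coeff_X_pow,
    Polynomial.coeff_X_add_C_pow] at h2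
  rw [Finset.sum_eq_single j, Finset.sum_eq_single j] at h2
  · simpa using h2
  · intro b hb hne
    have hlt : b < j := by
      have := Finset.mem_range.1 hb
      omega
    rw [Nat.choose_eq_zero_of_lt hlt]
    simp
  · intro hj
    exact absurd (Finset.mem_range.2 (Nat.lt_succ_self j)) hj
  · intro b _ hne
    rw [if_neg (Ne.symm hne), zero_mul]
  · intro hj
    exact absurd (Finset.mem_range.2 (Nat.lt_succ_self j)) hj

/-- [CI-F5b] Proof (note, 4').  `lead_exp`; let `j ≤ β` be maximal such that `Pj j` does not vanish at some `(a, x, v)` with `Inc (fa a) x v` and `![x, v]` independent (there is such a `j`, take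
`t = 0` in the expansion: `P = Pj 0` there).  For independent `(x, v)` in `Inc (fa a)`: `∑ i ≤ j, t ^ i Pj i (x, v + s x) = P(x, v + (t + s) x) = ∑ i ≤ j, (t + s) ^ i Pj i (x, v)` for all `t` (the pairs `(x, v + s x)` are again
independent and in `Inc`: `DF_i(x, x) = d_i F_i(x) = 0`), compare the coefficients of `t ^ j`: invariance.  For dependent pairs, `x ≠ 0`: take `u` from `exists_tan`; `Pj j (x, v + ε u + s x) - Pj j (x, v + ε u)` is a polynomial in
`ε`, zero for all `ε ≠ 0` (then `x`, `v + ε u` are independent as `v` is a multiple of `x`), hence zero at `ε = 0`.  For `x = 0` trivial. -/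
theorem lead_inv {N h α β : ℕ} {κ : Type} [Fintype κ] {d : κ → ℕ} (hd : ∀ i, 1 ≤ d i)
    (hc : Fintype.card κ + 1 ≤ N) (l : Fin h → Fin (N + 1) → ℤ)
    (P : MvPolynomial (XV N) (MvPolynomial (Ix N d) ℚ)) (hP : BiHom α β P)
    (hJ : ∀ j, InJ (fa (fun p : Ix N d => (X p : MvPolynomial (Ix N d) ℚ)))
      (lf (fun k => ((l j k : ℤ) : MvPolynomial (Ix N d) ℚ))) P)
    (a : Ix N d → ℂ) (x v : Fin (N + 1) → ℂ) (hli : LinearIndependent ℂ ![x, v])
    (hI : Inc (fa a) x v) (hne : eval (Sum.elim x v) (sp a P) ≠ 0) :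
    ∃ (α' β' : ℕ) (P' : MvPolynomial (XV N) (MvPolynomial (Ix N d) ℚ)),
      α' + β' = α + β ∧ BiHom α' β' P' ∧
      (∀ j, InJ (fa (fun p : Ix N d => (X p : MvPolynomial (Ix N d) ℚ)))
        (lf (fun k => ((l j k : ℤ) : MvPolynomial (Ix N d) ℚ))) P') ∧
      (∀ a : Ix N d → ℂ, Inva (fa a) (sp a P')) ∧
      ∃ (a : Ix N d → ℂ) (x v : Fin (N + 1) → ℂ), LinearIndependent ℂ ![x, v] ∧
        Inc (fa a) x v ∧ eval (Sum.elim x v) (sp a P') ≠ 0 := by
  classical
  have _ := hd
  obtain ⟨Pj, hbi, hJj, hexp⟩ := lead_exp l P hP hJ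
  set S : ℕ → Prop := fun j => ∃ (a : Ix N d → ℂ) (x v : Fin (N + 1) → ℂ),
    LinearIndependent ℂ ![x, v] ∧ Inc (fa a) x v ∧ eval (Sum.elim x v) (sp a (Pj j)) ≠ 0 with hS
  have hS0 : S 0 := by
    refine ⟨a, x, v, hli, hI, ?_⟩
    have h1 := hexp a x v 0
    rw [zero_smul, add_zero, Finset.sum_eq_single 0, pow_zero, one_mul] at h1
    · rw [← h1]
      exact hne
    · intro b _ hb
      rw [zero_pow hb, zero_mul]
    · intro h0
      exact absurd (Finset.mem_range.2 (Nat.succ_pos β)) h0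
  set j := Nat.findGreatest S β with hj
  have hjβ : j ≤ β := Nat.findGreatest_le β
  have hSj : S j := Nat.findGreatest_spec (P := S) (Nat.zero_le β) hS0
  have hmax : ∀ i, j < i → i ≤ β → ¬ S i := fun i h1 h2 =>
    Nat.findGreatest_is_greatest h1 h2
  refine ⟨α + j, β - j, Pj j, by omega, hbi j hjβ, fun i => hJj j i, ?_, hSj⟩
  intro b y w s hIb
  by_cases hy : y = 0
  · rw [hy, smul_zero, add_zero]
  -- the independent case
  have hind : ∀ w : Fin (N + 1) → ℂ, LinearIndependent ℂ ![y, w] → Inc (fa b) y w →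
      eval (Sum.elim y (w + s • y)) (sp b (Pj j)) = eval (Sum.elim y w) (sp b (Pj j)) := by
    intro w hw hIw
    have hself : Inc (fa b) y y := inc_self_l2 (fun i => fa_hom b i) hIw
    have hcut : ∀ w' : Fin (N + 1) → ℂ, LinearIndependent ℂ ![y, w'] → Inc (fa b) y w' →
        ∀ t : ℂ, eval (Sum.elim y (w' + t • y)) (sp b P) =
          ∑ i ∈ Finset.range (j + 1), t ^ i * eval (Sum.elim y w') (sp b (Pj i)) := by
      intro w' hw' hIw' t
      rw [hexp b y w' t]
      symm
      refine Finset.sum_subset (Finset.range_mono (by omega)) ?_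
      intro i hi hi'
      rw [Finset.mem_range] at hi hi'
      have h0 : eval (Sum.elim y w') (sp b (Pj i)) = 0 := by
        by_contra hcon
        exact hmax i (by omega) (by omega) ⟨b, y, w', hw', hIw', hcon⟩
      rw [h0, mul_zero]
    refine coeff_cmp_l2 j (fun i => eval (Sum.elim y (w + s • y)) (sp b (Pj i)))
      (fun i => eval (Sum.elim y w) (sp b (Pj i))) s ?_
    intro t
    have h1 := hcut (w + s • y) (indep_add_l2 hw s) (inc_add_l2 hIw hself s) t
    have h2 := hcut w hw hIw (t + s)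
    have h3 : w + s • y + t • y = w + (t + s) • y := by module
    rw [h3] at h1
    exact h1.symm.trans h2
  -- the general case
  obtain ⟨u, hu, hIu⟩ := exists_tan (fa b) hc y w hy hIb
  have hux : ∀ c : ℂ, c • y ≠ u := (LinearIndependent.pair_iff' hy).1 hu
  have hB : {ε : ℂ | ∃ c : ℂ, c • y = w + ε • u}.Subsingleton := by
    rintro ε ⟨c, hc1⟩ ε' ⟨c', hc2⟩
    by_contra hne'
    have hs : ε - ε' ≠ 0 := sub_ne_zero.2 hne'
    apply hux ((ε - ε')⁻¹ * (c - c'))
    rw [mul_smul, sub_smul, hc1, hc2, add_sub_add_left_eq_sub, ← sub_smul, smul_smul,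
      inv_mul_cancel₀ hs, one_smul]
  have hpq : evp_l2 (sp b (Pj j)) y (w + s • y) u = evp_l2 (sp b (Pj j)) y w u := by
    refine Polynomial.eq_of_infinite_eval_eq _ _ (hB.finite.infinite_compl.mono ?_)
    intro ε hε
    change Polynomial.eval ε _ = Polynomial.eval ε _
    rw [evp_eval_l2, evp_eval_l2]
    have h1 : w + s • y + ε • u = (w + ε • u) + s • y := by module
    rw [h1]
    refine hind _ ?_ (inc_add_l2 hIb hIu ε)
    rw [LinearIndependent.pair_iff' hy]
    intro c hc1
    exact hε ⟨c, hc1⟩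
  have h1 := congrArg (Polynomial.eval 0) hpq
  rw [evp_eval_l2, evp_eval_l2, zero_smul, add_zero, add_zero] at h1
  exact h1

end Pool.Agent.CI
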