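import Mathlib

/-! [CI-B0]: solutions of linear equations with rational coefficients. -/

set_option autoImplicit false

namespace Pool.Agent.CI

/-- [CI-B0] A solution of `r` independent rational linear equations (with rational right hand sides) in `M` unknowns is generated
by `M - r` of its coordinates.  (Choose `r` columns with an invertible minor.) -/
theorem lin_gen {M r : ℕ} (u : Fin r → Fin M → ℚ) (hu : LinearIndependent ℚ u) (x : Fin M → ℂ)
    (hx : ∀ i, ∃ q : ℚ, ∑ j, (u i j : ℂ) * x j = q) :
    r ≤ M ∧ ∃ y : Fin (M - r) → ℂ, ∀ j, x j ∈ IntermediateField.adjoin ℚ (Set.range y) := by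
  classical
  have hr : Module.finrank ℚ (Submodule.span ℚ (Set.range u)) = r := by
    rw [finrank_span_eq_card hu, Fintype.card_fin]
  have hM : Module.finrank ℚ (Fin M → ℚ) = M := by rw [Module.finrank_fin_fun]
  have hrM : r ≤ M := by
    have := Submodule.finrank_le (Submodule.span ℚ (Set.range u))
    rw [hr, hM] at this
    exact this
  refine ⟨hrM, ?_⟩
  set U := Submodule.span ℚ (Set.range u) with hU
  have hq : Module.finrank ℚ ((Fin M → ℚ) ⧸ U) = M - r := by
    have := Submodule.finrank_quotient_add_finrank U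
    rw [hr, hM] at this
    omega
  let e : Fin M → ((Fin M → ℚ) ⧸ U) := fun j => U.mkQ (Pi.single j 1)
  have hspan : Submodule.span ℚ (Set.range e) = ⊤ := by
    have h1 : Set.range e = U.mkQ '' (Set.range fun j : Fin M => (Pi.single j (1 : ℚ) : Fin M → ℚ)) := by
      rw [← Set.range_comp]
      rfl
    have h2 : Submodule.span ℚ (Set.range fun j : Fin M => (Pi.single j (1 : ℚ) : Fin M → ℚ)) = ⊤ := by
      have := (Pi.basisFun ℚ (Fin M)).span_eq
      convert this using 2
      ext v
      simp [Pi.basisFun_apply]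
    rw [h1, ← Submodule.map_span, h2, Submodule.map_top, Submodule.range_mkQ]
  obtain ⟨b, hb1, hb2, hb3⟩ := exists_linearIndependent ℚ (Set.range e)
  rw [hspan] at hb2
  have hb4 : (⊤ : Submodule ℚ ((Fin M → ℚ) ⧸ U)) ≤ Submodule.span ℚ (Set.range (Subtype.val : b → _)) := by
    rw [Subtype.range_coe, hb2]
  let B := Module.Basis.mk hb3 hb4
  have : Fintype b := FiniteDimensional.fintypeBasisIndex B
  have hcard : Fintype.card b = M - r := by
    rw [← Module.finrank_eq_card_basis B, hq]
  let f : Fin (M - r) ≃ b := (Fintype.equivFinOfCardEq hcard).symm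
  have hch : ∀ i : Fin (M - r), ∃ j : Fin M, e j = (f i : (Fin M → ℚ) ⧸ U) := fun i => hb1 (f i).2
  choose g hg using hch
  refine ⟨fun i => x (g i), ?_⟩
  set K := IntermediateField.adjoin ℚ (Set.range fun i => x (g i)) with hK
  let φ : (Fin M → ℚ) →ₗ[ℚ] ℂ :=
    { toFun := fun v => ∑ j, (v j : ℂ) * x j
      map_add' := fun v w => by
        rw [← Finset.sum_add_distrib]
        refine Finset.sum_congr rfl fun j _ => ?_
        rw [Pi.add_apply, Rat.cast_add, add_mul]
      map_smul' := fun c v => by
        rw [RingHom.id_apply, Finset.smul_sum]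
        refine Finset.sum_congr rfl fun j _ => ?_
        rw [Pi.smul_apply, smul_eq_mul, Rat.cast_mul, mul_assoc, Rat.smul_def] }
  have hφ : ∀ j : Fin M, φ (Pi.single j 1) = x j := by
    intro j
    change ∑ i, (((Pi.single j (1 : ℚ) : Fin M → ℚ) i : ℚ) : ℂ) * x i = x j
    rw [Finset.sum_eq_single j]
    · rw [Pi.single_eq_same, Rat.cast_one, one_mul]
    · intro i _ hi
      rw [Pi.single_eq_of_ne hi, Rat.cast_zero, zero_mul]
    · intro h
      exact absurd (Finset.mem_univ j) h
  let KS : Submodule ℚ ℂ := K.toSubalgebra.toSubmodule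
  have hW1 : U ≤ KS.comap φ := by
    rw [hU, Submodule.span_le]
    rintro _ ⟨i, rfl⟩
    obtain ⟨q, hq⟩ := hx i
    change φ (u i) ∈ K
    have h3 : φ (u i) = (q : ℂ) := hq
    rw [h3]
    exact K.algebraMap_mem q
  have hW : KS.comap φ = ⊤ := by
    have h1 : (KS.comap φ).map U.mkQ = ⊤ := by
      rw [eq_top_iff, ← hb2, Submodule.span_le]
      intro v hv
      obtain ⟨i, hi⟩ := f.surjective ⟨v, hv⟩
      refine ⟨Pi.single (g i) 1, ?_, ?_⟩
      · change φ (Pi.single (g i) 1) ∈ K
        rw [hφ]
        exact IntermediateField.subset_adjoin _ _ ⟨i, rfl⟩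
      · have := hg i
        rw [hi] at this
        exact this
    have h2 := congrArg (Submodule.comap U.mkQ) h1
    rw [Submodule.comap_map_mkQ, Submodule.comap_top, sup_eq_right.2 hW1] at h2
    exact h2
  intro j
  have h1 : (Pi.single j 1 : Fin M → ℚ) ∈ KS.comap φ := by rw [hW]; trivial
  have h2 : φ (Pi.single j 1) ∈ K := h1
  rwa [hφ] at h2

end Pool.Agent.CI
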