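import Pool.Agent.Lib_MP_b9fedf_ci.Family2
import Pool.Agent.Lib_MP_b9fedf_gh.Schwarz

/-! [CI-A2]: the local estimate. -/

set_option autoImplicit false

namespace Pool.Agent.CI
open MvPolynomial Pool.Agent.GGL Pool.Agent.GH

private theorem loc_elim_cont {n : ℕ} : Continuous (fun p : (Fin (n + 1) → ℂ) × (Fin (n + 1) → ℂ) =>
    (Sum.elim p.1 p.2 : XV n → ℂ)) := by
  refine continuous_pi fun s => ?_
  rcases s with j | j
  · exact (continuous_apply j).comp continuous_fst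
  · exact (continuous_apply j).comp continuous_snd

private theorem loc_bound {n : ℕ} (G : MvPolynomial (XV n) ℂ) (C : ℝ) :
    ∃ M : ℝ, 0 ≤ M ∧ ∀ x v : Fin (n + 1) → ℂ, ‖x‖ ≤ C → ‖v‖ ≤ C → ‖eval (Sum.elim x v) G‖ ≤ M := by
  have hc : Continuous (fun p : (Fin (n + 1) → ℂ) × (Fin (n + 1) → ℂ) =>
      eval (Sum.elim p.1 p.2 : XV n → ℂ) G) := (MvPolynomial.continuous_eval G).comp loc_elim_cont
  have hK : IsCompact (Metric.closedBall (0 : (Fin (n + 1) → ℂ) × (Fin (n + 1) → ℂ)) C) :=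
    isCompact_closedBall _ _
  obtain ⟨M, hM⟩ := hK.exists_bound_of_continuousOn hc.continuousOn
  refine ⟨max M 0, le_max_right _ _, fun x v hx hv => (hM (x, v) ?_).trans (le_max_left _ _)⟩
  rw [mem_closedBall_zero_iff, Prod.norm_mk]
  exact max_le hx hv

private theorem loc_diff {n : ℕ} {B : Type} [Fintype B] (G : MvPolynomial (XV n) ℂ)
    {X V : (B → ℂ) → (Fin (n + 1) → ℂ)} {t : B → ℂ} (hX : DifferentiableAt ℂ X t)
    (hV : DifferentiableAt ℂ V t) :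
    DifferentiableAt ℂ (fun t => eval (Sum.elim (X t) (V t) : XV n → ℂ) G) t := by
  have h1 : DifferentiableAt ℂ (fun t => (Sum.elim (X t) (V t) : XV n → ℂ)) t := by
    rw [differentiableAt_pi]
    rintro (j | j)
    · exact (differentiableAt_pi.mp hX) j
    · exact (differentiableAt_pi.mp hV) j
  have h2 : DifferentiableAt ℂ (fun y : XV n → ℂ => eval y G) (Sum.elim (X t) (V t)) :=
    ((AnalyticOnNhd.eval_mvPolynomial (𝕜 := ℂ) G) _ (Set.mem_univ _)).differentiableAt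
  have h3 := DifferentiableAt.comp (g := fun y : XV n → ℂ => eval y G)
    (f := fun t => (Sum.elim (X t) (V t) : XV n → ℂ)) t h2 h1
  exact h3

private theorem loc_w_cont {n : ℕ} (P : MvPolynomial (Fin (n + 1)) ℂ) :
    Continuous (fun p : (Fin (n + 1) → ℂ) × (Fin (n + 1) → ℂ) => ‖eval p.1 P‖) :=
  ((MvPolynomial.continuous_eval P).comp continuous_fst).norm

/-- [CI-A2a] Adapt the proof of `GH.local_est` (Lib_MP_b9fedf_gh/Local.lean) with `local_family2` and `schwarz_multi`, `R j = r / ‖l_j(x)‖`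
(if some `l_j(x) = 0` then `G(x, v) = 0` by `InJ.eval_zero`; `t j = 0` gives `l_j(X t) = 0` and `G(X t, V t) = 0` by `InJ.eval_zero`). -/
theorem local_est2 {N : ℕ} {ι B : Type} [Fintype ι] [DecidableEq ι] [Fintype B] [DecidableEq B]
    (F : ι → MvPolynomial (Fin (N + 1)) ℂ) (l : B → MvPolynomial (Fin (N + 1)) ℂ)
    (x₀ v₀ : Fin (N + 1) → ℂ) (h0 : Inc F x₀ v₀) (h1 : ∀ j, eval x₀ (l j) = 0)
    (hli : LinearIndependent ℂ (Sum.elim (fun i : ι => fun k => eval x₀ (pderiv k (F i)))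
      (fun j : B => fun k => eval x₀ (pderiv k (l j))) : ι ⊕ B → Fin (N + 1) → ℂ))
    (G : MvPolynomial (XV N) ℂ) (hG : ∀ j, InJ F (l j) G) :
    ∃ C : ℝ, 0 ≤ C ∧ ∃ U ∈ nhds (x₀, v₀), ∀ p ∈ U, Inc F p.1 p.2 →
      ‖eval (Sum.elim p.1 p.2) G‖ ≤ C * ∏ j, ‖eval p.1 (l j)‖ := by
  obtain ⟨r, hr, C, U, hU, hfam⟩ := local_family2 F l x₀ v₀ h0 h1 hli
  obtain ⟨E, hE⟩ : ∃ E : (Fin (N + 1) → ℂ) → (Fin (N + 1) → ℂ) → ℂ,
      ∀ x v, E x v = eval (Sum.elim x v) G := ⟨_, fun _ _ => rfl⟩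
  obtain ⟨w, hw⟩ : ∃ w : (Fin (N + 1) → ℂ) × (Fin (N + 1) → ℂ) → B → ℝ,
      ∀ p i, w p i = ‖eval p.1 (l i)‖ := ⟨_, fun _ _ => rfl⟩
  have hEz : ∀ x v i, Inc F x v → eval x (l i) = 0 → E x v = 0 := fun x v i hI hx => by
    rw [hE]; exact (hG i).eval_zero hI hx
  have hEM : ∃ M : ℝ, 0 ≤ M ∧ ∀ x v : Fin (N + 1) → ℂ, ‖x‖ ≤ C → ‖v‖ ≤ C → ‖E x v‖ ≤ M := by
    obtain ⟨M, h2, h3⟩ := loc_bound G C
    exact ⟨M, h2, fun x v hx hv => by rw [hE]; exact h3 x v hx hv⟩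
  have hEd : ∀ (X V : (B → ℂ) → (Fin (N + 1) → ℂ)) (t : B → ℂ), DifferentiableAt ℂ X t →
      DifferentiableAt ℂ V t → DifferentiableAt ℂ (fun t => E (X t) (V t)) t := by
    intro X V t hX hV
    have h2 : (fun t => E (X t) (V t)) = fun t => eval (Sum.elim (X t) (V t) : XV N → ℂ) G :=
      funext fun t => hE _ _
    rw [h2]
    exact loc_diff G hX hV
  have hWc : ∀ i, Filter.Tendsto (fun p => w p i) (nhds (x₀, v₀)) (nhds 0) := by
    intro i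
    have h2 := (loc_w_cont (l i)).tendsto (x₀, v₀)
    have h3 : (fun p => w p i) = fun p : (Fin (N + 1) → ℂ) × (Fin (N + 1) → ℂ) =>
      ‖eval p.1 (l i)‖ := funext fun p => hw p i
    rw [h3]
    have h4 : ‖eval (x₀, v₀).1 (l i)‖ = 0 := by
      show ‖eval x₀ (l i)‖ = 0
      rw [h1 i, norm_zero]
    rw [h4] at h2
    exact h2
  have hW : ∀ᶠ p in nhds (x₀, v₀), ∀ i, w p i < r :=
    Filter.eventually_all.mpr fun i => (hWc i).eventually_lt_const hr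
  have hfam' : ∀ p ∈ U, Inc F p.1 p.2 → ∃ X V : (B → ℂ) → (Fin (N + 1) → ℂ), X (fun _ => 1) = p.1 ∧
      V (fun _ => 1) = p.2 ∧ ∀ t : B → ℂ, (∀ i, ‖t i‖ * w p i < r) →
        (∀ i, t i = 0 → E (X t) (V t) = 0) ∧ ‖X t‖ ≤ C ∧ ‖V t‖ ≤ C ∧
        DifferentiableAt ℂ (fun t => E (X t) (V t)) t := by
    intro p hp hI
    obtain ⟨X, V, hX, hV, h2⟩ := hfam p hp hI
    refine ⟨X, V, hX, hV, fun t ht => ?_⟩
    obtain ⟨h3, h4, h5, h6, h7, h8⟩ := h2 t (fun i => by rw [← hw]; exact ht i)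
    refine ⟨fun i hi => hEz _ _ i h3 ?_, h5, h6, hEd X V t h7 h8⟩
    rw [h4 i, hi, zero_mul]
  have hw0 : ∀ p i, 0 ≤ w p i := fun p i => by rw [hw]; positivity
  have hwz : ∀ p i, Inc F p.1 p.2 → w p i = 0 → E p.1 p.2 = 0 := by
    intro p i hI hi
    rw [hw] at hi
    exact hEz _ _ i hI (norm_eq_zero.mp hi)
  obtain ⟨M, hM0, hM⟩ := hEM
  refine ⟨M * r⁻¹ ^ Fintype.card B, by positivity, U ∩ {p | ∀ i, w p i < r},
    Filter.inter_mem hU hW, ?_⟩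
  rintro p ⟨hp, hpr⟩ hI
  have hpr' : ∀ i, w p i < r := hpr
  rw [← hE]
  have hprod : ∏ i, ‖eval p.1 (l i)‖ = ∏ i, w p i :=
    Finset.prod_congr rfl fun i _ => (hw p i).symm
  rw [hprod]
  clear hprod hpr hE hw hfam hli hG
  by_cases hz : ∃ i, w p i = 0
  · obtain ⟨i, hi⟩ := hz
    rw [hwz p i hI hi, norm_zero]
    have : 0 ≤ ∏ i, w p i := Finset.prod_nonneg fun i _ => hw0 p i
    positivity
  · have hpos : ∀ i, 0 < w p i := fun i => lt_of_le_of_ne (hw0 p i) fun h => hz ⟨i, h.symm⟩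
    obtain ⟨X, V, hX1, hV1, hXV⟩ := hfam' p hp hI
    have hcond : ∀ t : B → ℂ, (∀ i, ‖t i‖ < r / w p i) → ∀ i, ‖t i‖ * w p i < r :=
      fun t ht i => (lt_div_iff₀ (hpos i)).mp (ht i)
    have key := schwarz_multi (fun i => r / w p i) (fun i => (one_lt_div (hpos i)).mpr (hpr' i))
      (fun t => E (X t) (V t)) (M := M)
      (fun t ht => hM _ _ (hXV t (hcond t ht)).2.1 (hXV t (hcond t ht)).2.2.1)
      (fun t ht => (hXV t (hcond t ht)).2.2.2)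
      (fun t ht i hi => (hXV t (hcond t ht)).1 i hi)
    have key' : ‖E p.1 p.2‖ ≤ M * ∏ i, (1 / (r / w p i)) := by
      rw [← hX1, ← hV1]
      exact key
    refine key'.trans (le_of_eq ?_)
    have h9 : ∏ i, (1 / (r / w p i)) = ∏ i : B, (r⁻¹ * w p i) :=
      Finset.prod_congr rfl fun i _ => by rw [one_div_div, div_eq_inv_mul]
    rw [h9, Finset.prod_mul_distrib, Finset.prod_const, Finset.card_univ]
    ring

/-- the derivative of a linear form -/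
private theorem loc_pderiv_lf {N : ℕ} (u x : Fin (N + 1) → ℂ) (k : Fin (N + 1)) :
    eval x (pderiv k (lf u)) = u k := by
  unfold lf
  rw [map_sum, map_sum, Finset.sum_eq_single k]
  · rw [pderiv_C_mul, pderiv_X_self, map_mul, eval_C, map_one, mul_one]
  · intro j _ hj
    rw [pderiv_C_mul, pderiv_X_of_ne hj, mul_zero, map_zero]
  · intro h
    exact absurd (Finset.mem_univ k) h

/-- [CI-A2b] All linear forms.  Adapt `GH.point_est`: `B = {j | l_j(x₀) = 0}`, `SncL` at `x₀` for `B` (`eval x₀ (pderiv k (lf u)) = u k`); the other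
factors are `≥ δ > 0` near `x₀`. -/
theorem point_est2 {N h : ℕ} {ι : Type} [Fintype ι] [DecidableEq ι]
    (F : ι → MvPolynomial (Fin (N + 1)) ℂ) (l : Fin h → Fin (N + 1) → ℂ) (hs : SncL F l)
    (x₀ v₀ : Fin (N + 1) → ℂ) (hx₀ : x₀ ≠ 0) (h0 : Inc F x₀ v₀)
    (G : MvPolynomial (XV N) ℂ) (hG : ∀ j, InJ F (lf (l j)) G) :
    ∃ C : ℝ, 0 ≤ C ∧ ∃ U ∈ nhds (x₀, v₀), ∀ p ∈ U, Inc F p.1 p.2 →
      ‖eval (Sum.elim p.1 p.2) G‖ ≤ C * ∏ j, ‖eval p.1 (lf (l j))‖ := by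
  classical
  obtain ⟨b, hb⟩ : ∃ b : Fin h → MvPolynomial (Fin (N + 1)) ℂ, ∀ j, b j = lf (l j) :=
    ⟨_, fun _ => rfl⟩
  set B : Finset (Fin h) := Finset.univ.filter (fun i => eval x₀ (b i) = 0) with hB
  have hmem : ∀ i, i ∈ B ↔ eval x₀ (b i) = 0 := fun i => by
    rw [hB, Finset.mem_filter]; exact ⟨fun h => h.2, fun h => ⟨Finset.mem_univ _, h⟩⟩
  have hli := hs x₀ hx₀ (fun i => (h0 i).1) B (fun j hj => by rw [← hb]; exact (hmem j).mp hj)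
  have hli' : LinearIndependent ℂ (Sum.elim (fun i : ι => fun k => eval x₀ (pderiv k (F i)))
      (fun j : B => fun k => eval x₀ (pderiv k (b j.1))) : ι ⊕ B → Fin (N + 1) → ℂ) := by
    have he : (fun j : B => fun k => eval x₀ (pderiv k (b j.1))) = fun j : B => l j := by
      funext j k
      rw [hb, loc_pderiv_lf]
    rw [he]
    exact hli
  obtain ⟨C, hC, U, hU, hest⟩ := local_est2 F (fun i : B => b i.1) x₀ v₀ h0
    (fun i => (hmem i.1).mp i.2) hli' G (fun i => by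
      have := hG i.1
      rw [← hb] at this
      exact this)
  have hw : ∀ i ∈ Bᶜ, ∃ δ : ℝ, 0 < δ ∧
      ∀ᶠ p in nhds (x₀, v₀), δ ≤ ‖eval p.1 (b i)‖ := by
    intro i hi
    rw [Finset.mem_compl, hmem] at hi
    have h3 : 0 < ‖eval x₀ (b i)‖ := norm_pos_iff.mpr hi
    refine ⟨‖eval x₀ (b i)‖ / 2, by linarith, ?_⟩
    have h4 := (loc_w_cont (b i)).tendsto (x₀, v₀)
    refine (h4.eventually_const_lt (show ‖eval x₀ (b i)‖ / 2 < ‖eval x₀ (b i)‖ by linarith)).mono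
      fun p hp => hp.le
  choose! δ hδ hev using hw
  have hev' : ∀ᶠ p in nhds (x₀, v₀), ∀ i ∈ Bᶜ, δ i ≤ ‖eval p.1 (b i)‖ :=
    (Finset.eventually_all _).mpr hev
  refine ⟨C * ∏ i ∈ Bᶜ, (δ i)⁻¹, mul_nonneg hC (Finset.prod_nonneg fun i hi => (inv_pos.mpr (hδ i hi)).le),
    U ∩ {p | ∀ i ∈ Bᶜ, δ i ≤ ‖eval p.1 (b i)‖}, Filter.inter_mem hU hev', ?_⟩
  rintro p ⟨hp, hpδ⟩ hI
  have hpδ' : ∀ i ∈ Bᶜ, δ i ≤ ‖eval p.1 (b i)‖ := hpδ
  have h5 : (1 : ℝ) ≤ ∏ i ∈ Bᶜ, ((δ i)⁻¹ * ‖eval p.1 (b i)‖) := by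
    have h9 := Finset.prod_le_prod (s := Bᶜ) (f := fun _ => (1 : ℝ))
      (g := fun i => (δ i)⁻¹ * ‖eval p.1 (b i)‖)
      (fun i _ => zero_le_one) (fun i hi => by
        show (1 : ℝ) ≤ (δ i)⁻¹ * ‖eval p.1 (b i)‖
        rw [← div_eq_inv_mul, one_le_div (hδ i hi)]
        exact hpδ' i hi)
    rw [Finset.prod_const_one] at h9
    exact h9
  have h6 : ∏ i : B, ‖eval p.1 (b i.1)‖ = ∏ i ∈ B, ‖eval p.1 (b i)‖ :=
    Finset.prod_coe_sort B (fun i => ‖eval p.1 (b i)‖)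
  have h7 := hest p hp hI
  rw [h6] at h7
  have h8 : 0 ≤ C * ∏ i ∈ B, ‖eval p.1 (b i)‖ :=
    mul_nonneg hC (Finset.prod_nonneg fun i _ => by positivity)
  have h10 : ∏ j, ‖eval p.1 (lf (l j))‖ = ∏ j, ‖eval p.1 (b j)‖ :=
    Finset.prod_congr rfl fun j _ => by rw [hb]
  rw [h10]
  calc ‖eval (Sum.elim p.1 p.2) G‖ ≤ C * ∏ i ∈ B, ‖eval p.1 (b i)‖ := h7
    _ ≤ (C * ∏ i ∈ B, ‖eval p.1 (b i)‖) *
        ∏ i ∈ Bᶜ, ((δ i)⁻¹ * ‖eval p.1 (b i)‖) := le_mul_of_one_le_right h8 h5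
    _ = C * (∏ i ∈ Bᶜ, (δ i)⁻¹) * ∏ i, ‖eval p.1 (b i)‖ := by
        rw [Finset.prod_mul_distrib,
          ← Finset.prod_mul_prod_compl B (fun i => ‖eval p.1 (b i)‖)]
        ring

end Pool.Agent.CI
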