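import Pool.Agent.Lib_MP_b9fedf_ci.Vd

/-! [CI-C15]: points of nearby members. -/

set_option autoImplicit false

namespace Pool.Agent.CI
open MvPolynomial Filter Topology Pool.Agent.GGL Pool.Agent.GH

private theorem cont_ev {n : ℕ} (P : MvPolynomial (Fin (n + 1)) ℂ) :
    ContDiff ℂ 1 (fun y : Fin (n + 1) → ℂ => eval y P) := by
  have h := AnalyticOnNhd.eval_continuousLinearMap (𝕜 := ℂ)
    (ContinuousLinearMap.id ℂ (Fin (n + 1) → ℂ)) P
  exact h.contDiff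

private theorem ev_mono {n : ℕ} (m : Fin (n + 1) →₀ ℕ) (c : ℂ) (x : Fin (n + 1) → ℂ) :
    eval x (monomial m c) = c * eval x (monomial m 1) := by
  rw [eval_monomial, eval_monomial, one_mul]

private theorem ev_frm {n d : ℕ} (c : Mon n d → ℂ) (x : Fin (n + 1) → ℂ) :
    eval x (frm c) = ∑ m : Mon n d, c m * eval x (monomial m.1 1) := by
  unfold frm
  rw [map_sum]
  exact Finset.sum_congr rfl fun m _ => ev_mono _ _ _

private theorem dv_frm {n d : ℕ} (c : Mon n d → ℂ) (x v : Fin (n + 1) → ℂ) :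
    dv (frm c) x v = ∑ j, (∑ m : Mon n d, c m * eval x (pderiv j (monomial m.1 1))) * v j := by
  unfold dv frm
  refine Finset.sum_congr rfl fun j _ => ?_
  rw [map_sum, map_sum]
  congr 1
  refine Finset.sum_congr rfl fun m _ => ?_
  rw [pderiv_monomial, pderiv_monomial, eval_monomial, eval_monomial]
  ring

private theorem cd_frm {E : Type} [NormedAddCommGroup E] [NormedSpace ℂ E] {n d : ℕ}
    (c : E → Mon n d → ℂ) (hc : ∀ m, ContDiff ℂ 1 fun p => c p m) (X V : E → Fin (n + 1) → ℂ)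
    (hX : ContDiff ℂ 1 X) (hV : ContDiff ℂ 1 V) :
    ContDiff ℂ 1 (fun p => eval (X p) (frm (c p))) ∧
      ContDiff ℂ 1 (fun p => dv (frm (c p)) (X p) (V p)) := by
  constructor
  · simp only [ev_frm]
    exact ContDiff.sum fun m _ => (hc m).mul ((cont_ev _).comp hX)
  · simp only [dv_frm]
    refine ContDiff.sum fun j _ =>
      ContDiff.mul (ContDiff.sum fun m _ => (hc m).mul ((cont_ev _).comp hX)) ?_
    exact (contDiff_pi.mp hV) j

private theorem val_spf {κ : Type} [DecidableEq κ] {n N : ℕ} (e : Fin (n + 1) ⊕ κ ≃ Fin (N + 1))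
    (s : κ → ℕ → ℕ) (d : κ → ℕ) (i : κ) (x : Fin (N + 1) → ℂ) :
    eval x (spf ℂ e s d i) =
      x (e (Sum.inr i)) ^ d i - eval (fun j => x (e (Sum.inl j))) (vb ℂ n s d i) := by
  unfold spf
  rw [map_sub, map_pow, eval_X, eval_rename]
  rfl

private theorem dval_spf {κ : Type} [DecidableEq κ] {n N : ℕ} (e : Fin (n + 1) ⊕ κ ≃ Fin (N + 1))
    (s : κ → ℕ → ℕ) (d : κ → ℕ) (i : κ) (x v : Fin (N + 1) → ℂ) :
    dv (spf ℂ e s d i) x v = (d i : ℂ) * x (e (Sum.inr i)) ^ (d i - 1) *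
        v (e (Sum.inr i)) -
        dv (vb ℂ n s d i) (fun j => x (e (Sum.inl j))) (fun j => v (e (Sum.inl j))) := by
  have h2 : dv (spf ℂ e s d i) x v = eval (Sum.elim x v) (dif (spf ℂ e s d i)) :=
    (eval_dif x v _).symm
  rw [h2, dif_spf, map_sub, map_mul, map_mul, map_pow, map_natCast, eval_X, eval_X, map_sum]
  congr 1
  unfold dv
  refine Finset.sum_congr rfl fun j _ => ?_
  rw [map_mul, eval_X, eval_rename]
  rfl

/-- [CI-C15] Proof.  Fix the coordinates `x_j` and `v_j` (those at `e (inl j)`) of `z`.  The map `(a, y, w) ↦ (a, (F_a,i(x, y))_i, (DF_a,i(x, y; v, w))_i)` is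
strictly differentiable at `(sc, y, w)` (all components are polynomials in `a`, `y`, `w`), with surjective derivative: `∂F_i/∂y_i' = δ d_i y_i ^ (d_i - 1)`, `∂DF_i/∂w_i' = δ d_i y_i ^ (d_i - 1)`,
`∂F_i/∂w = 0`, so the equations for `(y', w')` given `a'` are solvable.  By `HasStrictFDerivAt.map_nhds_eq_of_surj` the image of a neighbourhood contains all `(a, 0, 0)` with `a` near `sc`. -/
theorem persist {κ : Type} [Fintype κ] [DecidableEq κ] {n N : ℕ}
    (e : Fin (n + 1) ⊕ κ ≃ Fin (N + 1)) (s : κ → ℕ → ℕ) (d : κ → ℕ) (hd : ∀ i, 2 ≤ d i)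
    (z : XV N → ℂ)
    (hz : Inc (spf ℂ e s d) (fun j => z (Sum.inl j)) (fun j => z (Sum.inr j)))
    (hy : ∀ i, z (Sum.inl (e (Sum.inr i))) ≠ 0) (U : Set (XV N → ℂ)) (hU : U ∈ 𝓝 z) :
    ∃ V ∈ 𝓝 (sc ℂ e s d : Ix N d → ℂ), ∀ a ∈ V, ∃ z' ∈ U,
      Inc (fa a) (fun j => z' (Sum.inl j)) (fun j => z' (Sum.inr j)) := by
  set ax : (κ ⊕ κ → ℂ) → Fin (N + 1) → ℂ := fun u j =>
    Sum.elim (fun _ => z (Sum.inl j)) (fun i => u (Sum.inl i)) (e.symm j) with hax
  set av : (κ ⊕ κ → ℂ) → Fin (N + 1) → ℂ := fun u j =>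
    Sum.elim (fun _ => z (Sum.inr j)) (fun i => u (Sum.inr i)) (e.symm j) with hav
  set u₀ : κ ⊕ κ → ℂ := Sum.elim (fun i => z (Sum.inl (e (Sum.inr i))))
    (fun i => z (Sum.inr (e (Sum.inr i)))) with hu₀
  have ax1 : ∀ u i, ax u (e (Sum.inr i)) = u (Sum.inl i) := by
    intro u i
    simp only [hax, Equiv.symm_apply_apply, Sum.elim_inr]
  have ax2 : ∀ u j, ax u (e (Sum.inl j)) = z (Sum.inl (e (Sum.inl j))) := by
    intro u j
    simp only [hax, Equiv.symm_apply_apply, Sum.elim_inl]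
  have av1 : ∀ u i, av u (e (Sum.inr i)) = u (Sum.inr i) := by
    intro u i
    simp only [hav, Equiv.symm_apply_apply, Sum.elim_inr]
  have av2 : ∀ u j, av u (e (Sum.inl j)) = z (Sum.inr (e (Sum.inl j))) := by
    intro u j
    simp only [hav, Equiv.symm_apply_apply, Sum.elim_inl]
  have hax0 : ax u₀ = fun j => z (Sum.inl j) := by
    funext j
    obtain ⟨j, rfl⟩ := e.surjective j
    rcases j with j | i
    · exact ax2 _ _
    · exact ax1 _ _
  have hav0 : av u₀ = fun j => z (Sum.inr j) := by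
    funext j
    obtain ⟨j, rfl⟩ := e.surjective j
    rcases j with j | i
    · exact av2 _ _
    · exact av1 _ _
  have hXd : ContDiff ℂ 1 ax := by
    rw [contDiff_pi]
    intro j
    obtain ⟨j, rfl⟩ := e.surjective j
    rcases j with j | i
    · simp only [ax2]
      exact contDiff_const
    · simp only [ax1]
      exact contDiff_apply ℂ ℂ _
  have hVd : ContDiff ℂ 1 av := by
    rw [contDiff_pi]
    intro j
    obtain ⟨j, rfl⟩ := e.surjective j
    rcases j with j | i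
    · simp only [av2]
      exact contDiff_const
    · simp only [av1]
      exact contDiff_apply ℂ ℂ _
  set G : (Ix N d → ℂ) × (κ ⊕ κ → ℂ) → (κ ⊕ κ → ℂ) := fun p =>
    Sum.elim (fun i => eval (ax p.2) (fa p.1 i)) (fun i => dv (fa p.1 i) (ax p.2) (av p.2)) with hG
  have hGd : ContDiff ℂ 1 G := by
    rw [contDiff_pi]
    intro i
    have hc : ∀ (i : κ) (m : Mon N (d i)), ContDiff ℂ 1
        fun p : (Ix N d → ℂ) × (κ ⊕ κ → ℂ) => p.1 ⟨i, m⟩ := fun i m =>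
      (contDiff_apply ℂ ℂ (⟨i, m⟩ : Ix N d)).comp contDiff_fst
    rcases i with i | i
    · exact (cd_frm (fun (p : (Ix N d → ℂ) × (κ ⊕ κ → ℂ)) m => p.1 ⟨i, m⟩) (hc i)
        (fun p => ax p.2) (fun p => av p.2) (hXd.comp contDiff_snd) (hVd.comp contDiff_snd)).1
    · exact (cd_frm (fun (p : (Ix N d → ℂ) × (κ ⊕ κ → ℂ)) m => p.1 ⟨i, m⟩) (hc i)
        (fun p => ax p.2) (fun p => av p.2) (hXd.comp contDiff_snd) (hVd.comp contDiff_snd)).2
  set a₀ : Ix N d → ℂ := sc ℂ e s d with ha₀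
  have hg1 : ∀ u i, G (a₀, u) (Sum.inl i) = u (Sum.inl i) ^ d i -
      eval (fun j => z (Sum.inl (e (Sum.inl j)))) (vb ℂ n s d i) := by
    intro u i
    show eval (ax u) (fa a₀ i) = _
    rw [ha₀, fa_sc, val_spf, ax1]
    simp only [ax2]
  have hg2 : ∀ u i, G (a₀, u) (Sum.inr i) =
      (d i : ℂ) * u (Sum.inl i) ^ (d i - 1) * u (Sum.inr i) -
      dv (vb ℂ n s d i) (fun j => z (Sum.inl (e (Sum.inl j))))
        (fun j => z (Sum.inr (e (Sum.inl j)))) := by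
    intro u i
    show dv (fa a₀ i) (ax u) (av u) = _
    rw [ha₀, fa_sc, dval_spf, ax1, av1]
    simp only [ax2, av2]
  have hG0 : G (a₀, u₀) = 0 := by
    funext i
    rcases i with i | i
    · show eval (ax u₀) (fa a₀ i) = 0
      rw [hax0, ha₀, fa_sc]
      exact (hz i).1
    · show dv (fa a₀ i) (ax u₀) (av u₀) = 0
      rw [hax0, hav0, ha₀, fa_sc]
      exact (hz i).2
  have hG1 : ∀ p i, G p (Sum.inl i) = eval (ax p.2) (fa p.1 i) := fun _ _ => rfl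
  have hG2 : ∀ p i, G p (Sum.inr i) = dv (fa p.1 i) (ax p.2) (av p.2) := fun _ _ => rfl
  have hY : ∀ i, u₀ (Sum.inl i) ≠ 0 := fun i => hy i
  clear_value G ax av u₀ a₀
  -- the derivative
  have hGs : HasStrictFDerivAt G (fderiv ℂ G (a₀, u₀)) (a₀, u₀) :=
    hGd.contDiffAt.hasStrictFDerivAt one_ne_zero
  set G' := fderiv ℂ G (a₀, u₀) with hG'
  have hcomp : HasFDerivAt (fun u => G (a₀, u))
      (G'.comp (ContinuousLinearMap.inr ℂ (Ix N d → ℂ) (κ ⊕ κ → ℂ))) u₀ :=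
    hGs.hasFDerivAt.comp u₀ (hasFDerivAt_prodMk_right a₀ u₀)
  have hcomp' := hasFDerivAt_pi'.mp hcomp
  have hK : ∀ i, (d i : ℂ) * u₀ (Sum.inl i) ^ (d i - 1) ≠ 0 := by
    intro i
    refine mul_ne_zero ?_ (pow_ne_zero _ (hY i))
    have := hd i
    exact_mod_cast (by omega : d i ≠ 0)
  have hp : ∀ q : κ ⊕ κ, HasFDerivAt (fun u : κ ⊕ κ → ℂ => u q)
      (ContinuousLinearMap.proj (R := ℂ) (φ := fun _ : κ ⊕ κ => ℂ) q) u₀ := fun q =>
    (ContinuousLinearMap.proj (R := ℂ) (φ := fun _ : κ ⊕ κ => ℂ) q).hasFDerivAt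
  have hL1 : ∀ (w : κ ⊕ κ → ℂ) i, G' (0, w) (Sum.inl i) =
      (d i : ℂ) * u₀ (Sum.inl i) ^ (d i - 1) * w (Sum.inl i) := by
    intro w i
    have h1 := hcomp' (Sum.inl i)
    have e1 : (fun u => G (a₀, u) (Sum.inl i)) = fun u : κ ⊕ κ → ℂ => u (Sum.inl i) ^ d i -
      eval (fun j => z (Sum.inl (e (Sum.inl j)))) (vb ℂ n s d i) := funext fun u => hg1 u i
    rw [e1] at h1
    have h2 := ((hp (Sum.inl i)).pow (d i)).sub_const
      (eval (fun j => z (Sum.inl (e (Sum.inl j)))) (vb ℂ n s d i))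
    have h3 := congrArg (fun L : (κ ⊕ κ → ℂ) →L[ℂ] ℂ => L w) (h1.unique h2)
    have h4 : G' (0, w) (Sum.inl i) = (d i • u₀ (Sum.inl i) ^ (d i - 1)) • w (Sum.inl i) := h3
    rw [h4, nsmul_eq_mul, smul_eq_mul]
  have hL2 : ∀ i, ∃ M : ℂ, ∀ (w : κ ⊕ κ → ℂ), G' (0, w) (Sum.inr i) =
      (d i : ℂ) * u₀ (Sum.inl i) ^ (d i - 1) * w (Sum.inr i) + M * w (Sum.inl i) := by
    intro i
    refine ⟨u₀ (Sum.inr i) * ((d i : ℂ) * (((d i - 1 : ℕ) : ℂ) * u₀ (Sum.inl i) ^ (d i - 1 - 1))),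
      fun w => ?_⟩
    have h1 := hcomp' (Sum.inr i)
    have e1 : (fun u => G (a₀, u) (Sum.inr i)) = fun u : κ ⊕ κ → ℂ =>
      (d i : ℂ) * u (Sum.inl i) ^ (d i - 1) * u (Sum.inr i) -
      dv (vb ℂ n s d i) (fun j => z (Sum.inl (e (Sum.inl j))))
        (fun j => z (Sum.inr (e (Sum.inl j)))) := funext fun u => hg2 u i
    rw [e1] at h1
    have h2 := ((((hp (Sum.inl i)).pow (d i - 1)).const_mul (d i : ℂ)).mul (hp (Sum.inr i))).sub_const
      (dv (vb ℂ n s d i) (fun j => z (Sum.inl (e (Sum.inl j))))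
        (fun j => z (Sum.inr (e (Sum.inl j)))))
    have h3 := congrArg (fun L : (κ ⊕ κ → ℂ) →L[ℂ] ℂ => L w) (h1.unique h2)
    have h4 : G' (0, w) (Sum.inr i) =
        ((d i : ℂ) * u₀ (Sum.inl i) ^ (d i - 1)) • w (Sum.inr i) +
        u₀ (Sum.inr i) • ((d i : ℂ) • (((d i - 1) • u₀ (Sum.inl i) ^ (d i - 1 - 1)) •
          w (Sum.inl i))) := h3
    rw [h4, nsmul_eq_mul, smul_eq_mul, smul_eq_mul, smul_eq_mul, smul_eq_mul]
    ring
  choose M hM using hL2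
  have hsurj : ∀ b : κ ⊕ κ → ℂ, ∃ w, G' (0, w) = b := by
    intro b
    refine ⟨Sum.elim (fun i => b (Sum.inl i) / ((d i : ℂ) * u₀ (Sum.inl i) ^ (d i - 1)))
      (fun i => (b (Sum.inr i) - M i * (b (Sum.inl i) /
        ((d i : ℂ) * u₀ (Sum.inl i) ^ (d i - 1)))) /
          ((d i : ℂ) * u₀ (Sum.inl i) ^ (d i - 1))), ?_⟩
    funext i
    rcases i with i | i
    · rw [hL1, Sum.elim_inl, mul_div_cancel₀ _ (hK i)]
    · rw [hM, Sum.elim_inl, Sum.elim_inr, mul_div_cancel₀ _ (hK i)]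
      ring
  -- the map (a, u) ↦ (a, G (a, u))
  have hΦ : HasStrictFDerivAt (fun p : (Ix N d → ℂ) × (κ ⊕ κ → ℂ) => (p.1, G p))
      ((ContinuousLinearMap.fst ℂ (Ix N d → ℂ) (κ ⊕ κ → ℂ)).prod G') (a₀, u₀) :=
    hasStrictFDerivAt_fst.prodMk hGs
  have hrange : ((ContinuousLinearMap.fst ℂ (Ix N d → ℂ) (κ ⊕ κ → ℂ)).prod G').range = ⊤ := by
    rw [eq_top_iff]
    rintro ⟨α, β⟩ -
    obtain ⟨w, hw⟩ := hsurj (β - G' (α, 0))
    refine ⟨(α, w), ?_⟩
    have h1 : G' (α, w) = β := by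
      have h2 : ((α, w) : (Ix N d → ℂ) × (κ ⊕ κ → ℂ)) = (α, 0) + (0, w) := by
        rw [Prod.mk_add_mk, add_zero, zero_add]
      rw [h2, map_add, hw]
      abel
    show ((ContinuousLinearMap.fst ℂ (Ix N d → ℂ) (κ ⊕ κ → ℂ)).prod G') (α, w) = (α, β)
    rw [ContinuousLinearMap.prod_apply, h1]
    rfl
  have hmap := hΦ.map_nhds_eq_of_surj hrange
  -- the neighbourhood
  set asm : (κ ⊕ κ → ℂ) → (XV N → ℂ) := fun u => Sum.elim (ax u) (av u) with hasm
  have hasmc : Continuous asm := by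
    refine continuous_pi fun j => ?_
    rcases j with j | j
    · exact (continuous_apply j).comp hXd.continuous
    · exact (continuous_apply j).comp hVd.continuous
  have hasm0 : asm u₀ = z := by
    funext j
    rcases j with j | j
    · exact congrFun hax0 j
    · exact congrFun hav0 j
  have hW : {p : (Ix N d → ℂ) × (κ ⊕ κ → ℂ) | asm p.2 ∈ U} ∈ 𝓝 (a₀, u₀) := by
    have h1 : ContinuousAt (fun p : (Ix N d → ℂ) × (κ ⊕ κ → ℂ) => asm p.2) (a₀, u₀) :=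
      (hasmc.comp continuous_snd).continuousAt
    apply h1
    show U ∈ 𝓝 (asm u₀)
    rw [hasm0]
    exact hU
  have himg := image_mem_map (m := fun p : (Ix N d → ℂ) × (κ ⊕ κ → ℂ) => (p.1, G p)) hW
  rw [hmap] at himg
  have hc : ContinuousAt (fun a : Ix N d → ℂ => (a, (0 : κ ⊕ κ → ℂ))) a₀ := by fun_prop
  refine ⟨_, hc (show _ ∈ 𝓝 (a₀, (0 : κ ⊕ κ → ℂ)) by rw [← hG0]; exact himg), ?_⟩
  intro a ha
  obtain ⟨⟨a', u⟩, hu, hau⟩ := ha
  simp only [Prod.mk.injEq] at hau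
  obtain ⟨rfl, hGu⟩ := hau
  refine ⟨asm u, hu, fun i => ⟨?_, ?_⟩⟩
  · exact (hG1 (a', u) i).symm.trans (congrFun hGu (Sum.inl i))
  · exact (hG2 (a', u) i).symm.trans (congrFun hGu (Sum.inr i))

end Pool.Agent.CI
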