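import Pool.Agent.Lib_MP_b9fedf_ci.PtDefs

/-! [CI-C8]: the base points. -/

set_option autoImplicit false

namespace Pool.Agent.CI
open MvPolynomial Pool.Agent.GGL Pool.Agent.GH

private theorem eval_vd {n : ℕ} (x : Fin (n + 1) → ℂ) (s : ℕ) :
    eval x (vd ℂ n s) = ∑ j : Fin (n + 1), (s : ℂ) ^ (j : ℕ) * x j := by
  unfold vd
  rw [map_sum]
  refine Finset.sum_congr rfl fun i _ => ?_
  rw [map_mul, eval_C, eval_X]

private theorem eval_vd_smul {n : ℕ} (c : ℂ) (x : Fin (n + 1) → ℂ) (s : ℕ) :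
    eval (c • x) (vd ℂ n s) = c * eval x (vd ℂ n s) := by
  rw [eval_vd, eval_vd, Finset.mul_sum]
  refine Finset.sum_congr rfl fun i _ => ?_
  rw [Pi.smul_apply, smul_eq_mul]
  ring

private theorem exists_pA {n : ℕ} (A : Finset ℕ) :
    ∃ p : Fin (n + 1) → ℂ, A.card = n → p ≠ 0 ∧ ∀ s ∈ A, eval p (vd ℂ n s) = 0 := by
  by_cases hA : A.card = n
  · let f : (Fin (n + 1) → ℂ) →ₗ[ℂ] (A → ℂ) :=
      { toFun := fun x s => eval x (vd ℂ n (s : ℕ))
        map_add' := by
          intro x y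
          funext s
          rw [Pi.add_apply, eval_vd, eval_vd, eval_vd, ← Finset.sum_add_distrib]
          refine Finset.sum_congr rfl fun i _ => ?_
          rw [Pi.add_apply]
          ring
        map_smul' := by
          intro c x
          funext s
          rw [Pi.smul_apply, eval_vd_smul]
          rfl }
    have hf : LinearMap.ker f ≠ ⊥ := by
      apply LinearMap.ker_ne_bot_of_finrank_lt
      rw [Module.finrank_fintype_fun_eq_card, Module.finrank_fintype_fun_eq_card,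
        Fintype.card_coe, Fintype.card_fin, hA]
      omega
    obtain ⟨p, hp, hp0⟩ := (Submodule.ne_bot_iff _).mp hf
    refine ⟨p, fun _ => ⟨hp0, fun s hs => ?_⟩⟩
    have h1 : f p = 0 := hp
    exact congrFun h1 ⟨s, hs⟩
  · exact ⟨0, fun h => absurd h hA⟩

private theorem pA_ne {n : ℕ} (A : Finset ℕ) (hA : A.card = n) (p : Fin (n + 1) → ℂ)
    (hp : p ≠ 0) (h : ∀ s ∈ A, eval p (vd ℂ n s) = 0) (s : ℕ) (hs : s ∉ A) :
    eval p (vd ℂ n s) ≠ 0 := by
  intro h0
  apply hp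
  apply vd_zero (insert s A)
  · rw [Finset.card_insert_of_notMem hs, hA]
  · intro t ht
    rcases Finset.mem_insert.mp ht with rfl | ht
    · exact h0
    · exact h t ht

private def AJ {κ : Type} (s : κ → ℕ → ℕ) (J : Finset κ) (θ : κ → ℕ) : Finset ℕ :=
  J.image (fun i => s i (θ i))

private theorem card_AJ {κ : Type} (s : κ → ℕ → ℕ) (hs : Codes s) (J : Finset κ) (θ : κ → ℕ) :
    (AJ s J θ).card = J.card := by
  unfold AJ
  apply Finset.card_image_of_injective
  intro i i' h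
  exact (hs i (θ i) i' (θ i') h).1

private theorem mem_AJ {κ : Type} (s : κ → ℕ → ℕ) (hs : Codes s) (J : Finset κ) (θ : κ → ℕ)
    (i : κ) (t : ℕ) : s i t ∈ AJ s J θ ↔ i ∈ J ∧ t = θ i := by
  unfold AJ
  rw [Finset.mem_image]
  constructor
  · rintro ⟨i', hi', h⟩
    obtain ⟨rfl, h2⟩ := hs _ _ _ _ h
    exact ⟨hi', h2.symm⟩
  · rintro ⟨hi, rfl⟩
    exact ⟨i, hi, rfl⟩

/-- [CI-C8] Proof.  For a set `A` of `n` codes choose `p_A ≠ 0` with `vd s (p_A) = 0` for `s ∈ A` (`n` equations, `n + 1` unknowns); `vd s (p_A) ≠ 0` for `s ∉ A` by `vd_zero`.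
For `(J, θ)`: `A = {s i (θ i) | i ∈ J}` (`n` elements, `Codes`); the point has `x = p_A`, `y_i = 0` for `i ∈ J` and `y_i = ζ ^ θ i * η` for `i ∉ J`, `η` a fixed root (dependent on `A`) of
`η ^ d i = b_i(p_A) ≠ 0` and `ζ` a primitive `d i`-th root of unity.  If two base points are proportional: the same zeros `y_i`, so `J = J'`; `p_A` and `p_A'` are proportional, so `A = A'` by `vd_zero`, the factor is `1`,
and the `y_i` are equal. -/
theorem exists_pts {κ : Type} [Fintype κ] [DecidableEq κ] {n N : ℕ}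
    (e : Fin (n + 1) ⊕ κ ≃ Fin (N + 1)) (s : κ → ℕ → ℕ) (hs : Codes s) (d : κ → ℕ)
    (hd : ∀ i, 2 ≤ d i) :
    ∃ pt : Finset κ → (κ → ℕ) → Fin (N + 1) → ℂ,
      (∀ J θ, J.card = n → (∀ i, θ i < d i) → IsPt e s d J θ (pt J θ)) ∧
      ∀ J θ J' θ', J.card = n → J'.card = n → (∀ i, θ i < d i) → (∀ i, θ' i < d i) →
        (J, θ) ≠ (J', θ') → LinearIndependent ℂ ![pt J θ, pt J' θ'] := by
  choose pA hpA using fun A : Finset ℕ => exists_pA (n := n) A
  have hη : ∀ (A : Finset ℕ) (i : κ), ∃ η : ℂ, η ^ d i = eval (pA A) (vb ℂ n s d i) := by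
    intro A i
    exact IsAlgClosed.exists_pow_nat_eq _ (by have := hd i; omega)
  choose η hη using hη
  have hζ : ∀ i, IsPrimitiveRoot (Complex.exp (2 * Real.pi * Complex.I / d i)) (d i) := by
    intro i
    exact Complex.isPrimitiveRoot_exp _ (by have := hd i; omega)
  set ζ : κ → ℂ := fun i => Complex.exp (2 * Real.pi * Complex.I / d i) with hζdef
  have hζ0 : ∀ i, ζ i ≠ 0 := fun i => Complex.exp_ne_zero _
  let pt : Finset κ → (κ → ℕ) → Fin (N + 1) → ℂ := fun J θ k =>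
    Sum.elim (fun j => pA (AJ s J θ) j)
      (fun i => if i ∈ J then 0 else ζ i ^ θ i * η (AJ s J θ) i) (e.symm k)
  have hx : ∀ J θ, xp e (pt J θ) = pA (AJ s J θ) := by
    intro J θ
    funext j
    simp only [xp, pt, Equiv.symm_apply_apply, Sum.elim_inl]
  have hxl : ∀ J θ j, pt J θ (e (Sum.inl j)) = pA (AJ s J θ) j := by
    intro J θ j
    simp only [pt, Equiv.symm_apply_apply, Sum.elim_inl]
  have hy : ∀ J θ i, pt J θ (e (Sum.inr i)) =
      if i ∈ J then 0 else ζ i ^ θ i * η (AJ s J θ) i := by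
    intro J θ i
    simp only [pt, Equiv.symm_apply_apply, Sum.elim_inr]
  have hη0 : ∀ J θ, J.card = n → ∀ i, i ∉ J → η (AJ s J θ) i ≠ 0 := by
    intro J θ hJ i hi h0
    have h1 := hη (AJ s J θ) i
    rw [h0, zero_pow (by have := hd i; omega)] at h1
    unfold vb at h1
    rw [map_prod] at h1
    obtain ⟨t, -, ht⟩ := Finset.prod_eq_zero_iff.mp h1.symm
    have hc : (AJ s J θ).card = n := by rw [card_AJ s hs, hJ]
    obtain ⟨h2, h3⟩ := hpA _ hc
    refine pA_ne _ hc _ h2 h3 (s i t) ?_ ht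
    rw [mem_AJ s hs]
    exact fun h => hi h.1
  have hpt : ∀ J θ, J.card = n → (∀ i, θ i < d i) → IsPt e s d J θ (pt J θ) := by
    intro J θ hJ _
    have hc : (AJ s J θ).card = n := by rw [card_AJ s hs, hJ]
    obtain ⟨h2, h3⟩ := hpA _ hc
    refine ⟨?_, ?_, ?_, ?_, ?_⟩
    · rw [hx]
      exact h2
    · intro i hi
      rw [hx]
      exact h3 _ ((mem_AJ s hs J θ i (θ i)).mpr ⟨hi, rfl⟩)
    · intro i hi t ht
      rw [hx]
      refine pA_ne _ hc _ h2 h3 _ ?_
      rw [mem_AJ s hs]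
      exact fun h => ht h.2
    · intro i hi
      rw [hy, if_pos hi]
    · intro i hi
      rw [hy, if_neg hi, hx]
      refine ⟨?_, mul_ne_zero (pow_ne_zero _ (hζ0 i)) (hη0 J θ hJ i hi)⟩
      rw [mul_pow, hη, ← pow_mul, mul_comm (θ i), pow_mul, (hζ i).pow_eq_one, one_pow, one_mul]
  refine ⟨pt, hpt, ?_⟩
  intro J θ J' θ' hJ hJ' hθ hθ' hne
  have h1 := hpt J θ hJ hθ
  have h2 := hpt J' θ' hJ' hθ'
  have hz1 : pt J θ ≠ 0 := by
    intro h
    apply h1.ne
    funext j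
    rw [xp, h]
    rfl
  rw [LinearIndependent.pair_iff' hz1]
  intro c hcc
  apply hne
  have hk : ∀ k, pt J' θ' k = c * pt J θ k := by
    intro k
    rw [← hcc, Pi.smul_apply, smul_eq_mul]
  have hJJ : J = J' := by
    apply Finset.eq_of_subset_of_card_le
    · intro i hi
      by_contra hi'
      apply (h2.y1 i hi').2
      rw [hk, h1.y0 i hi, mul_zero]
    · rw [hJ, hJ']
  subst hJJ
  have hc1 : (AJ s J θ).card = n := by rw [card_AJ s hs, hJ]
  have hc2 : (AJ s J θ').card = n := by rw [card_AJ s hs, hJ]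
  obtain ⟨h3, h4⟩ := hpA _ hc1
  obtain ⟨h5, h6⟩ := hpA _ hc2
  have hp : pA (AJ s J θ') = c • pA (AJ s J θ) := by
    funext j
    rw [Pi.smul_apply, smul_eq_mul, ← hxl, ← hxl, hk]
  have hAA : AJ s J θ = AJ s J θ' := by
    apply Finset.eq_of_subset_of_card_le
    · intro t ht
      by_contra ht'
      apply pA_ne _ hc2 _ h5 h6 t ht'
      rw [hp, eval_vd_smul, h4 t ht, mul_zero]
    · rw [hc1, hc2]
  have hc : c = 1 := by
    rw [← hAA] at hp
    obtain ⟨j, hj⟩ := Function.ne_iff.mp h3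
    have h7 := congrFun hp j
    rw [Pi.smul_apply, smul_eq_mul] at h7
    exact (mul_eq_right₀ hj).mp h7.symm
  refine Prod.ext rfl ?_
  funext i
  by_cases hi : i ∈ J
  · have h7 : s i (θ i) ∈ AJ s J θ' := by
      rw [← hAA, mem_AJ s hs]
      exact ⟨hi, rfl⟩
    exact ((mem_AJ s hs J θ' i (θ i)).mp h7).2
  · have h7 := hk (e (Sum.inr i))
    rw [hc, one_mul, hy, hy, if_neg hi, if_neg hi, ← hAA] at h7
    have h8 := mul_right_cancel₀ (hη0 J θ hJ i hi) h7
    exact ((hζ i).pow_inj (hθ' i) (hθ i) h8).symm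

end Pool.Agent.CI
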