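import Pool.Agent.Lib_MP_b9fedf_ci.PtDefs

/-! [CI-C9]: separating forms. -/

set_option autoImplicit false

namespace Pool.Agent.CI
open MvPolynomial Pool.Agent.GGL Pool.Agent.GH

/-- a linear form with value `1` at `u` and `0` at `v` -/
private theorem exists_lin {N : ℕ} (u v : Fin (N + 1) → ℂ) (h : LinearIndependent ℂ ![u, v]) :
    ∃ L : MvPolynomial (Fin (N + 1)) ℂ, L.IsHomogeneous 1 ∧ eval u L = 1 ∧ eval v L = 0 := by
  classical
  have hv : v ≠ 0 := h.ne_zero 1
  obtain ⟨j, hj⟩ := Function.ne_iff.mp hv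
  have hj' : v j ≠ 0 := hj
  have hi : ∃ i, u i * v j - u j * v i ≠ 0 := by
    by_contra hcon
    push Not at hcon
    have := (LinearIndependent.pair_iff.mp h) (v j) (-(u j)) (by
      funext i
      have := hcon i
      simp only [Pi.add_apply, Pi.smul_apply, smul_eq_mul, Pi.zero_apply]
      linear_combination this)
    exact hj' this.1
  obtain ⟨i, hi⟩ := hi
  refine ⟨C (v j / (u i * v j - u j * v i)) * X i - C (v i / (u i * v j - u j * v i)) * X j,
    ?_, ?_, ?_⟩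
  · exact ((isHomogeneous_C_mul_X _ i).sub (isHomogeneous_C_mul_X _ j))
  · simp only [map_sub, map_mul, eval_C, eval_X]
    rw [div_mul_eq_mul_div, div_mul_eq_mul_div, ← sub_div, div_eq_one_iff_eq hi]
    ring
  · simp only [map_sub, map_mul, eval_C, eval_X]
    rw [div_mul_eq_mul_div, div_mul_eq_mul_div, ← sub_div]
    rw [show v j * v i - v i * v j = 0 by ring, zero_div]

/-- a linear form with value `1` at `u` -/
private theorem exists_lin1 {N : ℕ} (u : Fin (N + 1) → ℂ) (h : u ≠ 0) :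
    ∃ L : MvPolynomial (Fin (N + 1)) ℂ, L.IsHomogeneous 1 ∧ eval u L = 1 := by
  obtain ⟨j, hj⟩ := Function.ne_iff.mp h
  have hj' : u j ≠ 0 := hj
  refine ⟨C (1 / u j) * X j, isHomogeneous_C_mul_X _ j, ?_⟩
  simp only [map_mul, eval_C, eval_X]
  field_simp

/-- [CI-C9a] Proof.  For `w ≠ w'` there is a linear form vanishing at `z w'` with value `1` at `z w`; multiply these over `w' ≠ w` and by a power of a linear form with
value `1` at `z w`. -/
theorem exists_sep {N : ℕ} {ω : Type} [Fintype ω] [DecidableEq ω] (z : ω → Fin (N + 1) → ℂ)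
    (hz0 : ∀ w, z w ≠ 0) (hz : ∀ w w', w ≠ w' → LinearIndependent ℂ ![z w, z w'])
    (t : ℕ) (ht : Fintype.card ω ≤ t) :
    ∃ P : ω → MvPolynomial (Fin (N + 1)) ℂ, (∀ w, (P w).IsHomogeneous t) ∧
      (∀ w, eval (z w) (P w) = 1) ∧ ∀ w w', w ≠ w' → eval (z w') (P w) = 0 := by
  classical
  have h1 : ∀ w w' : ω, ∃ L : MvPolynomial (Fin (N + 1)) ℂ, w ≠ w' →
      (L.IsHomogeneous 1 ∧ eval (z w) L = 1 ∧ eval (z w') L = 0) := by
    intro w w'
    by_cases hw : w = w'
    · exact ⟨0, fun hne => absurd hw hne⟩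
    · obtain ⟨L, hL⟩ := exists_lin _ _ (hz w w' hw)
      exact ⟨L, fun _ => hL⟩
  choose L hL using h1
  choose M hM using fun w => exists_lin1 (z w) (hz0 w)
  have hcard : ∀ w : ω, ((Finset.univ : Finset ω).erase w).card = Fintype.card ω - 1 := by
    intro w
    rw [Finset.card_erase_of_mem (Finset.mem_univ w), Finset.card_univ]
  have hpos : ∀ _ : ω, 1 ≤ Fintype.card ω := fun w => Fintype.card_pos_iff.mpr ⟨w⟩
  refine ⟨fun w => (∏ w' ∈ (Finset.univ : Finset ω).erase w, L w w') *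
    M w ^ (t - (Fintype.card ω - 1)), ?_, ?_, ?_⟩
  · intro w
    have e1 : (∏ w' ∈ (Finset.univ : Finset ω).erase w, L w w').IsHomogeneous
        (∑ _w' ∈ (Finset.univ : Finset ω).erase w, 1) := by
      refine IsHomogeneous.prod _ _ _ ?_
      intro w' hw'
      exact (hL w w' (Finset.ne_of_mem_erase hw').symm).1
    have e2 : (M w ^ (t - (Fintype.card ω - 1))).IsHomogeneous
        (1 * (t - (Fintype.card ω - 1))) := (hM w).1.pow _
    have e3 := e1.mul e2
    have e4 : (∑ _w' ∈ (Finset.univ : Finset ω).erase w, 1) +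
        1 * (t - (Fintype.card ω - 1)) = t := by
      rw [Finset.sum_const, hcard w]
      have := hpos w
      simp only [smul_eq_mul]
      omega
    rw [e4] at e3
    exact e3
  · intro w
    simp only [map_mul, map_prod, map_pow]
    rw [(hM w).2, one_pow, mul_one]
    refine Finset.prod_eq_one ?_
    intro w' hw'
    exact (hL w w' (Finset.ne_of_mem_erase hw').symm).2.1
  · intro w w' hne
    simp only [map_mul, map_prod, map_pow]
    rw [Finset.prod_eq_zero (Finset.mem_erase.mpr ⟨hne.symm, Finset.mem_univ w'⟩)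
      (hL w w' hne).2.2, zero_mul]

/-- [CI-C9b] (`exists_sep` for the finite type of the pairs `(J, θ)` with `J.card = n`, `θ i < d i`) -/
theorem exists_isSep {κ : Type} [Fintype κ] [DecidableEq κ] {N : ℕ} (n : ℕ) (d : κ → ℕ)
    (pt : Finset κ → (κ → ℕ) → Fin (N + 1) → ℂ)
    (h0 : ∀ J θ, J.card = n → (∀ i, θ i < d i) → pt J θ ≠ 0)
    (h : ∀ J θ J' θ', J.card = n → J'.card = n → (∀ i, θ i < d i) → (∀ i, θ' i < d i) →
        (J, θ) ≠ (J', θ') → LinearIndependent ℂ ![pt J θ, pt J' θ']) :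
    ∃ (α₁ : ℕ) (P : Finset κ → (κ → ℕ) → ℕ → MvPolynomial (Fin (N + 1)) ℂ),
      IsSep n d pt α₁ P := by
  classical
  let ω : Type := {p : Finset κ × ((i : κ) → Fin (d i)) // p.1.card = n}
  let z : ω → Fin (N + 1) → ℂ := fun w => pt w.1.1 (fun i => (w.1.2 i : ℕ))
  have hz0 : ∀ w, z w ≠ 0 := fun w => h0 _ _ w.2 (fun i => (w.1.2 i).2)
  have hz : ∀ w w', w ≠ w' → LinearIndependent ℂ ![z w, z w'] := by
    intro w w' hne
    refine h _ _ _ _ w.2 w'.2 (fun i => (w.1.2 i).2) (fun i => (w'.1.2 i).2) ?_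
    intro heq
    apply hne
    have e1 := (Prod.mk.injEq _ _ _ _).mp heq
    apply Subtype.ext
    refine Prod.ext e1.1 ?_
    funext i
    exact Fin.ext (congrFun e1.2 i)
  have key : ∀ t : ℕ, ∃ P : ω → MvPolynomial (Fin (N + 1)) ℂ, Fintype.card ω ≤ t →
      ((∀ w, (P w).IsHomogeneous t) ∧
      (∀ w, eval (z w) (P w) = 1) ∧ ∀ w w', w ≠ w' → eval (z w') (P w) = 0) := by
    intro t
    by_cases ht : Fintype.card ω ≤ t
    · obtain ⟨P, hP⟩ := exists_sep z hz0 hz t ht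
      exact ⟨P, fun _ => hP⟩
    · exact ⟨0, fun ht' => absurd ht' ht⟩
  choose P hP using key
  refine ⟨Fintype.card ω, fun J θ t => if hh : J.card = n ∧ ∀ i, θ i < d i then
    P t ⟨(J, fun i => ⟨θ i, hh.2 i⟩), hh.1⟩ else 0, ?_⟩
  intro J θ t hJ hθ ht
  have hh : J.card = n ∧ ∀ i, θ i < d i := ⟨hJ, hθ⟩
  obtain ⟨p1, p2, p3⟩ := hP t ht
  simp only [dif_pos hh]
  refine ⟨p1 _, p2 ⟨(J, fun i => ⟨θ i, hh.2 i⟩), hh.1⟩, ?_⟩
  intro J' θ' hJ' hθ' hne
  refine p3 ⟨(J, fun i => ⟨θ i, hh.2 i⟩), hh.1⟩ ⟨(J', fun i => ⟨θ' i, hθ' i⟩), hJ'⟩ ?_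
  intro heq
  apply hne
  have e1 := congrArg Subtype.val heq
  have e2 := (Prod.mk.injEq _ _ _ _).mp e1
  refine Prod.ext e2.1 ?_
  funext i
  exact congrArg Fin.val (congrFun e2.2 i)

end Pool.Agent.CI
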