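import Pool.Agent.Lib_MP_b9fedf_ci.FoIndep
import Pool.Agent.Lib_MP_b9fedf_ci.Pts
import Pool.Agent.Lib_MP_b9fedf_ci.Sep
import Pool.Agent.Lib_MP_b9fedf_ci.DetPts
import Pool.Agent.Lib_MP_b9fedf_ci.Persist
import Pool.Agent.Lib_MP_b9fedf_ci.AlgNear

/-! [CI-C17]: the lower bound at a generic member. -/

set_option autoImplicit false

namespace Pool.Agent.CI
open MvPolynomial Filter Topology Pool.Agent.GGL Pool.Agent.GH

/-- [CI-C17] Proof.  `exists_pts`, `exists_isSep` (`α₁`), `fo_indep` for `α ≥ α₁ + ∑ d i`, the index type has `kap0` elements (`card_OM`), `det_pts`: points `z₀ r` of `Zst` with nonzero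
determinant; the determinant is a continuous function of the points, so it is nonzero for points in neighbourhoods `U r`; `persist` for each `r`, `alg_near` (`sc ℂ` is the image of `sc ℚ`,
`sc_map`) for the intersection of the neighbourhoods of the coefficients.  `fo_bihom`. -/
theorem low_gen {κ : Type} [Fintype κ] [DecidableEq κ] {n N : ℕ}
    (e : Fin (n + 1) ⊕ κ ≃ Fin (N + 1)) (s : κ → ℕ → ℕ) (hs : Codes s) (d : κ → ℕ)
    (hd : ∀ i, 2 ≤ d i) :
    ∃ α₁ : ℕ, ∀ α β, α₁ ≤ α → ∃ (f : Fin (kap0 n d β) → MvPolynomial (XV N) ℂ) (a : Ix N d → ℂ)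
      (z : Fin (kap0 n d β) → XV N → ℂ), (∀ r, BiHom α β (f r)) ∧ AlgebraicIndependent ℚ a ∧
      (∀ r, Inc (fa a) (fun j => z r (Sum.inl j)) (fun j => z r (Sum.inr j))) ∧
      (Matrix.of fun r t => eval (z t) (f r)).det ≠ 0 := by
  classical
  obtain ⟨pt, hpt, hptli⟩ := exists_pts e s hs d hd
  have h0 : ∀ J θ, J.card = n → (∀ i, θ i < d i) → pt J θ ≠ 0 := by
    intro J θ hJ hθ h
    apply (hpt J θ hJ hθ).ne
    funext j
    unfold xp
    rw [h]
    rfl
  obtain ⟨α₁, P, hP⟩ := exists_isSep n d pt h0 hptli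
  refine ⟨α₁ + ∑ i, d i, fun α β hα => ?_⟩
  have hli := fo_indep e s hs d hd α₁ α β pt hpt P hP hα
  have hc : Fintype.card {ω // ω ∈ OM n d β} = kap0 n d β := by
    rw [Fintype.card_coe, card_OM n d hd β]
  let E : Fin (kap0 n d β) ≃ {ω // ω ∈ OM n d β} := (Fintype.equivFinOfCardEq hc).symm
  let f : Fin (kap0 n d β) → MvPolynomial (XV N) ℂ := fun r => fo e α P (E r).1
  have hli2 : LinearIndependent ℂ (fun (r : Fin (kap0 n d β)) (z : Zst e s d) =>
      eval z.1 (f r)) := hli.comp E E.injective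
  obtain ⟨z0, hz0⟩ := det_pts _ hli2
  have hcont : Continuous (fun z : Fin (kap0 n d β) → XV N → ℂ =>
      (Matrix.of fun r t => eval (z t) (f r)).det) := by
    refine Continuous.matrix_det ?_
    refine continuous_matrix fun r t => ?_
    exact (MvPolynomial.continuous_eval (f r)).comp (continuous_apply t)
  have hopen : {z : Fin (kap0 n d β) → XV N → ℂ |
      (Matrix.of fun r t => eval (z t) (f r)).det ≠ 0} ∈ 𝓝 (fun t => (z0 t).1) :=
    hcont.continuousAt.eventually_ne hz0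
  rw [nhds_pi, Filter.mem_pi'] at hopen
  obtain ⟨I, U, hU, hIU⟩ := hopen
  have hV : ∀ r, ∃ V ∈ 𝓝 (sc ℂ e s d : Ix N d → ℂ), ∀ a ∈ V, ∃ z' ∈ U r,
      Inc (fa a) (fun j => z' (Sum.inl j)) (fun j => z' (Sum.inr j)) := fun r =>
    persist e s d hd (z0 r).1 (z0 r).2.1 (z0 r).2.2 (U r) (hU r)
  choose V hV1 hV2 using hV
  have hsc : (fun i => ((sc ℚ e s d i : ℚ) : ℂ)) = (sc ℂ e s d : Ix N d → ℂ) := by
    funext p
    have := sc_map (algebraMap ℚ ℂ) e s d p
    rw [← this]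
    rfl
  obtain ⟨a, ha, haI⟩ := alg_near (sc ℚ e s d : Ix N d → ℚ) (⋂ r, V r) (by
    rw [hsc]
    exact Filter.iInter_mem.mpr hV1)
  have hz : ∀ r, ∃ z' ∈ U r,
      Inc (fa a) (fun j => z' (Sum.inl j)) (fun j => z' (Sum.inr j)) := fun r =>
    hV2 r a (Set.mem_iInter.mp ha r)
  choose z hzU hzI using hz
  refine ⟨f, a, z, fun r => ?_, haI, hzI, hIU fun t _ => hzU t⟩
  have hm := (E r).2
  unfold OM at hm
  rw [Finset.mem_filter, Finset.mem_product, Finset.mem_product, Fintype.mem_piFinset,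
    Fintype.mem_piFinset] at hm
  obtain ⟨⟨h1, h2, h3⟩, h4, _⟩ := hm
  exact fo_bihom e d α β α₁ pt P hP hα (E r).1 (fun i => Finset.mem_range.mp (h1 i))
    (fun i => Finset.mem_range.mp (h2 i)) h4 ((mem_EN _).mp h3)

end Pool.Agent.CI
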