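import Pool.Agent.Lib_MP_b9fedf_ci.CardB
import Pool.Agent.Lib_MP_b9fedf_gh.CountA

/-! [CI-C7]: the upper bound for the special member. -/

set_option autoImplicit false

namespace Pool.Agent.CI
open MvPolynomial Pool.Agent.GGL Pool.Agent.GH

/-- the bihomogeneous elements of the ideal -/
noncomputable def jSpace {k : Type} [Field k] {N : ℕ} {κ : Type}
    (F : κ → MvPolynomial (Fin (N + 1)) k) (l : MvPolynomial (Fin (N + 1)) k) (α β : ℕ) :
    Submodule k (MvPolynomial (XV N) k) :=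
  biSpace k N α β ⊓ (Ideal.span (Set.range (gens F l))).restrictScalars k

theorem mem_jSpace {k : Type} [Field k] {N : ℕ} {κ : Type}
    (F : κ → MvPolynomial (Fin (N + 1)) k) (l : MvPolynomial (Fin (N + 1)) k) (α β : ℕ)
    (G : MvPolynomial (XV N) k) : G ∈ jSpace F l α β ↔ BiHom α β G ∧ InJ F l G := Iff.rfl

/-- the polynomial which lifts `mo` -/
private noncomputable def gp {k : Type} [Field k] {κ : Type} [Fintype κ] {n N : ℕ}
    (e : Fin (n + 1) ⊕ κ ≃ Fin (N + 1)) (g : MvPolynomial (Fin (n + 1)) k) (a f : κ → ℕ)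
    (ν : Fin (n + 1) → ℕ) : MvPolynomial (XV N) k :=
  rename (fun j => Sum.inl (e (Sum.inl j))) g * (∏ i, X (Sum.inl (e (Sum.inr i))) ^ a i) *
    (∏ i, X (Sum.inr (e (Sum.inr i))) ^ f i) * ∏ j, X (Sum.inr (e (Sum.inl j))) ^ ν j

private theorem bh_inl {k : Type} [Field k] {N : ℕ} {ι : Type} [Fintype ι]
    (u : ι → Fin (N + 1)) (a : ι → ℕ) :
    BiHom (∑ i, a i) 0 (∏ i, (X (Sum.inl (u i)) : MvPolynomial (XV N) k) ^ a i) := by
  have h := IsWeightedHomogeneous.prod (R := k)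
    (w := (Sum.elim (fun _ => ((1, 0) : ℕ × ℕ)) (fun _ => (0, 1)) : XV N → ℕ × ℕ))
    (Finset.univ : Finset ι) (fun i => (X (Sum.inl (u i)) : MvPolynomial (XV N) k) ^ a i)
    (fun i => a i • ((1, 0) : ℕ × ℕ))
    (fun i _ => (isWeightedHomogeneous_X k _ (Sum.inl (u i))).pow (a i))
  have h2 : ∑ i, a i • ((1, 0) : ℕ × ℕ) = (∑ i, a i, 0) := by
    refine Prod.ext ?_ ?_
    · rw [Prod.fst_sum]
      refine Finset.sum_congr rfl fun i _ => ?_
      change a i • 1 = a i
      rw [smul_eq_mul, mul_one]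
    · rw [Prod.snd_sum]
      refine Finset.sum_eq_zero fun i _ => ?_
      change a i • 0 = 0
      rw [smul_eq_mul, mul_zero]
  rw [h2] at h
  exact h

private theorem bh_inr {k : Type} [Field k] {N : ℕ} {ι : Type} [Fintype ι]
    (u : ι → Fin (N + 1)) (a : ι → ℕ) :
    BiHom 0 (∑ i, a i) (∏ i, (X (Sum.inr (u i)) : MvPolynomial (XV N) k) ^ a i) := by
  have h := IsWeightedHomogeneous.prod (R := k)
    (w := (Sum.elim (fun _ => ((1, 0) : ℕ × ℕ)) (fun _ => (0, 1)) : XV N → ℕ × ℕ))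
    (Finset.univ : Finset ι) (fun i => (X (Sum.inr (u i)) : MvPolynomial (XV N) k) ^ a i)
    (fun i => a i • ((0, 1) : ℕ × ℕ))
    (fun i _ => (isWeightedHomogeneous_X k _ (Sum.inr (u i))).pow (a i))
  have h2 : ∑ i, a i • ((0, 1) : ℕ × ℕ) = (0, ∑ i, a i) := by
    refine Prod.ext ?_ ?_
    · rw [Prod.fst_sum]
      refine Finset.sum_eq_zero fun i _ => ?_
      change a i • 0 = 0
      rw [smul_eq_mul, mul_zero]
    · rw [Prod.snd_sum]
      refine Finset.sum_congr rfl fun i _ => ?_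
      change a i • 1 = a i
      rw [smul_eq_mul, mul_one]
  rw [h2] at h
  exact h

private theorem gp_bihom {k : Type} [Field k] {κ : Type} [Fintype κ] {n N : ℕ}
    (e : Fin (n + 1) ⊕ κ ≃ Fin (N + 1)) {g : MvPolynomial (Fin (n + 1)) k} {t : ℕ}
    (hg : g.IsHomogeneous t) {a f : κ → ℕ} {ν : Fin (n + 1) → ℕ} {α β : ℕ}
    (h1 : t + ∑ i, a i = α) (h2 : ∑ i, f i + ∑ j, ν j = β) : BiHom α β (gp e g a f ν) := by
  have k1 : BiHom t 0 (rename (fun j => (Sum.inl (e (Sum.inl j)) : XV N)) g) := by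
    have h3 := inx_bihom (rename (fun j => e (Sum.inl j)) g)
      (hg.rename_isHomogeneous (f := fun j => e (Sum.inl j)))
    unfold inx at h3
    rw [rename_rename] at h3
    exact h3
  have k2 := ((k1.mul (bh_inl (fun i => e (Sum.inr i)) a)).mul
    (bh_inr (fun i => e (Sum.inr i)) f)).mul (bh_inr (fun j => e (Sum.inl j)) ν)
  have k3 : t + ∑ i, a i + 0 + 0 = α := by omega
  have k4 : 0 + 0 + ∑ i, f i + ∑ j, ν j = β := by omega
  rw [k3, k4] at k2
  exact k2

private theorem monomial_gp {k : Type} [Field k] {κ : Type} [Fintype κ] {n N : ℕ}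
    (e : Fin (n + 1) ⊕ κ ≃ Fin (N + 1)) (m : XV N →₀ ℕ) :
    monomial m (1 : k) = gp e (∏ j, X j ^ m (Sum.inl (e (Sum.inl j))))
      (fun i => m (Sum.inl (e (Sum.inr i)))) (fun i => m (Sum.inr (e (Sum.inr i))))
      (fun j => m (Sum.inr (e (Sum.inl j)))) := by
  rw [monomial_eq, C_1, one_mul, Finsupp.prod_fintype _ _ (fun _ => pow_zero _),
    Fintype.prod_sum_type, ← Equiv.prod_comp e, ← Equiv.prod_comp e (fun i => X (Sum.inr i) ^ m (Sum.inr i)),
    Fintype.prod_sum_type, Fintype.prod_sum_type]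
  unfold gp
  rw [map_prod]
  have h1 : ∏ j, rename (fun j => (Sum.inl (e (Sum.inl j)) : XV N))
      ((X j : MvPolynomial (Fin (n + 1)) k) ^ m (Sum.inl (e (Sum.inl j)))) =
      ∏ j, (X (Sum.inl (e (Sum.inl j))) : MvPolynomial (XV N) k) ^ m (Sum.inl (e (Sum.inl j))) := by
    refine Finset.prod_congr rfl fun j _ => ?_
    rw [map_pow, rename_X]
  rw [h1]
  ring

private theorem deg_split {κ : Type} [Fintype κ] {n N : ℕ}
    (e : Fin (n + 1) ⊕ κ ≃ Fin (N + 1)) (c : Fin (N + 1) → ℕ) :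
    ∑ j, c (e (Sum.inl j)) + ∑ i, c (e (Sum.inr i)) = ∑ i, c i := by
  rw [← Equiv.sum_comp e, Fintype.sum_sum_type]

private theorem bi_weight (N : ℕ) (e : XV N →₀ ℕ) :
    Finsupp.weight (Sum.elim (fun _ => ((1, 0) : ℕ × ℕ)) (fun _ => (0, 1)) : XV N → ℕ × ℕ) e =
      (∑ a, e (Sum.inl a), ∑ a, e (Sum.inr a)) := by
  rw [Finsupp.weight_apply, Finsupp.sum_fintype e _ (by intro i; exact zero_smul ℕ _),
    Fintype.sum_sum_type]
  refine Prod.ext ?_ ?_
  · simp [Prod.fst_sum]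
  · simp [Prod.snd_sum]

/-- [CI-C7a] Proof.  `A = MvPolynomial (XV N) k ⧸ I`, `I` the ideal generated by `gens`; `ξ`, `y`, `w`, `v` the classes of the variables (`x_j = X (inl (e (inl j)))`,
`y_i = X (inl (e (inr i)))`, `v_j = X (inr (e (inl j)))`, `w_i = X (inr (e (inr i)))`), relations by `inx_spf`, `dif_spf`.  `B S t` from `exists_cov` for `t ≥ 1 + ∑ d i` (`∅` otherwise);
`span_red` with `s₁ = 1 + ∑ d i`.  `T` = the polynomials `g Y ^ a W ^ e V ^ ν` for the reduced elements (they have bidegree `(α, β)`), a union over `S`, `a ∈ AS d S`,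
`(e, ν) ∈ EN` with support `S`, `g ∈ B S (α - ∑ a)`.  An element of `biSpace` is a sum of monomials of bidegree `(α, β)`, each is a `mo`. -/
theorem up_span (k : Type) [Field k] [CharZero k] {κ : Type} [Fintype κ] [DecidableEq κ]
    {n N : ℕ} (e : Fin (n + 1) ⊕ κ ≃ Fin (N + 1)) (s : κ → ℕ → ℕ) (hs : Codes s) (d : κ → ℕ)
    (hd : ∀ i, 2 ≤ d i) (r : ℕ) (hr : ∀ i t, s i t ≠ r) (α β : ℕ) (hα : 1 + 2 * ∑ i, d i ≤ α) :
    ∃ T : Finset (MvPolynomial (XV N) k), T.card ≤ bigSum n d α β ∧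
      biSpace k N α β ≤ jSpace (spf k e s d) (rename (fun j => e (Sum.inl j)) (vd k n r)) α β ⊔
        Submodule.span k (T : Set (MvPolynomial (XV N) k)) := by
  classical
  -- the spanning sets
  have hB : ∀ (S : Finset κ) (t : ℕ), ∃ B : Finset (MvPolynomial (Fin (n + 1)) k),
      (∀ b ∈ B, b.IsHomogeneous t) ∧ (1 + ∑ i, d i ≤ t → B.card ≤ hbd n d S t ∧
        ∀ g : MvPolynomial (Fin (n + 1)) k, g.IsHomogeneous t →
          ∃ r' ∈ Submodule.span k (B : Set (MvPolynomial (Fin (n + 1)) k)),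
            g - r' ∈ Ideal.span ({vd k n r} ∪ (fun i => vb k n s d i) '' (S : Set κ))) := by
    intro S t
    by_cases ht : 1 + ∑ i, d i ≤ t
    · obtain ⟨B, h1, h2, h3⟩ := exists_cov k n s d hs r hr S t ht
      exact ⟨B, h2, fun _ => ⟨h1, h3⟩⟩
    · exact ⟨∅, by intro b hb; exact absurd hb (Finset.notMem_empty b), fun h => absurd h ht⟩
  choose B hB1 hB2 using hB
  set F := spf k e s d with hF
  set l := rename (fun j => e (Sum.inl j)) (vd k n r) with hl
  set I : Ideal (MvPolynomial (XV N) k) := Ideal.span (Set.range (gens F l)) with hI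
  let π : MvPolynomial (XV N) k →ₐ[k] (MvPolynomial (XV N) k ⧸ I) := Ideal.Quotient.mkₐ k I
  have hπ : ∀ p, p ∈ I → π p = 0 := fun p hp => Ideal.Quotient.eq_zero_iff_mem.2 hp
  let ξ : MvPolynomial (Fin (n + 1)) k →ₐ[k] (MvPolynomial (XV N) k ⧸ I) :=
    π.comp (rename (fun j => (Sum.inl (e (Sum.inl j)) : XV N)))
  let y : κ → (MvPolynomial (XV N) k ⧸ I) := fun i => π (X (Sum.inl (e (Sum.inr i))))
  let w : κ → (MvPolynomial (XV N) k ⧸ I) := fun i => π (X (Sum.inr (e (Sum.inr i))))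
  let v : Fin (n + 1) → (MvPolynomial (XV N) k ⧸ I) := fun j => π (X (Sum.inr (e (Sum.inl j))))
  have hmo : ∀ (g : MvPolynomial (Fin (n + 1)) k) (a f : κ → ℕ) (ν : Fin (n + 1) → ℕ),
      π (gp e g a f ν) = mo ξ y w v g a f ν := by
    intro g a f ν
    unfold gp mo
    rw [map_mul, map_mul, map_mul, map_prod, map_prod, map_prod]
    simp only [map_pow]
    rfl
  have h1 : ∀ i, y i ^ d i = ξ (vb k n s d i) := by
    intro i
    have h := hπ (inx (F i)) (Ideal.subset_span ⟨Sum.inl (Sum.inl i), rfl⟩)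
    rw [hF, inx_spf, map_sub, map_pow] at h
    exact sub_eq_zero.1 h
  have h2 : ∀ i, (d i : MvPolynomial (XV N) k ⧸ I) * y i ^ (d i - 1) * w i =
      ∑ j, ξ (pderiv j (vb k n s d i)) * v j := by
    intro i
    have h := hπ (dif (F i)) (Ideal.subset_span ⟨Sum.inl (Sum.inr i), rfl⟩)
    rw [hF, dif_spf, map_sub, map_mul, map_mul, map_pow, map_natCast, map_sum] at h
    simp only [map_mul] at h
    exact sub_eq_zero.1 h
  have h3 : ξ (vd k n r) = 0 := by
    have h := hπ (inx l) (Ideal.subset_span ⟨Sum.inr (), rfl⟩)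
    unfold inx at h
    rw [hl, rename_rename] at h
    exact h
  -- the finite set
  let T : Finset (MvPolynomial (XV N) k) := Finset.univ.biUnion fun S : Finset κ =>
    (AS d S).biUnion fun a => (((EN κ n β).filter (fun p => supp p.1 = S)) ×ˢ
      B S (α - ∑ i, a i)).image (fun q => gp e q.2 a q.1.1 q.1.2)
  have hAS : ∀ (S : Finset κ) (a : κ → ℕ), a ∈ AS d S → ∀ i, a i < d i := by
    intro S a ha i
    unfold AS at ha
    rw [Finset.mem_filter, Fintype.mem_piFinset] at ha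
    exact Finset.mem_range.1 (ha.1 i)
  have hsum : ∀ a : κ → ℕ, (∀ i, a i < d i) → ∑ i, a i ≤ ∑ i, d i := fun a ha =>
    Finset.sum_le_sum fun i _ => (ha i).le
  have hcard : T.card ≤ bigSum n d α β := by
    refine Finset.card_biUnion_le.trans (Finset.sum_le_sum fun S _ => ?_)
    refine Finset.card_biUnion_le.trans (Finset.sum_le_sum fun a ha => ?_)
    refine Finset.card_image_le.trans ?_
    rw [Finset.card_product]
    refine Nat.mul_le_mul_left _ (hB2 S _ ?_).1
    have := hsum a (hAS S a ha)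
    omega
  have hTbi : ∀ p ∈ T, BiHom α β p := by
    intro p hp
    rw [Finset.mem_biUnion] at hp
    obtain ⟨S, _, hp⟩ := hp
    rw [Finset.mem_biUnion] at hp
    obtain ⟨a, ha, hp⟩ := hp
    rw [Finset.mem_image] at hp
    obtain ⟨q, hq, rfl⟩ := hp
    rw [Finset.mem_product, Finset.mem_filter, mem_EN] at hq
    refine gp_bihom e (hB1 S _ _ hq.2) ?_ hq.1.1
    have := hsum a (hAS S a ha)
    omega
  refine ⟨T, hcard, ?_⟩
  intro G hG
  -- the class of a monomial
  have hmon : ∀ m ∈ G.support, π (monomial m (1 : k)) ∈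
      (Submodule.span k (T : Set (MvPolynomial (XV N) k))).map π.toLinearMap := by
    intro m hm
    have hwt : Finsupp.weight (Sum.elim (fun _ => ((1, 0) : ℕ × ℕ)) (fun _ => (0, 1)) :
        XV N → ℕ × ℕ) m = (α, β) := hG (mem_support_iff.1 hm)
    rw [bi_weight, Prod.mk.injEq] at hwt
    have e1 := deg_split e (fun i => m (Sum.inl i))
    have e2 := deg_split e (fun i => m (Sum.inr i))
    rw [monomial_gp e, hmo]
    have hred := span_red d hd (fun i => vb k n s d i) (fun i => vb_hom k n s d i) (vd k n r)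
      (vd_hom k n r) ξ y w v h1 h2 h3 B (1 + ∑ i, d i)
      (fun S t ht g hg => (hB2 S t ht).2 g hg) (fun S t g hg => hB1 S t g hg) α β
      (by omega) (∏ j, X j ^ m (Sum.inl (e (Sum.inl j)))) (fun i => m (Sum.inl (e (Sum.inr i))))
      (fun i => m (Sum.inr (e (Sum.inr i)))) (fun j => m (Sum.inr (e (Sum.inl j))))
      (∑ j, m (Sum.inl (e (Sum.inl j))))
      (IsHomogeneous.prod _ _ _ fun j _ => isHomogeneous_X_pow j _)
      (e1.trans hwt.1) (by rw [add_comm]; exact e2.trans hwt.2)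
    refine Submodule.span_le.2 ?_ hred
    rintro z ⟨a', f', ν', g', ha1, ha2, hs', hg', rfl⟩
    rw [← hmo]
    refine Submodule.mem_map_of_mem (f := π.toLinearMap) (Submodule.subset_span ?_)
    rw [Finset.mem_coe, Finset.mem_biUnion]
    refine ⟨supp f', Finset.mem_univ _, ?_⟩
    rw [Finset.mem_biUnion]
    refine ⟨a', ?_, ?_⟩
    · unfold AS
      rw [Finset.mem_filter, Fintype.mem_piFinset]
      refine ⟨fun i => Finset.mem_range.2 (ha1 i), fun i hi => ha2 i ?_⟩
      unfold supp at hi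
      exact (Finset.mem_filter.1 hi).2
    · rw [Finset.mem_image]
      refine ⟨((f', ν'), g'), ?_, rfl⟩
      rw [Finset.mem_product, Finset.mem_filter, mem_EN]
      exact ⟨⟨hs', rfl⟩, hg'⟩
  have hπG : π G ∈ (Submodule.span k (T : Set (MvPolynomial (XV N) k))).map π.toLinearMap := by
    have h4 : π G = ∑ m ∈ G.support, coeff m G • π (monomial m (1 : k)) := by
      conv_lhs => rw [G.as_sum]
      rw [map_sum]
      refine Finset.sum_congr rfl fun m _ => ?_
      rw [← map_smul, smul_monomial, smul_eq_mul, mul_one]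
    rw [h4]
    exact Submodule.sum_mem _ fun m hm => Submodule.smul_mem _ _ (hmon m hm)
  obtain ⟨p, hp, hpG⟩ := hπG
  have hpG' : π p = π G := hpG
  have hTle : Submodule.span k (T : Set (MvPolynomial (XV N) k)) ≤ biSpace k N α β :=
    Submodule.span_le.2 fun q hq => hTbi q hq
  refine Submodule.mem_sup.2 ⟨G - p, ?_, p, hp, sub_add_cancel G p⟩
  refine Submodule.mem_inf.2 ⟨Submodule.sub_mem _ hG (hTle hp), ?_⟩
  change G - p ∈ I
  exact (Ideal.Quotient.eq).1 hpG'.symm

/-- [CI-C7b] -/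
theorem up_finrank (k : Type) [Field k] [CharZero k] {κ : Type} [Fintype κ] [DecidableEq κ]
    {n N : ℕ} (hn : 1 ≤ n) (e : Fin (n + 1) ⊕ κ ≃ Fin (N + 1)) (s : κ → ℕ → ℕ) (hs : Codes s)
    (d : κ → ℕ) (hd : ∀ i, 2 ≤ d i) (r : ℕ) (hr : ∀ i t, s i t ≠ r) (α β : ℕ)
    (hα : 1 + 2 * ∑ i, d i ≤ α) (hβ : 4 * n ≤ β) :
    Module.finrank k (biSpace k N α β) ≤
      Module.finrank k
        (jSpace (spf k e s d) (rename (fun j => e (Sum.inl j)) (vd k n r)) α β) +
        kap1 n d α β := by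
  obtain ⟨T, hT, hle⟩ := up_span k e s hs d hd r hr α β hα
  have := finite_biSpace k N α β
  set J := jSpace (spf k e s d) (rename (fun j => e (Sum.inl j)) (vd k n r)) α β with hJ
  have hJ' : J ≤ biSpace k N α β := inf_le_left
  have := Submodule.finiteDimensional_of_le hJ'
  have h1 := Submodule.finrank_mono hle
  have h2 := Submodule.finrank_add_le_finrank_add_finrank J
    (Submodule.span k (T : Set (MvPolynomial (XV N) k)))
  have h3 := finrank_span_finset_le_card (R := k) T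
  have h4 := bigSum_le n hn d α β hβ
  have h5 : Module.finrank k (Submodule.span k (T : Set (MvPolynomial (XV N) k))) ≤ T.card := h3
  omega

end Pool.Agent.CI
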