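import Pool.Agent.Lib_MP_b9fedf_ci.BasicJ
import Pool.Agent.Lib_MP_b9fedf_ci.UpA

/-! [CI-D6]: normalised pairs, and specialisations of the universal form. -/

set_option autoImplicit false

namespace Pool.Agent.CI
open MvPolynomial Pool.Agent.GGL Pool.Agent.GH

private theorem mem_of_sa {n : ℕ} {M : Subalgebra ℚ ℂ} (k : Fin (n + 1)) (x' : Fin (n + 1) → ℂ)
    (h1 : x' k ∈ M) (h : ∀ i, x' (k.succAbove i) ∈ M) (j : Fin (n + 1)) : x' j ∈ M := by
  rcases Fin.eq_self_or_eq_succAbove k j with rfl | ⟨i, rfl⟩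
  · exact h1
  · exact h i

/-- [CI-D6a] (`v l ≠ 0`, `x' = x / x_k`, `v' = v / v_l`; `y` consists of the `x'_j`, `j ≠ k`, and the `v'_j`, `j ≠ k, l`; compare `GH.norm_pair`) -/
theorem norm2 {N : ℕ} (k : Fin (N + 1)) (x v : Fin (N + 1) → ℂ) (hk : x k ≠ 0) (hvk : v k = 0)
    (hv : v ≠ 0) :
    ∃ (l : Fin (N + 1)) (y : Fin (2 * N - 1) → ℂ) (x' v' : Fin (N + 1) → ℂ) (s t : ℂ),
      l ≠ k ∧ s ≠ 0 ∧ t ≠ 0 ∧ x = s • x' ∧ v = t • v' ∧
      (∀ j, x' j ∈ Algebra.adjoin ℚ (Set.range y)) ∧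
      (∀ j, v' j ∈ Algebra.adjoin ℚ (Set.range y)) ∧ x' k = 1 ∧ v' k = 0 ∧ v' l = 1 := by
  obtain ⟨l, hl⟩ := Function.ne_iff.mp hv
  simp only [Pi.zero_apply] at hl
  have hlk : l ≠ k := fun h => hl (by rw [h]; exact hvk)
  obtain ⟨l0, hl0⟩ := Fin.exists_succAbove_eq hlk
  obtain ⟨M, rfl⟩ : ∃ M, N = M + 1 := ⟨N - 1, by have := l0.pos; omega⟩
  set x' : Fin (M + 1 + 1) → ℂ := (x k)⁻¹ • x with hx'
  set v' : Fin (M + 1 + 1) → ℂ := (v l)⁻¹ • v with hv'
  have hcast : 2 * (M + 1) - 1 = (M + 1) + M := by omega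
  have e1 : x' k = 1 := by simp [hx', hk]
  have e2 : v' k = 0 := by simp [hv', hvk]
  have e3 : v' l = 1 := by simp [hv', hl]
  refine ⟨l, fun i => Fin.append (fun i : Fin (M + 1) => x' (k.succAbove i))
    (fun i : Fin M => v' (k.succAbove (l0.succAbove i))) (Fin.cast hcast i), x', v', x k, v l,
    hlk, hk, hl, ?_, ?_, ?_, ?_, e1, e2, e3⟩
  · rw [hx', smul_smul, mul_inv_cancel₀ hk, one_smul]
  · rw [hv', smul_smul, mul_inv_cancel₀ hl, one_smul]
  · refine mem_of_sa k x' ?_ ?_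
    · rw [e1]
      exact Subalgebra.one_mem _
    · intro i
      apply Algebra.subset_adjoin
      refine ⟨Fin.cast hcast.symm (Fin.castAdd M i), ?_⟩
      simp only [Fin.cast_cast, Fin.cast_eq_self]
      rw [Fin.append_left]
  · refine mem_of_sa k v' ?_ ?_
    · rw [e2]
      exact Subalgebra.zero_mem _
    · refine mem_of_sa l0 (fun i => v' (k.succAbove i)) ?_ ?_
      · rw [hl0, e3]
        exact Subalgebra.one_mem _
      · intro i
        apply Algebra.subset_adjoin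
        refine ⟨Fin.cast hcast.symm (Fin.natAdd (M + 1) i), ?_⟩
        simp only [Fin.cast_cast, Fin.cast_eq_self]
        rw [Fin.append_right]

/-- [CI-D6b] (`d i ≥ 1`; `eval_bihom` for `inx`, `dif`) -/
theorem Inc.smul {N : ℕ} {κ : Type} {d : κ → ℕ} (hd : ∀ i, 1 ≤ d i)
    {F : κ → MvPolynomial (Fin (N + 1)) ℂ} (hF : ∀ i, (F i).IsHomogeneous (d i))
    {x v : Fin (N + 1) → ℂ} (h : Inc F x v) (s t : ℂ) : Inc F (s • x) (t • v) := by
  intro i
  have _ := hd i
  obtain ⟨h1, h2⟩ := h i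
  refine ⟨?_, ?_⟩
  · have e := eval_bihom (inx_bihom (F i) (hF i)) s t x v
    rw [eval_inx, eval_inx, h1, mul_zero] at e
    exact e
  · have e := eval_bihom (dif_bihom (F i) (hF i)) s t x v
    have h2' : ∑ j, eval x (pderiv j (F i)) * v j = 0 := h2
    rw [eval_dif, eval_dif, h2', mul_zero] at e
    exact e

/-- [CI-D6c] `InJ` and `BiHom` for specialisations (`InJ.map`, `map_fa`, `map_lf`) -/
theorem sp_inJ {N α β : ℕ} {κ : Type} {d : κ → ℕ}
    (P : MvPolynomial (XV N) (MvPolynomial (Ix N d) ℚ)) (hP : BiHom α β P)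
    (l : Fin (N + 1) → ℤ)
    (hJ : InJ (fa (fun p : Ix N d => (X p : MvPolynomial (Ix N d) ℚ)))
      (lf (fun k => ((l k : ℤ) : MvPolynomial (Ix N d) ℚ))) P) (a : Ix N d → ℂ) :
    BiHom α β (sp a P) ∧ InJ (fa a) (lf (fun k => ((l k : ℤ) : ℂ))) (sp a P) := by
  refine ⟨?_, ?_⟩
  · intro m hm
    refine hP (d := m) ?_
    intro h0
    apply hm
    unfold sp
    rw [coeff_map, h0, map_zero]
  · have h := hJ.map (aeval a : MvPolynomial (Ix N d) ℚ →ₐ[ℚ] ℂ).toRingHom
    have e1 : (fun i => MvPolynomial.map (aeval a : MvPolynomial (Ix N d) ℚ →ₐ[ℚ] ℂ).toRingHom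
        (fa (fun p : Ix N d => (X p : MvPolynomial (Ix N d) ℚ)) i)) = fa a := by
      funext i
      rw [map_fa]
      congr 1
      funext p
      exact aeval_X a p
    have e2 : MvPolynomial.map (aeval a : MvPolynomial (Ix N d) ℚ →ₐ[ℚ] ℂ).toRingHom
        (lf (fun k => ((l k : ℤ) : MvPolynomial (Ix N d) ℚ))) = lf (fun k => ((l k : ℤ) : ℂ)) := by
      rw [map_lf]
      congr 1
      funext k
      exact map_intCast _ _
    rw [e1, e2] at h
    exact h

/-- [CI-D6d] any `m` of the integral forms `l_j` are independent: the same for the forms `l_j ∘ g`, `g` invertible -/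
theorem indep_comp {N h m : ℕ} (l : Fin h → Fin (N + 1) → ℤ)
    (hl : ∀ B : Finset (Fin h), B.card ≤ m →
      LinearIndependent ℚ (fun j : B => fun k => ((l j k : ℤ) : ℚ)))
    (g : Matrix (Fin (N + 1)) (Fin (N + 1)) ℤ) (hg : g.det ≠ 0) :
    ∀ B : Finset (Fin h), B.card ≤ m →
      LinearIndependent ℚ (fun j : B => fun k => (((∑ i, l j i * g i k : ℤ)) : ℚ)) := by
  intro B hB
  have h1 := hl B hB
  set gQ : Matrix (Fin (N + 1)) (Fin (N + 1)) ℚ := g.map (fun z : ℤ => (z : ℚ)) with hgQ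
  have hdet : gQ.det = ((g.det : ℤ) : ℚ) := by
    rw [hgQ]
    exact (Int.castRingHom ℚ).map_det g |>.symm
  have hdet0 : gQ.det ≠ 0 := by
    rw [hdet]
    exact_mod_cast hg
  have hu : IsUnit gQ := by
    rw [Matrix.isUnit_iff_isUnit_det]
    exact isUnit_iff_ne_zero.2 hdet0
  have hinj : Function.Injective gQ.vecMul := Matrix.vecMul_injective_of_isUnit hu
  have h2 := h1.map' gQ.vecMulLinear (LinearMap.ker_eq_bot.2 hinj)
  have h3 : (fun j : B => fun k => (((∑ i, l j i * g i k : ℤ)) : ℚ)) =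
      (gQ.vecMulLinear ∘ fun j : B => fun k => ((l j k : ℤ) : ℚ)) := by
    funext j k
    simp only [Function.comp, Matrix.vecMulLinear_apply, Matrix.vecMul, dotProduct, hgQ, Matrix.map_apply]
    push_cast
    rfl
  rw [h3]
  exact h2

/-- [CI-D6e] Proof.  `fa (acts g a) i = sub g (fa a i)` (`GH.frm_act`), `g * adj g = det g • 1`; `sub g (lf (u ∘ adj g)) = C (det g) * lf u` (`sub_lf`, `adj g * g = det g • 1`), and a nonzero constant factor of
the linear form does not change the ideal; `InJ.sub2`. -/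
theorem inJ_act {N : ℕ} {κ : Type} {d : κ → ℕ} (g : Matrix (Fin (N + 1)) (Fin (N + 1)) ℂ)
    (hg : g.det ≠ 0) (a : Ix N d → ℂ) (u : Fin (N + 1) → ℂ) (G : MvPolynomial (XV N) ℂ)
    (h : InJ (fa (acts g a)) (lf u) G) :
    InJ (fa a) (lf (fun k => ∑ i, u i * g.adjugate i k)) (GH.sub2 g.adjugate G) := by
  have e1 : (fun i => sub g (fa a i)) = fa (acts g a) := by
    funext i
    exact (frm_act g (fun m => a ⟨i, m⟩)).symm
  have e2 : sub g (lf (fun k => ∑ i, u i * g.adjugate i k)) = C g.det * lf u := by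
    rw [sub_lf]
    unfold lf
    rw [Finset.mul_sum]
    refine Finset.sum_congr rfl fun k _ => ?_
    rw [← mul_assoc, ← C_mul]
    congr 2
    have h3 : ∑ j, (∑ i, u i * g.adjugate i j) * g j k = ∑ i, u i * (g.adjugate * g) i k := by
      simp only [Matrix.mul_apply, Finset.mul_sum, Finset.sum_mul]
      rw [Finset.sum_comm]
      refine Finset.sum_congr rfl fun i _ => Finset.sum_congr rfl fun j _ => ?_
      ring
    refine h3.trans ?_
    rw [Matrix.adjugate_mul]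
    simp only [Matrix.smul_apply, Matrix.one_apply, smul_eq_mul, mul_ite, mul_one, mul_zero]
    rw [Finset.sum_ite_eq' Finset.univ k]
    rw [if_pos (Finset.mem_univ k), mul_comm]
  have e3 : InJ (fun i => sub g (fa a i)) (sub g (lf (fun k => ∑ i, u i * g.adjugate i k))) G := by
    rw [e1, e2]
    unfold InJ at h ⊢
    refine (Ideal.span_le.2 ?_) h
    rintro _ ⟨s, rfl⟩
    rcases s with s | s
    · exact Ideal.subset_span ⟨Sum.inl s, rfl⟩
    · have e4 : gens (fa (acts g a)) (lf u) (Sum.inr s) =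
          C (g.det)⁻¹ * gens (fa (acts g a)) (C g.det * lf u) (Sum.inr s) := by
        change inx (lf u) = C (g.det)⁻¹ * inx (C g.det * lf u)
        unfold inx
        rw [map_mul, rename_C, ← mul_assoc, ← C_mul, inv_mul_cancel₀ hg, C_1, one_mul]
      rw [SetLike.mem_coe, e4]
      exact Ideal.mul_mem_left _ _ (Ideal.subset_span ⟨Sum.inr s, rfl⟩)
  exact InJ.sub2 (Matrix.mul_adjugate g) (fun i => fa_hom a i) (lf_hom _) e3

end Pool.Agent.CI
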