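import Mathlib

/-! [CI-C6b]: numbers. -/

set_option autoImplicit false

namespace Pool.Agent.CI

/-- [CI-C6b] Proof.  With `m = β + n`: `2 n * m.choose (2 n) = (m - 2 n + 1) * m.choose (2 n - 1)` and
`(m - 2 n + 2) * m.choose (2 n - 2) = (2 n - 1) * m.choose (2 n - 1)` (`n ≥ 1`); divide by `m.choose (2 n - 1)`: the inequality is
`(α + 2 β + 1) (E₁ + M (2 n - 1) / (m - 2 n + 2)) < E₀ (m - 2 n + 1) / (2 n)`; the coefficients of `β` are `2 E₁ < E₀ / (2 n)`. -/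
theorem exists_beta (n : ℕ) (hn : 1 ≤ n) (E₀ E₁ M α : ℕ) (h : 4 * n * E₁ < E₀) :
    ∃ β, 4 * n ≤ β ∧
      (α + 2 * β + 1) * (E₁ * (β + n).choose (2 * n - 1) + M * (β + n).choose (2 * n - 2)) <
        E₀ * (β + n).choose (2 * n) := by
  obtain ⟨t, rfl⟩ : ∃ t, n = t + 1 := ⟨n - 1, by omega⟩
  have e1 : 2 * (t + 1) - 1 = 2 * t + 1 := by omega
  have e2 : 2 * (t + 1) - 2 = 2 * t := by omega
  have e3 : 2 * (t + 1) = 2 * t + 1 + 1 := by omega
  obtain ⟨K, hK⟩ : ∃ K, K = α + 2 * t + 1 := ⟨_, rfl⟩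
  obtain ⟨L, hL⟩ : ∃ L, L = M * (2 * t + 1) := ⟨_, rfl⟩
  obtain ⟨B, hB⟩ : ∃ B, B = 2 * (t + 1) * K * E₁ + 4 * (t + 1) * L + 2 * (t + 1) * K * L := ⟨_, rfl⟩
  obtain ⟨x, hx⟩ : ∃ x, x = B + 4 * (t + 1) + 1 := ⟨_, rfl⟩
  refine ⟨x + t, by omega, ?_⟩
  have hm : x + t + (t + 1) = x + (2 * t + 1) := by omega
  rw [e1, e2, e3, hm]
  have i1 : (x + (2 * t + 1)).choose (2 * t + 1 + 1) * (2 * t + 1 + 1) = (x + (2 * t + 1)).choose (2 * t + 1) * x := by
    rw [Nat.choose_succ_right_eq]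
    congr 1
    omega
  have i2 : (x + (2 * t + 1)).choose (2 * t + 1) * (2 * t + 1) = (x + (2 * t + 1)).choose (2 * t) * (x + 1) := by
    rw [Nat.choose_succ_right_eq]
    congr 1
    omega
  have hpos : 0 < (x + (2 * t + 1)).choose (2 * t + 1) := Nat.choose_pos (by omega)
  generalize (x + (2 * t + 1)).choose (2 * t + 1 + 1) = c0 at *
  generalize (x + (2 * t + 1)).choose (2 * t + 1) = c1 at *
  generalize (x + (2 * t + 1)).choose (2 * t) = c2 at *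
  have key : (α + 2 * (x + t) + 1) * (2 * (t + 1)) * (E₁ * (x + 1) + L) < E₀ * (x * (x + 1)) := by
    have k1 : α + 2 * (x + t) + 1 = 2 * x + K := by omega
    rw [k1]
    have k2 : (4 * (t + 1) * E₁ + 1) * (x * (x + 1)) ≤ E₀ * (x * (x + 1)) := Nat.mul_le_mul_right _ h
    refine lt_of_lt_of_le ?_ k2
    have k3 : (2 * x + K) * (2 * (t + 1)) * (E₁ * (x + 1) + L) =
        4 * (t + 1) * E₁ * (x * (x + 1)) + (2 * (t + 1) * K * E₁ * (x + 1) + 4 * (t + 1) * L * x + 2 * (t + 1) * K * L) := by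
      ring
    rw [k3, add_mul, one_mul]
    apply Nat.add_lt_add_left
    calc 2 * (t + 1) * K * E₁ * (x + 1) + 4 * (t + 1) * L * x + 2 * (t + 1) * K * L
        ≤ 2 * (t + 1) * K * E₁ * (x + 1) + 4 * (t + 1) * L * (x + 1) + 2 * (t + 1) * K * L * (x + 1) := by
          refine Nat.add_le_add (Nat.add_le_add le_rfl (Nat.mul_le_mul_left _ (Nat.le_succ x))) ?_
          exact Nat.le_mul_of_pos_right _ (Nat.succ_pos x)
      _ = B * (x + 1) := by rw [hB]; ring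
      _ < x * (x + 1) := Nat.mul_lt_mul_of_pos_right (by omega) (Nat.succ_pos x)
  have hfac : 0 < 2 * (t + 1) * (x + 1) := by positivity
  refine lt_of_mul_lt_mul_left ?_ hfac.le
  calc 2 * (t + 1) * (x + 1) * ((α + 2 * (x + t) + 1) * (E₁ * c1 + M * c2))
      = (α + 2 * (x + t) + 1) * (2 * (t + 1)) * (E₁ * (x + 1) * c1 + M * (c2 * (x + 1))) := by ring
    _ = (α + 2 * (x + t) + 1) * (2 * (t + 1)) * (E₁ * (x + 1) + L) * c1 := by rw [← i2, hL]; ring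
    _ < E₀ * (x * (x + 1)) * c1 := Nat.mul_lt_mul_of_pos_right key hpos
    _ = E₀ * (c1 * x) * (x + 1) := by ring
    _ = 2 * (t + 1) * (x + 1) * (E₀ * c0) := by rw [← i1]; ring

end Pool.Agent.CI
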