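import Pool.Agent.Lib_MP_b9fedf_ci.NumA
import Pool.Agent.Lib_MP_b9fedf_ci.NumB

/-! [CI-F6]: numbers, version 2. -/

set_option autoImplicit false

namespace Pool.Agent.CI

private theorem es_key2 {κ : Type} [Fintype κ] [DecidableEq κ] (m : ℕ) (d : κ → ℕ) :
    (m + 1) * es d (m + 1) =
      ∑ S ∈ (Finset.univ : Finset κ).powersetCard m, (∏ i ∈ S, (d i - 1)) * ∑ i ∈ Sᶜ, (d i - 1) := by
  unfold es
  have h1 : (m + 1) * ∑ U ∈ (Finset.univ : Finset κ).powersetCard (m + 1), ∏ i ∈ U, (d i - 1) =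
      ∑ U ∈ (Finset.univ : Finset κ).powersetCard (m + 1), ∑ _j ∈ U, ∏ i ∈ U, (d i - 1) := by
    rw [Finset.mul_sum]
    refine Finset.sum_congr rfl fun U hU => ?_
    rw [Finset.sum_const, smul_eq_mul, (Finset.mem_powersetCard.mp hU).2]
  have h2 : ∑ S ∈ (Finset.univ : Finset κ).powersetCard m, (∏ i ∈ S, (d i - 1)) * ∑ i ∈ Sᶜ, (d i - 1) =
      ∑ S ∈ (Finset.univ : Finset κ).powersetCard m, ∑ i ∈ Sᶜ, (∏ j ∈ S, (d j - 1)) * (d i - 1) :=
    Finset.sum_congr rfl fun S _ => Finset.mul_sum _ _ _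
  rw [h1, h2, Finset.sum_sigma', Finset.sum_sigma']
  refine Finset.sum_bij' (fun x _ => ⟨x.1.erase x.2, x.2⟩) (fun x _ => ⟨insert x.2 x.1, x.2⟩) ?_ ?_ ?_ ?_ ?_
  · rintro ⟨U, i⟩ hx
    rw [Finset.mem_sigma, Finset.mem_powersetCard] at hx
    obtain ⟨⟨-, hU⟩, hi⟩ := hx
    rw [Finset.mem_sigma, Finset.mem_powersetCard]
    refine ⟨⟨Finset.subset_univ _, ?_⟩, ?_⟩
    · change (U.erase i).card = m
      have hU' : U.card = m + 1 := hU
      rw [Finset.card_erase_of_mem hi, hU', Nat.add_sub_cancel]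
    · change i ∈ (U.erase i)ᶜ
      rw [Finset.mem_compl]
      exact Finset.notMem_erase i U
  · rintro ⟨S, i⟩ hx
    rw [Finset.mem_sigma, Finset.mem_powersetCard, Finset.mem_compl] at hx
    obtain ⟨⟨-, hS⟩, hi⟩ := hx
    rw [Finset.mem_sigma, Finset.mem_powersetCard]
    refine ⟨⟨Finset.subset_univ _, ?_⟩, ?_⟩
    · change (insert i S).card = m + 1
      change S.card = m at hS
      rw [Finset.card_insert_of_notMem hi, hS]
    · exact Finset.mem_insert_self i S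
  · rintro ⟨U, i⟩ hx
    rw [Finset.mem_sigma] at hx
    have h3 : insert i (U.erase i) = U := Finset.insert_erase hx.2
    simp only [h3]
  · rintro ⟨S, i⟩ hx
    rw [Finset.mem_sigma, Finset.mem_compl] at hx
    have h3 : (insert i S).erase i = S := Finset.erase_insert hx.2
    simp only [h3]
  · rintro ⟨U, i⟩ hx
    rw [Finset.mem_sigma] at hx
    exact (Finset.prod_erase_mul U (fun i => d i - 1) hx.2).symm

/-- [CI-F6a] as `es_lt` -/
theorem es_lt2 {κ : Type} [Fintype κ] [DecidableEq κ] (n : ℕ) (hn : 1 ≤ n)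
    (hc : n ≤ Fintype.card κ) (d : κ → ℕ) (hd : ∀ i, 2 ≤ d i)
    (h : ∀ T : Finset κ, T.card + n = Fintype.card κ + 1 → 2 * n ^ 2 < ∑ i ∈ T, (d i - 1)) :
    2 * n * es d (n - 1) < es d n := by
  obtain ⟨m, rfl⟩ : ∃ m, n = m + 1 := ⟨n - 1, by omega⟩
  rw [Nat.add_sub_cancel]
  have hkey := es_key2 m d
  have hpos : ∀ S : Finset κ, 0 < ∏ i ∈ S, (d i - 1) := fun S =>
    Finset.prod_pos fun i _ => by have := hd i; omega
  have hne : ((Finset.univ : Finset κ).powersetCard m).Nonempty := by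
    rw [Finset.powersetCard_nonempty, Finset.card_univ]
    omega
  have hlt : 2 * (m + 1) ^ 2 * es d m < (m + 1) * es d (m + 1) := by
    rw [hkey]
    unfold es
    rw [Finset.mul_sum]
    refine Finset.sum_lt_sum_of_nonempty hne fun S hS => ?_
    rw [mul_comm]
    refine Nat.mul_lt_mul_of_pos_left ?_ (hpos S)
    apply h
    rw [Finset.card_compl, (Finset.mem_powersetCard.mp hS).2]
    omega
  have h4 : (m + 1) * (2 * (m + 1) * es d m) < (m + 1) * es d (m + 1) := by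
    calc (m + 1) * (2 * (m + 1) * es d m) = 2 * (m + 1) ^ 2 * es d m := by ring
      _ < _ := hlt
  exact Nat.lt_of_mul_lt_mul_left h4

/-- [CI-F6b] as `exists_beta` -/
theorem exists_beta2 (n : ℕ) (hn : 1 ≤ n) (E₀ E₁ M α : ℕ) (h : 2 * n * E₁ < E₀) :
    ∃ β, 4 * n ≤ β ∧
      (α + β + 1) * (E₁ * (β + n).choose (2 * n - 1) + M * (β + n).choose (2 * n - 2)) <
        E₀ * (β + n).choose (2 * n) := by
  obtain ⟨t, rfl⟩ : ∃ t, n = t + 1 := ⟨n - 1, by omega⟩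
  have e1 : 2 * (t + 1) - 1 = 2 * t + 1 := by omega
  have e2 : 2 * (t + 1) - 2 = 2 * t := by omega
  have e3 : 2 * (t + 1) = 2 * t + 1 + 1 := by omega
  obtain ⟨K, hK⟩ : ∃ K, K = α + t + 1 := ⟨_, rfl⟩
  obtain ⟨L, hL⟩ : ∃ L, L = M * (2 * t + 1) := ⟨_, rfl⟩
  obtain ⟨B, hB⟩ : ∃ B, B = 2 * (t + 1) * K * E₁ + 2 * (t + 1) * L + 2 * (t + 1) * K * L := ⟨_, rfl⟩
  obtain ⟨x, hx⟩ : ∃ x, x = B + 4 * (t + 1) + 1 := ⟨_, rfl⟩
  refine ⟨x + t, by omega, ?_⟩
  have hm : x + t + (t + 1) = x + (2 * t + 1) := by omega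
  rw [e1, e2, e3, hm]
  have i1 : (x + (2 * t + 1)).choose (2 * t + 1 + 1) * (2 * t + 1 + 1) = (x + (2 * t + 1)).choose (2 * t + 1) * x := by
    rw [Nat.choose_succ_right_eq]
    congr 1
    omega
  have i2 : (x + (2 * t + 1)).choose (2 * t + 1) * (2 * t + 1) = (x + (2 * t + 1)).choose (2 * t) * (x + 1) := by
    rw [Nat.choose_succ_right_eq]
    congr 1
    omega
  have hpos : 0 < (x + (2 * t + 1)).choose (2 * t + 1) := Nat.choose_pos (by omega)
  generalize (x + (2 * t + 1)).choose (2 * t + 1 + 1) = c0 at *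
  generalize (x + (2 * t + 1)).choose (2 * t + 1) = c1 at *
  generalize (x + (2 * t + 1)).choose (2 * t) = c2 at *
  have key : (α + (x + t) + 1) * (2 * (t + 1)) * (E₁ * (x + 1) + L) < E₀ * (x * (x + 1)) := by
    have k1 : α + (x + t) + 1 = x + K := by omega
    rw [k1]
    have k2 : (2 * (t + 1) * E₁ + 1) * (x * (x + 1)) ≤ E₀ * (x * (x + 1)) := Nat.mul_le_mul_right _ h
    refine lt_of_lt_of_le ?_ k2
    have k3 : (x + K) * (2 * (t + 1)) * (E₁ * (x + 1) + L) =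
        2 * (t + 1) * E₁ * (x * (x + 1)) + (2 * (t + 1) * K * E₁ * (x + 1) + 2 * (t + 1) * L * x + 2 * (t + 1) * K * L) := by
      ring
    rw [k3, add_mul, one_mul]
    apply Nat.add_lt_add_left
    calc 2 * (t + 1) * K * E₁ * (x + 1) + 2 * (t + 1) * L * x + 2 * (t + 1) * K * L
        ≤ 2 * (t + 1) * K * E₁ * (x + 1) + 2 * (t + 1) * L * (x + 1) + 2 * (t + 1) * K * L * (x + 1) := by
          refine Nat.add_le_add (Nat.add_le_add le_rfl (Nat.mul_le_mul_left _ (Nat.le_succ x))) ?_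
          exact Nat.le_mul_of_pos_right _ (Nat.succ_pos x)
      _ = B * (x + 1) := by rw [hB]; ring
      _ < x * (x + 1) := Nat.mul_lt_mul_of_pos_right (by omega) (Nat.succ_pos x)
  have hfac : 0 < 2 * (t + 1) * (x + 1) := by positivity
  refine lt_of_mul_lt_mul_left ?_ hfac.le
  calc 2 * (t + 1) * (x + 1) * ((α + (x + t) + 1) * (E₁ * c1 + M * c2))
      = (α + (x + t) + 1) * (2 * (t + 1)) * (E₁ * (x + 1) * c1 + M * (c2 * (x + 1))) := by ring
    _ = (α + (x + t) + 1) * (2 * (t + 1)) * (E₁ * (x + 1) + L) * c1 := by rw [← i2, hL]; ring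
    _ < E₀ * (x * (x + 1)) * c1 := Nat.mul_lt_mul_of_pos_right key hpos
    _ = E₀ * (c1 * x) * (x + 1) := by ring
    _ = 2 * (t + 1) * (x + 1) * (E₀ * c0) := by rw [← i1]; ring

end Pool.Agent.CI
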