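import Pool.Agent.Lib_MP_b9fedf_ci.Vd

/-! [CI-C6]: numbers. -/

set_option autoImplicit false

namespace Pool.Agent.CI

private theorem es_key {κ : Type} [Fintype κ] [DecidableEq κ] (m : ℕ) (d : κ → ℕ) :
    (m + 1) * es d (m + 1) =
      ∑ S ∈ (Finset.univ : Finset κ).powersetCard m, (∏ i ∈ S, (d i - 1)) * ∑ i ∈ Sᶜ, (d i - 1) := by
  unfold es
  have h1 : (m + 1) * ∑ U ∈ (Finset.univ : Finset κ).powersetCard (m + 1), ∏ i ∈ U, (d i - 1) =
      ∑ U ∈ (Finset.univ : Finset κ).powersetCard (m + 1), ∑ _j ∈ U, ∏ i ∈ U, (d i - 1) := by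
    rw [Finset.mul_sum]
    refine Finset.sum_congr rfl fun U hU => ?_
    rw [Finset.sum_const, smul_eq_mul, (Finset.mem_powersetCard.mp hU).2]
  have h2 : ∑ S ∈ (Finset.univ : Finset κ).powersetCard m, (∏ i ∈ S, (d i - 1)) * ∑ i ∈ Sᶜ, (d i - 1) =
      ∑ S ∈ (Finset.univ : Finset κ).powersetCard m, ∑ i ∈ Sᶜ, (∏ j ∈ S, (d j - 1)) * (d i - 1) :=
    Finset.sum_congr rfl fun S _ => Finset.mul_sum _ _ _
  rw [h1, h2, Finset.sum_sigma', Finset.sum_sigma']
  refine Finset.sum_bij' (fun x _ => ⟨x.1.erase x.2, x.2⟩) (fun x _ => ⟨insert x.2 x.1, x.2⟩) ?_ ?_ ?_ ?_ ?_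
  · rintro ⟨U, i⟩ hx
    rw [Finset.mem_sigma, Finset.mem_powersetCard] at hx
    obtain ⟨⟨-, hU⟩, hi⟩ := hx
    rw [Finset.mem_sigma, Finset.mem_powersetCard]
    refine ⟨⟨Finset.subset_univ _, ?_⟩, ?_⟩
    · change (U.erase i).card = m
      have hU' : U.card = m + 1 := hU
      rw [Finset.card_erase_of_mem hi, hU', Nat.add_sub_cancel]
    · change i ∈ (U.erase i)ᶜ
      rw [Finset.mem_compl]
      exact Finset.notMem_erase i U
  · rintro ⟨S, i⟩ hx
    rw [Finset.mem_sigma, Finset.mem_powersetCard, Finset.mem_compl] at hx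
    obtain ⟨⟨-, hS⟩, hi⟩ := hx
    rw [Finset.mem_sigma, Finset.mem_powersetCard]
    refine ⟨⟨Finset.subset_univ _, ?_⟩, ?_⟩
    · change (insert i S).card = m + 1
      change S.card = m at hS
      rw [Finset.card_insert_of_notMem hi, hS]
    · exact Finset.mem_insert_self i S
  · rintro ⟨U, i⟩ hx
    rw [Finset.mem_sigma] at hx
    have h3 : insert i (U.erase i) = U := Finset.insert_erase hx.2
    simp only [h3]
  · rintro ⟨S, i⟩ hx
    rw [Finset.mem_sigma, Finset.mem_compl] at hx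
    have h3 : (insert i S).erase i = S := Finset.erase_insert hx.2
    simp only [h3]
  · rintro ⟨U, i⟩ hx
    rw [Finset.mem_sigma] at hx
    exact (Finset.prod_erase_mul U (fun i => d i - 1) hx.2).symm

/-- [CI-C6a] Proof.  `n * es d n = ∑ S, (∏ i ∈ S, (d i - 1)) * ∑ i ∉ S, (d i - 1)` over the `S` with `n - 1` elements (count the pairs `(S ∪ {i}, i)`), and
`∑ i ∉ S, (d i - 1) > 4 n ^ 2` by the hypothesis for `Sᶜ`; there is such an `S` and `d i - 1 ≥ 1`. -/
theorem es_lt {κ : Type} [Fintype κ] [DecidableEq κ] (n : ℕ) (hn : 1 ≤ n)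
    (hc : n ≤ Fintype.card κ) (d : κ → ℕ) (hd : ∀ i, 2 ≤ d i)
    (h : ∀ T : Finset κ, T.card + n = Fintype.card κ + 1 → 4 * n ^ 2 < ∑ i ∈ T, (d i - 1)) :
    4 * n * es d (n - 1) < es d n := by
  obtain ⟨m, rfl⟩ : ∃ m, n = m + 1 := ⟨n - 1, by omega⟩
  rw [Nat.add_sub_cancel]
  have hkey := es_key m d
  have hpos : ∀ S : Finset κ, 0 < ∏ i ∈ S, (d i - 1) := fun S =>
    Finset.prod_pos fun i _ => by have := hd i; omega
  have hne : ((Finset.univ : Finset κ).powersetCard m).Nonempty := by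
    rw [Finset.powersetCard_nonempty, Finset.card_univ]
    omega
  have hlt : 4 * (m + 1) ^ 2 * es d m < (m + 1) * es d (m + 1) := by
    rw [hkey]
    unfold es
    rw [Finset.mul_sum]
    refine Finset.sum_lt_sum_of_nonempty hne fun S hS => ?_
    rw [mul_comm]
    refine Nat.mul_lt_mul_of_pos_left ?_ (hpos S)
    apply h
    rw [Finset.card_compl, (Finset.mem_powersetCard.mp hS).2]
    omega
  have h4 : (m + 1) * (4 * (m + 1) * es d m) < (m + 1) * es d (m + 1) := by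
    calc (m + 1) * (4 * (m + 1) * es d m) = 4 * (m + 1) ^ 2 * es d m := by ring
      _ < _ := hlt
  exact Nat.lt_of_mul_lt_mul_left h4

end Pool.Agent.CI
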