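import Pool.Agent.Lib_MP_b9fedf_ci.BasicJ
import Pool.Agent.Lib_MP_b9fedf_gh.Act
import Pool.Agent.Lib_MP_b9fedf_gh.Psi

/-! [CI-D5]: the value of the universal form as a polynomial. -/

set_option autoImplicit false

namespace Pool.Agent.CI
open MvPolynomial Pool.Agent.GGL Pool.Agent.GH Pool.Agent.OG

/-- [CI-D5] Copy the proof of `GH.exists_psi` (Lib_MP_b9fedf_gh/Psi.lean), with the index type `Ix`. -/
theorem exists_psi2 {N : ℕ} {ι : Type} [Fintype ι] (d : ι → ℕ) (p : ι → Prop)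
    (P : MvPolynomial (XV N) (MvPolynomial (Ix N (fun i : {i : ι // p i} => d i.1)) ℚ))
    (g : Matrix (Fin (N + 1)) (Fin (N + 1)) ℤ) :
    ∃ Ψ : MvPolynomial (XV N) (MvPolynomial (Ix N d) ℚ),
      ∀ (a : Ix N d → ℂ) (x v : Fin (N + 1) → ℂ),
        ev a (Sum.elim x v) Ψ =
          eval (Sum.elim ((g.map (Int.cast : ℤ → ℂ)).adjugate.mulVec x)
            ((g.map (Int.cast : ℤ → ℂ)).adjugate.mulVec v))
            (sp (acts (g.map (Int.cast : ℤ → ℂ))
              (fun q : Ix N (fun i : {i : ι // p i} => d i.1) => a ⟨q.1.1, q.2⟩)) P) := by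
  have hadj : (g.map (Int.cast : ℤ → ℂ)).adjugate = g.adjugate.map (Int.cast : ℤ → ℂ) :=
    (RingHom.map_adjugate (Int.castRingHom ℂ) g).symm
  let φ : MvPolynomial (Ix N (fun i : {i : ι // p i} => d i.1)) ℚ →+*
      MvPolynomial (XV N) (MvPolynomial (Ix N d) ℚ) :=
    (C : MvPolynomial (Ix N d) ℚ →+* _).comp
      (aeval (fun y : Ix N (fun i : {i : ι // p i} => d i.1) =>
        ∑ m' : Mon N (d y.1.1), (((rep g y.2 m' : ℤ) : MvPolynomial (Ix N d) ℚ) *
          X (⟨y.1.1, m'⟩ : Ix N d)))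
          : MvPolynomial (Ix N (fun i : {i : ι // p i} => d i.1)) ℚ →ₐ[ℚ] _).toRingHom
  let uu : Fin (N + 1) → MvPolynomial (XV N) (MvPolynomial (Ix N d) ℚ) :=
    fun i => ∑ j, ((g.adjugate i j : ℤ) : MvPolynomial _ _) * X (Sum.inl j)
  let vv : Fin (N + 1) → MvPolynomial (XV N) (MvPolynomial (Ix N d) ℚ) :=
    fun i => ∑ j, ((g.adjugate i j : ℤ) : MvPolynomial _ _) * X (Sum.inr j)
  refine ⟨eval₂ φ (Sum.elim uu vv) P, ?_⟩
  intro a x v
  obtain ⟨E, hE⟩ : ∃ E : MvPolynomial (XV N) (MvPolynomial (Ix N d) ℚ) →+* ℂ,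
      E = eval₂Hom ((aeval a : MvPolynomial (Ix N d) ℚ →ₐ[ℚ] ℂ) : MvPolynomial (Ix N d) ℚ →+* ℂ)
        (Sum.elim x v) := ⟨_, rfl⟩
  have h1 : ev a (Sum.elim x v) (eval₂ φ (Sum.elim uu vv) P) =
      E (eval₂ φ (Sum.elim uu vv) P) := by rw [hE]; rfl
  have hse : E ∘ Sum.elim uu vv = Sum.elim (E ∘ uu) (E ∘ vv) := by
    funext y
    rcases y with y | y <;> rfl
  rw [h1, eval₂_comp_left, hse]
  unfold sp
  rw [eval_map]
  have hX : ∀ w, E (X w) = Sum.elim x v w := by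
    intro w
    rw [hE, coe_eval₂Hom, eval₂_X]
  have hC : ∀ w, E (C w) = aeval a w := by
    intro w
    rw [hE, coe_eval₂Hom, eval₂_C]
    rfl
  have hu : E ∘ uu = (g.map (Int.cast : ℤ → ℂ)).adjugate.mulVec x := by
    funext i
    rw [hadj]
    show E (∑ j, ((g.adjugate i j : ℤ) : MvPolynomial _ _) * X (Sum.inl j)) = _
    rw [map_sum]
    simp only [map_mul, map_intCast, hX, Sum.elim_inl]
    rfl
  have hv : E ∘ vv = (g.map (Int.cast : ℤ → ℂ)).adjugate.mulVec v := by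
    funext i
    rw [hadj]
    show E (∑ j, ((g.adjugate i j : ℤ) : MvPolynomial _ _) * X (Sum.inr j)) = _
    rw [map_sum]
    simp only [map_mul, map_intCast, hX, Sum.elim_inr]
    rfl
  rw [hu, hv]
  congr 1
  apply MvPolynomial.ringHom_ext
  · intro r
    exact RingHom.congr_fun (Subsingleton.elim ((E.comp φ).comp C)
      ((aeval (acts (g.map (Int.cast : ℤ → ℂ))
        (fun q : Ix N (fun i : {i : ι // p i} => d i.1) => a ⟨q.1.1, q.2⟩)) :
          MvPolynomial (Ix N (fun i : {i : ι // p i} => d i.1)) ℚ →ₐ[ℚ] ℂ).toRingHom.comp C)) r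
  · intro y
    show E (C (aeval (fun y : Ix N (fun i : {i : ι // p i} => d i.1) =>
        ∑ m' : Mon N (d y.1.1), (((rep g y.2 m' : ℤ) : MvPolynomial (Ix N d) ℚ) *
          X (⟨y.1.1, m'⟩ : Ix N d))) (X y))) =
      aeval (acts (g.map (Int.cast : ℤ → ℂ))
        (fun q : Ix N (fun i : {i : ι // p i} => d i.1) => a ⟨q.1.1, q.2⟩)) (X y)
    rw [aeval_X, aeval_X, hC, map_sum]
    unfold acts
    rw [act_eq]
    simp only [map_mul, map_intCast, aeval_X]

end Pool.Agent.CI
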