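import Pool.Agent.Lib_MP_b9fedf_ci.SncTd
import Pool.Agent.Lib_MP_b9fedf_og.Elim
import Pool.Agent.Lib_MP_b9fedf_og.AlgInd
import Pool.Agent.Lib_MP_b9fedf_ci.BasicJ

/-! [CI-B3]: general complete intersections have normal crossings with given linear forms. -/

set_option autoImplicit false

namespace Pool.Agent.CI
open MvPolynomial Pool.Agent.GGL Pool.Agent.GH Pool.Agent.OG

/-- the universal form -/
private noncomputable def uf (N : ℕ) {κ : Type} (d : κ → ℕ) (i : κ) :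
    MvPolynomial (Fin (N + 1)) (MvPolynomial (Ix N d) ℚ) :=
  fa (fun p : Ix N d => (X p : MvPolynomial (Ix N d) ℚ)) i

/-- the linear form with integral coefficients -/
private noncomputable def ul (N : ℕ) {κ : Type} (d : κ → ℕ) (u : Fin (N + 1) → ℤ) :
    MvPolynomial (Fin (N + 1)) (MvPolynomial (Ix N d) ℚ) :=
  lf (fun s => ((u s : ℤ) : MvPolynomial (Ix N d) ℚ))

/-- the equations -/
private noncomputable def PsiC (N h : ℕ) {κ : Type} [Fintype κ] (d : κ → ℕ)
    (l : Fin h → Fin (N + 1) → ℤ) :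
    κ ⊕ (Fin h ⊕ Fin (N + 1)) →
      MvPolynomial (Fin (N + 1) ⊕ (κ ⊕ Fin h)) (MvPolynomial (Ix N d) ℚ) :=
  Sum.elim (fun i => rename Sum.inl (uf N d i))
    (Sum.elim (fun j => X (Sum.inr (Sum.inr j)) * rename Sum.inl (ul N d (l j)))
      (fun s => ∑ i, X (Sum.inr (Sum.inl i)) * rename Sum.inl (pderiv s (uf N d i)) +
        ∑ j, X (Sum.inr (Sum.inr j)) * C (((l j s : ℤ) : MvPolynomial (Ix N d) ℚ))))

private theorem map_uf {N : ℕ} {κ : Type} {d : κ → ℕ} (a : Ix N d → ℂ) (i : κ) :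
    map ((aeval a : MvPolynomial (Ix N d) ℚ →ₐ[ℚ] ℂ) : MvPolynomial (Ix N d) ℚ →+* ℂ)
      (uf N d i) = fa a i := by
  unfold uf
  rw [map_fa]
  congr 1
  funext p
  simp

private theorem map_ul {N : ℕ} {κ : Type} {d : κ → ℕ} (a : Ix N d → ℂ) (u : Fin (N + 1) → ℤ) :
    map ((aeval a : MvPolynomial (Ix N d) ℚ →ₐ[ℚ] ℂ) : MvPolynomial (Ix N d) ℚ →+* ℂ)
      (ul N d u) = lf (fun s => ((u s : ℤ) : ℂ)) := by
  unfold ul
  rw [map_lf]
  congr 1
  funext s
  simp

private theorem ev_ren {N h : ℕ} {κ : Type} {d : κ → ℕ} (a : Ix N d → ℂ)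
    (w : Fin (N + 1) ⊕ (κ ⊕ Fin h) → ℂ)
    (Q : MvPolynomial (Fin (N + 1)) (MvPolynomial (Ix N d) ℚ)) :
    ev a w (rename Sum.inl Q) = eval (fun j => w (Sum.inl j))
      (map ((aeval a : MvPolynomial (Ix N d) ℚ →ₐ[ℚ] ℂ) : MvPolynomial (Ix N d) ℚ →+* ℂ)
        Q) := by
  unfold ev
  rw [eval₂_rename, eval_map]
  rfl

private theorem ev_one {N h : ℕ} {κ : Type} [Fintype κ] {d : κ → ℕ} (l : Fin h → Fin (N + 1) → ℤ)
    (a : Ix N d → ℂ) (w : Fin (N + 1) ⊕ (κ ⊕ Fin h) → ℂ) (i : κ) :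
    ev a w (PsiC N h d l (Sum.inl i)) = eval (fun j => w (Sum.inl j)) (fa a i) := by
  have h := ev_ren (h := h) a w (uf N d i)
  rw [map_uf] at h
  exact h

private theorem ev_two {N h : ℕ} {κ : Type} [Fintype κ] {d : κ → ℕ} (l : Fin h → Fin (N + 1) → ℤ)
    (a : Ix N d → ℂ) (w : Fin (N + 1) ⊕ (κ ⊕ Fin h) → ℂ) (j : Fin h) :
    ev a w (PsiC N h d l (Sum.inr (Sum.inl j))) =
      w (Sum.inr (Sum.inr j)) * ∑ s, (l j s : ℂ) * w (Sum.inl s) := by
  have h := ev_ren (h := h) a w (ul N d (l j))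
  rw [map_ul, eval_lf] at h
  rw [← h]
  unfold PsiC ev
  rw [Sum.elim_inr, Sum.elim_inl, eval₂_mul, eval₂_X]

private theorem ev_three {N h : ℕ} {κ : Type} [Fintype κ] {d : κ → ℕ} (l : Fin h → Fin (N + 1) → ℤ)
    (a : Ix N d → ℂ) (w : Fin (N + 1) ⊕ (κ ⊕ Fin h) → ℂ) (s : Fin (N + 1)) :
    ev a w (PsiC N h d l (Sum.inr (Sum.inr s))) =
      ∑ i, w (Sum.inr (Sum.inl i)) * eval (fun j => w (Sum.inl j)) (pderiv s (fa a i)) +
        ∑ j, w (Sum.inr (Sum.inr j)) * (l j s : ℂ) := by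
  have h : ∀ i, eval (fun j => w (Sum.inl j)) (pderiv s (fa a i)) =
      ev a w (rename Sum.inl (pderiv s (uf N d i))) := by
    intro i
    rw [ev_ren, ← pderiv_map, map_uf]
  simp only [h]
  unfold PsiC ev
  rw [Sum.elim_inr, Sum.elim_inr, eval₂_add, eval₂_sum, eval₂_sum]
  congr 1
  · refine Finset.sum_congr rfl fun i _ => ?_
    rw [eval₂_mul, eval₂_X]
  · refine Finset.sum_congr rfl fun j _ => ?_
    rw [eval₂_mul, eval₂_X, eval₂_C]
    simp

/-- [CI-B3] Proof.  `OG.elim` with the variables `W = Fin (N + 1) ⊕ (κ ⊕ Fin h)` (`x`, `lam`, `mu`), the parameters `E = Ix N d`, the equations `F_i(x)`,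
`mu_j l_j(x)` and `∑ lam_i ∂_s F_i(x) + ∑ mu_j l_js`, and the conclusions `x_k lam_i`, `x_k mu_j`; `a₀` from `exists_algInd`, `sncL_td`.  Then `SncL` for all
`a` with `D(a) ≠ 0`: a linear relation between the gradients and the `l_j`, `j ∈ B`, gives `lam`, `mu` (`mu j = 0` off `B`), and `x_k ≠ 0` for some `k`.
Compare `snc_open` in Lib_MP_b9fedf_gh/SncOpen.lean. -/
theorem sncL_open {N n h : ℕ} {κ : Type} [Fintype κ] [DecidableEq κ] {d : κ → ℕ}
    (hN : N = n + Fintype.card κ) (hd : ∀ i, 1 ≤ d i) (l : Fin h → Fin (N + 1) → ℤ)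
    (hl : ∀ B : Finset (Fin h), B.card ≤ n + 1 →
      LinearIndependent ℚ (fun j : B => fun k => ((l j k : ℤ) : ℚ))) :
    ∃ S : MvPolynomial (Ix N d) ℚ, S ≠ 0 ∧ ∀ a : Ix N d → ℂ, aeval a S ≠ 0 →
      SncL (fa a) (fun j k => ((l j k : ℤ) : ℂ)) := by
  classical
  obtain ⟨a₀, ha₀⟩ := exists_algInd (Ix N d)
  obtain ⟨s, D, hD, he⟩ := elim (PsiC N h d l)
    (fun p : Fin (N + 1) × (κ ⊕ Fin h) => (X (Sum.inl p.1) * X (Sum.inr p.2) :
      MvPolynomial (Fin (N + 1) ⊕ (κ ⊕ Fin h)) ℚ)) a₀ ha₀ (by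
      intro w hw p
      rw [map_mul, aeval_X, aeval_X]
      by_cases hk : w (Sum.inl p.1) = 0
      · rw [hk, zero_mul]
      · have h1 := sncL_td hN hd a₀ ha₀ l hl (fun j => w (Sum.inl j))
          (fun i => w (Sum.inr (Sum.inl i))) (fun j => w (Sum.inr (Sum.inr j))) p.1 hk
          (fun i => by
            have := hw (Sum.inl i)
            rwa [ev_one] at this)
          (fun j => by
            have := hw (Sum.inr (Sum.inl j))
            rwa [ev_two] at this)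
          (fun s => by
            have := hw (Sum.inr (Sum.inr s))
            rwa [ev_three] at this)
        rcases hp : p.2 with i | j
        · rw [h1.1 i, mul_zero]
        · rw [h1.2 j, mul_zero])
  refine ⟨D, hD, fun a ha x hx hF B hB => ?_⟩
  obtain ⟨k, hk⟩ := Function.ne_iff.1 hx
  rw [Fintype.linearIndependent_iff]
  intro g hg
  obtain ⟨mu, hmu⟩ : ∃ mu : Fin h → ℂ, ∀ j : Fin h,
      mu j = if hj : j ∈ B then g (Sum.inr ⟨j, hj⟩) else 0 := ⟨_, fun _ => rfl⟩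
  have hmuB : ∀ j : B, mu j = g (Sum.inr j) := by
    intro j
    rw [hmu, dif_pos j.2]
  have hmu0 : ∀ j, j ∉ B → mu j = 0 := by
    intro j hj
    rw [hmu, dif_neg hj]
  have key := he a ha (Sum.elim x (Sum.elim (fun i => g (Sum.inl i)) mu)) (by
    intro t _
    rcases t with i | j | s
    · rw [ev_one]
      exact hF i
    · rw [ev_two]
      by_cases hj : j ∈ B
      · have h1 := hB j hj
        rw [eval_lf] at h1
        simp only [Sum.elim_inl, Sum.elim_inr]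
        rw [h1, mul_zero]
      · simp only [Sum.elim_inl, Sum.elim_inr]
        rw [hmu0 j hj, zero_mul]
    · rw [ev_three]
      simp only [Sum.elim_inl, Sum.elim_inr]
      have h1 := congrFun hg s
      rw [Fintype.sum_sum_type] at h1
      simp only [Sum.elim_inl, Sum.elim_inr, Pi.add_apply, Finset.sum_apply, Pi.smul_apply,
        smul_eq_mul, Pi.zero_apply] at h1
      have h2 : ∑ j, mu j * (l j s : ℂ) = ∑ j : B, g (Sum.inr j) * (l j s : ℂ) := by
        rw [← Finset.sum_subset (Finset.subset_univ B) (fun j _ hj => by rw [hmu0 j hj, zero_mul]),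
          ← Finset.sum_coe_sort]
        exact Finset.sum_congr rfl fun j _ => by rw [hmuB j]
      rw [h2]
      exact h1)
  intro p
  rcases p with i | j
  · have h1 := key (k, Sum.inl i)
    rw [map_mul, aeval_X, aeval_X] at h1
    exact (mul_eq_zero.1 h1).resolve_left hk
  · have h1 := key (k, Sum.inr j)
    rw [map_mul, aeval_X, aeval_X] at h1
    have h2 : mu j = 0 := (mul_eq_zero.1 h1).resolve_left hk
    rw [← hmuB j, h2]

end Pool.Agent.CI
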