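import Pool.Agent.Lib_MP_b9fedf_ci.UnivEx2
import Pool.Agent.Lib_MP_b9fedf_ci.Psi2
import Pool.Agent.Lib_MP_b9fedf_ci.ExInt2
import Pool.Agent.Lib_MP_b9fedf_ci.GenEval2
import Pool.Agent.Lib_MP_b9fedf_ci.Norm2
import Pool.Agent.Lib_MP_b9fedf_ci.Indep2
import Pool.Agent.Lib_MP_b9fedf_ci.SncOp
import Pool.Agent.Lib_MP_b9fedf_og.Elim
import Pool.Agent.Lib_MP_b9fedf_og.AlgInd

/-! [CI-E]: general complete intersections satisfy the condition `GenC`. -/

set_option autoImplicit false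

namespace Pool.Agent.CI
open MvPolynomial Pool.Agent.GGL Pool.Agent.GH Pool.Agent.OG

theorem ev_sp {E W : Type} (a : E → ℂ) (w : W → ℂ) (Q : MvPolynomial W (MvPolynomial E ℚ)) :
    ev a w Q = eval w (sp a Q) := by
  unfold ev sp
  rw [eval_map]
  rfl

theorem sp_fa {N : ℕ} {κ : Type} {d : κ → ℕ} (a : Ix N d → ℂ) (i : κ) :
    MvPolynomial.map (aeval a : MvPolynomial (Ix N d) ℚ →ₐ[ℚ] ℂ).toRingHom
      (fa (fun p : Ix N d => (X p : MvPolynomial (Ix N d) ℚ)) i) = fa a i := by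
  rw [map_fa]
  congr 1
  funext p
  change aeval a (X p : MvPolynomial (Ix N d) ℚ) = _
  rw [aeval_X]

theorem ev_inx_fa {N : ℕ} {κ : Type} {d : κ → ℕ} (a : Ix N d → ℂ) (x v : Fin (N + 1) → ℂ)
    (i : κ) : ev a (Sum.elim x v) (inx (fa (fun p : Ix N d => (X p : MvPolynomial (Ix N d) ℚ)) i)) =
      eval x (fa a i) := by
  rw [ev_sp]
  unfold sp
  rw [map_inx, sp_fa, eval_inx]

theorem ev_dif_fa {N : ℕ} {κ : Type} {d : κ → ℕ} (a : Ix N d → ℂ) (x v : Fin (N + 1) → ℂ)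
    (i : κ) : ev a (Sum.elim x v) (dif (fa (fun p : Ix N d => (X p : MvPolynomial (Ix N d) ℚ)) i)) =
      dv (fa a i) x v := by
  rw [ev_sp]
  unfold sp
  rw [map_dif, sp_fa, eval_dif]
  rfl

theorem pair_k {N : ℕ} (k l : Fin (N + 1)) (x v : Fin (N + 1) → ℂ)
    (hk : x k = 1) (hvk : v k = 0) (hvl : v l = 1) : LinearIndependent ℂ ![x, v] := by
  rw [LinearIndependent.pair_iff]
  intro s t hst
  have h1 := congrFun hst k
  simp only [Pi.add_apply, Pi.smul_apply, smul_eq_mul, Pi.zero_apply, hk, hvk, mul_one,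
    mul_zero, add_zero] at h1
  have h2 := congrFun hst l
  simp only [Pi.add_apply, Pi.smul_apply, smul_eq_mul, Pi.zero_apply, hvl, mul_one, h1,
    zero_mul, zero_add] at h2
  exact ⟨h1, h2⟩

/-- the data of the universal forms for the complements of the sets `R` -/
theorem univ_R {ι : Type} [Fintype ι] [DecidableEq ι] {n N : ℕ} (hn : 1 ≤ n)
    (hN : N = n + Fintype.card ι) (d : ι → ℕ) (hd : ∀ i, 2 ≤ d i)
    (hc : 5 * n ≤ Fintype.card ι + 3)
    (h : ∀ T : Finset ι, T.card + 5 * n = Fintype.card ι + 3 →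
      4 * (3 * n - 1) ^ 2 < ∑ i ∈ T, (d i - 1)) (R : Finset ι) (hR : R.card = 2 * n - 1) :
    UnivC N (3 * n - 1) (fun i : {i : ι // i ∉ R} => d i.1) := by
  have h5 : 5 * n < Fintype.card ι + 3 := by
    rcases Nat.lt_or_ge (5 * n) (Fintype.card ι + 3) with h1 | h1
    · exact h1
    · have h2 := h ∅ (by rw [Finset.card_empty]; omega)
      rw [Finset.sum_empty] at h2
      omega
  have hcard : Fintype.card {i : ι // i ∉ R} = Fintype.card ι - (2 * n - 1) := by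
    have h2 := Fintype.card_subtype_compl (fun i => i ∈ R)
    rw [h2, Fintype.card_coe, hR]
  refine univC_exists (by omega) (by rw [hcard]; omega) (by rw [hcard]; omega) _
    (fun i => hd i.1) fun T hT => ?_
  have h3 := h (T.map ⟨Subtype.val, Subtype.val_injective⟩) (by
    rw [Finset.card_map]
    rw [hcard] at hT
    omega)
  rw [Finset.sum_map] at h3
  exact h3

theorem free_ind {ι κ : Type} {N : ℕ} {d : ι → ℕ} (hd1 : ∀ i, 1 ≤ d i) (k l : Fin (N + 1))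
    (a : Ix N d → ℂ) (A : Subalgebra ℚ ℂ) (E' S : Finset (Ix N d))
    (hE : ∀ p, p ∈ E' ↔ IsFree hd1 k l p) (em : κ → ι) (hem : Function.Injective em)
    (hS : ∀ i, ∀ p ∈ S, p.1 ≠ em i)
    (hSi : AlgebraicIndependent A (fun e : {e // e ∈ E' ∧ e ∉ S} => a e)) :
    AlgebraicIndependent A
        (fun p : {p : Ix N (fun i => d (em i)) // IsFree (fun i => hd1 (em i)) k l p} =>
          a ⟨em p.1.1, p.1.2⟩) := by
  let f : {p : Ix N (fun i => d (em i)) // IsFree (fun i => hd1 (em i)) k l p} →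
      {e // e ∈ E' ∧ e ∉ S} := fun p =>
    ⟨⟨em p.1.1, p.1.2⟩, (hE _).mpr p.2, fun h => hS p.1.1 _ h rfl⟩
  have hf : Function.Injective f := by
    rintro ⟨⟨i, m⟩, hp⟩ ⟨⟨j, m'⟩, hq⟩ hpq
    have h1 := congrArg Subtype.val hpq
    simp only [f, Sigma.mk.injEq] at h1
    obtain ⟨h2, h3⟩ := h1
    have h2' := hem h2
    subst h2'
    have h4 := eq_of_heq h3
    subst h4
    rfl
  exact hSi.comp f hf

theorem sp_bihom {N α β : ℕ} {E : Type} (P : MvPolynomial (XV N) (MvPolynomial E ℚ))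
    (hP : BiHom α β P) (a : E → ℂ) : BiHom α β (sp a P) := by
  intro m hm
  refine hP (fun h0 => hm ?_)
  unfold sp
  rw [coeff_map, h0, map_zero]

/-- the universal form for the complement of `R` at a generic member -/
theorem key_R {ι κ : Type} [Fintype κ] {N α β : ℕ} {d : ι → ℕ} (hd1 : ∀ i, 1 ≤ d i)
    (em : κ → ι) (P : MvPolynomial (XV N) (MvPolynomial (Ix N (fun i => d (em i))) ℚ))
    (hP : BiHom α β P) (a₁ : Ix N (fun i => d (em i)) → ℂ) (x₁ v₁ : Fin (N + 1) → ℂ)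
    (hli : LinearIndependent ℂ ![x₁, v₁]) (hI : Inc (fa a₁) x₁ v₁)
    (hne : eval (Sum.elim x₁ v₁) (sp a₁ P) ≠ 0) (a : Ix N d → ℂ) (k l : Fin (N + 1))
    (hlk : l ≠ k) (x v : Fin (N + 1) → ℂ) (hk : x k = 1) (hvk : v k = 0) (hvl : v l = 1)
    (A : Subalgebra ℚ ℂ) (hx : ∀ j, x j ∈ A) (hv : ∀ j, v j ∈ A) (hInc : Inc (fa a) x v)
    (ha : AlgebraicIndependent A
        (fun p : {p : Ix N (fun i => d (em i)) // IsFree (fun i => hd1 (em i)) k l p} =>
          a ⟨em p.1.1, p.1.2⟩)) :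
    ∃ g : Matrix (Fin (N + 1)) (Fin (N + 1)) ℤ, g.det ≠ 0 ∧
      eval (Sum.elim ((g.map (Int.cast : ℤ → ℂ)).adjugate.mulVec x)
        ((g.map (Int.cast : ℤ → ℂ)).adjugate.mulVec v))
        (sp (acts (g.map (Int.cast : ℤ → ℂ))
          (fun q : Ix N (fun i => d (em i)) => a ⟨em q.1, q.2⟩)) P) ≠ 0 := by
  obtain ⟨g, c, hg, hcI, hcne⟩ := exists_int2 P hP a₁ x₁ v₁ hli hI hne x v
    (pair_k k l x v hk hvk hvl)
  refine ⟨g, hg, ?_⟩
  exact gen_eval2 (fun i => hd1 (em i)) k l hlk x v hk hvk hvl A hx hv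
    (fun q : Ix N (fun i => d (em i)) => a ⟨em q.1, q.2⟩) (fun i => hInc (em i)) ha P g c hcI hcne

/-- the free coefficients after the choice of `R` -/
theorem exists_R {ι : Type} [Fintype ι] [DecidableEq ι] {n N : ℕ} (hn : 1 ≤ n)
    (hN : N = n + Fintype.card ι) {d : ι → ℕ} (hd1 : ∀ i, 1 ≤ d i)
    (hcι : 2 * n - 1 ≤ Fintype.card ι) (a₀ : Ix N d → ℂ) (ha₀ : AlgebraicIndependent ℚ a₀)
    (k l : Fin (N + 1)) (hlk : l ≠ k) (y : Fin (2 * N - 1) → ℂ) (x v : Fin (N + 1) → ℂ)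
    (hk : x k = 1) (hvk : v k = 0) (hvl : v l = 1)
    (hx : ∀ j, x j ∈ Algebra.adjoin ℚ (Set.range y))
    (hv : ∀ j, v j ∈ Algebra.adjoin ℚ (Set.range y)) (hInc : Inc (fa a₀) x v) :
    ∃ R : Finset ι, R.card = 2 * n - 1 ∧ AlgebraicIndependent (Algebra.adjoin ℚ (Set.range y))
        (fun p : {p : Ix N (fun i : {i : ι // i ∉ R} => d i.1) //
          IsFree (fun i : {i : ι // i ∉ R} => hd1 i.1) k l p} => a₀ ⟨p.1.1.1, p.1.2⟩) := by
  classical
  set E' : Finset (Ix N d) := Finset.univ.filter (fun p => IsFree hd1 k l p) with hE'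
  have hE'm : ∀ p, p ∈ E' ↔ IsFree hd1 k l p := fun p => by
    rw [hE', Finset.mem_filter]
    exact ⟨fun h => h.2, fun h => ⟨Finset.mem_univ _, h⟩⟩
  have hle : Algebra.adjoin ℚ (Set.range y) ≤
      Algebra.adjoin ℚ (Set.range y ∪ a₀ '' (E' : Set (Ix N d))) :=
    Algebra.adjoin_mono Set.subset_union_left
  obtain ⟨S, hSE, hScard, hSi⟩ := indep_off2 a₀ ha₀ y E' (fun p _ =>
    coef_mem hd1 k l hlk x v hk hvk hvl a₀ hInc _ (fun j => hle (hx j))
      (fun j => hle (hv j)) (fun q hq => Algebra.subset_adjoin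
        (Set.mem_union_right _ ⟨q, Finset.mem_coe.mpr ((hE'm q).mpr hq), rfl⟩)) p)
  have hcf := card_free hd1 k l hlk E' hE'm
  have hScard' : (S.image Sigma.fst).card ≤ 2 * n - 1 := by
    refine Finset.card_image_le.trans ?_
    omega
  obtain ⟨R, hRS, hRc⟩ := Finset.exists_superset_card_eq hScard' hcι
  refine ⟨R, hRc, ?_⟩
  exact free_ind hd1 k l a₀ _ E' S hE'm (fun i : {i : ι // i ∉ R} => i.1)
    Subtype.val_injective (fun i p hp h => i.2 (h ▸ hRS (Finset.mem_image_of_mem _ hp))) hSi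

/-- [CI-E] -/
theorem genC_open {ι : Type} [Fintype ι] [DecidableEq ι] {n N : ℕ} (hn : 1 ≤ n)
    (hN : N = n + Fintype.card ι) (d : ι → ℕ) (hd : ∀ i, 2 ≤ d i)
    (hc : 5 * n ≤ Fintype.card ι + 3)
    (h : ∀ T : Finset ι, T.card + 5 * n = Fintype.card ι + 3 →
      4 * (3 * n - 1) ^ 2 < ∑ i ∈ T, (d i - 1)) :
    ∃ S : MvPolynomial (Ix N d) ℚ, S ≠ 0 ∧ ∀ a : Ix N d → ℂ, aeval a S ≠ 0 →
      GenC (fa a) ∧ SncL (fa a) (fun (j : Fin 0) (_ : Fin (N + 1)) => (Fin.elim0 j : ℂ)) := by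
  classical
  have hd1 : ∀ i, 1 ≤ d i := fun i => by have := hd i; omega
  have hcι : 2 * n - 1 ≤ Fintype.card ι := by omega
  let RT : Type := {R : Finset ι // R.card = 2 * n - 1}
  have hU : ∀ R : RT, UnivC N (3 * n - 1) (fun i : {i : ι // i ∉ R.1} => d i.1) := fun R =>
    univ_R hn hN d hd hc h R.1 R.2
  choose α β hh l P hlt hl hPh hPJ a₁ x₁ v₁ hli₁ hI₁ hne₁ using hU
  let T : Type := RT × {g : Matrix (Fin (N + 1)) (Fin (N + 1)) ℤ // g.det ≠ 0}
  have hΨ : ∀ t : T, ∃ Ψ : MvPolynomial (XV N) (MvPolynomial (Ix N d) ℚ),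
      ∀ (a : Ix N d → ℂ) (x v : Fin (N + 1) → ℂ),
        ev a (Sum.elim x v) Ψ =
          eval (Sum.elim ((t.2.1.map (Int.cast : ℤ → ℂ)).adjugate.mulVec x)
            ((t.2.1.map (Int.cast : ℤ → ℂ)).adjugate.mulVec v))
            (sp (acts (t.2.1.map (Int.cast : ℤ → ℂ))
              (fun q : Ix N (fun i : {i : ι // i ∉ t.1.1} => d i.1) => a ⟨q.1.1, q.2⟩)) (P t.1)) :=
    fun t => exists_psi2 d (fun i => i ∉ t.1.1) (P t.1) t.2.1
  choose Ψ hΨ using hΨ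
  obtain ⟨a₀, ha₀⟩ := exists_algInd (Ix N d)
  let Eq : Fin (N + 1) → T ⊕ ((ι ⊕ ι) ⊕ Unit) → MvPolynomial (XV N) (MvPolynomial (Ix N d) ℚ) :=
    fun k => Sum.elim Ψ (Sum.elim (Sum.elim
      (fun i => inx (fa (fun p : Ix N d => (X p : MvPolynomial (Ix N d) ℚ)) i))
      (fun i => dif (fa (fun p : Ix N d => (X p : MvPolynomial (Ix N d) ℚ)) i)))
      (fun _ => X (Sum.inr k)))
  have hev3 : ∀ (k : Fin (N + 1)) (a : Ix N d → ℂ) (x v : Fin (N + 1) → ℂ),
      ev a (Sum.elim x v) (X (Sum.inr k) : MvPolynomial (XV N) (MvPolynomial (Ix N d) ℚ)) = v k := by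
    intro k a x v
    unfold ev
    rw [eval₂_X, Sum.elim_inr]
  -- the generic member
  have key : ∀ k : Fin (N + 1), ∀ w : XV N → ℂ, (∀ t, ev a₀ w (Eq k t) = 0) →
      ∀ l : Fin (N + 1), aeval w (X (Sum.inl k) * X (Sum.inr l) : MvPolynomial (XV N) ℚ) = 0 := by
    intro k w hw l₁
    obtain ⟨x, v, rfl⟩ : ∃ x v : Fin (N + 1) → ℂ, w = Sum.elim x v :=
      ⟨w ∘ Sum.inl, w ∘ Sum.inr, (Sum.elim_comp_inl_inr w).symm⟩
    rw [map_mul, aeval_X, aeval_X, Sum.elim_inl, Sum.elim_inr]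
    by_contra hne
    have hxk : x k ≠ 0 := left_ne_zero_of_mul hne
    have hv : v ≠ 0 := by
      intro h0
      exact right_ne_zero_of_mul hne (congrFun h0 l₁)
    have hInc : Inc (fa a₀) x v := by
      intro i
      have e1 := hw (Sum.inr (Sum.inl (Sum.inl i)))
      have e2 := hw (Sum.inr (Sum.inl (Sum.inr i)))
      simp only [Eq, Sum.elim_inr, Sum.elim_inl] at e1 e2
      rw [ev_inx_fa] at e1
      rw [ev_dif_fa] at e2
      exact ⟨e1, e2⟩
    have hvk : v k = 0 := by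
      have e1 := hw (Sum.inr (Sum.inr ()))
      simp only [Eq, Sum.elim_inr] at e1
      rwa [hev3] at e1
    obtain ⟨l₂, y, x', v', s, t, hlk, hs, ht, hxs, hvt, hx', hv', hxk', hvk', hvl'⟩ :=
      norm2 k x v hxk hvk hv
    have hInc' : Inc (fa a₀) x' v' := by
      have h1 := hInc.smul hd1 (fa_hom a₀) s⁻¹ t⁻¹
      rw [hxs, hvt, smul_smul, smul_smul, inv_mul_cancel₀ hs, inv_mul_cancel₀ ht, one_smul,
        one_smul] at h1
      exact h1
    obtain ⟨R, hRc, hfree⟩ := exists_R hn hN hd1 hcι a₀ ha₀ k l₂ hlk y x' v' hxk' hvk' hvl' hx' hv'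
      hInc'
    obtain ⟨g, hg, h1⟩ := key_R hd1 (fun i : {i : ι // i ∉ R} => i.1) (P ⟨R, hRc⟩)
      (hPh ⟨R, hRc⟩) (a₁ ⟨R, hRc⟩) (x₁ ⟨R, hRc⟩) (v₁ ⟨R, hRc⟩) (hli₁ ⟨R, hRc⟩) (hI₁ ⟨R, hRc⟩)
      (hne₁ ⟨R, hRc⟩) a₀ k l₂ hlk x' v' hxk' hvk' hvl' _ hx' hv' hInc' hfree
    have h2 := hw (Sum.inl (⟨R, hRc⟩, ⟨g, hg⟩))
    have h3 : ev a₀ (Sum.elim x v) (Ψ (⟨R, hRc⟩, ⟨g, hg⟩)) = 0 := h2
    rw [hΨ] at h3
    have hh := sp_bihom (P ⟨R, hRc⟩) (hPh ⟨R, hRc⟩) (acts (g.map (Int.cast : ℤ → ℂ))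
          (fun q : Ix N (fun i : {i : ι // i ∉ R} => d i.1) => a₀ ⟨q.1.1, q.2⟩))
    rw [hxs, hvt, Matrix.mulVec_smul, Matrix.mulVec_smul, eval_bihom hh] at h3
    exact mul_ne_zero (mul_ne_zero (pow_ne_zero _ hs) (pow_ne_zero _ ht)) h1 h3
  -- finitely many equations suffice
  have hel : ∀ k : Fin (N + 1), ∃ (T' : Finset (T ⊕ ((ι ⊕ ι) ⊕ Unit))) (D : MvPolynomial (Ix N d) ℚ),
      D ≠ 0 ∧ ∀ a : Ix N d → ℂ, aeval a D ≠ 0 → ∀ w : XV N → ℂ,
        (∀ t ∈ T', ev a w (Eq k t) = 0) → ∀ l : Fin (N + 1),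
          aeval w (X (Sum.inl k) * X (Sum.inr l) : MvPolynomial (XV N) ℚ) = 0 := fun k =>
    elim (Eq k) (fun l : Fin (N + 1) => (X (Sum.inl k) * X (Sum.inr l) : MvPolynomial (XV N) ℚ))
      a₀ ha₀ (key k)
  choose T' D hD hDT using hel
  -- normal crossings
  have hsn : ∀ t : T, ∃ S : MvPolynomial (Ix N d) ℚ, S ≠ 0 ∧ ∀ a : Ix N d → ℂ, aeval a S ≠ 0 →
      SncL (fa a) (fun j k => ((∑ i, l t.1 j i * t.2.1.adjugate i k : ℤ) : ℂ)) := by
    intro t
    have hadj : t.2.1.adjugate.det ≠ 0 := by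
      rw [Matrix.det_adjugate]
      exact pow_ne_zero _ t.2.2
    have h1 := indep_comp (m := n + 1) (l t.1) (fun B hB => hl t.1 B (by omega)) t.2.1.adjugate hadj
    exact sncL_open hN hd1 (fun j k => ∑ i, l t.1 j i * t.2.1.adjugate i k) (by
      intro B hB
      have h2 := h1 B hB
      exact_mod_cast h2)
  choose Sn hSn0 hSn using hsn
  obtain ⟨S₀, hS₀, hS₀a⟩ := sncL_open (h := 0) hN hd1 (fun j _ => Fin.elim0 j) (by
    intro B hB
    have : IsEmpty B := ⟨fun j => Fin.elim0 j.1⟩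
    exact linearIndependent_empty_type)
  refine ⟨S₀ * ∏ k, (D k * ∏ t ∈ T' k, Sum.elim Sn (fun _ => 1) t), ?_, fun a ha => ?_⟩
  · refine mul_ne_zero hS₀ (Finset.prod_ne_zero_iff.mpr fun k _ => mul_ne_zero (hD k)
      (Finset.prod_ne_zero_iff.mpr fun t _ => ?_))
    rcases t with t | t
    · exact hSn0 t
    · exact one_ne_zero
  rw [map_mul, map_prod] at ha
  have ha1 := left_ne_zero_of_mul ha
  have ha2 := Finset.prod_ne_zero_iff.mp (right_ne_zero_of_mul ha)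
  refine ⟨?_, ?_⟩
  · intro k x v hInc hxk hvk hv
    have ha3 := ha2 k (Finset.mem_univ k)
    rw [map_mul, map_prod] at ha3
    have ha4 := left_ne_zero_of_mul ha3
    have ha5 := Finset.prod_ne_zero_iff.mp (right_ne_zero_of_mul ha3)
    obtain ⟨l₁, hl₁⟩ := Function.ne_iff.mp hv
    rw [Pi.zero_apply] at hl₁
    obtain ⟨t, htT, ht⟩ : ∃ t ∈ T' k, ev a (Sum.elim x v) (Eq k t) ≠ 0 := by
      by_contra hcon
      push Not at hcon
      have h1 := hDT k a ha4 (Sum.elim x v) hcon l₁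
      rw [map_mul, aeval_X, aeval_X, Sum.elim_inl, Sum.elim_inr] at h1
      exact mul_ne_zero hxk hl₁ h1
    rcases t with t | ((i | i) | u)
    · have h6 := ha5 _ htT
      rw [Sum.elim_inl] at h6
      have h7 := hSn t a h6
      simp only [Eq, Sum.elim_inl] at ht
      rw [hΨ] at ht
      obtain ⟨R, ⟨g, hg⟩⟩ := t
      simp only at ht h7
      set gc : Matrix (Fin (N + 1)) (Fin (N + 1)) ℂ := g.map (Int.cast : ℤ → ℂ) with hgc
      have hgcd : gc.det ≠ 0 := by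
        have e1 : gc.det = ((g.det : ℤ) : ℂ) := by
          rw [hgc]
          exact (RingHom.map_det (Int.castRingHom ℂ) g).symm
        rw [e1]
        exact_mod_cast hg
      have hgca : gc.adjugate = g.adjugate.map (Int.cast : ℤ → ℂ) :=
        (RingHom.map_adjugate (Int.castRingHom ℂ) g).symm
      set a' : Ix N (fun i : {i : ι // i ∉ R.1} => d i.1) → ℂ := fun q => a ⟨q.1.1, q.2⟩ with ha'
      refine ⟨α R, β R, hh R, fun j k => ((∑ i, l R j i * g.adjugate i k : ℤ) : ℂ),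
        GH.sub2 gc.adjugate (sp (acts gc a') (P R)), hlt R, ?_, fun j => ?_, h7, ?_⟩
      · exact sub2_bihom _ (sp_bihom (P R) (hPh R) (acts gc a'))
      · have h8 := (sp_inJ (P R) (hPh R) (l R j) (hPJ R j) (acts gc a')).2
        have h9 := inJ_act gc hgcd a' (fun k => ((l R j k : ℤ) : ℂ)) _ h8
        have h10 : (fun k => ∑ i, ((l R j i : ℤ) : ℂ) * gc.adjugate i k) =
            fun k => ((∑ i, l R j i * g.adjugate i k : ℤ) : ℂ) := by
          funext k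
          rw [hgca]
          push_cast
          rfl
        rw [h10] at h9
        exact InJ.mono (fun i : {i : ι // i ∉ R.1} => i.1) h9
      · rw [eval_sub2]
        exact ht
    · exact absurd (by
        simp only [Eq, Sum.elim_inr, Sum.elim_inl]
        rw [ev_inx_fa]
        exact (hInc i).1) ht
    · exact absurd (by
        simp only [Eq, Sum.elim_inr, Sum.elim_inl]
        rw [ev_dif_fa]
        exact (hInc i).2) ht
    · exact absurd (by
        simp only [Eq, Sum.elim_inr]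
        rw [hev3]
        exact hvk) ht
  · have h6 := hS₀a a ha1
    have e1 : (fun (j : Fin 0) (_ : Fin (N + 1)) => (Fin.elim0 j : ℂ)) =
        fun (j : Fin 0) (_ : Fin (N + 1)) => (((Fin.elim0 j : ℤ)) : ℂ) := by
      funext j
      exact Fin.elim0 j
    rw [e1]
    exact h6

end Pool.Agent.CI
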