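import Pool.Agent.Lib_MP_b9fedf_ci.UnivEx2
import Pool.Agent.Lib_MP_b9fedf_ci.Lead2
import Pool.Agent.Lib_MP_b9fedf_ci.Num2

/-! [CI-F7]: the invariant universal form exists. -/

set_option autoImplicit false

namespace Pool.Agent.CI
open MvPolynomial Pool.Agent.GGL Pool.Agent.GH

/-- [CI-F7] Proof.  As `univC_exists` (UnivEx2.lean), with `h = α + β + 1`, `exists_beta2`, `es_lt2`; then `lead_inv` (`card κ + 1 ≤ N`). -/
theorem univI_exists {κ : Type} [Fintype κ] [DecidableEq κ] {n N : ℕ} (hn : 1 ≤ n)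
    (hN : N = n + Fintype.card κ) (hc : n ≤ Fintype.card κ) (d : κ → ℕ) (hd : ∀ i, 2 ≤ d i)
    (h : ∀ T : Finset κ, T.card + n = Fintype.card κ + 1 → 2 * n ^ 2 < ∑ i ∈ T, (d i - 1)) :
    UnivI N n d := by
  classical
  -- the bijection and the codes
  have hcard : Fintype.card (Fin (n + 1) ⊕ κ) = N + 1 := by
    rw [Fintype.card_sum, Fintype.card_fin]
    omega
  obtain ⟨e⟩ : Nonempty (Fin (n + 1) ⊕ κ ≃ Fin (N + 1)) := ⟨Fintype.equivFinOfCardEq hcard⟩
  obtain ⟨s, hs, hse⟩ : ∃ s : κ → ℕ → ℕ, Codes s ∧ ∀ i t, ∃ w, s i t = 2 * w := by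
    refine ⟨fun i t => 2 * Nat.pair (Fintype.equivFin κ i) t, ?_, fun i t => ⟨_, rfl⟩⟩
    intro i t i' t' h1
    have h2 : Nat.pair (Fintype.equivFin κ i) t = Nat.pair (Fintype.equivFin κ i') t' := by
      simp only at h1
      omega
    rw [Nat.pair_eq_pair] at h2
    exact ⟨(Fintype.equivFin κ).injective (Fin.ext h2.1), h2.2⟩
  have hr : ∀ (j : ℕ) i t, s i t ≠ 2 * j + 1 := by
    intro j i t h1
    obtain ⟨w, hw⟩ := hse i t
    omega
  -- the numbers
  obtain ⟨α₁, hlow⟩ := low_gen e s hs d hd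
  obtain ⟨α, hα1, hα2⟩ : ∃ α, α₁ ≤ α ∧ 1 + 2 * ∑ i, d i ≤ α :=
    ⟨max α₁ (1 + 2 * ∑ i, d i), le_max_left _ _, le_max_right _ _⟩
  have hes := es_lt2 n hn hc d hd h
  have hD : 0 < ∏ i, d i := Finset.prod_pos fun i _ => by have := hd i; omega
  have hE : 2 * n * ((∏ i, d i) * es d (n - 1)) < (∏ i, d i) * es d n := by
    calc 2 * n * ((∏ i, d i) * es d (n - 1)) = (∏ i, d i) * (2 * n * es d (n - 1)) := by ring
      _ < _ := Nat.mul_lt_mul_of_pos_left hes hD
  obtain ⟨β, hβ, hlt⟩ := exists_beta2 n hn ((∏ i, d i) * es d n) ((∏ i, d i) * es d (n - 1))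
    ((∏ i, d i) * 2 ^ Fintype.card κ * mnum n α) α hE
  have hkap : (α + β + 1) * kap1 n d α β < kap0 n d β := hlt
  -- the points
  obtain ⟨f, a, z, hf, ha, hz, hdet⟩ := hlow α β hα1
  -- the embedding of the field
  have hinj : Function.Injective ((aeval a : MvPolynomial (Ix N d) ℚ →ₐ[ℚ] ℂ).toRingHom) := ha
  set φ : KK N d →+* ℂ := IsFractionRing.lift hinj with hφ
  have hφa : ∀ p : MvPolynomial (Ix N d) ℚ, φ (algebraMap _ (KK N d) p) = aeval a p := fun p =>
    IsFractionRing.lift_algebraMap hinj p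
  -- the subspaces
  set hh : ℕ := α + β + 1 with hhh
  let W : Fin hh → Submodule (KK N d) (MvPolynomial (XV N) (KK N d)) := fun j =>
    jSpace (gK d) (lf (fun k => ((lv e (2 * (j : ℕ) + 1) k : ℤ) : KK N d))) α β
  have hWV : ∀ j, W j ≤ biSpace (KK N d) N α β := fun j => inf_le_left
  have hWc : ∀ j, Module.finrank (KK N d) (biSpace (KK N d) N α β) ≤
      Module.finrank (KK N d) (W j) + kap1 n d α β := fun j =>
    up_K hn e s hs d hd (2 * (j : ℕ) + 1) (fun i t => hr j i t) α β hα2 hβ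
  haveI := finite_biSpace (KK N d) N α β
  have hint := inter_finrank (biSpace (KK N d) N α β) W hWV hWc
  -- the form
  obtain ⟨P, hP, r, hPr⟩ : ∃ P ∈ biSpace (KK N d) N α β ⊓ ⨅ j, W j, ∃ r,
      eval (z r) (MvPolynomial.map φ P) ≠ 0 := by
    by_contra hcon
    push Not at hcon
    have h1 := evk φ f hf z hdet (biSpace (KK N d) N α β ⊓ ⨅ j, W j) inf_le_left hcon
    omega
  rw [Submodule.mem_inf, Submodule.mem_iInf] at hP
  obtain ⟨hPV, hPW⟩ := hP
  have e1 : (fun i => MvPolynomial.map (algebraMap (MvPolynomial (Ix N d) ℚ) (KK N d))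
      (fa (fun p : Ix N d => (X p : MvPolynomial (Ix N d) ℚ)) i)) = gK d := by
    funext i
    rw [map_fa]
    rfl
  have e2 : ∀ j : Fin hh, MvPolynomial.map (algebraMap (MvPolynomial (Ix N d) ℚ) (KK N d))
      (lf (fun k => ((lv e (2 * (j : ℕ) + 1) k : ℤ) : MvPolynomial (Ix N d) ℚ))) =
      lf (fun k => ((lv e (2 * (j : ℕ) + 1) k : ℤ) : KK N d)) := by
    intro j
    rw [map_lf]
    congr 1
    funext k
    rw [map_intCast]
  obtain ⟨P', q, hq, hmap, hBi, hJ⟩ := clear_univ2 (A := MvPolynomial (Ix N d) ℚ)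
    (F := fa (fun p : Ix N d => (X p : MvPolynomial (Ix N d) ℚ)))
    (l := fun j : Fin hh => lf (fun k => ((lv e (2 * (j : ℕ) + 1) k : ℤ) : MvPolynomial (Ix N d) ℚ)))
    P ((mem_biSpace P).1 hPV) (fun j => by
      rw [e1, e2 j]
      exact ((mem_jSpace _ _ _ _ P).1 (hPW j)).2)
  -- the values
  have hcomp : (aeval a : MvPolynomial (Ix N d) ℚ →ₐ[ℚ] ℂ).toRingHom =
      φ.comp (algebraMap (MvPolynomial (Ix N d) ℚ) (KK N d)) := RingHom.ext fun p => (hφa p).symm
  have hsp : sp a P' = C (aeval a q) * MvPolynomial.map φ P := by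
    have h1 : sp a P' = MvPolynomial.map φ
        (MvPolynomial.map (algebraMap (MvPolynomial (Ix N d) ℚ) (KK N d)) P') := by
      unfold sp
      rw [hcomp, MvPolynomial.map_map]
    rw [h1, hmap, map_mul, MvPolynomial.map_C, hφa]
  have hq0 : aeval a q ≠ 0 := by
    intro h0
    apply hq
    apply hinj
    rw [map_zero]
    exact h0
  set x : Fin (N + 1) → ℂ := fun j => z r (Sum.inl j) with hx
  set v : Fin (N + 1) → ℂ := fun j => z r (Sum.inr j) with hv
  have hxv : Sum.elim x v = z r := by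
    funext j
    rcases j with j | j <;> rfl
  have hval : eval (Sum.elim x v) (sp a P') ≠ 0 := by
    rw [hsp, hxv, map_mul, eval_C]
    exact mul_ne_zero hq0 hPr
  have hBs : BiHom α β (sp a P') := by
    intro m hm
    apply hBi
    intro h0
    apply hm
    unfold sp
    rw [coeff_map, h0, map_zero]
  have hx0 : x ≠ 0 := by
    intro h0
    apply hval
    have h1 := eval_bihom hBs 0 1 x v
    rw [zero_smul, one_smul, zero_pow (by omega), zero_mul, zero_mul] at h1
    rw [h0]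
    exact h1
  obtain ⟨v', hv1, hv2, hv3⟩ := pair_ind (fa a) (by omega) (sp a P') x v hx0 (hz r) hval
  obtain ⟨α', β', P'', hs1, hs2, hs3, hs4, a', x', v'', hs5, hs6, hs7⟩ := lead_inv
    (fun i => (by have := hd i; omega : 1 ≤ d i)) (by omega)
    (fun (j : Fin hh) k => lv e (2 * (j : ℕ) + 1) k) P' hBi hJ a x v' hv1 hv2 hv3
  refine ⟨α', β', hh, fun j k => lv e (2 * (j : ℕ) + 1) k, P'', by omega, ?_, hs2, hs3, hs4, a', x',
    v'', hs5, hs6, hs7⟩
  intro B hB
  exact lv_indep e (fun j : Fin hh => 2 * (j : ℕ) + 1) (fun i j hij => Fin.ext (by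
    simp only at hij
    omega)) B hB

end Pool.Agent.CI
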