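import Mathlib

/-! [CI-C1]: spanning sets modulo ideals generated by products of linear forms. -/

set_option autoImplicit false

namespace Pool.Agent.CI
open MvPolynomial

/-- the forms of degree `t` are spanned by at most `D` of them modulo `J` -/
def Cov {k : Type} [Field k] {m : ℕ} (J : Ideal (MvPolynomial (Fin m) k)) (t D : ℕ) : Prop :=
  ∃ B : Finset (MvPolynomial (Fin m) k), B.card ≤ D ∧ (∀ b ∈ B, b.IsHomogeneous t) ∧
    ∀ g : MvPolynomial (Fin m) k, g.IsHomogeneous t →
      ∃ r ∈ Submodule.span k (B : Set (MvPolynomial (Fin m) k)), g - r ∈ J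

/-- a homogeneous ideal -/
def Hmg {k : Type} [Field k] {m : ℕ} (J : Ideal (MvPolynomial (Fin m) k)) : Prop :=
  ∀ p ∈ J, ∀ t, homogeneousComponent t p ∈ J

variable {k : Type} [Field k] {m : ℕ}

theorem hmg_bot : Hmg (⊥ : Ideal (MvPolynomial (Fin m) k)) := by
  intro p hp t
  rw [Ideal.mem_bot] at hp ⊢
  rw [hp, map_zero]

theorem hmg_sup {I J : Ideal (MvPolynomial (Fin m) k)} (hI : Hmg I) (hJ : Hmg J) :
    Hmg (I ⊔ J) := by
  intro p hp t
  obtain ⟨a, ha, b, hb, rfl⟩ := Submodule.mem_sup.1 hp
  rw [map_add]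
  exact Submodule.add_mem_sup (hI a ha t) (hJ b hb t)

/-- components of a product with a form -/
private theorem hc_mul {g q : MvPolynomial (Fin m) k} {e : ℕ} (hg : g.IsHomogeneous e) (t : ℕ) :
    homogeneousComponent t (g * q) =
      if e ≤ t then g * homogeneousComponent (t - e) q else 0 := by
  have h1 : homogeneousComponent t (g * q) = ∑ i ∈ Finset.range (q.totalDegree + 1),
      (if t = e + i then g * homogeneousComponent i q else 0) := by
    conv_lhs => rw [← sum_homogeneousComponent q]
    rw [Finset.mul_sum, map_sum]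
    refine Finset.sum_congr rfl fun i _ => ?_
    exact homogeneousComponent_of_mem
      ((mem_homogeneousSubmodule _ _).2 (hg.mul (homogeneousComponent_isHomogeneous i q)))
  rw [h1]
  split_ifs with h
  · by_cases hi : t - e ∈ Finset.range (q.totalDegree + 1)
    · rw [Finset.sum_eq_single_of_mem (t - e) hi]
      · rw [if_pos (by omega)]
      · intro b _ hb
        rw [if_neg (by omega)]
    · rw [Finset.sum_eq_zero]
      · rw [homogeneousComponent_eq_zero (t - e) q (by
          rw [Finset.mem_range] at hi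
          omega), mul_zero]
      · intro b hb
        rw [Finset.mem_range] at hb hi
        rw [if_neg (by omega)]
  · refine Finset.sum_eq_zero fun b _ => ?_
    rw [if_neg (by omega)]

/-- an ideal generated by forms -/
theorem hmg_span (A : Set (MvPolynomial (Fin m) k)) (hA : ∀ a ∈ A, ∃ e, a.IsHomogeneous e) :
    Hmg (Ideal.span A) := by
  have key : ∀ p ∈ Ideal.span A, ∀ r : MvPolynomial (Fin m) k, ∀ t,
      homogeneousComponent t (p * r) ∈ Ideal.span A := by
    intro p hp
    induction hp using Submodule.span_induction with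
    | mem a ha =>
      intro r t
      obtain ⟨e, he⟩ := hA a ha
      rw [hc_mul he]
      split_ifs
      · exact Ideal.mul_mem_right _ _ (Ideal.subset_span ha)
      · exact Ideal.zero_mem _
    | zero =>
      intro r t
      rw [zero_mul, map_zero]
      exact Ideal.zero_mem _
    | add x y _ _ hx hy =>
      intro r t
      rw [add_mul, map_add]
      exact Ideal.add_mem _ (hx r t) (hy r t)
    | smul s x _ hx =>
      intro r t
      rw [smul_eq_mul, mul_comm s x, mul_assoc]
      exact hx (s * r) t
  intro p hp t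
  have h2 := key p hp 1 t
  rwa [mul_one] at h2

private theorem span_hom {t : ℕ} {B : Finset (MvPolynomial (Fin m) k)}
    (hB : ∀ b ∈ B, b.IsHomogeneous t) {r : MvPolynomial (Fin m) k}
    (hr : r ∈ Submodule.span k (B : Set (MvPolynomial (Fin m) k))) : r.IsHomogeneous t := by
  have h1 : Submodule.span k (B : Set (MvPolynomial (Fin m) k)) ≤
      homogeneousSubmodule (Fin m) k t := by
    rw [Submodule.span_le]
    intro b hb
    exact (mem_homogeneousSubmodule _ _).2 (hB b hb)
  exact (mem_homogeneousSubmodule _ _).1 (h1 hr)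

/-- [CI-C1a] Proof.  Let `p` be a form of degree `t`: `p = r₁ + j + g q`, `r₁ ∈ span B₁`, `j ∈ J`; take the components of degree `t`: we may
assume that `g q` is homogeneous of degree `t` and `q` of degree `t - e` (`q = 0` if `t < e`); `q = r₂ + j' + lam q'` with `r₂ ∈ span B₂`.  `B = B₁ ∪ g B₂`. -/
theorem cov_peel {J : Ideal (MvPolynomial (Fin m) k)} (hJ : Hmg J)
    {lam g : MvPolynomial (Fin m) k} {e : ℕ} (hg : g.IsHomogeneous e) {t D₁ D₂ : ℕ}
    (h₁ : Cov (J ⊔ Ideal.span {g}) t D₁)
    (h₂ : e ≤ t → Cov (J ⊔ Ideal.span {lam}) (t - e) D₂) :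
    Cov (J ⊔ Ideal.span {g * lam}) t (D₁ + D₂) := by
  classical
  obtain ⟨B₁, hc₁, hh₁, hs₁⟩ := h₁
  have key : ∀ p : MvPolynomial (Fin m) k, p.IsHomogeneous t →
      ∃ r ∈ Submodule.span k (B₁ : Set (MvPolynomial (Fin m) k)), ∃ j ∈ J,
        ∃ q : MvPolynomial (Fin m) k, p - r = j + homogeneousComponent t (g * q) := by
    intro p hp
    obtain ⟨r, hr, hpr⟩ := hs₁ p hp
    obtain ⟨j, hj, y, hy, hjy⟩ := Submodule.mem_sup.1 hpr
    obtain ⟨q, rfl⟩ := Ideal.mem_span_singleton'.1 hy
    refine ⟨r, hr, homogeneousComponent t j, hJ j hj t, q, ?_⟩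
    have h3 : (p - r).IsHomogeneous t := hp.sub (span_hom hh₁ hr)
    have h4 : homogeneousComponent t (p - r) = p - r := by
      rw [homogeneousComponent_of_mem ((mem_homogeneousSubmodule _ _).2 h3), if_pos rfl]
    rw [← h4, ← hjy, map_add, mul_comm q g]
  by_cases he : e ≤ t
  · obtain ⟨B₂, hc₂, hh₂, hs₂⟩ := h₂ he
    refine ⟨B₁ ∪ B₂.image (fun b => g * b), ?_, ?_, ?_⟩
    · exact (Finset.card_union_le _ _).trans
        (add_le_add hc₁ (Finset.card_image_le.trans hc₂))
    · intro b hb
      rcases Finset.mem_union.1 hb with hb | hb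
      · exact hh₁ b hb
      · obtain ⟨b', hb', rfl⟩ := Finset.mem_image.1 hb
        have h5 := hg.mul (hh₂ b' hb')
        rwa [Nat.add_sub_cancel' he] at h5
    · intro p hp
      obtain ⟨r, hr, j, hj, q, hq⟩ := key p hp
      rw [hc_mul hg, if_pos he] at hq
      obtain ⟨r₂, hr₂, hq₂⟩ := hs₂ _ (homogeneousComponent_isHomogeneous (t - e) q)
      obtain ⟨j', hj', y, hy, hjy⟩ := Submodule.mem_sup.1 hq₂
      obtain ⟨q', rfl⟩ := Ideal.mem_span_singleton'.1 hy
      refine ⟨r + g * r₂, ?_, ?_⟩
      · rw [Finset.coe_union, Submodule.span_union]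
        refine Submodule.add_mem_sup hr ?_
        rw [Finset.coe_image]
        have h6 : (fun b => g * b) '' (B₂ : Set (MvPolynomial (Fin m) k)) =
            (LinearMap.mulLeft k g) '' (B₂ : Set (MvPolynomial (Fin m) k)) := by
          ext y
          simp [LinearMap.mulLeft_apply]
        rw [h6, Submodule.span_image]
        exact ⟨r₂, hr₂, rfl⟩
      · have h7 : p - (r + g * r₂) = (j + g * j') + q' * (g * lam) := by
          have h8 : p - (r + g * r₂) = (p - r) - g * r₂ := by ring
          have h9 : homogeneousComponent (t - e) q = r₂ + (j' + q' * lam) := by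
            rw [hjy]; ring
          rw [h8, hq, h9]
          ring
        rw [h7]
        exact Submodule.add_mem_sup (J.add_mem hj (J.mul_mem_left g hj'))
          (Ideal.mem_span_singleton'.2 ⟨q', rfl⟩)
  · refine ⟨B₁, hc₁.trans (Nat.le_add_right _ _), hh₁, fun p hp => ?_⟩
    obtain ⟨r, hr, j, hj, q, hq⟩ := key p hp
    rw [hc_mul hg, if_neg he, add_zero] at hq
    refine ⟨r, hr, ?_⟩
    rw [hq]
    exact Submodule.mem_sup_left hj

/-- [CI-C1b] Induction on `d` with `cov_peel` (`d = 0`: the ideal is everything). -/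
theorem cov_prod {J : Ideal (MvPolynomial (Fin m) k)} (hJ : Hmg J)
    (lam : ℕ → MvPolynomial (Fin m) k) (hlam : ∀ i, (lam i).IsHomogeneous 1) (d t₀ D : ℕ)
    (h : ∀ i < d, ∀ t, t₀ ≤ t → Cov (J ⊔ Ideal.span {lam i}) t D) (t : ℕ) (ht : t₀ + d ≤ t) :
    Cov (J ⊔ Ideal.span {∏ i ∈ Finset.range d, lam i}) t (d * D) := by
  induction d generalizing t with
  | zero =>
    refine ⟨∅, by simp, by simp, fun g _ => ⟨0, Submodule.zero_mem _, ?_⟩⟩
    refine Submodule.mem_sup_right ?_
    rw [Finset.range_zero, Finset.prod_empty, Ideal.span_singleton_one]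
    exact Submodule.mem_top
  | succ d ih =>
    have hg : (∏ i ∈ Finset.range d, lam i).IsHomogeneous d := by
      have h1 := IsHomogeneous.prod (Finset.range d) lam (fun _ => 1) (fun i _ => hlam i)
      simpa using h1
    have h2 := cov_peel hJ (lam := lam d) hg (t := t) (D₁ := d * D) (D₂ := D)
      (ih (fun i hi => h i (by omega)) t (by omega))
      (fun _ => h d (by omega) (t - d) (by omega))
    rw [Finset.prod_range_succ, Nat.succ_mul]
    exact h2

/-- [CI-C1c] Induction on `S` for all `J`: for `S = insert i S'` use `cov_prod` for the ideal `J ⊔ span (b_S')` and the forms `lam i`; the hypothesis of `cov_prod` is the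
induction hypothesis for the ideal `J ⊔ span {lam i u}`. -/
theorem cov_fam {κ : Type} [DecidableEq κ] (lam : κ → ℕ → MvPolynomial (Fin m) k)
    (hlam : ∀ i u, (lam i u).IsHomogeneous 1) (d : κ → ℕ) (S : Finset κ) (t₀ D : ℕ)
    (J : Ideal (MvPolynomial (Fin m) k)) (hJ : Hmg J)
    (h : ∀ τ : κ → ℕ, (∀ i ∈ S, τ i < d i) → ∀ t, t₀ ≤ t →
      Cov (J ⊔ Ideal.span ((fun i => lam i (τ i)) '' (S : Set κ))) t D)
    (t : ℕ) (ht : t₀ + ∑ i ∈ S, d i ≤ t) :
    Cov (J ⊔ Ideal.span ((fun i => ∏ u ∈ Finset.range (d i), lam i u) '' (S : Set κ))) t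
      (D * ∏ i ∈ S, d i) := by
  induction S using Finset.induction_on generalizing J t with
  | empty =>
    have h1 := h (fun _ => 0) (by simp) t (by simpa using ht)
    simpa using h1
  | insert i S' hi ih =>
    rw [Finset.sum_insert hi] at ht
    have hb : ∀ j, (∏ u ∈ Finset.range (d j), lam j u).IsHomogeneous (d j) := by
      intro j
      have h1 := IsHomogeneous.prod (Finset.range (d j)) (lam j) (fun _ => 1)
        (fun u _ => hlam j u)
      simpa using h1
    have hJ' : Hmg (J ⊔ Ideal.span
        ((fun i => ∏ u ∈ Finset.range (d i), lam i u) '' (S' : Set κ))) := by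
      refine hmg_sup hJ (hmg_span _ ?_)
      rintro a ⟨j, _, rfl⟩
      exact ⟨d j, hb j⟩
    have hstep : ∀ u < d i, ∀ t, t₀ + ∑ j ∈ S', d j ≤ t →
        Cov ((J ⊔ Ideal.span
          ((fun i => ∏ u ∈ Finset.range (d i), lam i u) '' (S' : Set κ))) ⊔
            Ideal.span {lam i u}) t (D * ∏ j ∈ S', d j) := by
      intro u hu t ht
      have hJ2 : Hmg (J ⊔ Ideal.span {lam i u}) := by
        refine hmg_sup hJ (hmg_span _ ?_)
        rintro a ha
        rw [Set.mem_singleton_iff] at ha
        exact ⟨1, ha ▸ hlam i u⟩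
      have h3 := ih (J ⊔ Ideal.span {lam i u}) hJ2 (fun τ hτ t ht => by
        have h4 := h (Function.update τ i u) (by
          intro j hj
          rcases Finset.mem_insert.1 hj with rfl | hj
          · rwa [Function.update_self]
          · rw [Function.update_of_ne (fun hji => hi (by rw [← hji]; exact hj))]
            exact hτ j hj) t ht
        have h5 : (fun j => lam j (Function.update τ i u j)) '' ((insert i S' : Finset κ) : Set κ)
            = insert (lam i u) ((fun j => lam j (τ j)) '' (S' : Set κ)) := by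
          rw [Finset.coe_insert, Set.image_insert_eq, Function.update_self]
          congr 1
          refine Set.image_congr fun j hj => ?_
          have hj' : j ∈ S' := hj
          rw [Function.update_of_ne (fun hji => hi (by rw [← hji]; exact hj'))]
        rw [h5, Ideal.span_insert, ← sup_assoc] at h4
        exact h4) t ht
      rw [sup_right_comm]
      exact h3
    have h6 := cov_prod hJ' (lam i) (hlam i) (d i) (t₀ + ∑ j ∈ S', d j)
      (D * ∏ j ∈ S', d j) hstep t (by omega)
    rw [Finset.coe_insert, Set.image_insert_eq, Ideal.span_insert, Finset.prod_insert hi,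
      ← sup_assoc, sup_right_comm, mul_left_comm]
    exact h6

end Pool.Agent.CI
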