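import Pool.Agent.Lib_MP_b9fedf_ci.Vd
import Pool.Agent.Lib_MP_b9fedf_ci.CardA

/-! Base points, arcs and functions for the lower bound. -/

set_option autoImplicit false

namespace Pool.Agent.CI
open MvPolynomial Filter Topology Pool.Agent.GGL Pool.Agent.GH

variable {κ : Type} {n N : ℕ}

/-- the coordinates `x` of a point -/
def xp (e : Fin (n + 1) ⊕ κ ≃ Fin (N + 1)) (z : Fin (N + 1) → ℂ) : Fin (n + 1) → ℂ :=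
  fun j => z (e (Sum.inl j))

/-- `z` is a base point with data `(J, θ)` -/
structure IsPt (e : Fin (n + 1) ⊕ κ ≃ Fin (N + 1)) (s : κ → ℕ → ℕ) (d : κ → ℕ) (J : Finset κ)
    (θ : κ → ℕ) (z : Fin (N + 1) → ℂ) : Prop where
  ne : xp e z ≠ 0
  zero : ∀ i ∈ J, eval (xp e z) (vd ℂ n (s i (θ i))) = 0
  other : ∀ i ∈ J, ∀ t, t ≠ θ i → eval (xp e z) (vd ℂ n (s i t)) ≠ 0
  y0 : ∀ i ∈ J, z (e (Sum.inr i)) = 0
  y1 : ∀ i, i ∉ J → z (e (Sum.inr i)) ^ d i = eval (xp e z) (vb ℂ n s d i) ∧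
    z (e (Sum.inr i)) ≠ 0

/-- an arc on the special member through a base point -/
structure IsArc (e : Fin (n + 1) ⊕ κ ≃ Fin (N + 1)) (s : κ → ℕ → ℕ) (d : κ → ℕ) (J : Finset κ)
    (z : Fin (N + 1) → ℂ) (σ : κ → ℂ) (v : Fin (n + 1) → ℂ) (x w : ℝ → Fin (N + 1) → ℂ) :
    Prop where
  inc : ∀ᶠ τ in 𝓝[>] (0 : ℝ), Inc (spf ℂ e s d) (x τ) (w τ) ∧ ∀ i, x τ (e (Sum.inr i)) ≠ 0
  xl : ∀ j, Tendsto (fun τ => x τ (e (Sum.inl j))) (𝓝[>] (0 : ℝ)) (𝓝 (z (e (Sum.inl j))))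
  y1 : ∀ i ∈ J, Tendsto (fun τ : ℝ => x τ (e (Sum.inr i)) / (τ : ℂ)) (𝓝[>] (0 : ℝ)) (𝓝 (σ i))
  y2 : ∀ i, i ∉ J → Tendsto (fun τ => x τ (e (Sum.inr i))) (𝓝[>] (0 : ℝ))
    (𝓝 (z (e (Sum.inr i))))
  wl : ∀ τ j, w τ (e (Sum.inl j)) = v j
  w1 : ∀ i ∈ J, Tendsto (fun τ : ℝ => w τ (e (Sum.inr i)) * (τ : ℂ) ^ (d i - 1)) (𝓝[>] (0 : ℝ))
    (𝓝 (dv (vb ℂ n s d i) (xp e z) v / (d i * σ i ^ (d i - 1))))
  w2 : ∀ i, i ∉ J → ∃ c, Tendsto (fun τ => w τ (e (Sum.inr i))) (𝓝[>] (0 : ℝ)) (𝓝 c)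

/-- the functions of the lower bound; the index is `(θ, a, e, ν)` -/
noncomputable def fo [Fintype κ] (e : Fin (n + 1) ⊕ κ ≃ Fin (N + 1)) (α : ℕ)
    (P : Finset κ → (κ → ℕ) → ℕ → MvPolynomial (Fin (N + 1)) ℂ)
    (ω : (κ → ℕ) × (κ → ℕ) × (κ → ℕ) × (Fin (n + 1) → ℕ)) : MvPolynomial (XV N) ℂ :=
  inx (P (supp ω.2.2.1) ω.1 (α - ∑ i, ω.2.1 i)) *
    (∏ i, X (Sum.inl (e (Sum.inr i))) ^ ω.2.1 i) *
    (∏ i, X (Sum.inr (e (Sum.inr i))) ^ ω.2.2.1 i) *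
    ∏ j, X (Sum.inr (e (Sum.inl j))) ^ ω.2.2.2 j

/-- the size `∑ ((d i - 1) e i - a i)` -/
def sz [Fintype κ] (d : κ → ℕ) (a e : κ → ℕ) : ℕ := ∑ i, ((d i - 1) * e i - a i)

/-- separating forms of degree at least `α₁` for the base points `pt` -/
def IsSep (n : ℕ) (d : κ → ℕ) (pt : Finset κ → (κ → ℕ) → Fin (N + 1) → ℂ) (α₁ : ℕ)
    (P : Finset κ → (κ → ℕ) → ℕ → MvPolynomial (Fin (N + 1)) ℂ) : Prop :=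
  ∀ J θ t, J.card = n → (∀ i, θ i < d i) → α₁ ≤ t → (P J θ t).IsHomogeneous t ∧
    eval (pt J θ) (P J θ t) = 1 ∧
    ∀ J' θ', J'.card = n → (∀ i, θ' i < d i) → (J, θ) ≠ (J', θ') →
      eval (pt J' θ') (P J θ t) = 0

end Pool.Agent.CI
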