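import Pool.Agent.Lib_MP_b9fedf_ci.Td
import Pool.Agent.Lib_MP_b9fedf_ci.LinGen

/-! [CI-B2]: the transcendence count for the normal crossings. -/

set_option autoImplicit false

namespace Pool.Agent.CI
open MvPolynomial Pool.Agent.GGL Pool.Agent.GH

private theorem ev_frm_b2 {N d : ℕ} (c : Mon N d → ℂ) (x : Fin (N + 1) → ℂ) :
    eval x (frm c) = ∑ m : Mon N d, c m * ∏ j, x j ^ (m.1 j) := by
  rw [frm, map_sum]
  refine Finset.sum_congr rfl fun m _ => ?_
  rw [eval_monomial, Finsupp.prod_fintype _ _ (fun i => pow_zero _)]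

private theorem ev_pd_b2 {N d : ℕ} (c : Mon N d → ℂ) (x : Fin (N + 1) → ℂ) (j : Fin (N + 1)) :
    eval x (pderiv j (frm c)) = ∑ m : Mon N d,
      c m * ((m.1 j : ℂ) * ∏ l, x l ^ ((m.1 - Finsupp.single j 1 : Fin (N + 1) →₀ ℕ) l)) := by
  rw [frm, map_sum, map_sum]
  refine Finset.sum_congr rfl fun m _ => ?_
  rw [pderiv_monomial, eval_monomial, Finsupp.prod_fintype _ _ (fun i => pow_zero _)]
  ring

private theorem mon_sum_b2 {N d : ℕ} (m : Mon N d) : ∑ j, m.1 j = d :=
  (Finset.mem_finsuppAntidiag.1 m.2).1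

private theorem ev_frm_smul_b2 {N d : ℕ} (c : Mon N d → ℂ) (x : Fin (N + 1) → ℂ) (t : ℂ) :
    eval (fun j => t * x j) (frm c) = t ^ d * eval x (frm c) := by
  rw [ev_frm_b2, ev_frm_b2, Finset.mul_sum]
  refine Finset.sum_congr rfl fun m _ => ?_
  simp only [mul_pow]
  rw [Finset.prod_mul_distrib, Finset.prod_pow_eq_pow_sum, mon_sum_b2]
  ring

private theorem ev_pd_smul_b2 {N d : ℕ} (c : Mon N d → ℂ) (x : Fin (N + 1) → ℂ) (t : ℂ)
    (j : Fin (N + 1)) :
    eval (fun j => t * x j) (pderiv j (frm c)) = t ^ (d - 1) * eval x (pderiv j (frm c)) := by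
  classical
  rw [ev_pd_b2, ev_pd_b2, Finset.mul_sum]
  refine Finset.sum_congr rfl fun m _ => ?_
  simp only [mul_pow]
  rw [Finset.prod_mul_distrib, Finset.prod_pow_eq_pow_sum]
  rcases Nat.eq_zero_or_pos (m.1 j) with h0 | h0
  · rw [h0]
    simp
  · have h1 : ∑ l, (m.1 - Finsupp.single j 1 : Fin (N + 1) →₀ ℕ) l = d - 1 := by
      have h2 : ∑ l, (m.1 - Finsupp.single j 1 : Fin (N + 1) →₀ ℕ) l + 1 = ∑ l, m.1 l := by
        have h3 : ∀ l, m.1 l = (m.1 - Finsupp.single j 1 : Fin (N + 1) →₀ ℕ) l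
            + (Finsupp.single j 1 : Fin (N + 1) →₀ ℕ) l := by
          intro l
          rw [Finsupp.tsub_apply]
          rcases eq_or_ne j l with h | h
          · subst h
            rw [Finsupp.single_eq_same]
            omega
          · rw [Finsupp.single_apply, if_neg h]
            omega
        rw [Finset.sum_congr rfl fun l _ => h3 l, Finset.sum_add_distrib]
        congr 1
        simp [Finsupp.single_apply]
      rw [mon_sum_b2] at h2
      omega
    rw [h1]
    ring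

/-- the monomial `X_k ^ d` -/
private noncomputable def mk_b2 {N : ℕ} (k : Fin (N + 1)) (d : ℕ) : Mon N d :=
  ⟨Finsupp.single k d, by
    rw [Finset.mem_finsuppAntidiag]
    refine ⟨?_, fun i _ => Finset.mem_univ i⟩
    simp [Finsupp.single_apply]⟩

/-- the monomial `X_k ^ (d - 1) X_j` -/
private noncomputable def ml_b2 {N : ℕ} (k j : Fin (N + 1)) {d : ℕ} (hd : 1 ≤ d) : Mon N d :=
  ⟨Finsupp.single k (d - 1) + Finsupp.single j 1, by
    rw [Finset.mem_finsuppAntidiag]
    refine ⟨?_, fun i _ => Finset.mem_univ i⟩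
    have h6 : ∀ i, (Finsupp.single k (d - 1) + Finsupp.single j 1 : Fin (N + 1) →₀ ℕ) i
        = (if k = i then d - 1 else 0) + (if j = i then 1 else 0) := fun i => by
      rw [Finsupp.add_apply, Finsupp.single_apply, Finsupp.single_apply]
    rw [Finset.sum_congr rfl fun i _ => h6 i, Finset.sum_add_distrib, Finset.sum_ite_eq,
      Finset.sum_ite_eq, if_pos (Finset.mem_univ _), if_pos (Finset.mem_univ _)]
    omega⟩

private theorem ml_self_b2 {N : ℕ} (k : Fin (N + 1)) {d : ℕ} (hd : 1 ≤ d) :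
    ml_b2 k k hd = mk_b2 k d := by
  apply Subtype.ext
  show Finsupp.single k (d - 1) + Finsupp.single k 1 = Finsupp.single k d
  rw [← Finsupp.single_add]
  congr 1
  omega

private theorem ml_inj_b2 {N : ℕ} (k j j' : Fin (N + 1)) {d : ℕ} (hd : 1 ≤ d)
    (h : ml_b2 k j hd = ml_b2 k j' hd) : j = j' := by
  have h1 : Finsupp.single k (d - 1) + Finsupp.single j 1 =
      (Finsupp.single k (d - 1) + Finsupp.single j' 1 : Fin (N + 1) →₀ ℕ) :=
    congrArg Subtype.val h
  exact Finsupp.single_left_injective one_ne_zero (add_left_cancel h1)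

/-- the coefficient of `X_k ^ d` -/
private theorem coef_mem_b2 {N d : ℕ} (K : IntermediateField ℚ ℂ) (c : Mon N d → ℂ)
    (x : Fin (N + 1) → ℂ) (hx : ∀ j, x j ∈ K) (k : Fin (N + 1)) (hk : x k = 1)
    (h0 : eval x (frm c) = 0) (hc : ∀ m, m ≠ mk_b2 k d → c m ∈ K) : c (mk_b2 k d) ∈ K := by
  classical
  rw [ev_frm_b2, ← Finset.add_sum_erase Finset.univ _ (Finset.mem_univ (mk_b2 k d))] at h0
  have h1 : ∏ j, x j ^ ((mk_b2 k d).1 j) = 1 := by
    refine Finset.prod_eq_one fun l _ => ?_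
    show x l ^ ((Finsupp.single k d : Fin (N + 1) →₀ ℕ) l) = 1
    rw [Finsupp.single_apply]
    split_ifs with h
    · rw [← h, hk, one_pow]
    · rw [pow_zero]
  rw [h1, mul_one] at h0
  rw [eq_neg_of_add_eq_zero_left h0]
  exact neg_mem (sum_mem fun m hm => mul_mem (hc m (Finset.ne_of_mem_erase hm))
    (prod_mem fun j _ => pow_mem (hx j) _))

/-- the derivative -/
private theorem pd_mem_b2 {N d : ℕ} (K : IntermediateField ℚ ℂ) (c : Mon N d → ℂ)
    (x : Fin (N + 1) → ℂ) (hx : ∀ j, x j ∈ K) (j : Fin (N + 1)) (hc : ∀ m, c m ∈ K) :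
    eval x (pderiv j (frm c)) ∈ K := by
  rw [ev_pd_b2]
  exact sum_mem fun m _ => mul_mem (hc m) (mul_mem (natCast_mem K _)
    (prod_mem fun l _ => pow_mem (hx l) _))

/-- the coefficient of `X_k ^ (d - 1) X_j` -/
private theorem coef_pd_b2 {N d : ℕ} (K : IntermediateField ℚ ℂ) (c : Mon N d → ℂ)
    (x : Fin (N + 1) → ℂ) (hx : ∀ j, x j ∈ K) (k : Fin (N + 1)) (hk : x k = 1)
    (j : Fin (N + 1)) (hj : j ≠ k) (hd : 1 ≤ d) (h0 : eval x (pderiv j (frm c)) ∈ K)
    (hc : ∀ m : Mon N d, m ≠ ml_b2 k j hd → m.1 j ≠ 0 → c m ∈ K) : c (ml_b2 k j hd) ∈ K := by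
  classical
  rw [ev_pd_b2, ← Finset.add_sum_erase Finset.univ _ (Finset.mem_univ (ml_b2 k j hd))] at h0
  have h5 : ((ml_b2 k j hd).1 - Finsupp.single j 1 : Fin (N + 1) →₀ ℕ) =
      Finsupp.single k (d - 1) := by
    show (Finsupp.single k (d - 1) + Finsupp.single j 1 - Finsupp.single j 1 : Fin (N + 1) →₀ ℕ) = _
    rw [add_tsub_cancel_right]
  have h6 : (ml_b2 k j hd).1 j = 1 := by
    show (Finsupp.single k (d - 1) + Finsupp.single j 1 : Fin (N + 1) →₀ ℕ) j = 1
    rw [Finsupp.add_apply, Finsupp.single_apply, Finsupp.single_apply, if_neg (fun h => hj h.symm),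
      if_pos rfl]
  have h7 : ∏ l, x l ^ ((Finsupp.single k (d - 1) : Fin (N + 1) →₀ ℕ) l) = 1 := by
    refine Finset.prod_eq_one fun l _ => ?_
    rw [Finsupp.single_apply]
    split_ifs with h
    · rw [← h, hk, one_pow]
    · rw [pow_zero]
  rw [h5, h6, h7, Nat.cast_one, mul_one, mul_one] at h0
  refine (add_mem_cancel_right (sum_mem fun m hm => ?_)).1 h0
  by_cases h8 : m.1 j = 0
  · rw [h8, Nat.cast_zero, zero_mul, mul_zero]
    exact zero_mem K
  · exact mul_mem (hc m (Finset.ne_of_mem_erase hm) h8) (mul_mem (natCast_mem K _)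
      (prod_mem fun l _ => pow_mem (hx l) _))

/-- a point with `x_k = 1` on `b` independent hyperplanes is generated by `N - b` numbers -/
private theorem gen_b2 {N h : ℕ} (l : Fin h → Fin (N + 1) → ℤ) (x : Fin (N + 1) → ℂ)
    (k : Fin (N + 1)) (hk : x k = 1) (B : Finset (Fin h))
    (hB : ∀ j ∈ B, ∑ s, (l j s : ℂ) * x s = 0)
    (hl : LinearIndependent ℚ (fun j : B => fun k => ((l j k : ℤ) : ℚ))) :
    B.card + 1 ≤ N + 1 ∧ ∃ y : Fin (N + 1 - (B.card + 1)) → ℂ,
      ∀ j, x j ∈ IntermediateField.adjoin ℚ (Set.range y) := by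
  classical
  let φ : (Fin (N + 1) → ℚ) →ₗ[ℚ] ℂ :=
    { toFun := fun v => ∑ s, (v s : ℂ) * x s
      map_add' := by
        intro v w
        simp only [Pi.add_apply, Rat.cast_add, add_mul, Finset.sum_add_distrib]
      map_smul' := by
        intro q v
        simp only [Pi.smul_apply, smul_eq_mul, Rat.cast_mul, RingHom.id_apply, Finset.smul_sum,
          Rat.smul_def, mul_assoc] }
  have hφl : ∀ j ∈ B, φ (fun k => ((l j k : ℤ) : ℚ)) = 0 := by
    intro j hj
    show ∑ s, (((l j s : ℤ) : ℚ) : ℂ) * x s = 0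
    rw [← hB j hj]
    refine Finset.sum_congr rfl fun s _ => ?_
    rw [Rat.cast_intCast]
  have hφk : φ (Pi.single k 1) = 1 := by
    show ∑ s, ((Pi.single k (1 : ℚ) : Fin (N + 1) → ℚ) s : ℂ) * x s = 1
    rw [Finset.sum_eq_single k]
    · rw [Pi.single_eq_same, Rat.cast_one, one_mul, hk]
    · intro s _ hs
      rw [Pi.single_eq_of_ne hs, Rat.cast_zero, zero_mul]
    · intro h
      exact absurd (Finset.mem_univ k) h
  have hnot : (Pi.single k (1 : ℚ) : Fin (N + 1) → ℚ) ∉
      Submodule.span ℚ (Set.range fun j : B => fun k => ((l j k : ℤ) : ℚ)) := by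
    intro h
    have h1 : Submodule.span ℚ (Set.range fun j : B => fun k => ((l j k : ℤ) : ℚ)) ≤
        LinearMap.ker φ := by
      rw [Submodule.span_le]
      rintro _ ⟨j, rfl⟩
      exact hφl j.1 j.2
    have h2 := h1 h
    rw [LinearMap.mem_ker, hφk] at h2
    exact one_ne_zero h2
  have hw := hl.option hnot
  have hcard : Fintype.card (Option B) = B.card + 1 := by
    rw [Fintype.card_option, Fintype.card_coe]
  let e : Option B ≃ Fin (B.card + 1) := Fintype.equivFinOfCardEq hcard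
  have hu := hw.comp e.symm e.symm.injective
  refine lin_gen _ hu x ?_
  intro i
  simp only [Function.comp]
  rcases e.symm i with _ | j
  · refine ⟨1, ?_⟩
    rw [Rat.cast_one]
    exact hφk
  · refine ⟨0, ?_⟩
    rw [Rat.cast_zero]
    exact hφl j.1 j.2

/-- [CI-B2a] At most `n` of the linear forms vanish at a common zero.  Proof.  Otherwise take `n + 1` of them; together with `x_k` they are
`n + 2` independent rational forms with the values `0, …, 0, 1` at `x / x_k` (`e_k` is not in the span of the `l_j`, as these vanish at `x` and `x_k ≠ 0`), so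
`x / x_k` is generated by `N + 1 - (n + 2) = c - 1` numbers `y` (`lin_gen`, `N = n + c`).  `F_i(x / x_k) = 0` expresses the coefficient of `X_k ^ d_i` in
`F_i` by `y` and the other coefficients: `td_bound` with `E' = ` all other indices gives `card E ≤ c - 1 + card E - c`. -/
theorem card_vanish {N n h : ℕ} {κ : Type} [Fintype κ] {d : κ → ℕ}
    (hN : N = n + Fintype.card κ) (a : Ix N d → ℂ)
    (ha : AlgebraicIndependent ℚ a) (l : Fin h → Fin (N + 1) → ℤ)
    (hl : ∀ B : Finset (Fin h), B.card ≤ n + 1 →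
      LinearIndependent ℚ (fun j : B => fun k => ((l j k : ℤ) : ℚ)))
    (x : Fin (N + 1) → ℂ) (hx : x ≠ 0) (h1 : ∀ i, eval x (fa a i) = 0)
    (B : Finset (Fin h)) (hB : ∀ j ∈ B, ∑ s, (l j s : ℂ) * x s = 0) : B.card ≤ n := by
  classical
  by_contra hcon
  rw [not_le] at hcon
  obtain ⟨B', hB', hc'⟩ := Finset.exists_subset_card_eq (s := B) (n := n + 1) hcon
  obtain ⟨k, hk⟩ := Function.ne_iff.1 hx
  rw [Pi.zero_apply] at hk
  have hk1 : (fun s => (x k)⁻¹ * x s) k = 1 := inv_mul_cancel₀ hk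
  have hB2 : ∀ j ∈ B', ∑ s, (l j s : ℂ) * ((fun s => (x k)⁻¹ * x s) s) = 0 := by
    intro j hj
    have h2 : ∀ s, (l j s : ℂ) * ((x k)⁻¹ * x s) = (x k)⁻¹ * ((l j s : ℂ) * x s) := fun s => by
      ring
    simp only [h2]
    rw [← Finset.mul_sum, hB j (hB' hj), mul_zero]
  obtain ⟨hle, y, hy⟩ := gen_b2 l (fun s => (x k)⁻¹ * x s) k hk1 B' hB2 (hl B' hc'.le)
  let τ : κ → Ix N d := fun i => ⟨i, mk_b2 k (d i)⟩
  have hτ : Function.Injective τ := fun i i' h => congrArg Sigma.fst h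
  have hT : (Finset.univ.image τ).card = Fintype.card κ := by
    rw [Finset.card_image_of_injective _ hτ, Finset.card_univ]
  have hbd := td_bound a ha y (Finset.univ.image τ)ᶜ (by
    intro e he
    rw [Finset.mem_compl, not_not, Finset.mem_image] at he
    obtain ⟨i, _, rfl⟩ := he
    refine coef_mem_b2 _ (fun m => a ⟨i, m⟩) (fun s => (x k)⁻¹ * x s) ?_ k hk1 ?_ ?_
    · intro j
      exact IntermediateField.adjoin.mono _ _ _ Set.subset_union_left (hy j)
    · rw [ev_frm_smul_b2]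
      have h3 : eval x (frm (fun m : Mon N (d i) => a ⟨i, m⟩)) = 0 := h1 i
      rw [h3, mul_zero]
    · intro m hm
      refine IntermediateField.subset_adjoin _ _ (Or.inr ⟨⟨i, m⟩, ?_, rfl⟩)
      rw [Finset.mem_coe, Finset.mem_compl, Finset.mem_image]
      rintro ⟨i', _, h4⟩
      apply hm
      obtain rfl : i' = i := congrArg Sigma.fst h4
      exact (eq_of_heq (Sigma.mk.inj h4).2).symm)
  rw [Finset.card_compl, hT] at hbd
  have h5 : Fintype.card κ ≤ Fintype.card (Ix N d) := Fintype.card_le_of_injective τ hτ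
  omega

/-- independence over the rationals implies independence over the complex numbers -/
private theorem mu_zero_b2 {N h : ℕ} (l : Fin h → Fin (N + 1) → ℤ) (B : Finset (Fin h))
    (hl : LinearIndependent ℚ (fun j : B => fun k => ((l j k : ℤ) : ℚ))) (mu : Fin h → ℂ)
    (hmu : ∀ j, j ∉ B → mu j = 0) (h0 : ∀ s, ∑ j, mu j * (l j s : ℂ) = 0) : ∀ j, mu j = 0 := by
  classical
  intro j₀
  rw [← Module.forall_dual_apply_eq_zero_iff ℚ]
  intro φ
  by_cases hj : j₀ ∈ B
  · rw [Fintype.linearIndependent_iff] at hl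
    refine hl (fun j => φ (mu j)) ?_ ⟨j₀, hj⟩
    funext s
    rw [Finset.sum_apply, Pi.zero_apply]
    have h1 : ∀ j, φ (mu j * (l j s : ℂ)) = φ (mu j) * ((l j s : ℤ) : ℚ) := by
      intro j
      rw [mul_comm, ← zsmul_eq_mul, map_zsmul, zsmul_eq_mul, mul_comm]
    have h2 := congrArg φ (h0 s)
    rw [map_sum, map_zero] at h2
    simp only [h1] at h2
    rw [← h2, ← Finset.sum_subset (Finset.subset_univ B), Finset.sum_subtype B (fun _ => Iff.rfl)]
    · rfl
    · intro j _ hj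
      rw [hmu j hj, map_zero, zero_mul]
  · rw [hmu j₀ hj, map_zero]

/-- the normalised case -/
private theorem core_b2 {N n h : ℕ} {κ : Type} [Fintype κ] [DecidableEq κ] {d : κ → ℕ}
    (hN : N = n + Fintype.card κ) (hd : ∀ i, 1 ≤ d i) (a : Ix N d → ℂ)
    (ha : AlgebraicIndependent ℚ a) (l : Fin h → Fin (N + 1) → ℤ)
    (hl : ∀ B : Finset (Fin h), B.card ≤ n + 1 →
      LinearIndependent ℚ (fun j : B => fun k => ((l j k : ℤ) : ℚ)))
    (x : Fin (N + 1) → ℂ) (lam : κ → ℂ) (mu : Fin h → ℂ) (k : Fin (N + 1)) (hk : x k = 1)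
    (i₀ : κ) (hi : lam i₀ = 1)
    (h1 : ∀ i, eval x (fa a i) = 0) (h2 : ∀ j, mu j * ∑ s, (l j s : ℂ) * x s = 0)
    (h3 : ∀ s, ∑ i, lam i * eval x (pderiv s (fa a i)) + ∑ j, mu j * (l j s : ℂ) = 0) :
    False := by
  classical
  have hx0 : x ≠ 0 := fun h => one_ne_zero (hk.symm.trans (congrFun h k))
  set B : Finset (Fin h) := Finset.univ.filter fun j => ∑ s, (l j s : ℂ) * x s = 0 with hBdef
  have hB : ∀ j ∈ B, ∑ s, (l j s : ℂ) * x s = 0 := fun j hj => (Finset.mem_filter.1 hj).2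
  have hbn : B.card ≤ n := card_vanish hN a ha l hl x hx0 h1 B hB
  obtain ⟨hbN, y1, hy1⟩ := gen_b2 l x k hk B hB (hl B (by omega))
  have hmu0 : ∀ j, j ∉ B → mu j = 0 := by
    intro j hj
    rcases mul_eq_zero.1 (h2 j) with h | h
    · exact h
    · exact absurd (Finset.mem_filter.2 ⟨Finset.mem_univ j, h⟩) hj
  let Y : Type := Fin (N + 1 - (B.card + 1)) ⊕
    ({i // i ∈ (Finset.univ.erase i₀ : Finset κ)} ⊕ {j // j ∈ B})
  let yv : Y → ℂ := Sum.elim y1 (Sum.elim (fun i => lam i.1) (fun j => mu j.1))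
  let e : Y ≃ Fin (Fintype.card Y) := Fintype.equivFin Y
  have hcY : Fintype.card Y = (N + 1 - (B.card + 1)) + ((Fintype.card κ - 1) + B.card) := by
    simp only [Y, Fintype.card_sum, Fintype.card_fin, Fintype.card_coe]
    rw [Finset.card_erase_of_mem (Finset.mem_univ i₀), Finset.card_univ]
  let τ : Fin (N + 1) ⊕ {i // i ∈ (Finset.univ.erase i₀ : Finset κ)} → Ix N d :=
    Sum.elim (fun j => ⟨i₀, ml_b2 k j (hd i₀)⟩) (fun i => ⟨i.1, mk_b2 k (d i.1)⟩)
  have hτ : Function.Injective τ := by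
    rintro (j | i) (j' | i') h
    · have h4 : ml_b2 k j (hd i₀) = ml_b2 k j' (hd i₀) := eq_of_heq (Sigma.mk.inj h).2
      rw [ml_inj_b2 k j j' (hd i₀) h4]
    · have h4 : i₀ = i'.1 := congrArg Sigma.fst h
      exact absurd h4.symm (Finset.ne_of_mem_erase i'.2)
    · have h4 : i.1 = i₀ := congrArg Sigma.fst h
      exact absurd h4 (Finset.ne_of_mem_erase i.2)
    · have h4 : i.1 = i'.1 := congrArg Sigma.fst h
      rw [Subtype.ext h4]
  have hT : (Finset.univ.image τ).card = (N + 1) + (Fintype.card κ - 1) := by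
    rw [Finset.card_image_of_injective _ hτ, Finset.card_univ, Fintype.card_sum, Fintype.card_fin,
      Fintype.card_coe, Finset.card_erase_of_mem (Finset.mem_univ i₀), Finset.card_univ]
  set K := IntermediateField.adjoin ℚ (Set.range (fun t : Fin (Fintype.card Y) => yv (e.symm t)) ∪
    a '' (((Finset.univ.image τ)ᶜ : Finset (Ix N d)) : Set (Ix N d))) with hK
  have hyK : ∀ t : Y, yv t ∈ K := by
    intro t
    refine IntermediateField.subset_adjoin _ _ (Or.inl ⟨e t, ?_⟩)
    simp only [Equiv.symm_apply_apply]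
  have hEK : ∀ p, p ∉ Finset.univ.image τ → a p ∈ K := by
    intro p hp
    exact IntermediateField.subset_adjoin _ _ (Or.inr ⟨p, by
      rw [Finset.mem_coe, Finset.mem_compl]; exact hp, rfl⟩)
  have hxK : ∀ j, x j ∈ K := by
    intro j
    have h4 : IntermediateField.adjoin ℚ (Set.range y1) ≤ K := by
      rw [IntermediateField.adjoin_le_iff]
      rintro _ ⟨t, rfl⟩
      exact hyK (Sum.inl t)
    exact h4 (hy1 j)
  have hlK : ∀ i, lam i ∈ K := by
    intro i
    by_cases hii : i = i₀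
    · rw [hii, hi]
      exact one_mem K
    · exact hyK (Sum.inr (Sum.inl ⟨i, Finset.mem_erase.2 ⟨hii, Finset.mem_univ i⟩⟩))
  have hmK : ∀ j, mu j ∈ K := by
    intro j
    by_cases hj : j ∈ B
    · exact hyK (Sum.inr (Sum.inr ⟨j, hj⟩))
    · rw [hmu0 j hj]
      exact zero_mem K
  -- the other members
  have S1 : ∀ i, i ≠ i₀ → ∀ m : Mon N (d i), a ⟨i, m⟩ ∈ K := by
    intro i hii
    have h5 : ∀ m : Mon N (d i), m ≠ mk_b2 k (d i) → a ⟨i, m⟩ ∈ K := by
      intro m hm
      refine hEK _ fun h => ?_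
      rw [Finset.mem_image] at h
      obtain ⟨t, _, ht⟩ := h
      rcases t with j | i'
      · exact hii (congrArg Sigma.fst ht).symm
      · apply hm
        obtain ⟨i', hi'⟩ := i'
        obtain rfl : i' = i := congrArg Sigma.fst ht
        exact (eq_of_heq (Sigma.mk.inj ht).2).symm
    intro m
    by_cases hm : m = mk_b2 k (d i)
    · rw [hm]
      exact coef_mem_b2 K (fun m => a ⟨i, m⟩) x hxK k hk (h1 i) h5
    · exact h5 m hm
  -- the derivatives of the member `i₀`
  have hD : ∀ s, eval x (pderiv s (fa a i₀)) ∈ K := by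
    intro s
    have h4 := h3 s
    rw [← Finset.add_sum_erase Finset.univ _ (Finset.mem_univ i₀), hi, one_mul, add_assoc] at h4
    rw [eq_neg_of_add_eq_zero_left h4]
    refine neg_mem (add_mem (sum_mem fun i hi' => mul_mem (hlK i) ?_)
      (sum_mem fun j _ => mul_mem (hmK j) (intCast_mem K _)))
    exact pd_mem_b2 K (fun m => a ⟨i, m⟩) x hxK s (S1 i (Finset.ne_of_mem_erase hi'))
  have S2 : ∀ j, j ≠ k → a ⟨i₀, ml_b2 k j (hd i₀)⟩ ∈ K := by
    intro j hj
    refine coef_pd_b2 K (fun m => a ⟨i₀, m⟩) x hxK k hk j hj (hd i₀) (hD j) ?_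
    intro m hm hmj
    refine hEK _ fun h => ?_
    rw [Finset.mem_image] at h
    obtain ⟨t, _, ht⟩ := h
    rcases t with j' | i'
    · have h5 : ml_b2 k j' (hd i₀) = m := eq_of_heq (Sigma.mk.inj ht).2
      have hne : j' ≠ j := fun h6 => hm (by rw [← h5, h6])
      apply hmj
      rw [← h5]
      show (Finsupp.single k (d i₀ - 1) + Finsupp.single j' 1 : Fin (N + 1) →₀ ℕ) j = 0
      rw [Finsupp.add_apply, Finsupp.single_apply, Finsupp.single_apply,
        if_neg (fun h => hj h.symm), if_neg hne, add_zero]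
    · exact absurd (congrArg Sigma.fst ht : i'.1 = i₀) (Finset.ne_of_mem_erase i'.2)
  have S3 : a ⟨i₀, mk_b2 k (d i₀)⟩ ∈ K := by
    refine coef_mem_b2 K (fun m => a ⟨i₀, m⟩) x hxK k hk (h1 i₀) ?_
    intro m hm
    by_cases h : (⟨i₀, m⟩ : Ix N d) ∈ Finset.univ.image τ
    · rw [Finset.mem_image] at h
      obtain ⟨t, _, ht⟩ := h
      rcases t with j' | i'
      · have h5 : ml_b2 k j' (hd i₀) = m := eq_of_heq (Sigma.mk.inj ht).2
        have hne : j' ≠ k := fun h6 => hm (by rw [← h5, h6, ml_self_b2])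
        show a ⟨i₀, m⟩ ∈ K
        rw [← h5]
        exact S2 j' hne
      · exact absurd (congrArg Sigma.fst ht : i'.1 = i₀) (Finset.ne_of_mem_erase i'.2)
    · exact hEK _ h
  have hbd := td_bound a ha (fun t : Fin (Fintype.card Y) => yv (e.symm t))
    (Finset.univ.image τ)ᶜ (by
    intro p hp
    rw [Finset.mem_compl, not_not, Finset.mem_image] at hp
    obtain ⟨t, _, rfl⟩ := hp
    rcases t with j | i
    · show a ⟨i₀, ml_b2 k j (hd i₀)⟩ ∈ K
      by_cases hj : j = k
      · rw [hj, ml_self_b2]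
        exact S3
      · exact S2 j hj
    · exact S1 i.1 (Finset.ne_of_mem_erase i.2) _)
  rw [Finset.card_compl, hT, hcY] at hbd
  have h5 : (N + 1) + (Fintype.card κ - 1) ≤ Fintype.card (Ix N d) := by
    rw [← hT]
    exact Finset.card_le_univ _
  have h6 : 0 < Fintype.card κ := Fintype.card_pos_iff.2 ⟨i₀⟩
  omega

/-- [CI-B2b] Proof.  Normalise `x_k = 1` (replace `x` by `x / x_k` and `lam i` by `lam i * x_k ^ (d i - 1)`).  `B = {j | l_j(x) = 0}`, `b = B.card ≤ n` by
`card_vanish`.  If all `lam i = 0` then `mu = 0` by independence.  Let `lam i₀ ≠ 0`, divide by it.  As in `card_vanish`, `x` is generated by `N - b` numbers; `y` = these numbers, the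
`lam i`, `i ≠ i₀`, and the `mu j`, `j ∈ B` (`mu j = 0` for `j ∉ B`): `N + c - 1` numbers.  `E'` = all indices except `(i₀, X_k ^ (d - 1) X_j)` for all `j` (with `j = k`: `X_k ^ d`) and
`(i, X_k ^ (d i))` for `i ≠ i₀`: `N + 1 + (c - 1)` indices are excluded.  They are in the field generated by `y` and the others: first those of `F_i`, `i ≠ i₀`
(from `F_i(x) = 0`), then `(i₀, X_k ^ (d - 1) X_j)`, `j ≠ k` (the equation `h3` for `s = j`), then `(i₀, X_k ^ d)` (the equation for `s = k`, coefficient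
`d ≠ 0`).  Contradiction to `td_bound`.  Compare `snc_crit_algInd` in Lib_MP_b9fedf_gh/SncGen.lean. -/
theorem sncL_td {N n h : ℕ} {κ : Type} [Fintype κ] [DecidableEq κ] {d : κ → ℕ}
    (hN : N = n + Fintype.card κ) (hd : ∀ i, 1 ≤ d i) (a : Ix N d → ℂ)
    (ha : AlgebraicIndependent ℚ a) (l : Fin h → Fin (N + 1) → ℤ)
    (hl : ∀ B : Finset (Fin h), B.card ≤ n + 1 →
      LinearIndependent ℚ (fun j : B => fun k => ((l j k : ℤ) : ℚ)))
    (x : Fin (N + 1) → ℂ) (lam : κ → ℂ) (mu : Fin h → ℂ) (k : Fin (N + 1)) (hk : x k ≠ 0)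
    (h1 : ∀ i, eval x (fa a i) = 0) (h2 : ∀ j, mu j * ∑ s, (l j s : ℂ) * x s = 0)
    (h3 : ∀ s, ∑ i, lam i * eval x (pderiv s (fa a i)) + ∑ j, mu j * (l j s : ℂ) = 0) :
    (∀ i, lam i = 0) ∧ ∀ j, mu j = 0 := by
  classical
  have hlam : ∀ i, lam i = 0 := by
    intro i₀
    by_contra hne
    set t : ℂ := x k with ht
    set r : ℂ := (lam i₀ * t ^ (d i₀ - 1))⁻¹ with hr
    have hrn : lam i₀ * t ^ (d i₀ - 1) ≠ 0 := mul_ne_zero hne (pow_ne_zero _ hk)
    refine core_b2 hN hd a ha l hl (fun s => t⁻¹ * x s) (fun i => r * (lam i * t ^ (d i - 1)))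
      (fun j => r * mu j) k (inv_mul_cancel₀ hk) i₀ (inv_mul_cancel₀ hrn) ?_ ?_ ?_
    · intro i
      have h4 : eval x (frm (fun m : Mon N (d i) => a ⟨i, m⟩)) = 0 := h1 i
      show eval (fun s => t⁻¹ * x s) (frm (fun m : Mon N (d i) => a ⟨i, m⟩)) = 0
      rw [ev_frm_smul_b2, h4, mul_zero]
    · intro j
      have h4 : ∀ s, (l j s : ℂ) * (t⁻¹ * x s) = t⁻¹ * ((l j s : ℂ) * x s) := fun s => by ring
      simp only [h4]
      rw [← Finset.mul_sum]
      calc r * mu j * (t⁻¹ * ∑ s, (l j s : ℂ) * x s)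
          = r * t⁻¹ * (mu j * ∑ s, (l j s : ℂ) * x s) := by ring
        _ = 0 := by rw [h2 j, mul_zero]
    · intro s
      have h4 : ∀ i, r * (lam i * t ^ (d i - 1)) *
          eval (fun s => t⁻¹ * x s) (pderiv s (fa a i)) = r * (lam i * eval x (pderiv s (fa a i))) := by
        intro i
        have h5 : eval (fun s => t⁻¹ * x s) (pderiv s (fa a i)) =
            t⁻¹ ^ (d i - 1) * eval x (pderiv s (fa a i)) := ev_pd_smul_b2 _ _ _ _
        rw [h5]
        have h6 : t ^ (d i - 1) * t⁻¹ ^ (d i - 1) = 1 := by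
          rw [← mul_pow, mul_inv_cancel₀ hk, one_pow]
        calc r * (lam i * t ^ (d i - 1)) * (t⁻¹ ^ (d i - 1) * eval x (pderiv s (fa a i)))
            = r * (lam i * eval x (pderiv s (fa a i))) * (t ^ (d i - 1) * t⁻¹ ^ (d i - 1)) := by ring
          _ = _ := by rw [h6, mul_one]
      simp only [h4, mul_assoc]
      rw [← Finset.mul_sum, ← Finset.mul_sum, ← mul_add, h3 s, mul_zero]
  refine ⟨hlam, ?_⟩
  have hx0 : x ≠ 0 := fun h => hk (congrFun h k)
  let B : Finset (Fin h) := Finset.univ.filter fun j => ∑ s, (l j s : ℂ) * x s = 0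
  have hB : ∀ j ∈ B, ∑ s, (l j s : ℂ) * x s = 0 := fun j hj => (Finset.mem_filter.1 hj).2
  have hbn : B.card ≤ n := card_vanish hN a ha l hl x hx0 h1 B hB
  refine mu_zero_b2 l B (hl B (by omega)) mu ?_ ?_
  · intro j hj
    rcases mul_eq_zero.1 (h2 j) with h | h
    · exact h
    · exact absurd (Finset.mem_filter.2 ⟨Finset.mem_univ j, h⟩) hj
  · intro s
    have h4 := h3 s
    rw [Finset.sum_eq_zero (fun i _ => by rw [hlam i, zero_mul]), zero_add] at h4
    exact h4

end Pool.Agent.CI
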