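import Pool.Agent.Lib_MP_b9fedf_ci.HomMult

/-! [CI-C4]: reduction to the reduced elements. -/

set_option autoImplicit false

namespace Pool.Agent.CI
open MvPolynomial

/-- the support -/
def supp {κ : Type} [Fintype κ] (e : κ → ℕ) : Finset κ := Finset.univ.filter (fun i => e i ≠ 0)

/-- the elements `g(x) y ^ a w ^ e v ^ ν` -/
noncomputable def mo {k A : Type} [Field k] [CommRing A] [Algebra k A] {n : ℕ} {κ : Type}
    [Fintype κ] (ξ : MvPolynomial (Fin (n + 1)) k →ₐ[k] A) (y w : κ → A) (v : Fin (n + 1) → A)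
    (g : MvPolynomial (Fin (n + 1)) k) (a e : κ → ℕ) (ν : Fin (n + 1) → ℕ) : A :=
  ξ g * (∏ i, y i ^ a i) * (∏ i, w i ^ e i) * ∏ j, v j ^ ν j

private theorem sr_prod {A ι : Type} [CommRing A] [Fintype ι] [DecidableEq ι] (y : ι → A)
    (a : ι → ℕ) (i : ι) (m : ℕ) :
    ∏ j, y j ^ (a + Pi.single i m : ι → ℕ) j = (∏ j, y j ^ a j) * y i ^ m := by
  simp only [Pi.add_apply, pow_add, Finset.prod_mul_distrib]
  congr 1
  rw [Finset.prod_eq_single i]
  · rw [Pi.single_eq_same]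
  · intro j _ hj
    rw [Pi.single_eq_of_ne hj, pow_zero]
  · intro h; exact absurd (Finset.mem_univ i) h

private theorem sr_sum {ι : Type} [Fintype ι] [DecidableEq ι] (a : ι → ℕ) (i : ι) (m : ℕ) :
    ∑ j, (a + Pi.single i m : ι → ℕ) j = ∑ j, a j + m := by
  simp only [Pi.add_apply, Finset.sum_add_distrib]
  congr 1
  rw [Finset.sum_eq_single i]
  · rw [Pi.single_eq_same]
  · intro j _ hj
    rw [Pi.single_eq_of_ne hj]
  · intro h; exact absurd (Finset.mem_univ i) h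

private theorem sr_dec {ι : Type} [DecidableEq ι] (a : ι → ℕ) (i : ι) (m : ℕ) (h : m ≤ a i) :
    ∃ a' : ι → ℕ, a = a' + Pi.single i m := by
  refine ⟨fun j => if j = i then a i - m else a j, ?_⟩
  funext j
  by_cases hj : j = i
  · subst hj
    simp only [Pi.add_apply, if_true, Pi.single_eq_same]
    omega
  · simp only [Pi.add_apply, if_neg hj, Pi.single_eq_of_ne hj, add_zero]

section
variable {k A : Type} [Field k] [CommRing A] [Algebra k A] {n : ℕ} {κ : Type} [Fintype κ]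
  [DecidableEq κ] (ξ : MvPolynomial (Fin (n + 1)) k →ₐ[k] A) (y w : κ → A) (v : Fin (n + 1) → A)

private theorem sr_key [CharZero k] (d : κ → ℕ) (hd : ∀ i, 2 ≤ d i)
    (b : κ → MvPolynomial (Fin (n + 1)) k)
    (h2 : ∀ i, (d i : A) * y i ^ (d i - 1) * w i = ∑ j, ξ (pderiv j (b i)) * v j) (i : κ) :
    y i ^ (d i - 1) * w i = ((d i : k)⁻¹) • ∑ j, ξ (pderiv j (b i)) * v j := by
  rw [← h2 i, mul_assoc]
  have h0 : (d i : k) ≠ 0 := by
    have := hd i
    exact_mod_cast (by omega : d i ≠ 0)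
  have h1 : (d i : A) * (y i ^ (d i - 1) * w i) = (d i : k) • (y i ^ (d i - 1) * w i) := by
    rw [Algebra.smul_def, map_natCast]
  rw [h1, smul_smul, inv_mul_cancel₀ h0, one_smul]

/-- step 1 -/
private theorem sr_one (d : κ → ℕ) (b : κ → MvPolynomial (Fin (n + 1)) k)
    (h1 : ∀ i, y i ^ d i = ξ (b i)) (g : MvPolynomial (Fin (n + 1)) k) (a e : κ → ℕ)
    (ν : Fin (n + 1) → ℕ) (i : κ) :
    mo ξ y w v g (a + Pi.single i (d i)) e ν = mo ξ y w v (g * b i) a e ν := by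
  unfold mo
  rw [sr_prod, h1, map_mul]
  ring

/-- step 2 -/
private theorem sr_two [CharZero k] (d : κ → ℕ) (hd : ∀ i, 2 ≤ d i)
    (b : κ → MvPolynomial (Fin (n + 1)) k)
    (h2 : ∀ i, (d i : A) * y i ^ (d i - 1) * w i = ∑ j, ξ (pderiv j (b i)) * v j)
    (g : MvPolynomial (Fin (n + 1)) k) (a e : κ → ℕ) (ν : Fin (n + 1) → ℕ) (i : κ) :
    mo ξ y w v g (a + Pi.single i (d i - 1)) (e + Pi.single i 1) ν =
      ((d i : k)⁻¹) • ∑ j, mo ξ y w v (g * pderiv j (b i)) a e (ν + Pi.single j 1) := by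
  have h := sr_key ξ y w v d hd b h2 i
  unfold mo
  rw [sr_prod, sr_prod, pow_one]
  have e1 : ξ g * ((∏ j, y j ^ a j) * y i ^ (d i - 1)) * ((∏ j, w j ^ e j) * w i) *
      ∏ j, v j ^ ν j = (ξ g * (∏ j, y j ^ a j) * (∏ j, w j ^ e j) * ∏ j, v j ^ ν j) *
      (y i ^ (d i - 1) * w i) := by ring
  rw [e1, h, mul_smul_comm, Finset.mul_sum]
  congr 1
  refine Finset.sum_congr rfl fun j _ => ?_
  rw [sr_prod, map_mul, pow_one]
  ring

/-- step 3 -/
private theorem sr_three [CharZero k] (d : κ → ℕ) (hd : ∀ i, 2 ≤ d i)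
    (b : κ → MvPolynomial (Fin (n + 1)) k) (h1 : ∀ i, y i ^ d i = ξ (b i))
    (h2 : ∀ i, (d i : A) * y i ^ (d i - 1) * w i = ∑ j, ξ (pderiv j (b i)) * v j)
    (g : MvPolynomial (Fin (n + 1)) k) (a e : κ → ℕ) (ν : Fin (n + 1) → ℕ) (i : κ) :
    mo ξ y w v (b i * g) a (e + Pi.single i 1) ν =
      ((d i : k)⁻¹) • ∑ j, mo ξ y w v (g * pderiv j (b i)) (a + Pi.single i 1) e
        (ν + Pi.single j 1) := by
  have h := sr_key ξ y w v d hd b h2 i
  have hdi := hd i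
  have hy : ξ (b i) = y i * y i ^ (d i - 1) := by
    rw [← h1 i, ← pow_succ']
    congr 1
    omega
  unfold mo
  rw [sr_prod, pow_one, map_mul, hy]
  have e1 : y i * y i ^ (d i - 1) * ξ g * (∏ j, y j ^ a j) * ((∏ j, w j ^ e j) * w i) *
      ∏ j, v j ^ ν j = (ξ g * (∏ j, y j ^ a j) * y i * (∏ j, w j ^ e j) * ∏ j, v j ^ ν j) *
      (y i ^ (d i - 1) * w i) := by ring
  rw [e1, h, mul_smul_comm, Finset.mul_sum]
  congr 1
  refine Finset.sum_congr rfl fun j _ => ?_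
  rw [sr_prod, sr_prod, map_mul, pow_one, pow_one]
  ring

/-- `mo` as a linear map in `g` -/
private noncomputable def sr_lin (a e : κ → ℕ) (ν : Fin (n + 1) → ℕ) :
    MvPolynomial (Fin (n + 1)) k →ₗ[k] A where
  toFun g := mo ξ y w v g a e ν
  map_add' g g' := by
    unfold mo
    rw [map_add]; ring
  map_smul' c g := by
    unfold mo
    rw [map_smul, RingHom.id_apply]
    simp only [smul_mul_assoc]

end

/-- [CI-C4] Proof.  Induction on `∑ e i`, then on `∑ a i` (lexicographic).  (1) If `a i ≥ d i` for some `i`, replace `y i ^ d i` by `ξ (b i)`: `g` becomes `g * b i`, `∑ a` drops.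
(2) If `e i ≠ 0` and `a i + 1 ≥ d i`, replace `y i ^ (d i - 1) * w i` by `(d i)⁻¹ ∑ j, ξ (pderiv j (b i)) * v j`: `∑ e` drops, the degree of `g` becomes
`t + d i - 1` (`IsHomogeneous.pderiv`).  (3) Otherwise `∑ a < ∑ d`, so `t ≥ s₁`; by `hB2` and `hom_mult` `g = r + l q₀ + ∑ i ∈ supp e, b i q i`, `r` in the span of `B (supp e) t`
(these give reduced elements); `ξ l = 0`; and `ξ (b i q i) y ^ a w ^ e v ^ ν` with `e i ≠ 0`: `ξ (b i) w i = y i ^ d i w i = y i (d i)⁻¹ ∑ j, ξ (pderiv j (b i)) v j`, so `∑ e` drops. -/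
theorem span_red {k A : Type} [Field k] [CharZero k] [CommRing A] [Algebra k A] {n : ℕ} {κ : Type}
    [Fintype κ] [DecidableEq κ] (d : κ → ℕ) (hd : ∀ i, 2 ≤ d i)
    (b : κ → MvPolynomial (Fin (n + 1)) k) (hb : ∀ i, (b i).IsHomogeneous (d i))
    (l : MvPolynomial (Fin (n + 1)) k) (hl : l.IsHomogeneous 1)
    (ξ : MvPolynomial (Fin (n + 1)) k →ₐ[k] A) (y w : κ → A) (v : Fin (n + 1) → A)
    (h1 : ∀ i, y i ^ d i = ξ (b i))
    (h2 : ∀ i, (d i : A) * y i ^ (d i - 1) * w i = ∑ j, ξ (pderiv j (b i)) * v j)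
    (h3 : ξ l = 0) (B : Finset κ → ℕ → Finset (MvPolynomial (Fin (n + 1)) k)) (s₁ : ℕ)
    (hB2 : ∀ S t, s₁ ≤ t → ∀ g : MvPolynomial (Fin (n + 1)) k, g.IsHomogeneous t →
      ∃ r ∈ Submodule.span k (B S t : Set (MvPolynomial (Fin (n + 1)) k)),
        g - r ∈ Ideal.span ({l} ∪ b '' (S : Set κ)))
    (hB1 : ∀ S t, ∀ g ∈ B S t, g.IsHomogeneous t)
    (α β : ℕ) (hα : s₁ + ∑ i, d i ≤ α)
    (g : MvPolynomial (Fin (n + 1)) k) (a e : κ → ℕ) (ν : Fin (n + 1) → ℕ) (t : ℕ)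
    (hg : g.IsHomogeneous t) (ht : t + ∑ i, a i = α) (he : ∑ i, e i + ∑ j, ν j = β) :
    mo ξ y w v g a e ν ∈ Submodule.span k {z | ∃ (a' e' : κ → ℕ) (ν' : Fin (n + 1) → ℕ)
      (g' : MvPolynomial (Fin (n + 1)) k), (∀ i, a' i < d i) ∧ (∀ i, e' i ≠ 0 → a' i + 1 < d i) ∧
      ∑ i, e' i + ∑ j, ν' j = β ∧ g' ∈ B (supp e') (α - ∑ i, a' i) ∧
      z = mo ξ y w v g' a' e' ν'} := by
  set T := Submodule.span k {z | ∃ (a' e' : κ → ℕ) (ν' : Fin (n + 1) → ℕ)
      (g' : MvPolynomial (Fin (n + 1)) k), (∀ i, a' i < d i) ∧ (∀ i, e' i ≠ 0 → a' i + 1 < d i) ∧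
      ∑ i, e' i + ∑ j, ν' j = β ∧ g' ∈ B (supp e') (α - ∑ i, a' i) ∧
      z = mo ξ y w v g' a' e' ν'} with hT
  suffices H : ∀ (E M : ℕ) (g : MvPolynomial (Fin (n + 1)) k) (a e : κ → ℕ)
      (ν : Fin (n + 1) → ℕ) (t : ℕ), g.IsHomogeneous t → t + ∑ i, a i = α →
      ∑ i, e i + ∑ j, ν j = β → ∑ i, e i = E → ∑ i, a i = M → mo ξ y w v g a e ν ∈ T from
    H _ _ g a e ν t hg ht he rfl rfl
  intro E
  induction E using Nat.strong_induction_on with
  | _ E ihE =>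
  intro M
  induction M using Nat.strong_induction_on with
  | _ M ihM =>
  intro g a e ν t hg ht he hE hM
  by_cases c1 : ∃ i, d i ≤ a i
  · -- step 1
    obtain ⟨i, hi⟩ := c1
    obtain ⟨a', rfl⟩ := sr_dec a i (d i) hi
    rw [sr_sum] at ht hM
    have hdi := hd i
    rw [sr_one ξ y w v d b h1]
    exact ihM (∑ j, a' j) (by omega) (g * b i) a' e ν (t + d i) (hg.mul (hb i)) (by omega) he hE rfl
  by_cases c2 : ∃ i, e i ≠ 0 ∧ d i ≤ a i + 1
  · -- step 2
    obtain ⟨i, hi0, hi⟩ := c2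
    obtain ⟨a', rfl⟩ := sr_dec a i (d i - 1) (by omega)
    obtain ⟨e', rfl⟩ := sr_dec e i 1 (by omega)
    rw [sr_sum] at ht hM hE he
    have hdi := hd i
    rw [sr_two ξ y w v d hd b h2]
    refine T.smul_mem _ (T.sum_mem fun j _ => ?_)
    refine ihE (∑ j, e' j) (by omega) (∑ j, a' j) (g * pderiv j (b i)) a' e' (ν + Pi.single j 1)
      (t + (d i - 1)) (hg.mul (hb i).pderiv) (by omega) ?_ rfl rfl
    rw [sr_sum]; omega
  -- step 3
  push Not at c1 c2
  have hsum : ∑ i, a i ≤ ∑ i, d i := Finset.sum_le_sum fun i _ => (c1 i).le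
  have hts : s₁ ≤ t := by omega
  obtain ⟨r, hr, hgr⟩ := hB2 (supp e) t hts g hg
  have hrh : r.IsHomogeneous t := by
    have : Submodule.span k (B (supp e) t : Set (MvPolynomial (Fin (n + 1)) k)) ≤
        homogeneousSubmodule (Fin (n + 1)) k t := by
      rw [Submodule.span_le]
      intro g' hg'
      exact hB1 (supp e) t g' hg'
    exact this hr
  have hgrh : (g - r).IsHomogeneous t := hg.sub hrh
  obtain ⟨q₀, q, hq, hqd⟩ := hom_mult (supp e) b d hb l hl t (g - r) hgrh hgr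
  have hgeq : g = r + (l * q₀ + ∑ i ∈ supp e, b i * q i) := by rw [← hq]; ring
  have hlin : mo ξ y w v g a e ν = sr_lin ξ y w v a e ν g := rfl
  rw [hlin, hgeq, map_add, map_add, map_sum]
  refine T.add_mem ?_ (T.add_mem ?_ (T.sum_mem fun i hi => ?_))
  · -- the part in the span
    have h4 : Submodule.span k (B (supp e) t : Set (MvPolynomial (Fin (n + 1)) k)) ≤
        T.comap (sr_lin ξ y w v a e ν) := by
      rw [Submodule.span_le]
      intro g' hg'
      refine Submodule.subset_span ⟨a, e, ν, g', c1, fun i hi => ?_, he, ?_, rfl⟩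
      · have := c2 i hi; omega
      · have : α - ∑ i, a i = t := by omega
        rw [this]; exact hg'
    exact h4 hr
  · -- the part of `l`
    have : sr_lin ξ y w v a e ν (l * q₀) = 0 := by
      show mo ξ y w v (l * q₀) a e ν = 0
      unfold mo
      rw [map_mul, h3]; ring
    rw [this]; exact T.zero_mem
  · rcases hqd i hi with h0 | ⟨t', hq', ht'⟩
    · rw [h0, mul_zero, map_zero]; exact T.zero_mem
    · have hi0 : e i ≠ 0 := by
        unfold supp at hi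
        exact (Finset.mem_filter.mp hi).2
      obtain ⟨e', rfl⟩ := sr_dec e i 1 (by omega)
      rw [sr_sum] at hE he
      have hdi := hd i
      show mo ξ y w v (b i * q i) a (e' + Pi.single i 1) ν ∈ T
      rw [sr_three ξ y w v d hd b h1 h2]
      refine T.smul_mem _ (T.sum_mem fun j _ => ?_)
      refine ihE (∑ j, e' j) (by omega) (∑ j, (a + Pi.single i 1 : κ → ℕ) j)
        (q i * pderiv j (b i)) (a + Pi.single i 1) e' (ν + Pi.single j 1)
        (t' + (d i - 1)) (hq'.mul (hb i).pderiv) ?_ ?_ rfl rfl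
      · rw [sr_sum]; omega
      · rw [sr_sum]; omega

end Pool.Agent.CI
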