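import Pool.Agent.Lib_MP_b9fedf_ci.BasicJ

/-! [CI-B1]: counting transcendence degrees. -/

set_option autoImplicit false

namespace Pool.Agent.CI
open MvPolynomial Pool.Agent.GGL Pool.Agent.GH

/-- [CI-B1a] Proof.  `Set.range a` is contained in the closure of `Set.range y ∪ a '' E'` in the matroid `AlgebraicIndependent.matroid ℚ ℂ`
(an element of the field generated by a set is algebraic over the ring generated by it); see the proof of
`LG.indep_off` (Lib_MP_b9fedf_lg/Matroid.lean). -/
theorem td_bound {E : Type} [Fintype E] (a : E → ℂ) (ha : AlgebraicIndependent ℚ a) {m : ℕ}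
    (y : Fin m → ℂ) (E' : Finset E)
    (h : ∀ e, e ∉ E' → a e ∈ IntermediateField.adjoin ℚ (Set.range y ∪ a '' (E' : Set E))) :
    Fintype.card E ≤ m + E'.card := by
  classical
  have halg : ∀ e, IsAlgebraic (Algebra.adjoin ℚ (Set.range y ∪ a '' (E' : Set E))) (a e) := by
    intro e
    by_cases he : e ∈ E'
    · exact isAlgebraic_algebraMap
        (⟨a e, Algebra.subset_adjoin (Or.inr ⟨e, he, rfl⟩)⟩ :
          Algebra.adjoin ℚ (Set.range y ∪ a '' (E' : Set E)))
    · obtain ⟨r, hr, s, hs, hrs⟩ := (IntermediateField.mem_adjoin_iff_div).1 (h e he)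
      have h1 : IsAlgebraic (Algebra.adjoin ℚ (Set.range y ∪ a '' (E' : Set E))) r :=
        isAlgebraic_algebraMap
          (⟨r, hr⟩ : Algebra.adjoin ℚ (Set.range y ∪ a '' (E' : Set E)))
      have h2 : IsAlgebraic (Algebra.adjoin ℚ (Set.range y ∪ a '' (E' : Set E))) s :=
        isAlgebraic_algebraMap
          (⟨s, hs⟩ : Algebra.adjoin ℚ (Set.range y ∪ a '' (E' : Set E)))
      rw [hrs, div_eq_mul_inv]
      exact h1.mul h2.inv
  have hr : (Set.range a).encard ≤ (Set.range y ∪ a '' (E' : Set E)).encard := by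
    have hind : (AlgebraicIndependent.matroid ℚ ℂ).Indep (Set.range a) :=
      (algebraicIndependent_subtype_range ha.injective).2 ha
    have hsub : Set.range a ⊆
        (AlgebraicIndependent.matroid ℚ ℂ).closure (Set.range y ∪ a '' (E' : Set E)) := by
      rw [AlgebraicIndependent.matroid_closure_eq]
      rintro _ ⟨e, rfl⟩
      exact halg e
    calc (Set.range a).encard = (AlgebraicIndependent.matroid ℚ ℂ).eRk (Set.range a) :=
          hind.eRk_eq_encard.symm
      _ ≤ (AlgebraicIndependent.matroid ℚ ℂ).eRk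
          ((AlgebraicIndependent.matroid ℚ ℂ).closure (Set.range y ∪ a '' (E' : Set E))) :=
          (AlgebraicIndependent.matroid ℚ ℂ).eRk_mono hsub
      _ = (AlgebraicIndependent.matroid ℚ ℂ).eRk (Set.range y ∪ a '' (E' : Set E)) :=
          (AlgebraicIndependent.matroid ℚ ℂ).eRk_closure_eq _
      _ ≤ _ := (AlgebraicIndependent.matroid ℚ ℂ).eRk_le_encard _
  have h1 : (Fintype.card E : ℕ∞) ≤ (Set.range a).encard := by
    rw [← ENat.card_eq_coe_fintype_card]
    exact ha.injective.encard_range
  have h2 : (Set.range y).encard ≤ (m : ℕ∞) := by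
    rw [← Set.image_univ]
    refine (Set.encard_image_le y Set.univ).trans ?_
    rw [Set.encard_univ, ENat.card_eq_coe_fintype_card, Fintype.card_fin]
  have h3 : (a '' (E' : Set E)).encard ≤ (E'.card : ℕ∞) := by
    refine (Set.encard_image_le a _).trans ?_
    rw [Set.encard_coe_eq_coe_finsetCard]
  have h4 := h1.trans (hr.trans ((Set.encard_union_le _ _).trans (add_le_add h2 h3)))
  exact_mod_cast h4

end Pool.Agent.CI
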