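import Pool.Agent.Lib_MP_b9fedf_ci.BiComp
import Pool.Agent.Lib_MP_b9fedf_ci.IndepLift

/-! [CI-C20]: the upper bound for the universal member. -/

set_option autoImplicit false

namespace Pool.Agent.CI
open MvPolynomial Pool.Agent.GGL Pool.Agent.GH

/-- the field of the universal coefficients -/
abbrev KK (N : ℕ) {κ : Type} (d : κ → ℕ) : Type := FractionRing (MvPolynomial (Ix N d) ℚ)

/-- the universal forms over the field -/
noncomputable def gK {N : ℕ} {κ : Type} (d : κ → ℕ) (i : κ) :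
    MvPolynomial (Fin (N + 1)) (KK N d) :=
  fa (fun p : Ix N d => algebraMap (MvPolynomial (Ix N d) ℚ) (KK N d) (X p)) i

/-- the coefficients of the linear form with code `r` -/
def lv {κ : Type} {n N : ℕ} (e : Fin (n + 1) ⊕ κ ≃ Fin (N + 1)) (r : ℕ) (k : Fin (N + 1)) : ℤ :=
  match e.symm k with
  | Sum.inl j => (r : ℤ) ^ (j : ℕ)
  | Sum.inr _ => 0

private theorem lv_inl {κ : Type} {n N : ℕ} (e : Fin (n + 1) ⊕ κ ≃ Fin (N + 1)) (r : ℕ)
    (j : Fin (n + 1)) : lv e r (e (Sum.inl j)) = (r : ℤ) ^ (j : ℕ) := by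
  unfold lv
  rw [Equiv.symm_apply_apply]

private theorem lv_inr {κ : Type} {n N : ℕ} (e : Fin (n + 1) ⊕ κ ≃ Fin (N + 1)) (r : ℕ)
    (i : κ) : lv e r (e (Sum.inr i)) = 0 := by
  unfold lv
  rw [Equiv.symm_apply_apply]

theorem lf_lv (k : Type) [Field k] {κ : Type} {n N : ℕ} (e : Fin (n + 1) ⊕ κ ≃ Fin (N + 1))
    (r : ℕ) : lf (fun j => ((lv e r j : ℤ) : k)) =
      rename (fun j => e (Sum.inl j)) (vd k n r) := by
  classical
  have : Finite κ := Finite.of_injective (fun i : κ => e (Sum.inr i))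
    (e.injective.comp Sum.inr_injective)
  have : Fintype κ := Fintype.ofFinite κ
  unfold lf vd
  rw [← Equiv.sum_comp e, Fintype.sum_sum_type, map_sum]
  have h0 : ∑ i : κ, C (((lv e r (e (Sum.inr i)) : ℤ) : k)) *
      (X (e (Sum.inr i)) : MvPolynomial (Fin (N + 1)) k) = 0 := by
    refine Finset.sum_eq_zero fun i _ => ?_
    rw [lv_inr, Int.cast_zero, C_0, zero_mul]
  rw [h0, add_zero]
  refine Finset.sum_congr rfl fun j _ => ?_
  change C (((lv e r (e (Sum.inl j)) : ℤ) : k)) * X (e (Sum.inl j)) = _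
  rw [lv_inl, map_mul, rename_C, rename_X, Int.cast_pow, Int.cast_natCast]

/-- any `n + 1` of the forms with different codes are independent -/
theorem lv_indep {κ : Type} {n N h : ℕ} (e : Fin (n + 1) ⊕ κ ≃ Fin (N + 1)) (r : Fin h → ℕ)
    (hr : Function.Injective r) (B : Finset (Fin h)) (hB : B.card ≤ n + 1) :
    LinearIndependent ℚ (fun j : B => fun k => ((lv e (r j) k : ℤ) : ℚ)) := by
  classical
  let L : (Fin (N + 1) → ℚ) →ₗ[ℚ] (Fin B.card → ℚ) :=
    LinearMap.funLeft ℚ ℚ (fun b : Fin B.card => e (Sum.inl (Fin.castLE hB b)))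
  refine LinearIndependent.of_comp L ?_
  let v : Fin B.card → ℚ := fun a => ((r (B.equivFin.symm a) : ℕ) : ℚ)
  have hv : Function.Injective v := by
    intro a b hab
    have h0 : ((r (B.equivFin.symm a) : ℕ) : ℚ) = ((r (B.equivFin.symm b) : ℕ) : ℚ) := hab
    have h1 : r (B.equivFin.symm a) = r (B.equivFin.symm b) := by exact_mod_cast h0
    exact B.equivFin.symm.injective (Subtype.ext (hr h1))
  have hdet : (Matrix.vandermonde v).det ≠ 0 := Matrix.det_vandermonde_ne_zero_iff.mpr hv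
  have hli : LinearIndependent ℚ (fun a => Matrix.vandermonde v a) :=
    Matrix.linearIndependent_rows_of_det_ne_zero hdet
  have h2 := hli.comp (fun j : B => B.equivFin j) B.equivFin.injective
  have h3 : (⇑L ∘ fun j : B => fun k => ((lv e (r j) k : ℤ) : ℚ)) =
      ((fun a => Matrix.vandermonde v a) ∘ fun j : B => B.equivFin j) := by
    funext j b
    change ((lv e (r j) (e (Sum.inl (Fin.castLE hB b))) : ℤ) : ℚ) =
      Matrix.vandermonde v (B.equivFin j) b
    rw [lv_inl, Matrix.vandermonde_apply]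
    change _ = ((r (B.equivFin.symm (B.equivFin j)) : ℕ) : ℚ) ^ (b : ℕ)
    rw [Equiv.symm_apply_apply, Int.cast_pow, Int.cast_natCast]
    rfl
  rw [h3]
  exact h2

private theorem map_gens {R S : Type} [CommRing R] [CommRing S] (f : R →+* S) {N : ℕ} {κ : Type}
    (F : κ → MvPolynomial (Fin (N + 1)) R) (l : MvPolynomial (Fin (N + 1)) R)
    (t : (κ ⊕ κ) ⊕ Unit) : MvPolynomial.map f (gens F l t) =
      gens (fun i => MvPolynomial.map f (F i)) (MvPolynomial.map f l) t := by
  rcases t with (i | i) | i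
  · exact map_inx f (F i)
  · exact map_dif f (F i)
  · exact map_inx f l

private theorem map_bihom {R S : Type} [CommRing R] [CommRing S] (f : R →+* S) {N α β : ℕ}
    {G : MvPolynomial (XV N) R} (h : BiHom α β G) : BiHom α β (MvPolynomial.map f G) := by
  intro m hm
  refine h (d := m) fun h0 => hm ?_
  rw [coeff_map, h0, map_zero]

private theorem jspace_finite {k : Type} [Field k] {N : ℕ} {κ : Type}
    (F : κ → MvPolynomial (Fin (N + 1)) k) (l : MvPolynomial (Fin (N + 1)) k) (α β : ℕ) :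
    Module.Finite k (jSpace F l α β) := by
  have := finite_biSpace k N α β
  exact Submodule.finiteDimensional_of_le (inf_le_left : jSpace F l α β ≤ biSpace k N α β)

private theorem map_fa_sc {κ : Type} {n N : ℕ} (e : Fin (n + 1) ⊕ κ ≃ Fin (N + 1))
    (s : κ → ℕ → ℕ) (d : κ → ℕ) (i : κ) :
    MvPolynomial.map (eval (sc ℚ e s d) : MvPolynomial (Ix N d) ℚ →+* ℚ)
      (fa (fun p : Ix N d => (X p : MvPolynomial (Ix N d) ℚ)) i) = spf ℚ e s d i := by
  rw [map_fa, ← fa_sc]
  have h : (fun p : Ix N d => eval (sc ℚ e s d) (X p : MvPolynomial (Ix N d) ℚ)) =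
      sc ℚ e s d := by
    funext p
    exact eval_X p
  rw [h]

private theorem map_lf_cast {R S : Type} [CommRing R] [CommRing S] (f : R →+* S) {N : ℕ}
    (u : Fin (N + 1) → ℤ) : MvPolynomial.map f (lf (fun j => ((u j : ℤ) : R))) =
      lf (fun j => ((u j : ℤ) : S)) := by
  rw [map_lf]
  have h : (fun j => f ((u j : ℤ) : R)) = fun j => ((u j : ℤ) : S) := by
    funext j
    exact map_intCast f (u j)
  rw [h]

private theorem up_le {κ : Type} [Fintype κ] [DecidableEq κ] {n N : ℕ}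
    (e : Fin (n + 1) ⊕ κ ≃ Fin (N + 1)) (s : κ → ℕ → ℕ) (d : κ → ℕ) (r : ℕ) (α β : ℕ) :
    Module.finrank ℚ (jSpace (spf ℚ e s d) (lf (fun j => ((lv e r j : ℤ) : ℚ))) α β) ≤
      Module.finrank (KK N d)
        (jSpace (gK d) (lf (fun j => ((lv e r j : ℤ) : KK N d))) α β) := by
  classical
  have hfin := jspace_finite (spf ℚ e s d) (lf (fun j => ((lv e r j : ℤ) : ℚ))) α β
  have hfinK := jspace_finite (gK d) (lf (fun j => ((lv e r j : ℤ) : KK N d))) α β
  let b := Module.finBasis ℚ (jSpace (spf ℚ e s d) (lf (fun j => ((lv e r j : ℤ) : ℚ))) α β)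
  have hc := fun ρ => bicomp (spf ℚ e s d) (spf_hom ℚ e s d)
    (lf (fun j => ((lv e r j : ℤ) : ℚ))) (lf_hom _) α β (b ρ : MvPolynomial (XV N) ℚ) (b ρ).2
  choose c hc1 hc2 using hc
  let φ : MvPolynomial (Ix N d) ℚ →+* ℚ := eval (sc ℚ e s d)
  let FA : κ → MvPolynomial (Fin (N + 1)) (MvPolynomial (Ix N d) ℚ) :=
    fa (fun p : Ix N d => (X p : MvPolynomial (Ix N d) ℚ))
  let lA : MvPolynomial (Fin (N + 1)) (MvPolynomial (Ix N d) ℚ) :=
    lf (fun j => ((lv e r j : ℤ) : MvPolynomial (Ix N d) ℚ))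
  let w := fun ρ => ∑ t, MvPolynomial.map (C : ℚ →+* MvPolynomial (Ix N d) ℚ) (c ρ t) *
    gens FA lA t
  have hw : ∀ ρ, MvPolynomial.map φ (w ρ) = (b ρ : MvPolynomial (XV N) ℚ) := by
    intro ρ
    change MvPolynomial.map φ (∑ t, MvPolynomial.map (C : ℚ →+* MvPolynomial (Ix N d) ℚ) (c ρ t) *
      gens FA lA t) = _
    rw [← hc1 ρ, map_sum]
    refine Finset.sum_congr rfl fun t _ => ?_
    rw [map_mul, MvPolynomial.map_map, map_gens]
    have h1 : φ.comp (C : ℚ →+* MvPolynomial (Ix N d) ℚ) = RingHom.id ℚ := by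
      refine RingHom.ext fun q => ?_
      exact eval_C q
    have h2 : (fun i => MvPolynomial.map φ (FA i)) = spf ℚ e s d := by
      funext i
      exact map_fa_sc e s d i
    have h3 : MvPolynomial.map φ lA = lf (fun j => ((lv e r j : ℤ) : ℚ)) :=
      map_lf_cast φ (lv e r)
    rw [h1, h2, h3, MvPolynomial.map_id]
  have hli0 : LinearIndependent ℚ (fun ρ => MvPolynomial.map φ (w ρ)) := by
    have h1 : (fun ρ => MvPolynomial.map φ (w ρ)) =
        (fun ρ => (Submodule.subtype _) (b ρ)) := by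
      funext ρ
      exact hw ρ
    rw [h1]
    exact b.linearIndependent.map' _ (Submodule.ker_subtype _)
  have hli := indep_lift φ w hli0
  have hmem : ∀ ρ, MvPolynomial.map (algebraMap (MvPolynomial (Ix N d) ℚ) (KK N d)) (w ρ) ∈
      jSpace (gK d) (lf (fun j => ((lv e r j : ℤ) : KK N d))) α β := by
    intro ρ
    have h1 : MvPolynomial.map (algebraMap (MvPolynomial (Ix N d) ℚ) (KK N d)) (w ρ) =
        ∑ t, MvPolynomial.map (algebraMap (MvPolynomial (Ix N d) ℚ) (KK N d))
          (MvPolynomial.map (C : ℚ →+* MvPolynomial (Ix N d) ℚ) (c ρ t)) *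
            gens (gK d) (lf (fun j => ((lv e r j : ℤ) : KK N d))) t := by
      change MvPolynomial.map _ (∑ t, MvPolynomial.map (C : ℚ →+* MvPolynomial (Ix N d) ℚ) (c ρ t) *
        gens FA lA t) = _
      rw [map_sum]
      refine Finset.sum_congr rfl fun t _ => ?_
      rw [map_mul, map_gens]
      have h2 : (fun i => MvPolynomial.map (algebraMap (MvPolynomial (Ix N d) ℚ) (KK N d))
          (FA i)) = gK d := by
        funext i
        exact map_fa _ _ i
      have h3 : MvPolynomial.map (algebraMap (MvPolynomial (Ix N d) ℚ) (KK N d)) lA =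
          lf (fun j => ((lv e r j : ℤ) : KK N d)) := map_lf_cast _ (lv e r)
      rw [h2, h3]
    rw [mem_jSpace, h1]
    refine ⟨?_, ?_⟩
    · refine (mem_biSpace _).mp (Submodule.sum_mem _ fun t _ => (mem_biSpace _).mpr ?_)
      rcases hc2 ρ t with h0 | ⟨α', β', h2, h3, h4⟩
      · rw [h0, map_zero, map_zero, zero_mul]
        exact (mem_biSpace _).mp (Submodule.zero_mem _)
      · have h5 := (map_bihom (algebraMap (MvPolynomial (Ix N d) ℚ) (KK N d))
          (map_bihom (C : ℚ →+* MvPolynomial (Ix N d) ℚ) h2)).mul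
          (gens_bihom (gK d) (fun i => fa_hom _ i)
            (lf (fun j => ((lv e r j : ℤ) : KK N d))) (lf_hom _) t)
        rw [h3, h4] at h5
        exact h5
    · unfold InJ
      exact Ideal.sum_mem _ fun t _ => Ideal.mul_mem_left _ _ (Ideal.subset_span ⟨t, rfl⟩)
  have hli2 : LinearIndependent (KK N d) (fun ρ =>
      (⟨_, hmem ρ⟩ : jSpace (gK d) (lf (fun j => ((lv e r j : ℤ) : KK N d))) α β)) := by
    refine LinearIndependent.of_comp (Submodule.subtype _) ?_
    exact hli
  have h6 := hli2.fintype_card_le_finrank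
  rwa [Fintype.card_fin] at h6

/-- [CI-C20] Proof.  Let `w_ρ` be a basis of `jSpace (spf ℚ e s d) l α β`, `w = ∑ t, c t * gens t` with the multipliers of `bicomp`; put `w' = ∑ t, (map C (c t)) * gens (fa X) l t` over
`A = MvPolynomial (Ix N d) ℚ`.  The homomorphism `A → ℚ`, `X p ↦ sc ℚ e s d p` maps `w'` to `w` (`map_fa`, `fa_sc`), so the images of the `w'` over the field are independent (`indep_lift`), and they are in
`jSpace (gK d) _ α β` (bihomogeneous term by term: `gens_bihom`).  So `finrank (jSpace over ℚ) ≤ finrank (jSpace over the field)`; `up_finrank` for `ℚ`, `finrank_biSpace` (the dimension of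
`biSpace` does not depend on the field). -/
theorem up_K {κ : Type} [Fintype κ] [DecidableEq κ] {n N : ℕ} (hn : 1 ≤ n)
    (e : Fin (n + 1) ⊕ κ ≃ Fin (N + 1)) (s : κ → ℕ → ℕ) (hs : Codes s)
    (d : κ → ℕ) (hd : ∀ i, 2 ≤ d i) (r : ℕ) (hr : ∀ i t, s i t ≠ r) (α β : ℕ)
    (hα : 1 + 2 * ∑ i, d i ≤ α) (hβ : 4 * n ≤ β) :
    Module.finrank (KK N d) (biSpace (KK N d) N α β) ≤
      Module.finrank (KK N d)
        (jSpace (gK d) (lf (fun j => ((lv e r j : ℤ) : KK N d))) α β) + kap1 n d α β := by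
  have h1 := up_finrank ℚ hn e s hs d hd r hr α β hα hβ
  rw [← lf_lv ℚ e r] at h1
  have h2 := up_le e s d r α β
  rw [finrank_biSpace] at h1 ⊢
  omega

end Pool.Agent.CI
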